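import Pool.Agent.N964.C7
import Pool.Agent.H332R2.FL.ZeroExists
import Pool.Agent.W190.Q306.A2

/-! The supremum of the real parts of the zeros of `ζ`. -/

set_option autoImplicit false

open Finset Filter Topology

namespace Pool.Agent.N964

noncomputable section

/-- the supremum of the real parts of the zeros of `ζ` -/
def Th : ℝ := sSup {x : ℝ | ∃ s : ℂ, riemannZeta s = 0 ∧ s.re = x}

lemma re_lt_one {s : ℂ} (hs : riemannZeta s = 0) : s.re < 1 := by
  by_contra h
  exact riemannZeta_ne_zero_of_one_le_re (not_lt.1 h) hs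

lemma bdd_re : BddAbove {x : ℝ | ∃ s : ℂ, riemannZeta s = 0 ∧ s.re = x} := by
  refine ⟨1, ?_⟩
  rintro x ⟨s, hs, rfl⟩
  exact (re_lt_one hs).le

lemma re_le_Th {s : ℂ} (hs : riemannZeta s = 0) : s.re ≤ Th := le_csSup bdd_re ⟨s, hs, rfl⟩

lemma half_le_Th : 1 / 2 ≤ Th := by
  obtain ⟨ρ, h1, h2, -, -, -⟩ := H332.FL.exists_zero_re_ge_half 1
  exact h2.trans (re_le_Th h1)

lemma Th_le_one : Th ≤ 1 := by
  refine csSup_le ?_ ?_
  · obtain ⟨ρ, h1, h2, -, -, -⟩ := H332.FL.exists_zero_re_ge_half 1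
    exact ⟨ρ.re, ρ, h1, rfl⟩
  · rintro x ⟨s, hs, rfl⟩
    exact (re_lt_one hs).le

lemma exists_of_lt {c : ℝ} (h : c < Th) : ∃ ρ : ℂ, riemannZeta ρ = 0 ∧ c < ρ.re := by
  obtain ⟨ρ', h1', -, -, -, -⟩ := H332.FL.exists_zero_re_ge_half 1
  obtain ⟨x, ⟨s, hs, rfl⟩, hx⟩ := exists_lt_of_lt_csSup (s := {x : ℝ | ∃ s : ℂ, riemannZeta s = 0 ∧ s.re = x})
    ⟨ρ'.re, ρ', h1', rfl⟩ h
  exact ⟨s, hs, hx⟩

theorem rh_free : RiemannHypothesis ↔ ∀ s : ℂ, 1 / 2 < s.re → riemannZeta s ≠ 0 := by
  constructor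
  · intro hRH s hs h0
    have h1 : s.re < 1 := re_lt_one h0
    have := hRH s h0 (by
      rintro ⟨n, hn⟩
      rw [hn] at hs
      have h2 : (-2 * ((n:ℂ) + 1)).re = -2 * ((n:ℝ) + 1) := by simp
      rw [h2] at hs
      have : (0:ℝ) ≤ n := Nat.cast_nonneg n
      linarith) (by
      rintro rfl
      norm_num at h1)
    linarith
  · intro hfree s hs htriv hs1
    have hle : s.re ≤ 1 / 2 := by
      by_contra h
      exact hfree s (not_le.1 h) hs
    have hre0 : 0 < s.re := by
      by_contra h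
      push Not at h
      have hs0 : s ≠ 0 := by
        rintro rfl
        rw [riemannZeta_zero] at hs
        norm_num at hs
      have h1 : ∀ n : ℕ, (1 - s) ≠ -n := by
        intro n hn
        have h2 := congrArg Complex.re hn
        simp at h2
        have : (0:ℝ) ≤ n := Nat.cast_nonneg n
        linarith
      have h2 : (1 - s) ≠ 1 := by
        intro h3
        apply hs0
        linear_combination -h3
      have h3 := riemannZeta_one_sub h1 h2
      rw [sub_sub_cancel, hs] at h3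
      have hz : riemannZeta (1 - s) ≠ 0 := riemannZeta_ne_zero_of_one_le_re (by simp; linarith)
      have hG : Complex.Gamma (1 - s) ≠ 0 := Complex.Gamma_ne_zero h1
      have hp : (2 * (Real.pi : ℂ)) ^ (-(1 - s)) ≠ 0 := by
        rw [Complex.cpow_def_of_ne_zero]
        · exact Complex.exp_ne_zero _
        · norm_num [Real.pi_ne_zero]
      have hc : Complex.cos (Real.pi * (1 - s) / 2) = 0 := by
        by_contra hc
        exact absurd h3.symm (mul_ne_zero (mul_ne_zero (mul_ne_zero (mul_ne_zero two_ne_zero hp) hG) hc) hz)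
      rw [Complex.cos_eq_zero_iff] at hc
      obtain ⟨k, hk⟩ := hc
      have hpi : (Real.pi : ℂ) ≠ 0 := by exact_mod_cast Real.pi_ne_zero
      have hs2 : s = -2 * (k : ℂ) := by
        field_simp at hk
        linear_combination (-1 : ℂ) * hk
      have hkpos : 0 < k := by
        have h4 := congrArg Complex.re hs2
        simp at h4
        have h5 : (0:ℝ) < k := by
          have h6 : s.re ≠ 0 := by
            intro h7
            rw [h7] at h4
            have h8 : (k:ℝ) = 0 := by linarith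
            apply hs0
            have h9 : (k:ℤ) = 0 := by exact_mod_cast h8
            rw [hs2, h9]
            simp
          have h10 : s.re < 0 := lt_of_le_of_ne h h6
          linarith
        exact_mod_cast h5
      apply htriv
      refine ⟨(k - 1).toNat, ?_⟩
      have h6 : (((k - 1).toNat : ℕ) : ℂ) = (k : ℂ) - 1 := by
        have : (((k - 1).toNat : ℤ)) = k - 1 := Int.toNat_of_nonneg (by omega)
        have h7 : (((k - 1).toNat : ℤ) : ℂ) = ((k - 1 : ℤ) : ℂ) := by rw [this]
        push_cast at h7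
        exact_mod_cast h7
      rw [h6, hs2]
      ring
    -- reflection
    by_contra hne
    have hlt : s.re < 1 / 2 := lt_of_le_of_ne hle hne
    have h1 : ∀ n : ℕ, s ≠ -n := by
      intro n hn
      have h2 := congrArg Complex.re hn
      simp at h2
      have : (0:ℝ) ≤ n := Nat.cast_nonneg n
      linarith
    have key := riemannZeta_one_sub h1 hs1
    rw [hs, mul_zero] at key
    exact hfree (1 - s) (by simp; linarith) key

theorem rh_iff_Th : RiemannHypothesis ↔ Th = 1 / 2 := by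
  rw [rh_free]
  constructor
  · intro h
    refine le_antisymm ?_ half_le_Th
    by_contra hlt
    obtain ⟨ρ, h1, h2⟩ := exists_of_lt (not_le.1 hlt)
    exact h ρ h2 h1
  · intro h s hs h0
    have := re_le_Th h0
    linarith

theorem half_lt_Th (h : ¬ RiemannHypothesis) : 1 / 2 < Th := by
  rw [rh_iff_Th] at h
  exact lt_of_le_of_ne half_le_Th (Ne.symm h)

theorem psi_of_Th {σ : ℝ} (hσ : Th < σ) (h1 : σ ≤ 1) : ∃ C : ℝ, 0 < C ∧ ∀ y : ℝ, 1 ≤ y →
      |Chebyshev.psi y - y| ≤ C * y ^ σ := by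
  refine Pool.Agent.W190.Q306.psi_bound (θ := Th) (by have := half_le_Th; linarith) (fun s hs => ?_) hσ h1
  by_cases h : s = 1
  · rw [h]
    unfold Pool.Agent.H295R2.Zs
    simp
  · rw [← Pool.Agent.H295R2.Zs_eq h]
    refine mul_ne_zero (sub_ne_zero.2 h) fun h0 => ?_
    have := re_le_Th h0
    linarith

theorem EE_of_Th {a : ℝ} (ha : a < 1 - Th) (ha0 : 0 ≤ a) : ∃ C : ℝ, 0 < C ∧ ∀ v : ℝ, 0 ≤ v →
    |EE v| ≤ C * Real.exp (-a * v) := by
  obtain ⟨C, hC, h⟩ := psi_of_Th (σ := 1 - a) (by linarith) (by linarith)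
  obtain ⟨C0, hC0⟩ := Chebyshev.psi_sub_theta_le_mul_sqrt
  refine ⟨C + |C0|, by positivity, fun v hv => ?_⟩
  have hy : 1 ≤ Real.exp v := Real.one_le_exp hv
  have h1 := h _ hy
  have h2 := hC0 (Real.exp v)
  have h3 := Chebyshev.theta_le_psi (Real.exp v)
  have h4 : √(Real.exp v) ≤ Real.exp v ^ (1 - a) := by
    rw [Real.sqrt_eq_rpow]
    refine Real.rpow_le_rpow_of_exponent_le hy ?_
    have := half_le_Th
    linarith
  have h5 : C0 * √(Real.exp v) ≤ |C0| * Real.exp v ^ (1 - a) := by
    calc C0 * √(Real.exp v) ≤ |C0| * √(Real.exp v) := mul_le_mul_of_nonneg_right (le_abs_self _) (Real.sqrt_nonneg _)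
      _ ≤ _ := by gcongr
  have h6 : |Chebyshev.theta (Real.exp v) - Real.exp v| ≤ (C + |C0|) * Real.exp v ^ (1 - a) := by
    have e1 : Chebyshev.theta (Real.exp v) - Real.exp v = (Chebyshev.psi (Real.exp v) - Real.exp v) -
      (Chebyshev.psi (Real.exp v) - Chebyshev.theta (Real.exp v)) := by ring
    rw [e1]
    refine (abs_sub _ _).trans ?_
    rw [abs_of_nonneg (show 0 ≤ Chebyshev.psi (Real.exp v) - Chebyshev.theta (Real.exp v) by linarith)]
    linarith
  have h7 : EE v = (Chebyshev.theta (Real.exp v) - Real.exp v) * Real.exp (-v) := by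
    unfold EE
    rw [sub_mul, ← Real.exp_add, add_neg_cancel, Real.exp_zero]
  rw [h7, abs_mul, abs_of_pos (Real.exp_pos (-v))]
  calc |Chebyshev.theta (Real.exp v) - Real.exp v| * Real.exp (-v)
      ≤ (C + |C0|) * Real.exp v ^ (1 - a) * Real.exp (-v) := by gcongr
    _ = (C + |C0|) * Real.exp (-a * v) := by
        rw [← Real.exp_mul, mul_assoc, ← Real.exp_add]
        congr 2; ring

end

end Pool.Agent.N964
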