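import Mathlib

/-! Elementary facts on `g t = -log (1 - 1/t)` and the deficiency of an integer. -/

set_option autoImplicit false

open Finset

namespace Pool.Agent.N964

noncomputable section

/-- `-log (1 - 1/t)` -/
def gg (t : ℝ) : ℝ := -Real.log (1 - 1 / t)

lemma one_sub_pos {t : ℝ} (ht : 1 < t) : 0 < 1 - 1 / t := by
  have h0 : 0 < t := by linarith
  rw [sub_pos, div_lt_one h0]; exact ht

/-- lower bound for the difference -/
lemma gg_sub_ge {a b : ℝ} (ha : 1 < a) (hab : a ≤ b) : 1 / a - 1 / b ≤ gg a - gg b := by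
  have ha0 := one_sub_pos ha
  have hb : 1 < b := lt_of_lt_of_le ha hab
  have hb0 := one_sub_pos hb
  have hx : gg a - gg b = Real.log ((1 - 1 / b) / (1 - 1 / a)) := by
    rw [Real.log_div hb0.ne' ha0.ne']; unfold gg; ring
  have h1 := Real.one_sub_inv_le_log_of_pos (div_pos hb0 ha0)
  rw [inv_div] at h1
  rw [hx]
  refine le_trans ?_ h1
  have h2 : 1 - (1 - 1 / a) / (1 - 1 / b) = (1 / a - 1 / b) / (1 - 1 / b) := by
    rw [eq_div_iff hb0.ne', sub_mul, div_mul_cancel₀ _ hb0.ne']; ring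
  rw [h2, le_div_iff₀ hb0]
  have h3 : 1 / b ≤ 1 / a := one_div_le_one_div_of_le (by linarith) hab
  have h4 : 0 < 1 / b := by positivity
  nlinarith

/-- upper bound for the difference -/
lemma gg_sub_le {a b : ℝ} (ha : 1 < a) (hab : a ≤ b) : gg a - gg b ≤ (1 / a - 1 / b) / (1 - 1 / a) := by
  have ha0 := one_sub_pos ha
  have hb : 1 < b := lt_of_lt_of_le ha hab
  have hb0 := one_sub_pos hb
  have hx : gg a - gg b = Real.log ((1 - 1 / b) / (1 - 1 / a)) := by
    rw [Real.log_div hb0.ne' ha0.ne']; unfold gg; ring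
  have h1 := Real.log_le_sub_one_of_pos (div_pos hb0 ha0)
  rw [hx]
  refine h1.trans (le_of_eq ?_)
  rw [eq_div_iff ha0.ne', sub_mul, div_mul_cancel₀ _ ha0.ne']; ring

lemma gg_anti {a b : ℝ} (ha : 1 < a) (hab : a ≤ b) : gg b ≤ gg a := by
  have h := gg_sub_ge ha hab
  have h3 : 1 / b ≤ 1 / a := one_div_le_one_div_of_le (by linarith) hab
  linarith

lemma gg_ge {a : ℝ} (ha : 1 < a) : 1 / a ≤ gg a := by
  have h1 := Real.log_le_sub_one_of_pos (one_sub_pos ha)
  unfold gg; linarith

lemma gg_pos {a : ℝ} (ha : 1 < a) : 0 < gg a :=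
  lt_of_lt_of_le (by positivity) (gg_ge ha)

lemma gg_le {a : ℝ} (ha : 1 < a) : gg a ≤ 1 / (a - 1) := by
  have h0 := one_sub_pos ha
  have h1 := Real.one_sub_inv_le_log_of_pos h0
  unfold gg
  have h2 : (1 - 1 / a)⁻¹ = 1 + 1 / (a - 1) := by
    have : a - 1 ≠ 0 := by linarith
    field_simp; ring
  rw [h2] at h1
  linarith

/-- the parameter `ε_x` -/
def ep (x : ℝ) : ℝ := gg x / Real.log x

lemma ep_ge {x : ℝ} (hx : 1 < x) : 1 / (x * Real.log x) ≤ ep x := by
  have hl : 0 < Real.log x := Real.log_pos hx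
  unfold ep
  rw [← div_div]
  exact div_le_div_of_nonneg_right (gg_ge hx) hl.le

lemma ep_pos {x : ℝ} (hx : 1 < x) : 0 < ep x := div_pos (gg_pos hx) (Real.log_pos hx)

/-- the weights `h_p = g p - ε log p` -/
def hh (x p : ℝ) : ℝ := gg p - ep x * Real.log p

lemma hh_self {x : ℝ} (hx : 1 < x) : hh x x = 0 := by
  have hl : 0 < Real.log x := Real.log_pos hx
  unfold hh ep
  field_simp
  ring

lemma hh_ge {x p : ℝ} (hp : 1 < p) (hpx : p ≤ x) : 1 / p - 1 / x ≤ hh x p := by
  have hx : 1 < x := lt_of_lt_of_le hp hpx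
  have hl : 0 < Real.log x := Real.log_pos hx
  have h1 : ep x * Real.log p ≤ gg x := by
    unfold ep
    rw [div_mul_eq_mul_div, div_le_iff₀ hl]
    exact mul_le_mul_of_nonneg_left (Real.log_le_log (by linarith) hpx) (gg_pos hx).le
  have h2 := gg_sub_ge hp hpx
  unfold hh; linarith

lemma hh_nonneg {x p : ℝ} (hp : 1 < p) (hpx : p ≤ x) : 0 ≤ hh x p := by
  have h := hh_ge hp hpx
  have h3 : 1 / x ≤ 1 / p := one_div_le_one_div_of_le (by linarith) hpx
  linarith

lemma hh_le {x p : ℝ} (hx : 1 < x) (hxp : x ≤ p) :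
    hh x p ≤ -(Real.log p / Real.log x * (1 / x - 1 / p)) := by
  have hp : 1 < p := lt_of_lt_of_le hx hxp
  have hl : 0 < Real.log x := Real.log_pos hx
  have hlp : Real.log x ≤ Real.log p := Real.log_le_log (by linarith) hxp
  have h1 : gg p ≤ Real.log p / Real.log x * gg p := by
    have : 1 ≤ Real.log p / Real.log x := by rw [le_div_iff₀ hl]; linarith
    nlinarith [gg_pos hp]
  have h2 := gg_sub_ge hx hxp
  have h3 : 0 ≤ Real.log p / Real.log x := div_nonneg (hl.le.trans hlp) hl.le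
  have h4 : ep x * Real.log p = Real.log p / Real.log x * gg x := by
    unfold ep; field_simp
  unfold hh
  rw [h4]
  nlinarith [mul_le_mul_of_nonneg_left h2 h3]

lemma hh_nonpos {x p : ℝ} (hx : 1 < x) (hxp : x ≤ p) : hh x p ≤ 0 := by
  refine (hh_le hx hxp).trans ?_
  have hp : 1 < p := lt_of_lt_of_le hx hxp
  have h3 : 1 / p ≤ 1 / x := one_div_le_one_div_of_le (by linarith) hxp
  have : 0 ≤ Real.log p / Real.log x * (1 / x - 1 / p) :=
    mul_nonneg (div_nonneg (Real.log_nonneg hp.le) (Real.log_nonneg hx.le)) (by linarith)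
  linarith

/-- cost of the primes below `(1 - u) x` -/
lemma hh_low {x p u : ℝ} (hx : 1 < x) (hu : 0 < u) (hp : 1 < p) (hpx : p ≤ (1 - u) * x) :
    u * Real.log p / (x * Real.log x) ≤ hh x p := by
  have hl : 0 < Real.log x := Real.log_pos hx
  have hpx' : p ≤ x := by nlinarith
  refine le_trans ?_ (hh_ge hp hpx')
  have h1 : u * Real.log p / (x * Real.log x) ≤ u / x := by
    rw [div_le_div_iff₀ (by positivity) (by positivity)]
    have := Real.log_le_log (by linarith) hpx'
    have hx0 : 0 < x := by linarith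
    nlinarith [mul_le_mul_of_nonneg_left this (mul_nonneg hu.le hx0.le)]
  refine h1.trans ?_
  have hp0 : 0 < p := by linarith
  have hx0 : 0 < x := by linarith
  rw [div_sub_div _ _ hp0.ne' hx0.ne', div_le_div_iff₀ hx0 (by positivity)]
  have : p * u ≤ x - p := by nlinarith
  nlinarith

/-- cost of the primes above `(1 + u) x` -/
lemma hh_high {x p u : ℝ} (hx : 1 < x) (hu : 0 < u) (hu1 : u ≤ 1) (hpx : (1 + u) * x ≤ p) :
    u * Real.log p / (2 * (x * Real.log x)) ≤ -hh x p := by
  have hl : 0 < Real.log x := Real.log_pos hx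
  have hx0 : 0 < x := by linarith
  have hxp : x ≤ p := by nlinarith
  have hp0 : 0 < p := by linarith
  have hp1 : 1 < p := by linarith
  have h := hh_le hx hxp
  have h1 : u / (2 * x) ≤ 1 / x - 1 / p := by
    rw [div_sub_div _ _ hx0.ne' hp0.ne', div_le_div_iff₀ (by positivity) (by positivity)]
    have : u * p ≤ 2 * (p - x) := by nlinarith
    nlinarith
  have h3 : 0 ≤ Real.log p / Real.log x := div_nonneg (Real.log_nonneg hp1.le) hl.le
  have h4 := mul_le_mul_of_nonneg_left h1 h3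
  have h5 : Real.log p / Real.log x * (u / (2 * x)) = u * Real.log p / (2 * (x * Real.log x)) := by
    field_simp
  rw [h5] at h4
  linarith

end

end Pool.Agent.N964
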