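import Pool.Agent.N964.A1

/-! The identity for `log (n / φ n)` and the count of integers with a small deficiency. -/

set_option autoImplicit false

open Finset

namespace Pool.Agent.N964

noncomputable section

/-- primes up to `x` -/
def Pr (x : ℕ) : Finset ℕ := (Finset.Ioc 0 x).filter Nat.Prime

lemma mem_Pr {x p : ℕ} : p ∈ Pr x ↔ p.Prime ∧ p ≤ x := by
  unfold Pr
  simp only [Finset.mem_filter, Finset.mem_Ioc]
  constructor
  · rintro ⟨⟨_, h⟩, hp⟩; exact ⟨hp, h⟩
  · rintro ⟨hp, h⟩; exact ⟨⟨hp.pos, h⟩, hp⟩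

/-- `∑_{p ≤ x} -log (1 - 1/p)` -/
def LL (x : ℕ) : ℝ := ∑ p ∈ Pr x, gg p

/-- the Chebyshev function at an integer -/
def th (x : ℕ) : ℝ := ∑ p ∈ Pr x, Real.log p

/-- the radical -/
def rd (n : ℕ) : ℕ := ∏ p ∈ n.primeFactors, p

lemma rd_dvd (n : ℕ) : rd n ∣ n := Nat.prod_primeFactors_dvd n

lemma rd_pos (n : ℕ) : 0 < rd n := Finset.prod_pos fun p hp => (Nat.prime_of_mem_primeFactors hp).pos

lemma rd_mul (n : ℕ) : rd n * (n / rd n) = n := Nat.mul_div_cancel' (rd_dvd n)

lemma log_rd (n : ℕ) : Real.log (rd n) = ∑ p ∈ n.primeFactors, Real.log p := by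
  unfold rd
  rw [Nat.cast_prod, Real.log_prod fun p hp => ?_]
  exact_mod_cast (Nat.prime_of_mem_primeFactors hp).ne_zero

lemma quot_pos {n : ℕ} (hn : n ≠ 0) : 0 < n / rd n := by
  refine Nat.div_pos (Nat.le_of_dvd (Nat.pos_of_ne_zero hn) (rd_dvd n)) (rd_pos n)

/-- the deficiency of `n` relative to `x` -/
def DD (x n : ℕ) : ℝ := ∑ p ∈ (Pr x).filter (fun p => ¬ p ∣ n), hh x p +
  ∑ p ∈ n.primeFactors.filter (fun p => x < p), (-hh x p) + ep x * Real.log ((n / rd n : ℕ) : ℝ)

lemma log_ratio {n : ℕ} (hn : n ≠ 0) :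
    Real.log ((n : ℝ) / (Nat.totient n : ℝ)) = ∑ p ∈ n.primeFactors, gg p := by
  have h1 : ((Nat.totient n : ℕ) : ℝ) = n * ∏ p ∈ n.primeFactors, (1 - (p : ℝ)⁻¹) := by
    have := Nat.totient_eq_mul_prod_factors n
    have h2 := congrArg (fun q : ℚ => (q : ℝ)) this
    push_cast at h2
    exact h2
  have hn0 : (n : ℝ) ≠ 0 := Nat.cast_ne_zero.2 hn
  have hf : ∀ p ∈ n.primeFactors, (1 - (p : ℝ)⁻¹) ≠ 0 := by
    intro p hp
    have h2 : (1 : ℝ) < p := by exact_mod_cast (Nat.prime_of_mem_primeFactors hp).one_lt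
    have := one_sub_pos h2
    rw [one_div] at this
    exact this.ne'
  have hprod : ∏ p ∈ n.primeFactors, (1 - (p : ℝ)⁻¹) ≠ 0 := Finset.prod_ne_zero_iff.2 hf
  rw [h1, Real.log_div hn0 (mul_ne_zero hn0 hprod), Real.log_mul hn0 hprod, Real.log_prod hf]
  simp only [gg, one_div, Finset.sum_neg_distrib]
  ring

theorem ratio_eq {x n : ℕ} (_hx : 2 ≤ x) (hn : n ≠ 0) :
    Real.log ((n : ℝ) / (Nat.totient n : ℝ)) = LL x + ep x * (Real.log n - th x) - DD x n := by
  rw [log_ratio hn]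
  have e1 : ∀ p : ℕ, gg p = hh x p + ep x * Real.log p := fun p => by unfold hh; ring
  have e2 : ∑ p ∈ n.primeFactors, gg p = ∑ p ∈ n.primeFactors, hh x p + ep x * Real.log (rd n) := by
    rw [log_rd, Finset.mul_sum, ← Finset.sum_add_distrib]
    exact Finset.sum_congr rfl fun p _ => e1 p
  have e3 : LL x = ∑ p ∈ Pr x, hh x p + ep x * th x := by
    unfold LL th
    rw [Finset.mul_sum, ← Finset.sum_add_distrib]
    exact Finset.sum_congr rfl fun p _ => e1 p
  have e4 : ∑ p ∈ n.primeFactors, hh x p = ∑ p ∈ n.primeFactors.filter (fun p => x < p), hh x p +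
      ∑ p ∈ n.primeFactors.filter (fun p => ¬ x < p), hh x p :=
    (Finset.sum_filter_add_sum_filter_not _ _ _).symm
  have e5 : n.primeFactors.filter (fun p => ¬ x < p) = (Pr x).filter (fun p => p ∣ n) := by
    ext p
    simp only [Finset.mem_filter, mem_Pr, Nat.mem_primeFactors, not_lt]
    tauto
  have e6 : ∑ p ∈ Pr x, hh x p = ∑ p ∈ (Pr x).filter (fun p => p ∣ n), hh x p +
      ∑ p ∈ (Pr x).filter (fun p => ¬ p ∣ n), hh x p :=
    (Finset.sum_filter_add_sum_filter_not _ _ _).symm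
  have e7 : Real.log n = Real.log (rd n) + Real.log ((n / rd n : ℕ) : ℝ) := by
    have h1 : (rd n : ℝ) ≠ 0 := by exact_mod_cast (rd_pos n).ne'
    have h2 : ((n / rd n : ℕ) : ℝ) ≠ 0 := by exact_mod_cast (quot_pos hn).ne'
    rw [← Real.log_mul h1 h2, ← Nat.cast_mul, rd_mul]
  rw [e2, e3, e4, e5, e6, e7]
  unfold DD
  rw [Finset.sum_neg_distrib]
  ring

/-- the product of the primes up to `a` that do not divide `n` -/
def QA (a n : ℕ) : ℕ := ∏ p ∈ (Pr a).filter (fun p => ¬ p ∣ n), p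

/-- the product of the prime factors of `n` above `b` -/
def QB (b n : ℕ) : ℕ := ∏ p ∈ n.primeFactors.filter (fun p => b < p), p

lemma QA_pf (a n : ℕ) : (QA a n).primeFactors = (Pr a).filter (fun p => ¬ p ∣ n) :=
  Nat.primeFactors_prod fun p hp => (mem_Pr.1 (Finset.mem_filter.1 hp).1).1

lemma QB_pf (b n : ℕ) : (QB b n).primeFactors = n.primeFactors.filter (fun p => b < p) :=
  Nat.primeFactors_prod fun p hp => Nat.prime_of_mem_primeFactors (Finset.mem_filter.1 hp).1

lemma QA_pos (a n : ℕ) : 0 < QA a n :=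
  Finset.prod_pos fun p hp => (mem_Pr.1 (Finset.mem_filter.1 hp).1).1.pos

lemma QB_pos (b n : ℕ) : 0 < QB b n :=
  Finset.prod_pos fun p hp => (Nat.prime_of_mem_primeFactors (Finset.mem_filter.1 hp).1).pos

lemma log_QA (a n : ℕ) : Real.log (QA a n) = ∑ p ∈ (Pr a).filter (fun p => ¬ p ∣ n), Real.log p := by
  unfold QA
  rw [Nat.cast_prod, Real.log_prod fun p hp => ?_]
  exact_mod_cast (mem_Pr.1 (Finset.mem_filter.1 hp).1).1.ne_zero

lemma log_QB (b n : ℕ) : Real.log (QB b n) =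
    ∑ p ∈ n.primeFactors.filter (fun p => b < p), Real.log p := by
  unfold QB
  rw [Nat.cast_prod, Real.log_prod fun p hp => ?_]
  exact_mod_cast (Nat.prime_of_mem_primeFactors (Finset.mem_filter.1 hp).1).ne_zero

/-- the integer is determined by four pieces of data -/
lemma recover {a b n m : ℕ} (_hab : a ≤ b) (hn : n ≠ 0) (hm : m ≠ 0) (h1 : QA a n = QA a m)
    (h2 : n.primeFactors ∩ Finset.Ioc a b = m.primeFactors ∩ Finset.Ioc a b)
    (h3 : QB b n = QB b m) (h4 : n / rd n = m / rd m) : n = m := by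
  have k1 : (Pr a).filter (fun p => ¬ p ∣ n) = (Pr a).filter (fun p => ¬ p ∣ m) := by
    rw [← QA_pf, ← QA_pf, h1]
  have k3 : n.primeFactors.filter (fun p => b < p) = m.primeFactors.filter (fun p => b < p) := by
    rw [← QB_pf, ← QB_pf, h3]
  have k : n.primeFactors = m.primeFactors := by
    ext p
    by_cases hp : p.Prime
    · rcases lt_or_ge b p with hb | hb
      · have := Finset.ext_iff.1 k3 p
        simpa [hb] using this
      · rcases lt_or_ge a p with ha | ha
        · have := Finset.ext_iff.1 h2 p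
          simpa [ha, hb] using this
        · have := Finset.ext_iff.1 k1 p
          simp only [Finset.mem_filter, mem_Pr, hp, ha, true_and] at this
          simp only [Nat.mem_primeFactors, hp, hn, hm, true_and, ne_eq, not_false_eq_true, and_true]
          tauto
    · simp [hp]
  have hr : rd n = rd m := by unfold rd; rw [k]
  rw [← rd_mul n, ← rd_mul m, h4, hr]

lemma le_floor_exp {N : ℕ} {B : ℝ} (hN : 0 < N) (h : Real.log N ≤ B) : N ∈ Finset.Icc 1 ⌊Real.exp B⌋₊ := by
  rw [Finset.mem_Icc]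
  refine ⟨hN, Nat.le_floor ?_⟩
  rw [← Real.exp_log (by exact_mod_cast hN : (0 : ℝ) < N)]
  exact Real.exp_le_exp.2 h

section
variable {x n : ℕ} (hx : 2 ≤ x)
include hx

lemma x_one : (1 : ℝ) < x := by exact_mod_cast (by omega : 1 < x)

lemma part_A : 0 ≤ ∑ p ∈ (Pr x).filter (fun p => ¬ p ∣ n), hh x p :=
  Finset.sum_nonneg fun p hp => by
    have h := mem_Pr.1 (Finset.mem_filter.1 hp).1
    exact hh_nonneg (by exact_mod_cast h.1.one_lt) (by exact_mod_cast h.2)

lemma part_B : 0 ≤ ∑ p ∈ n.primeFactors.filter (fun p => x < p), (-hh x p) :=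
  Finset.sum_nonneg fun p hp => by
    have h := (Finset.mem_filter.1 hp).2
    have := hh_nonpos (x_one hx) (by exact_mod_cast h.le : (x : ℝ) ≤ p)
    linarith

lemma part_C (hn : n ≠ 0) : 0 ≤ ep x * Real.log ((n / rd n : ℕ) : ℝ) := by
  refine mul_nonneg (ep_pos (x_one hx)).le (Real.log_nonneg ?_)
  exact_mod_cast quot_pos hn

lemma DD_nonneg (hn : n ≠ 0) : 0 ≤ DD x n := by
  have h1 := part_A (n := n) hx
  have h2 := part_B (n := n) hx
  have h3 := part_C hx hn
  unfold DD; linarith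

lemma log_QA_le {a : ℕ} {u : ℝ} (hu : 0 < u) (ha : (a : ℝ) ≤ (1 - u) * x) (hn : n ≠ 0) :
    Real.log (QA a n) ≤ DD x n * (x * Real.log x) / u := by
  have hx1 := x_one hx
  have hl : 0 < Real.log x := Real.log_pos hx1
  have h1 := part_B (n := n) hx
  have h2 := part_C hx hn
  have hax : a ≤ x := by
    have : (a : ℝ) ≤ x := by nlinarith
    exact_mod_cast this
  have h3 : ∑ p ∈ (Pr a).filter (fun p => ¬ p ∣ n), u * Real.log p / (x * Real.log x) ≤
      ∑ p ∈ (Pr x).filter (fun p => ¬ p ∣ n), hh x p := by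
    refine le_trans (Finset.sum_le_sum fun p hp => ?_) (Finset.sum_le_sum_of_subset_of_nonneg
      (f := fun p : ℕ => hh x p) (s := (Pr a).filter (fun p => ¬ p ∣ n)) ?_ fun p hp _ => ?_)
    · have h := mem_Pr.1 (Finset.mem_filter.1 hp).1
      refine hh_low hx1 hu (by exact_mod_cast h.1.one_lt) (le_trans ?_ ha)
      exact_mod_cast h.2
    · intro p hp
      rw [Finset.mem_filter, mem_Pr] at hp ⊢
      exact ⟨⟨hp.1.1, hp.1.2.trans hax⟩, hp.2⟩
    · have h := mem_Pr.1 (Finset.mem_filter.1 hp).1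
      exact hh_nonneg (by exact_mod_cast h.1.one_lt) (by exact_mod_cast h.2)
  have h4 : ∑ p ∈ (Pr a).filter (fun p => ¬ p ∣ n), u * Real.log p / (x * Real.log x) =
      u / (x * Real.log x) * Real.log (QA a n) := by
    rw [log_QA, Finset.mul_sum]
    exact Finset.sum_congr rfl fun p _ => by ring
  have h5 : u / (x * Real.log x) * Real.log (QA a n) ≤ DD x n := by
    rw [← h4]; unfold DD; linarith
  rw [le_div_iff₀ hu]
  rw [div_mul_eq_mul_div, div_le_iff₀ (by positivity)] at h5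
  linarith

lemma log_QB_le {b : ℕ} {u : ℝ} (hu : 0 < u) (hu1 : u ≤ 1) (hb : (1 + u) * x ≤ b + 1) (hn : n ≠ 0) :
    Real.log (QB b n) ≤ 2 * DD x n * (x * Real.log x) / u := by
  have hx1 := x_one hx
  have hl : 0 < Real.log x := Real.log_pos hx1
  have h1 := part_A (n := n) hx
  have h2 := part_C hx hn
  have hbx : x ≤ b := by
    have : (x : ℝ) < b + 1 := by nlinarith
    have : x < b + 1 := by exact_mod_cast this
    omega
  have h3 : ∑ p ∈ n.primeFactors.filter (fun p => b < p), u * Real.log p / (2 * (x * Real.log x)) ≤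
      ∑ p ∈ n.primeFactors.filter (fun p => x < p), (-hh x p) := by
    refine le_trans (Finset.sum_le_sum fun p hp => ?_) (Finset.sum_le_sum_of_subset_of_nonneg
      (f := fun p : ℕ => -hh x p) (s := n.primeFactors.filter (fun p => b < p)) ?_ fun p hp _ => ?_)
    · have h := (Finset.mem_filter.1 hp).2
      refine hh_high hx1 hu hu1 (hb.trans ?_)
      exact_mod_cast h
    · intro p hp
      rw [Finset.mem_filter] at hp ⊢
      exact ⟨hp.1, by omega⟩
    · have h := (Finset.mem_filter.1 hp).2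
      have := hh_nonpos hx1 (by exact_mod_cast h.le : (x : ℝ) ≤ p)
      linarith
  have h4 : ∑ p ∈ n.primeFactors.filter (fun p => b < p), u * Real.log p / (2 * (x * Real.log x)) =
      u / (2 * (x * Real.log x)) * Real.log (QB b n) := by
    rw [log_QB, Finset.mul_sum]
    exact Finset.sum_congr rfl fun p _ => by ring
  have h5 : u / (2 * (x * Real.log x)) * Real.log (QB b n) ≤ DD x n := by
    rw [← h4]; unfold DD; linarith
  rw [le_div_iff₀ hu]
  rw [div_mul_eq_mul_div, div_le_iff₀ (by positivity)] at h5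
  linarith

lemma log_quot_le (hn : n ≠ 0) :
    Real.log ((n / rd n : ℕ) : ℝ) ≤ DD x n * (x * Real.log x) := by
  have hx1 := x_one hx
  have hl : 0 < Real.log x := Real.log_pos hx1
  have h1 := part_A (n := n) hx
  have h2 := part_B (n := n) hx
  have h3 : ep x * Real.log ((n / rd n : ℕ) : ℝ) ≤ DD x n := by unfold DD; linarith
  have h4 : 0 ≤ Real.log ((n / rd n : ℕ) : ℝ) := Real.log_nonneg (by exact_mod_cast quot_pos hn)
  have h5 := mul_le_mul_of_nonneg_right (ep_ge hx1) h4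
  have h6 := h5.trans h3
  rw [one_div_mul_eq_div, div_le_iff₀ (by positivity)] at h6
  exact h6

/-- the number of integers with deficiency at most `δ` -/
theorem count_DD {δ u : ℝ} (hδ : 0 ≤ δ) (hu : 0 < u) (hu1 : u ≤ 1) (S : Finset ℕ)
    (hS : ∀ n ∈ S, n ≠ 0 ∧ DD x n ≤ δ) :
    (S.card : ℝ) ≤ Real.exp (2 * u * x + 1 + 5 * δ * (x * Real.log x) / u) := by
  classical
  have hx1 := x_one hx
  have hl : 0 < Real.log x := Real.log_pos hx1
  have hX : 0 < (x : ℝ) * Real.log x := by positivity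
  set a : ℕ := ⌊(1 - u) * x⌋₊ with ha
  set b : ℕ := ⌊(1 + u) * x⌋₊ with hb
  have ha1 : (a : ℝ) ≤ (1 - u) * x := Nat.floor_le (by
    have : 0 ≤ 1 - u := by linarith
    positivity)
  have hb1 : (1 + u) * x ≤ b + 1 := (Nat.lt_floor_add_one _).le
  have hb2 : (b : ℝ) ≤ (1 + u) * x := Nat.floor_le (by positivity)
  have ha2 : (1 - u) * x < a + 1 := Nat.lt_floor_add_one _
  have hab : a ≤ b := Nat.floor_mono (by nlinarith)
  set B1 : ℝ := δ * (x * Real.log x) / u with hB1
  set B2 : ℝ := 2 * δ * (x * Real.log x) / u with hB2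
  set B3 : ℝ := δ * (x * Real.log x) with hB3
  set T : Finset (ℕ × Finset ℕ × ℕ × ℕ) := Finset.Icc 1 ⌊Real.exp B1⌋₊ ×ˢ ((Finset.Ioc a b).powerset ×ˢ
    (Finset.Icc 1 ⌊Real.exp B2⌋₊ ×ˢ Finset.Icc 1 ⌊Real.exp B3⌋₊)) with hT
  have hcard : S.card ≤ T.card := by
    refine Finset.card_le_card_of_injOn (fun n => (QA a n, n.primeFactors ∩ Finset.Ioc a b, QB b n, n / rd n))
      (fun n hn => ?_) ?_
    · obtain ⟨hn0, hnD⟩ := hS n hn
      rw [hT]
      simp only [Finset.coe_product, Set.mem_prod, Finset.mem_coe, Finset.mem_powerset]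
      have m1 : DD x n * (x * Real.log x) ≤ δ * (x * Real.log x) := mul_le_mul_of_nonneg_right hnD hX.le
      refine ⟨le_floor_exp (QA_pos _ _) ?_, Finset.inter_subset_right, le_floor_exp (QB_pos _ _) ?_,
        le_floor_exp (quot_pos hn0) ?_⟩
      · exact (log_QA_le hx hu ha1 hn0).trans (div_le_div_of_nonneg_right m1 hu.le)
      · refine (log_QB_le hx hu hu1 hb1 hn0).trans (div_le_div_of_nonneg_right ?_ hu.le)
        linarith
      · exact (log_quot_le hx hn0).trans m1
    · intro n hn m hm h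
      simp only [Prod.mk.injEq] at h
      exact recover hab (hS n hn).1 (hS m hm).1 h.1 h.2.1 h.2.2.1 h.2.2.2
  have hTc : (T.card : ℝ) = (⌊Real.exp B1⌋₊ : ℝ) * (2 ^ (b - a) * ((⌊Real.exp B2⌋₊ : ℝ) * ⌊Real.exp B3⌋₊)) := by
    rw [hT]
    simp [Finset.card_product]
  have p1 : (2 : ℝ) ^ (b - a) ≤ Real.exp (2 * u * x + 1) := by
    have h2 : ((b - a : ℕ) : ℝ) ≤ 2 * u * x + 1 := by
      rw [Nat.cast_sub hab]; linarith
    calc (2 : ℝ) ^ (b - a) ≤ Real.exp 1 ^ (b - a) := by
          gcongr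
          have := Real.exp_one_gt_d9; linarith
      _ = Real.exp ((b - a : ℕ) : ℝ) := by rw [← Real.exp_nat_mul, mul_one]
      _ ≤ _ := Real.exp_le_exp.2 h2
  have f1 := Nat.floor_le (Real.exp_pos B1).le
  have f2 := Nat.floor_le (Real.exp_pos B2).le
  have f3 := Nat.floor_le (Real.exp_pos B3).le
  calc (S.card : ℝ) ≤ T.card := by exact_mod_cast hcard
    _ = (⌊Real.exp B1⌋₊ : ℝ) * (2 ^ (b - a) * ((⌊Real.exp B2⌋₊ : ℝ) * ⌊Real.exp B3⌋₊)) := hTc
    _ ≤ Real.exp B1 * (Real.exp (2 * u * x + 1) * (Real.exp B2 * Real.exp B3)) := by gcongr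
    _ = Real.exp (B1 + ((2 * u * x + 1) + (B2 + B3))) := by
        rw [Real.exp_add B1, Real.exp_add (2 * u * x + 1), Real.exp_add B2]
    _ ≤ _ := by
        refine Real.exp_le_exp.2 ?_
        have h3 : B3 ≤ B1 := by
          rw [hB3, hB1, le_div_iff₀ hu]
          have : 0 ≤ δ * (x * Real.log x) := by positivity
          nlinarith
        have h2 : B2 = 2 * B1 := by rw [hB2, hB1]; ring
        have h4 : 5 * δ * (x * Real.log x) / u = 5 * B1 := by rw [hB1]; ring
        have h5 : 0 ≤ B1 := by rw [hB1]; positivity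
        rw [h4, h2]; linarith

end

end

end Pool.Agent.N964
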