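import Pool.Agent.H442R2.EHI.PntErr
import Pool.Agent.H305R2.MertensE
import Pool.Agent.N964.A2

/-! The formula for `∑_{p ≤ x} -log (1 - 1/p)` in the logarithmic scale. -/

set_option autoImplicit false

open Finset MeasureTheory Filter Topology

namespace Pool.Agent.N964

noncomputable section

/-- the relative error of the Chebyshev function, in the logarithmic scale -/
def EE (v : ℝ) : ℝ := Chebyshev.theta (Real.exp v) * Real.exp (-v) - 1

/-- the kernel `(1 + v)/v²` -/
def om (v : ℝ) : ℝ := (1 + v) / v ^ 2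

/-- the function `K`, in the logarithmic scale -/
def kv (u : ℝ) : ℝ := ∫ v in Set.Ioi u, EE v * om v

lemma EE_meas : Measurable EE := by
  unfold EE
  exact ((Chebyshev.theta_mono.measurable.comp Real.measurable_exp).mul
    (Real.measurable_exp.comp measurable_neg)).sub_const 1

lemma om_meas : Measurable om := by unfold om; fun_prop

lemma om_nonneg {v : ℝ} (hv : 0 ≤ v) : 0 ≤ om v := by unfold om; positivity

lemma th_eq (x : ℕ) : Chebyshev.theta (x : ℝ) = th x := by
  unfold Chebyshev.theta th Pr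
  rw [Nat.floor_natCast]

lemma theta_exp (v : ℝ) : Chebyshev.theta (Real.exp v) = Real.exp v * (1 + EE v) := by
  unfold EE
  have : Real.exp v * Real.exp (-v) = 1 := by rw [← Real.exp_add]; simp
  linear_combination (-Chebyshev.theta (Real.exp v)) * this

lemma EE_crude {v : ℝ} : |EE v| ≤ 2 := by
  have h1 := Chebyshev.theta_le_log4_mul_x (Real.exp_pos v).le
  have h2 := Chebyshev.theta_nonneg (Real.exp v)
  have h3 : Real.log 4 ≤ 3 := by
    have := Real.log_le_sub_one_of_pos (show (0 : ℝ) < 4 by norm_num)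
    linarith
  rw [theta_exp] at h1 h2
  have h4 := Real.exp_pos v
  rw [abs_le]
  constructor
  · have : 0 ≤ 1 + EE v := nonneg_of_mul_nonneg_right h2 h4
    linarith
  · have : 1 + EE v ≤ 3 := by
      by_contra hcon
      push Not at hcon
      nlinarith
    linarith

/-- the prime number theorem, in the logarithmic scale -/
theorem EE_bound (U : ℕ) : ∃ C : ℝ, 0 < C ∧ ∀ v : ℝ, 0 ≤ v → |EE v| ≤ C / (1 + v) ^ U := by
  obtain ⟨C, hC, h⟩ := Pool.Agent.H442R2.EHI.PntErrAux.thetaU U
  refine ⟨2 * 2 ^ U + C * 10 ^ U + (U.factorial : ℝ) * Real.exp 1, by positivity, fun v hv => ?_⟩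
  rcases le_or_gt v 1 with h1 | h1
  · refine EE_crude.trans ?_
    rw [le_div_iff₀ (by positivity)]
    have : (1 + v) ^ U ≤ 2 ^ U := pow_le_pow_left₀ (by linarith) (by linarith) U
    have h3 : (0 : ℝ) ≤ (U.factorial : ℝ) * Real.exp 1 := by positivity
    have h4 : (0 : ℝ) ≤ C * 10 ^ U := by positivity
    linarith
  · set N := ⌊Real.exp v⌋₊ with hN
    have he : 2 < Real.exp v := by
      have := Real.add_one_lt_exp (show v ≠ 0 by linarith)
      linarith
    have hN2 : 2 ≤ N := Nat.le_floor (by exact_mod_cast he.le)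
    have hNr : (2 : ℝ) ≤ N := by exact_mod_cast hN2
    have hNv : (N : ℝ) ≤ Real.exp v := Nat.floor_le (Real.exp_pos v).le
    have hNv2 : Real.exp v < N + 1 := Nat.lt_floor_add_one _
    have h2 := h N hN2
    have hth : Chebyshev.theta (Real.exp v) = Chebyshev.theta (N : ℝ) := Chebyshev.theta_eq_theta_coe_floor _
    have hlog : v / 5 ≤ Real.log N := by
      have h5 : Real.exp v / 2 ≤ N := by linarith
      have h6 := Real.log_le_log (by positivity) h5
      rw [Real.log_div (Real.exp_pos v).ne' (by norm_num), Real.log_exp] at h6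
      have := Real.log_two_lt_d9
      linarith
    have hlog0 : 0 < v / 5 := by linarith
    have h3 : |Chebyshev.theta (Real.exp v) - Real.exp v| ≤ C * (Real.exp v / (v / 5) ^ U) + 1 := by
      rw [hth]
      have h7 : |Chebyshev.theta (N : ℝ) - Real.exp v| ≤ |Chebyshev.theta (N : ℝ) - N| + 1 := by
        have : Chebyshev.theta (N : ℝ) - Real.exp v = (Chebyshev.theta (N : ℝ) - N) + (N - Real.exp v) := by ring
        rw [this]
        refine (abs_add_le _ _).trans (by
          have : |(N : ℝ) - Real.exp v| ≤ 1 := by rw [abs_le]; constructor <;> linarith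
          linarith)
      refine h7.trans (by
        have : C * (N / Real.log N ^ U) ≤ C * (Real.exp v / (v / 5) ^ U) := by gcongr
        linarith)
    have h8 : |EE v| = |Chebyshev.theta (Real.exp v) - Real.exp v| * Real.exp (-v) := by
      rw [← abs_of_pos (Real.exp_pos (-v)), ← abs_mul]
      congr 1
      unfold EE
      have : Real.exp v * Real.exp (-v) = 1 := by rw [← Real.exp_add]; simp
      linear_combination this
    have h9 : Real.exp (-v) ≤ (U.factorial : ℝ) * Real.exp 1 / (1 + v) ^ U := by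
      rw [le_div_iff₀ (by positivity)]
      have h10 := Real.pow_div_factorial_le_exp (1 + v) (by linarith) U
      rw [div_le_iff₀ (by positivity), Real.exp_add] at h10
      calc Real.exp (-v) * (1 + v) ^ U ≤ Real.exp (-v) * (Real.exp 1 * Real.exp v * U.factorial) := by
            gcongr
        _ = (Real.exp v * Real.exp (-v)) * ((U.factorial : ℝ) * Real.exp 1) := by ring
        _ = _ := by rw [← Real.exp_add]; simp
    have h11 : C * (Real.exp v / (v / 5) ^ U) * Real.exp (-v) ≤ C * 10 ^ U / (1 + v) ^ U := by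
      have h12 : (1 + v) / 10 ≤ v / 5 := by linarith
      have h13 : ((1 + v) / 10) ^ U ≤ (v / 5) ^ U := pow_le_pow_left₀ (by linarith) h12 U
      have h14 : C * (Real.exp v / (v / 5) ^ U) * Real.exp (-v) = C * (1 / (v / 5) ^ U) := by
        have : Real.exp v * Real.exp (-v) = 1 := by rw [← Real.exp_add]; simp
        linear_combination C * (1 / (v / 5) ^ U) * this
      rw [h14]
      have h15 : 1 / (v / 5) ^ U ≤ 1 / ((1 + v) / 10) ^ U := one_div_le_one_div_of_le (by positivity) h13
      calc C * (1 / (v / 5) ^ U) ≤ C * (1 / ((1 + v) / 10) ^ U) := by gcongr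
        _ = _ := by rw [div_pow]; field_simp
    rw [h8]
    calc |Chebyshev.theta (Real.exp v) - Real.exp v| * Real.exp (-v)
        ≤ (C * (Real.exp v / (v / 5) ^ U) + 1) * Real.exp (-v) := by gcongr
      _ = C * (Real.exp v / (v / 5) ^ U) * Real.exp (-v) + Real.exp (-v) := by ring
      _ ≤ C * 10 ^ U / (1 + v) ^ U + (U.factorial : ℝ) * Real.exp 1 / (1 + v) ^ U := add_le_add h11 h9
      _ ≤ _ := by
          rw [← add_div]
          gcongr
          have : (0 : ℝ) ≤ 2 * 2 ^ U := by positivity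
          linarith

lemma om_le {v : ℝ} (hv : 0 < v) : om v / (1 + v) ^ 2 ≤ v ^ (-2 : ℝ) := by
  have h1 : v ^ (-2 : ℝ) = 1 / v ^ 2 := by
    rw [Real.rpow_neg hv.le, one_div]; norm_cast
  rw [h1]
  unfold om
  rw [div_div, div_le_div_iff₀ (by positivity) (by positivity)]
  have h2 : (1 + v) ≤ (1 + v) ^ 2 := by nlinarith
  nlinarith [sq_nonneg v, pow_pos hv 2]

lemma EEom_int {a : ℝ} (ha : 0 < a) : IntegrableOn (fun v => EE v * om v) (Set.Ioi a) := by
  obtain ⟨C, hC, h⟩ := EE_bound 2
  have h1 := (integrableOn_Ioi_rpow_of_lt (show (-2 : ℝ) < -1 by norm_num) ha).const_mul C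
  refine Integrable.mono' h1 (EE_meas.mul om_meas).aestronglyMeasurable ?_
  filter_upwards [ae_restrict_mem measurableSet_Ioi] with v hv
  have hv0 : 0 < v := ha.trans hv
  rw [Real.norm_eq_abs, abs_mul, abs_of_nonneg (om_nonneg hv0.le)]
  calc |EE v| * om v ≤ C / (1 + v) ^ 2 * om v := by
        gcongr
        · exact om_nonneg hv0.le
        · exact h v hv0.le
    _ = C * (om v / (1 + v) ^ 2) := by ring
    _ ≤ _ := by gcongr; exact om_le hv0

lemma kv_sub {a b : ℝ} (ha : 0 < a) (hab : a ≤ b) : ∫ v in Set.Ioc a b, EE v * om v = kv a - kv b := by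
  unfold kv
  rw [← Set.Ioc_union_Ioi_eq_Ioi hab, setIntegral_union (Set.Ioc_disjoint_Ioi le_rfl) measurableSet_Ioi
    ((EEom_int ha).mono_set Set.Ioc_subset_Ioi_self) (EEom_int (ha.trans_le hab))]
  ring

/-- general bound for `kv` -/
lemma kv_le {C : ℝ} {U : ℕ} (hC : 0 ≤ C) (h : ∀ v : ℝ, 0 ≤ v → |EE v| ≤ C / (1 + v) ^ (U + 1)) {u : ℝ} (hu : 0 < u) :
    |kv u| ≤ C / (1 + u) ^ U * (1 / u) := by
  have h1 := (integrableOn_Ioi_rpow_of_lt (show (-2 : ℝ) < -1 by norm_num) hu)
  have h2 : ∫ v in Set.Ioi u, v ^ (-2 : ℝ) = 1 / u := by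
    rw [integral_Ioi_rpow_of_lt (by norm_num) hu]
    norm_num
    rw [Real.rpow_neg_one]
  unfold kv
  rw [← h2, ← integral_const_mul, ← Real.norm_eq_abs]
  refine norm_integral_le_of_norm_le (h1.const_mul (C / (1 + u) ^ U)) ?_
  filter_upwards [ae_restrict_mem measurableSet_Ioi] with v hv
  have hv : u < v := hv
  have hv0 : 0 < v := hu.trans hv
  rw [Real.norm_eq_abs, abs_mul, abs_of_nonneg (om_nonneg hv0.le)]
  have h3 : v ^ (-2 : ℝ) = 1 / v ^ 2 := by
    rw [Real.rpow_neg hv0.le, one_div]; norm_cast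
  calc |EE v| * om v ≤ C / (1 + v) ^ (U + 1) * om v := by
        gcongr
        · exact om_nonneg hv0.le
        · exact h v hv0.le
    _ = C / (1 + v) ^ U * (1 / v ^ 2) := by
        unfold om
        rw [pow_succ]
        field_simp
    _ ≤ C / (1 + u) ^ U * (1 / v ^ 2) := by gcongr
    _ = _ := by rw [h3]

lemma kv_tendsto : Tendsto kv atTop (𝓝 0) := by
  obtain ⟨C, hC, h⟩ := EE_bound (0 + 1)
  have h1 : Tendsto (fun u : ℝ => C * u⁻¹) atTop (𝓝 0) := by
    have := (tendsto_inv_atTop_zero (𝕜 := ℝ)).const_mul C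
    simpa using this
  refine squeeze_zero_norm' ?_ h1
  filter_upwards [eventually_gt_atTop 0] with u hu
  have := kv_le hC.le h hu
  simpa using this

end

end Pool.Agent.N964
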