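import Pool.Agent.N964.A3

/-! Partial summation: the formula for `LL`. -/

set_option autoImplicit false

open Finset MeasureTheory Filter Topology

namespace Pool.Agent.N964

noncomputable section

/-- the function `1 / (t log t)` -/
def tl (t : ℝ) : ℝ := (t * Real.log t)⁻¹

lemma tl_deriv {t : ℝ} (ht : 1 < t) :
    HasDerivAt tl (-((1 + Real.log t) / (t * Real.log t) ^ 2)) t := by
  have h0 : t ≠ 0 := by linarith
  have hl : Real.log t ≠ 0 := (Real.log_pos ht).ne'
  have h1 : HasDerivAt (fun t => t * Real.log t) (1 * Real.log t + t * t⁻¹) t :=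
    (hasDerivAt_id' t).mul (Real.hasDerivAt_log h0)
  have h2 := h1.fun_inv (mul_ne_zero h0 hl)
  have h3 : HasDerivAt tl (-(1 * Real.log t + t * t⁻¹) / (t * Real.log t) ^ 2) t := h2
  refine h3.congr_deriv ?_
  rw [mul_inv_cancel₀ h0, one_mul]
  ring

lemma tl_deriv_int {a b : ℝ} (ha : 1 < a) : IntegrableOn (deriv tl) (Set.Icc a b) := by
  have h1 : ContinuousOn (fun t => -((1 + Real.log t) / (t * Real.log t) ^ 2)) (Set.Icc a b) := by
    intro t ht
    have h0 : t ≠ 0 := by linarith [ht.1]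
    have hl : Real.log t ≠ 0 := (Real.log_pos (by linarith [ht.1])).ne'
    have : (t * Real.log t) ^ 2 ≠ 0 := pow_ne_zero 2 (mul_ne_zero h0 hl)
    exact ContinuousAt.continuousWithinAt (by fun_prop (disch := assumption))
  refine (h1.integrableOn_Icc).congr_fun (fun t ht => ?_) measurableSet_Icc
  exact (tl_deriv (by linarith [ht.1])).deriv.symm

lemma exp_image (u w : ℝ) : Real.exp '' Set.Ioc u w = Set.Ioc (Real.exp u) (Real.exp w) := by
  ext y
  constructor
  · rintro ⟨v, hv, rfl⟩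
    exact ⟨Real.exp_lt_exp.2 hv.1, Real.exp_le_exp.2 hv.2⟩
  · rintro ⟨h1, h2⟩
    have hy : 0 < y := (Real.exp_pos u).trans h1
    refine ⟨Real.log y, ⟨(Real.lt_log_iff_exp_lt hy).2 h1, (Real.log_le_iff_le_exp hy).2 h2⟩,
      Real.exp_log hy⟩

lemma exp_change (g : ℝ → ℝ) (u w : ℝ) :
    ∫ y in Set.Ioc (Real.exp u) (Real.exp w), g y = ∫ v in Set.Ioc u w, Real.exp v * g (Real.exp v) := by
  rw [← exp_image,
    integral_image_eq_integral_abs_deriv_smul measurableSet_Ioc
      (fun x _ => (Real.hasDerivAt_exp x).hasDerivWithinAt) Real.exp_injective.injOn]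
  refine setIntegral_congr_fun measurableSet_Ioc fun v _ => ?_
  simp only [smul_eq_mul, abs_of_pos (Real.exp_pos v)]

/-- the sum of the inverses of the primes -/
def Sinv (N : ℕ) : ℝ := ∑ p ∈ Pr N, (1 : ℝ) / p

/-- partial summation -/
lemma Sinv_abel {x : ℝ} (hx : 2 ≤ x) : Sinv ⌊x⌋₊ = tl x * Chebyshev.theta x -
    ∫ t in Set.Ioc 2 x, deriv tl t * Chebyshev.theta t := by
  classical
  let a : ℕ → ℝ := fun n => if n.Prime then Real.log n else 0
  have h := sum_mul_eq_sub_integral_mul₁ a (f := tl) (by simp [a]) (by simp [a]) x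
    (fun t ht => (tl_deriv (by linarith [ht.1])).differentiableAt) (tl_deriv_int (by norm_num))
  have h1 : ∀ y : ℝ, ∑ k ∈ Finset.Icc 0 ⌊y⌋₊, a k = Chebyshev.theta y := by
    intro y
    rw [Chebyshev.theta_eq_sum_Icc, Finset.sum_filter]
  simp only [h1] at h
  rw [← h]
  unfold Sinv Pr
  rw [Finset.sum_filter, ← Finset.add_sum_Ioc_eq_sum_Icc (Nat.zero_le _)]
  simp only [a, tl]
  simp only [Nat.not_prime_zero, if_false, mul_zero, zero_add]
  refine Finset.sum_congr rfl fun p _ => ?_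
  split_ifs with hp
  · have h0 : (p : ℝ) ≠ 0 := by exact_mod_cast hp.ne_zero
    have hl : Real.log p ≠ 0 := (Real.log_pos (by exact_mod_cast hp.one_lt)).ne'
    field_simp
  · simp

lemma int_om {a b : ℝ} (ha : 0 < a) (hab : a ≤ b) :
    ∫ v in Set.Ioc a b, om v = (Real.log b - 1 / b) - (Real.log a - 1 / a) := by
  rw [← intervalIntegral.integral_of_le hab]
  refine intervalIntegral.integral_eq_sub_of_hasDerivAt (f := fun v => Real.log v - 1 / v) (fun v hv => ?_) ?_
  · rw [Set.uIcc_of_le hab] at hv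
    have h0 : v ≠ 0 := by linarith [hv.1]
    have h1 : HasDerivAt (fun v => Real.log v - v⁻¹) (v⁻¹ - -(v ^ 2)⁻¹) v :=
      (Real.hasDerivAt_log h0).sub (hasDerivAt_inv h0)
    simp only [one_div]
    refine h1.congr_deriv ?_
    unfold om
    field_simp
    ring
  · refine ContinuousOn.intervalIntegrable ?_
    rw [Set.uIcc_of_le hab]
    intro v hv
    have h0 : v ^ 2 ≠ 0 := pow_ne_zero 2 (by linarith [hv.1])
    exact ContinuousAt.continuousWithinAt (by unfold om; fun_prop (disch := assumption))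

lemma om_intOn {a b : ℝ} (ha : 0 < a) : IntegrableOn om (Set.Ioc a b) := by
  have : ContinuousOn om (Set.Icc a b) := by
    intro v hv
    have h0 : v ^ 2 ≠ 0 := pow_ne_zero 2 (by linarith [hv.1])
    exact ContinuousAt.continuousWithinAt (by unfold om; fun_prop (disch := assumption))
  exact this.integrableOn_Icc.mono_set Set.Ioc_subset_Icc_self

lemma log2_pos : 0 < Real.log 2 := Real.log_pos (by norm_num)

/-- the sum of the inverses of the primes, in the logarithmic scale -/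
theorem Sinv_formula {u : ℝ} (hu : Real.log 2 ≤ u) : Sinv ⌊Real.exp u⌋₊ =
    EE u / u + Real.log u - kv u + (kv (Real.log 2) + (1 / Real.log 2 - Real.log (Real.log 2))) := by
  have hl2 := log2_pos
  have hu0 : 0 < u := hl2.trans_le hu
  have hx : 2 ≤ Real.exp u := by
    rw [← Real.exp_log (show (0 : ℝ) < 2 by norm_num)]; exact Real.exp_le_exp.2 hu
  have e2 : Real.exp (Real.log 2) = 2 := Real.exp_log (by norm_num)
  rw [Sinv_abel hx]
  have h1 : ∫ t in Set.Ioc 2 (Real.exp u), deriv tl t * Chebyshev.theta t =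
      -∫ v in Set.Ioc (Real.log 2) u, (EE v * om v + om v) := by
    rw [← integral_neg]
    have := exp_change (fun t => deriv tl t * Chebyshev.theta t) (Real.log 2) u
    rw [e2] at this
    rw [this]
    refine setIntegral_congr_fun measurableSet_Ioc fun v hv => ?_
    have hv0 : 0 < v := hl2.trans hv.1
    have hv1 : 1 < Real.exp v := Real.one_lt_exp_iff.2 hv0
    rw [(tl_deriv hv1).deriv, theta_exp, Real.log_exp]
    unfold om
    have := Real.exp_pos v
    field_simp
    ring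
  rw [h1, integral_add ((EEom_int hl2).mono_set Set.Ioc_subset_Ioi_self) (om_intOn hl2),
    kv_sub hl2 hu, int_om hl2 hu, theta_exp]
  unfold tl
  rw [Real.log_exp]
  have := Real.exp_pos u
  field_simp
  ring

/-- `∑_{p ≤ N} (g p - 1/p)` -/
def RR (N : ℕ) : ℝ := ∑ p ∈ Pr N, (gg p - 1 / p)

lemma RR_term {p : ℕ} (hp : 2 ≤ p) : 0 ≤ gg p - 1 / p ∧ gg p - 1 / p ≤ 1 / ((p : ℝ) - 1) - 1 / p := by
  have h1 : (1 : ℝ) < p := by exact_mod_cast (by omega : 1 < p)
  exact ⟨by linarith [gg_ge h1], by linarith [gg_le h1]⟩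

lemma RR_mono_succ (N : ℕ) (hN : 1 ≤ N) : RR N ≤ RR (N + 1) ∧ RR (N + 1) ≤ RR N + (1 / (N : ℝ) - 1 / (N + 1 : ℕ)) := by
  have h1 : Pr (N + 1) = if (N + 1).Prime then insert (N + 1) (Pr N) else Pr N := by
    ext p
    split_ifs with h
    · rw [Finset.mem_insert, mem_Pr, mem_Pr]
      constructor
      · rintro ⟨hp, hle⟩
        rcases hle.lt_or_eq with h2 | h2
        · exact Or.inr ⟨hp, by omega⟩
        · exact Or.inl h2
      · rintro (rfl | ⟨hp, hle⟩)
        · exact ⟨h, le_rfl⟩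
        · exact ⟨hp, by omega⟩
    · rw [mem_Pr, mem_Pr]
      constructor
      · rintro ⟨hp, hle⟩
        refine ⟨hp, ?_⟩
        rcases hle.lt_or_eq with h2 | h2
        · omega
        · subst h2; exact absurd hp h
      · rintro ⟨hp, hle⟩
        exact ⟨hp, by omega⟩
  have h0 : (0 : ℝ) ≤ 1 / (N : ℝ) - 1 / (N + 1 : ℕ) := by
    have hN0 : (0 : ℝ) < N := by exact_mod_cast hN
    rw [sub_nonneg]
    apply one_div_le_one_div_of_le hN0
    push_cast; linarith
  unfold RR
  rw [h1]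
  split_ifs with h
  · rw [Finset.sum_insert (by rw [mem_Pr]; omega)]
    obtain ⟨h2, h3⟩ := RR_term (p := N + 1) (by omega)
    constructor
    · linarith
    · have : ((N + 1 : ℕ) : ℝ) - 1 = N := by push_cast; ring
      rw [this] at h3
      linarith
  · exact ⟨le_rfl, by linarith⟩

lemma RR_sub (N M : ℕ) (hN : 1 ≤ N) (hM : N ≤ M) : RR N ≤ RR M ∧ RR M ≤ RR N + (1 / (N : ℝ) - 1 / (M : ℝ)) := by
  induction M, hM using Nat.le_induction with
  | base => exact ⟨le_rfl, by simp⟩
  | succ M hM ih =>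
    obtain ⟨h1, h2⟩ := RR_mono_succ M (hN.trans hM)
    exact ⟨ih.1.trans h1, by linarith [ih.2]⟩

lemma RR_lim : ∃ R : ℝ, Tendsto RR atTop (𝓝 R) ∧ ∀ N : ℕ, 1 ≤ N → RR N ≤ R ∧ R ≤ RR N + 1 / (N : ℝ) := by
  have hmono : ∀ N M : ℕ, 1 ≤ N → N ≤ M → RR N ≤ RR M := fun N M h1 h2 => (RR_sub N M h1 h2).1
  have hbdd : ∀ M : ℕ, 1 ≤ M → RR M ≤ RR 1 + 1 := by
    intro M hM
    have := (RR_sub 1 M le_rfl hM).2
    have h0 : (0 : ℝ) ≤ (M : ℝ)⁻¹ := by positivity
    norm_num at this
    linarith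
  have h1 : Monotone (fun n : ℕ => RR (n + 1)) := fun a b hab => hmono _ _ (by omega) (by omega)
  have h2 : BddAbove (Set.range (fun n : ℕ => RR (n + 1))) :=
    ⟨RR 1 + 1, by rintro _ ⟨n, rfl⟩; exact hbdd _ (by omega)⟩
  have h3 := tendsto_atTop_ciSup h1 h2
  set R := ⨆ n : ℕ, RR (n + 1) with hR
  have h4 : Tendsto RR atTop (𝓝 R) := (tendsto_add_atTop_iff_nat 1).1 h3
  refine ⟨R, h4, fun N hN => ⟨?_, ?_⟩⟩
  · refine ge_of_tendsto h4 ?_
    filter_upwards [eventually_ge_atTop N] with M hM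
    exact hmono N M hN hM
  · refine le_of_tendsto h4 ?_
    filter_upwards [eventually_ge_atTop N] with M hM
    have := (RR_sub N M hN hM).2
    have h0 : (0 : ℝ) ≤ 1 / (M : ℝ) := by positivity
    linarith

lemma LL_eq (N : ℕ) : LL N = Sinv N + RR N := by
  unfold LL Sinv RR
  rw [← Finset.sum_add_distrib]
  exact Finset.sum_congr rfl fun p _ => by ring

/-- Mertens, logarithmic form -/
lemma mertens_log : Tendsto (fun N : ℕ => LL N - Real.log (Real.log N)) atTop
    (𝓝 Real.eulerMascheroniConstant) := by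
  have h := Pool.Agent.H305R2.mertens_three
  have h1 := (Real.continuousAt_log (Real.exp_pos Real.eulerMascheroniConstant).ne').tendsto.comp h
  rw [Real.log_exp] at h1
  refine h1.congr' ?_
  filter_upwards [eventually_ge_atTop 2] with N hN
  have hN1 : (1 : ℝ) < N := by exact_mod_cast (by omega : 1 < N)
  have hset : (Finset.Icc 1 N).filter Nat.Prime = Pr N := by
    unfold Pr; rfl
  have hf : ∀ p ∈ Pr N, (1 - (p : ℝ)⁻¹)⁻¹ ≠ 0 := by
    intro p hp
    have h2 : (1 : ℝ) < p := by exact_mod_cast (mem_Pr.1 hp).1.one_lt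
    have := one_sub_pos h2
    rw [one_div] at this
    exact inv_ne_zero this.ne'
  simp only [Function.comp]
  rw [hset, Real.log_div (Finset.prod_ne_zero_iff.2 hf) (Real.log_pos hN1).ne', Real.log_prod hf]
  congr 1
  unfold LL
  refine Finset.sum_congr rfl fun p _ => ?_
  unfold gg
  rw [Real.log_inv, one_div]

/-- **The formula** for `∑_{p ≤ exp u} -log (1 - 1/p)`. -/
theorem LL_formula : ∃ r : ℕ → ℝ, (∀ N : ℕ, 1 ≤ N → 0 ≤ r N ∧ r N ≤ 1 / (N : ℝ)) ∧
    ∀ u : ℝ, Real.log 2 ≤ u → LL ⌊Real.exp u⌋₊ =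
      Real.eulerMascheroniConstant + Real.log u + EE u / u - kv u - r ⌊Real.exp u⌋₊ := by
  obtain ⟨R, hR, hR2⟩ := RR_lim
  set C0 : ℝ := kv (Real.log 2) + (1 / Real.log 2 - Real.log (Real.log 2)) + R with hC0
  have key : ∀ u : ℝ, Real.log 2 ≤ u → LL ⌊Real.exp u⌋₊ =
      C0 + Real.log u + EE u / u - kv u - (R - RR ⌊Real.exp u⌋₊) := by
    intro u hu
    rw [LL_eq, Sinv_formula hu, hC0]
    ring
  have hlim : Tendsto (fun N : ℕ => LL N - Real.log (Real.log N)) atTop (𝓝 C0) := by
    have hlogN : Tendsto (fun N : ℕ => Real.log (N : ℝ)) atTop atTop :=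
      Real.tendsto_log_atTop.comp tendsto_natCast_atTop_atTop
    have t1 : Tendsto (fun u : ℝ => EE u / u) atTop (𝓝 0) := by
      have h2 : Tendsto (fun u : ℝ => 2 * u⁻¹) atTop (𝓝 0) := by
        have := (tendsto_inv_atTop_zero (𝕜 := ℝ)).const_mul 2
        simpa using this
      refine squeeze_zero_norm' ?_ h2
      filter_upwards [eventually_gt_atTop 0] with u hu
      rw [Real.norm_eq_abs, abs_div, abs_of_pos hu, div_eq_mul_inv]
      exact mul_le_mul_of_nonneg_right EE_crude (by positivity)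
    have t2 : Tendsto (fun N : ℕ => R - RR N) atTop (𝓝 0) := by
      have := hR.const_sub R
      simpa using this
    have t3 : Tendsto (fun N : ℕ => C0 + EE (Real.log N) / Real.log N - kv (Real.log N) - (R - RR N))
        atTop (𝓝 (C0 + 0 - 0 - 0)) :=
      (((t1.comp hlogN).const_add C0).sub (kv_tendsto.comp hlogN)).sub t2
    rw [add_zero, sub_zero, sub_zero] at t3
    refine t3.congr' ?_
    filter_upwards [eventually_ge_atTop 2] with N hN
    have hN0 : (0 : ℝ) < N := by exact_mod_cast (by omega : 0 < N)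
    have h2 : Real.log 2 ≤ Real.log N := Real.log_le_log (by norm_num) (by exact_mod_cast hN)
    have h3 := key (Real.log N) h2
    rw [Real.exp_log hN0, Nat.floor_natCast] at h3
    rw [h3]; ring
  have hγ : C0 = Real.eulerMascheroniConstant := tendsto_nhds_unique hlim mertens_log
  refine ⟨fun N => R - RR N, fun N hN => ⟨by linarith [(hR2 N hN).1], by linarith [(hR2 N hN).2]⟩,
    fun u hu => ?_⟩
  rw [key u hu, hγ]

end

end Pool.Agent.N964
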