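import Pool.Agent.N964.A4

/-! Bounds for `f u = LL - γ - log log θ`. -/

set_option autoImplicit false

open Finset MeasureTheory Filter Topology

namespace Pool.Agent.N964

noncomputable section

/-- `log (log θ(exp u))` -/
def lt (u : ℝ) : ℝ := Real.log (Real.log (Chebyshev.theta (Real.exp u)))

/-- the excess -/
def ff (u : ℝ) : ℝ := LL ⌊Real.exp u⌋₊ - Real.eulerMascheroniConstant - lt u

lemma log_theta_exp {u : ℝ} (h : 0 < 1 + EE u) :
    Real.log (Chebyshev.theta (Real.exp u)) = u + Real.log (1 + EE u) := by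
  rw [theta_exp, Real.log_mul (Real.exp_pos u).ne' h.ne', Real.log_exp]

/-- lower bound -/
theorem ff_ge {u : ℝ} (hu : 2 ≤ u) (hE : |EE u| ≤ 1 / 2) : -kv u - 1 / (⌊Real.exp u⌋₊ : ℝ) ≤ ff u := by
  obtain ⟨r, hr, h⟩ := LL_formula
  have hE1 := abs_le.1 hE
  have h1 : 0 < 1 + EE u := by linarith
  have hN : 1 ≤ ⌊Real.exp u⌋₊ := Nat.one_le_floor_iff _ |>.2 (Real.one_le_exp (by linarith))
  have hl2 : Real.log 2 ≤ u := by linarith [Real.log_two_lt_d9]
  have hlog : Real.log (1 + EE u) ≤ EE u := by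
    have := Real.log_le_sub_one_of_pos h1; linarith
  have hlog2 : -1 ≤ Real.log (1 + EE u) := by
    have := Real.one_sub_inv_le_log_of_pos h1
    have h3 : (1 + EE u)⁻¹ ≤ 2 := by
      rw [inv_le_comm₀ h1 (by norm_num)]; linarith
    linarith
  have hpos : 0 < u + Real.log (1 + EE u) := by linarith
  have hlt : lt u ≤ Real.log u + EE u / u := by
    unfold lt
    rw [log_theta_exp h1]
    have h4 := Real.log_le_sub_one_of_pos (div_pos hpos (by linarith : 0 < u))
    rw [Real.log_div hpos.ne' (by linarith)] at h4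
    have h5 : (u + Real.log (1 + EE u)) / u - 1 = Real.log (1 + EE u) / u := by
      field_simp; ring
    rw [h5] at h4
    have h6 : Real.log (1 + EE u) / u ≤ EE u / u := div_le_div_of_nonneg_right hlog (by linarith)
    linarith
  unfold ff
  rw [h u hl2]
  have := (hr _ hN).2
  linarith

/-- upper bound -/
theorem ff_le {u : ℝ} (hu : 2 ≤ u) (hE : |EE u| ≤ 1 / 2) : ff u ≤ 5 * |EE u| + |kv u| := by
  obtain ⟨r, hr, h⟩ := LL_formula
  have hE1 := abs_le.1 hE
  have h1 : 0 < 1 + EE u := by linarith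
  have hN : 1 ≤ ⌊Real.exp u⌋₊ := Nat.one_le_floor_iff _ |>.2 (Real.one_le_exp (by linarith))
  have hl2 : Real.log 2 ≤ u := by linarith [Real.log_two_lt_d9]
  have hlow : -(2 * |EE u|) ≤ Real.log (1 + EE u) := by
    have h3 := Real.one_sub_inv_le_log_of_pos h1
    refine le_trans ?_ h3
    have h4 : 1 - (1 + EE u)⁻¹ = EE u / (1 + EE u) := by field_simp; ring
    rw [h4, le_div_iff₀ h1]
    rcases abs_cases (EE u) with ⟨ha, hb⟩ | ⟨ha, hb⟩
    · rw [ha]; nlinarith
    · rw [ha]; nlinarith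
  have hEn := abs_nonneg (EE u)
  have hpos : 1 ≤ u + Real.log (1 + EE u) := by linarith
  have hlt : Real.log u - 2 * |EE u| ≤ lt u := by
    unfold lt
    rw [log_theta_exp h1]
    set L := u + Real.log (1 + EE u) with hL
    have h4 := Real.one_sub_inv_le_log_of_pos (div_pos (by linarith : 0 < L) (by linarith : 0 < u))
    rw [Real.log_div (by linarith : L ≠ 0) (by linarith), inv_div] at h4
    have h5 : 1 - u / L = Real.log (1 + EE u) / L := by
      rw [eq_div_iff (by linarith : L ≠ 0), sub_mul, div_mul_cancel₀ _ (by linarith : L ≠ 0), hL]; ring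
    rw [h5] at h4
    have h6 : -(2 * |EE u|) ≤ Real.log (1 + EE u) / L := by
      rw [le_div_iff₀ (by linarith)]
      nlinarith
    linarith
  have h7 : EE u / u ≤ |EE u| := by
    rw [div_le_iff₀ (by linarith)]
    have := le_abs_self (EE u)
    nlinarith
  unfold ff
  rw [h u hl2]
  have h8 := (hr _ hN).1
  have h9 := neg_abs_le (kv u)
  linarith

/-- the excess at an integer -/
def fN (x : ℕ) : ℝ := LL x - Real.eulerMascheroniConstant - Real.log (Real.log (th x))

lemma ff_floor (u : ℝ) : ff u = fN ⌊Real.exp u⌋₊ := by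
  unfold ff fN lt
  rw [← th_eq, ← Chebyshev.theta_eq_theta_coe_floor]

lemma fN_eq {x : ℕ} (hx : 1 ≤ x) : fN x = ff (Real.log x) := by
  have hx0 : (0 : ℝ) < x := by exact_mod_cast hx
  rw [ff_floor, Real.exp_log hx0, Nat.floor_natCast]

/-- `n` violates the inequality of Nicolas -/
def Exc (n : ℕ) : Prop :=
  Real.exp Real.eulerMascheroniConstant * Real.log (Real.log n) ≤ (n : ℝ) / (Nat.totient n : ℝ)

/-- the deficiency of an exceptional integer is small -/
lemma Exc_DD {x n : ℕ} (hx : 2 ≤ x) (hth : 1 < th x) (hn : n ≠ 0) (h1 : th x ≤ Real.log n)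
    (h2 : Real.log n ≤ th x + Real.log (x + 1)) (he : Exc n) :
    DD x n ≤ fN x + 4 / x := by
  have hx1 : (1 : ℝ) < x := by exact_mod_cast (by omega : 1 < x)
  have hx2 : (2 : ℝ) ≤ x := by exact_mod_cast hx
  have hl : 0 < Real.log x := Real.log_pos hx1
  have hll : 0 < Real.log (th x) := Real.log_pos hth
  have hlln : Real.log (th x) ≤ Real.log (Real.log n) := Real.log_le_log (by linarith) h1
  have h3 : Real.log (Real.exp Real.eulerMascheroniConstant * Real.log (Real.log n)) ≤
      Real.log ((n : ℝ) / (Nat.totient n : ℝ)) :=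
    Real.log_le_log (mul_pos (Real.exp_pos _) (hll.trans_le hlln)) he
  rw [Real.log_mul (Real.exp_pos _).ne' (hll.trans_le hlln).ne', Real.log_exp, ratio_eq hx hn] at h3
  have h4 : Real.log (Real.log (th x)) ≤ Real.log (Real.log (Real.log n)) := Real.log_le_log hll hlln
  have h5 : ep x * (Real.log n - th x) ≤ 4 / x := by
    have h6 : Real.log n - th x ≤ 2 * Real.log x := by
      have h7 : Real.log ((x : ℝ) + 1) ≤ 2 * Real.log x := by
        rw [← Real.log_rpow (by linarith)]
        refine Real.log_le_log (by linarith) ?_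
        norm_cast
        nlinarith
      linarith
    have h8 : ep x ≤ 1 / ((x - 1) * Real.log x) := by
      unfold ep
      rw [← div_div]
      exact div_le_div_of_nonneg_right (gg_le hx1) hl.le
    have h9 : 0 ≤ Real.log n - th x := by linarith
    calc ep x * (Real.log n - th x) ≤ 1 / ((x - 1) * Real.log x) * (2 * Real.log x) := by
          gcongr
      _ = 2 / (x - 1) := by
          have : (x : ℝ) - 1 ≠ 0 := by linarith
          field_simp
      _ ≤ 4 / x := by
          rw [div_le_div_iff₀ (by linarith) (by linarith)]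
          linarith
  unfold fN
  linarith

lemma th_succ (x : ℕ) : th (x + 1) ≤ th x + Real.log (x + 1) := by
  have h1 : Pr (x + 1) ⊆ insert (x + 1) (Pr x) := by
    intro p hp
    rw [mem_Pr] at hp
    rw [Finset.mem_insert, mem_Pr]
    rcases hp.2.lt_or_eq with h | h
    · exact Or.inr ⟨hp.1, by omega⟩
    · exact Or.inl h
  unfold th
  refine (Finset.sum_le_sum_of_subset_of_nonneg h1 fun p hp _ => ?_).trans ?_
  · exact Real.log_natCast_nonneg p
  · rw [Finset.sum_insert (by rw [mem_Pr]; omega)]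
    push_cast
    linarith

lemma th_mono {a b : ℕ} (h : a ≤ b) : th a ≤ th b := by
  rw [← th_eq, ← th_eq]
  exact Chebyshev.theta_mono (by exact_mod_cast h)

/-- for large `x` one has `θ(x) ≥ x/2` -/
lemma th_ge : ∃ x0 : ℕ, ∀ x : ℕ, x0 ≤ x → (x : ℝ) / 2 ≤ th x := by
  obtain ⟨C, hC, h⟩ := EE_bound 1
  have h1 : Tendsto (fun x : ℕ => Real.log (x : ℝ)) atTop atTop :=
    Real.tendsto_log_atTop.comp tendsto_natCast_atTop_atTop
  obtain ⟨x0, hx0⟩ := ((h1.eventually_ge_atTop (2 * C)).and (eventually_ge_atTop 1)).exists_forall_of_atTop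
  refine ⟨x0, fun x hx => ?_⟩
  obtain ⟨h2, h3⟩ := hx0 x hx
  have hx1 : (0 : ℝ) < x := by exact_mod_cast h3
  have h4 := h (Real.log x) (by linarith)
  have h5 : |EE (Real.log x)| ≤ 1 / 2 := by
    refine h4.trans ?_
    rw [pow_one, div_le_div_iff₀ (by linarith) (by norm_num)]
    linarith
  have h6 := theta_exp (Real.log x)
  rw [Real.exp_log hx1, th_eq] at h6
  rw [h6]
  have := (abs_le.1 h5).1
  nlinarith

/-- the general upper bound -/
theorem upper_general (δ : ℕ → ℝ) (x0 : ℕ) (hx0 : 2 ≤ x0) (hth : ∀ x : ℕ, x0 ≤ x → (x : ℝ) / 2 ≤ th x)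
    (hth1 : 1 < th x0)
    (hδ : ∀ x : ℕ, x0 ≤ x → 0 < δ x ∧ δ x ≤ 1 ∧ fN x + 4 / x ≤ δ x) (S : Finset ℕ) (Y : ℝ)
    (hS : ∀ n ∈ S, n ≠ 0 ∧ Real.log n ≤ Y ∧ Exc n) :
    (S.card : ℝ) ≤ Real.exp (th x0) + 1 + ∑ x ∈ Finset.Icc x0 ⌊2 * Y⌋₊,
      Real.exp (2 * √(δ x) * x + 1 + 5 * √(δ x) * (x * Real.log x)) := by
  classical
  -- the small ones
  set S0 : Finset ℕ := S.filter (fun n : ℕ => Real.log n < th x0) with hS0
  set S1 : Finset ℕ := S.filter (fun n : ℕ => ¬ Real.log n < th x0) with hS1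
  have hsplit : S.card = S0.card + S1.card := by
    rw [hS0, hS1]
    exact (Finset.card_filter_add_card_filter_not (s := S) (fun n : ℕ => Real.log n < th x0)).symm
  have hc0 : (S0.card : ℝ) ≤ Real.exp (th x0) + 1 := by
    have h1 : S0 ⊆ Finset.range (⌊Real.exp (th x0)⌋₊ + 1) := by
      intro n hn
      rw [hS0, Finset.mem_filter] at hn
      rw [Finset.mem_range, Nat.lt_succ_iff]
      refine Nat.le_floor ?_
      have hn0 : (0 : ℝ) < n := by exact_mod_cast Nat.pos_of_ne_zero (hS n hn.1).1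
      rw [← Real.exp_log hn0]
      exact Real.exp_le_exp.2 hn.2.le
    have h2 := Finset.card_le_card h1
    rw [Finset.card_range] at h2
    have h3 := Nat.floor_le (Real.exp_pos (th x0)).le
    have h4 : (S0.card : ℝ) ≤ ⌊Real.exp (th x0)⌋₊ + 1 := by exact_mod_cast h2
    linarith
  -- the index
  have hex : ∀ n ∈ S1, ∃ x : ℕ, x ∈ Finset.Icc x0 ⌊2 * Y⌋₊ ∧ th x ≤ Real.log n ∧
      Real.log n ≤ th x + Real.log (x + 1) := by
    intro n hn
    rw [hS1, Finset.mem_filter, not_lt] at hn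
    obtain ⟨hnS, hn1⟩ := hn
    obtain ⟨hn0, hnY, -⟩ := hS n hnS
    -- there is x with th x > log n
    have hbig : ∃ z : ℕ, x0 ≤ z ∧ Real.log n < th z := by
      obtain ⟨z, hz⟩ := exists_nat_gt (2 * Real.log n)
      refine ⟨max x0 z, le_max_left _ _, ?_⟩
      have h1 := hth (max x0 z) (le_max_left _ _)
      have h2 : (z : ℝ) ≤ ((max x0 z : ℕ) : ℝ) := by exact_mod_cast le_max_right _ _
      linarith
    set z := Nat.find hbig with hz
    obtain ⟨hz1, hz2⟩ := Nat.find_spec hbig
    have hz3 : x0 < z := by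
      rcases hz1.lt_or_eq with h | h
      · exact h
      · exfalso
        rw [← h] at hz2
        linarith
    have hz4 : ¬ (x0 ≤ z - 1 ∧ Real.log n < th (z - 1)) := Nat.find_min hbig (by omega)
    have hz5 : th (z - 1) ≤ Real.log n := by
      by_contra hcon
      push Not at hcon
      exact hz4 ⟨by omega, hcon⟩
    refine ⟨z - 1, ?_, hz5, ?_⟩
    · rw [Finset.mem_Icc]
      refine ⟨by omega, Nat.le_floor ?_⟩
      have := hth (z - 1) (by omega)
      linarith
    · have h6 := th_succ (z - 1)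
      have h7 : z - 1 + 1 = z := by omega
      rw [h7] at h6
      linarith
  choose! ix hix using hex
  have hc1 : (S1.card : ℝ) ≤ ∑ x ∈ Finset.Icc x0 ⌊2 * Y⌋₊,
      Real.exp (2 * √(δ x) * x + 1 + 5 * √(δ x) * (x * Real.log x)) := by
    have h1 : S1.card = ∑ x ∈ Finset.Icc x0 ⌊2 * Y⌋₊, (S1.filter (fun n => ix n = x)).card :=
      Finset.card_eq_sum_card_fiberwise fun n hn => (hix n hn).1
    rw [h1, Nat.cast_sum]
    refine Finset.sum_le_sum fun x hx => ?_
    have hxx := (Finset.mem_Icc.1 hx).1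
    obtain ⟨d0, d1, d2⟩ := hδ x hxx
    have hsq : 0 < √(δ x) := Real.sqrt_pos.2 d0
    have hsq1 : √(δ x) ≤ 1 := Real.sqrt_le_one.2 d1
    have h2 := count_DD (x := x) (hx0.trans hxx) (δ := δ x) (u := √(δ x)) d0.le hsq hsq1
      (S1.filter (fun n => ix n = x)) (by
        intro n hn
        rw [Finset.mem_filter] at hn
        obtain ⟨hn1, hn2⟩ := hn
        obtain ⟨h3, h4, h5⟩ := hix n hn1
        rw [hn2] at h4 h5
        have h6 := hS n (Finset.mem_filter.1 hn1).1
        refine ⟨h6.1, le_trans (Exc_DD (hx0.trans hxx) (hth1.trans_le (th_mono hxx)) h6.1 h4 h5 h6.2.2) d2⟩)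
    refine h2.trans (Real.exp_le_exp.2 (le_of_eq ?_))
    have h7 : 5 * δ x * (x * Real.log x) / √(δ x) = 5 * √(δ x) * (x * Real.log x) := by
      rw [div_eq_iff hsq.ne']
      have := Real.mul_self_sqrt d0.le
      linear_combination (-(5 * (x * Real.log x))) * this
    rw [h7]
  rw [hsplit, Nat.cast_add]
  linarith

end

end Pool.Agent.N964
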