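import Pool.Agent.N964.A5

/-! The upper bounds for the number of exceptions. -/

set_option autoImplicit false

open Finset MeasureTheory Filter Topology

namespace Pool.Agent.N964

noncomputable section

/-- assembling: a bound for all the exponents gives a bound for the count -/
lemma upper_assemble (δ : ℕ → ℝ) (x0 : ℕ) (hx0 : 3 ≤ x0) (hth : ∀ x : ℕ, x0 ≤ x → (x : ℝ) / 2 ≤ th x)
    (hth1 : 1 < th x0)
    (hδ : ∀ x : ℕ, x0 ≤ x → 0 < δ x ∧ δ x ≤ 1 ∧ fN x + 4 / x ≤ δ x) :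
    ∃ K0 : ℝ, 1 ≤ K0 ∧ ∀ (S : Finset ℕ) (Y A : ℝ), 0 ≤ Y → 0 ≤ A →
      (∀ n ∈ S, n ≠ 0 ∧ Real.log n ≤ Y ∧ Exc n) →
      (∀ x : ℕ, x0 ≤ x → (x : ℝ) ≤ 2 * Y → 7 * √(δ x) * (x * Real.log x) ≤ A) →
      (S.card : ℝ) ≤ Real.exp (A + 1 + Real.log (K0 + 2 * Y)) := by
  refine ⟨Real.exp (th x0) + 2, by linarith [Real.exp_pos (th x0)], fun S Y A hY hA hS hb => ?_⟩
  have h1 := upper_general δ x0 (by omega) hth hth1 hδ S Y hS
  have h2 : ∑ x ∈ Finset.Icc x0 ⌊2 * Y⌋₊,
      Real.exp (2 * √(δ x) * x + 1 + 5 * √(δ x) * (x * Real.log x)) ≤ (2 * Y + 1) * Real.exp (A + 1) := by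
    have h3 : ∀ x ∈ Finset.Icc x0 ⌊2 * Y⌋₊,
        Real.exp (2 * √(δ x) * x + 1 + 5 * √(δ x) * (x * Real.log x)) ≤ Real.exp (A + 1) := by
      intro x hx
      rw [Finset.mem_Icc] at hx
      have hx2 : (x : ℝ) ≤ 2 * Y := (Nat.cast_le.2 hx.2).trans (Nat.floor_le (by positivity))
      have h4 := hb x hx.1 hx2
      have hx3 : (3 : ℝ) ≤ x := by exact_mod_cast hx0.trans hx.1
      have hl : 1 ≤ Real.log x := by
        rw [Real.le_log_iff_exp_le (by linarith)]
        exact Real.exp_one_lt_d9.le.trans (by linarith)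
      have h5 : (x : ℝ) ≤ x * Real.log x := by nlinarith
      have h6 : 2 * √(δ x) * x ≤ 2 * √(δ x) * (x * Real.log x) := by gcongr
      exact Real.exp_le_exp.2 (by linarith)
    refine (Finset.sum_le_sum h3).trans ?_
    rw [Finset.sum_const, nsmul_eq_mul]
    refine mul_le_mul_of_nonneg_right ?_ (Real.exp_pos _).le
    have h7 : (Finset.Icc x0 ⌊2 * Y⌋₊).card ≤ ⌊2 * Y⌋₊ + 1 := by
      rw [Nat.card_Icc]; omega
    have h8 := Nat.floor_le (show 0 ≤ 2 * Y by positivity)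
    have h9 : ((Finset.Icc x0 ⌊2 * Y⌋₊).card : ℝ) ≤ ⌊2 * Y⌋₊ + 1 := by exact_mod_cast h7
    linarith
  have hK : 0 < Real.exp (th x0) + 2 + 2 * Y := by positivity
  rw [Real.exp_add, Real.exp_log hK]
  have h10 : 1 ≤ Real.exp (A + 1) := Real.one_le_exp (by linarith)
  have h11 := Real.exp_pos (th x0)
  nlinarith

/-- the function `K` under a power bound -/
lemma kv_le_exp {C a : ℝ} (hC : 0 ≤ C) (ha : 0 < a) (h : ∀ v : ℝ, 0 ≤ v → |EE v| ≤ C * Real.exp (-a * v))
    {u : ℝ} (hu : 1 ≤ u) : |kv u| ≤ 2 * C / a * Real.exp (-a * u) := by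
  have h1 := integrableOn_exp_mul_Ioi (show -a < 0 by linarith) u
  have h2 : ∫ v in Set.Ioi u, Real.exp (-a * v) = Real.exp (-a * u) / a := by
    rw [integral_exp_mul_Ioi (by linarith) u]
    rw [neg_div_neg_eq]
  have h3 : 2 * C / a * Real.exp (-a * u) = ∫ v in Set.Ioi u, 2 * C * Real.exp (-a * v) := by
    rw [integral_const_mul, h2]; ring
  unfold kv
  rw [h3, ← Real.norm_eq_abs]
  refine norm_integral_le_of_norm_le (h1.const_mul (2 * C)) ?_
  filter_upwards [ae_restrict_mem measurableSet_Ioi] with v hv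
  have hv : u < v := hv
  have hv0 : 0 < v := by linarith
  rw [Real.norm_eq_abs, abs_mul, abs_of_nonneg (om_nonneg hv0.le)]
  have h4 : om v ≤ 2 := by
    unfold om
    rw [div_le_iff₀ (by positivity)]
    nlinarith
  have h5 := h v hv0.le
  have h6 : 0 ≤ C * Real.exp (-a * v) := by positivity
  calc |EE v| * om v ≤ C * Real.exp (-a * v) * 2 :=
        mul_le_mul h5 h4 (om_nonneg hv0.le) h6
    _ = _ := by ring

lemma natlog_tendsto : Tendsto (fun x : ℕ => Real.log (x : ℝ)) atTop atTop :=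
  Real.tendsto_log_atTop.comp tendsto_natCast_atTop_atTop

lemma EE_small : ∀ᶠ u : ℝ in atTop, |EE u| ≤ 1 / 2 := by
  obtain ⟨C, hC, h⟩ := EE_bound 1
  filter_upwards [eventually_ge_atTop (2 * C), eventually_ge_atTop 0] with u hu hu0
  refine (h u hu0).trans ?_
  rw [pow_one, div_le_div_iff₀ (by linarith) (by norm_num)]
  linarith

/-- existence of a good starting point -/
lemma start (P : ℕ → Prop) (hP : ∀ᶠ x : ℕ in atTop, P x) : ∃ x0 : ℕ, 3 ≤ x0 ∧ 1 < th x0 ∧
    (∀ x : ℕ, x0 ≤ x → (x : ℝ) / 2 ≤ th x) ∧ ∀ x : ℕ, x0 ≤ x → P x := by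
  obtain ⟨x1, hx1⟩ := th_ge
  obtain ⟨x2, hx2⟩ := hP.exists_forall_of_atTop
  refine ⟨max (max x1 x2) 3, le_max_right _ _, ?_, fun x hx => ?_, fun x hx => ?_⟩
  · have h1 := hx1 (max (max x1 x2) 3) ((le_max_left _ _).trans (le_max_left _ _))
    have h2 : (3 : ℝ) ≤ ((max (max x1 x2) 3 : ℕ) : ℝ) := by exact_mod_cast le_max_right _ _
    linarith
  · exact hx1 x (((le_max_left _ _).trans (le_max_left _ _)).trans hx)
  · exact hx2 x (((le_max_right _ _).trans (le_max_left _ _)).trans hx)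

/-- **upper bound under a power bound for the error term** -/
theorem upper_power {C a : ℝ} (hC : 0 < C) (ha : 0 < a) (ha1 : a ≤ 1)
    (h : ∀ v : ℝ, 0 ≤ v → |EE v| ≤ C * Real.exp (-a * v)) {ε : ℝ} (hε : 0 < ε) :
    ∀ᶠ Y : ℝ in atTop, ∀ S : Finset ℕ, (∀ n ∈ S, n ≠ 0 ∧ Real.log n ≤ Y ∧ Exc n) →
      (S.card : ℝ) ≤ Real.exp (Y ^ (1 - a / 2 + ε)) := by
  set C1 : ℝ := 5 * C + 2 * C / a + 4 with hC1
  have hC10 : 0 < C1 := by positivity
  have hδ : ∀ᶠ x : ℕ in atTop, 0 < C1 * (x : ℝ) ^ (-a) ∧ C1 * (x : ℝ) ^ (-a) ≤ 1 ∧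
      fN x + 4 / x ≤ C1 * (x : ℝ) ^ (-a) := by
    have e1 : Tendsto (fun x : ℕ => C1 * (x : ℝ) ^ (-a)) atTop (𝓝 0) := by
      have := ((tendsto_rpow_neg_atTop ha).comp tendsto_natCast_atTop_atTop).const_mul C1
      simpa using this
    filter_upwards [e1.eventually_le_const one_pos, natlog_tendsto.eventually EE_small,
      natlog_tendsto.eventually_ge_atTop 2, eventually_ge_atTop 1] with x h1 h2 h3 h4
    have hx0 : (0 : ℝ) < x := by exact_mod_cast h4
    have hx1 : (1 : ℝ) ≤ x := by exact_mod_cast h4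
    refine ⟨by positivity, h1, ?_⟩
    have h5 := ff_le h3 h2
    rw [← fN_eq h4] at h5
    have h6 := h (Real.log x) (by linarith)
    have h7 := kv_le_exp hC.le ha h (u := Real.log x) (by linarith)
    have h8 : Real.exp (-a * Real.log x) = (x : ℝ) ^ (-a) := by
      rw [Real.rpow_def_of_pos hx0]; ring_nf
    rw [h8] at h6 h7
    have h9 : 4 / (x : ℝ) ≤ 4 * (x : ℝ) ^ (-a) := by
      rw [div_eq_mul_inv, ← Real.rpow_neg_one]
      have := Real.rpow_le_rpow_of_exponent_le hx1 (show (-1 : ℝ) ≤ -a by linarith)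
      linarith
    rw [hC1]
    linarith
  obtain ⟨x0, hx3, hth1, hth, hx0⟩ := start _ hδ
  obtain ⟨K0, hK0, hup⟩ := upper_assemble (fun x => C1 * (x : ℝ) ^ (-a)) x0 hx3 hth hth1 hx0
  -- the exponent
  set κ : ℝ := 1 - a / 2 with hκ
  have hκ0 : 0 < κ := by rw [hκ]; linarith
  have hA : ∀ᶠ Y : ℝ in atTop, 7 * √C1 * ((2 * Y) ^ κ * Real.log (2 * Y)) + 1 + Real.log (K0 + 2 * Y) ≤
      Y ^ (κ + ε) := by
    -- log (2Y) ≤ Y^(ε/2) etc.
    have e1 : ∀ᶠ Y : ℝ in atTop, Real.log Y ≤ Y ^ (ε / 2) := by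
      have := (isLittleO_log_rpow_atTop (show 0 < ε / 2 by positivity)).bound (one_pos)
      filter_upwards [this, eventually_ge_atTop 1] with Y hY hY1
      rw [one_mul, Real.norm_eq_abs, Real.norm_eq_abs, abs_of_nonneg (Real.log_nonneg hY1),
        abs_of_nonneg (by positivity)] at hY
      exact hY
    have e2 : Tendsto (fun Y : ℝ => Y ^ (ε / 2)) atTop atTop := tendsto_rpow_atTop (by positivity)
    have e3 := e2.eventually_ge_atTop (7 * √C1 * (2 ^ κ * 2) + (3 + Real.log (K0 + 2)))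
    filter_upwards [e1, e3, eventually_ge_atTop 2] with Y h1 h2 h3
    have hY0 : 0 < Y := by linarith
    have hl : 0 ≤ Real.log Y := Real.log_nonneg (by linarith)
    have h4 : Real.log (2 * Y) ≤ 2 * Y ^ (ε / 2) := by
      rw [Real.log_mul (by norm_num) hY0.ne']
      have : Real.log 2 ≤ Real.log Y := Real.log_le_log (by norm_num) h3
      linarith
    have h5 : Real.log (K0 + 2 * Y) ≤ Real.log (K0 + 2) + Y ^ (ε / 2) := by
      have : K0 + 2 * Y ≤ (K0 + 2) * Y := by nlinarith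
      have h6 := Real.log_le_log (by linarith) this
      rw [Real.log_mul (by linarith) hY0.ne'] at h6
      linarith
    have hp1 : 1 ≤ Y ^ (ε / 2) := Real.one_le_rpow (by linarith) (by positivity)
    have hp2 : 1 ≤ Y ^ κ := Real.one_le_rpow (by linarith) hκ0.le
    have h6 : Y ^ (κ + ε) = Y ^ κ * (Y ^ (ε / 2) * Y ^ (ε / 2)) := by
      rw [← Real.rpow_add hY0, ← Real.rpow_add hY0]; ring_nf
    have h7 : (2 * Y) ^ κ = 2 ^ κ * Y ^ κ := Real.mul_rpow (by norm_num) hY0.le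
    rw [h6, h7]
    set P := Y ^ κ
    set Q := Y ^ (ε / 2)
    have hlK : 0 ≤ Real.log (K0 + 2) := Real.log_nonneg (by linarith)
    have hs : 0 ≤ √C1 := Real.sqrt_nonneg _
    have h2κ : (0 : ℝ) < 2 ^ κ := by positivity
    calc 7 * √C1 * (2 ^ κ * P * Real.log (2 * Y)) + 1 + Real.log (K0 + 2 * Y)
        ≤ 7 * √C1 * (2 ^ κ * P * (2 * Q)) + 1 + (Real.log (K0 + 2) + Q) := by gcongr
      _ ≤ 7 * √C1 * (2 ^ κ * P * (2 * Q)) + (3 + Real.log (K0 + 2)) * (P * Q) := by
          have hPQ : 1 ≤ P * Q := by nlinarith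
          have hPQ2 : Q ≤ P * Q := by nlinarith
          nlinarith
      _ = (7 * √C1 * (2 ^ κ * 2) + (3 + Real.log (K0 + 2))) * (P * Q) := by ring
      _ ≤ Q * (P * Q) := by gcongr
      _ = _ := by ring
  filter_upwards [hA, eventually_ge_atTop 1] with Y hY hY1 S hS
  have hl : 0 ≤ Real.log (2 * Y) := Real.log_nonneg (by linarith)
  have h1 := hup S Y (7 * √C1 * ((2 * Y) ^ κ * Real.log (2 * Y))) (by linarith) (by positivity) hS ?_
  · exact h1.trans (Real.exp_le_exp.2 hY)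
  · intro x hx hxY
    have hx1 : (1 : ℝ) ≤ x := by exact_mod_cast (by omega : 1 ≤ x)
    have hx0' : (0 : ℝ) < x := by linarith
    have h2 : √(C1 * (x : ℝ) ^ (-a)) = √C1 * (x : ℝ) ^ (-(a / 2)) := by
      rw [Real.sqrt_mul hC10.le, Real.sqrt_eq_rpow ((x : ℝ) ^ (-a)), ← Real.rpow_mul hx0'.le]
      congr 2; ring
    have h3 : (x : ℝ) ^ (-(a / 2)) * x = (x : ℝ) ^ κ := by
      rw [hκ, show 1 - a / 2 = -(a / 2) + 1 by ring, Real.rpow_add hx0', Real.rpow_one]
    have h4 : (x : ℝ) ^ κ ≤ (2 * Y) ^ κ := Real.rpow_le_rpow hx0'.le hxY hκ0.le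
    have h5 : Real.log x ≤ Real.log (2 * Y) := Real.log_le_log hx0' hxY
    have h6 : 0 ≤ Real.log x := Real.log_nonneg hx1
    rw [h2]
    calc 7 * (√C1 * (x : ℝ) ^ (-(a / 2))) * (x * Real.log x)
        = 7 * √C1 * (((x : ℝ) ^ (-(a / 2)) * x) * Real.log x) := by ring
      _ = 7 * √C1 * ((x : ℝ) ^ κ * Real.log x) := by rw [h3]
      _ ≤ _ := by gcongr

/-- **unconditional upper bound** -/
theorem upper_uncond (k : ℕ) : ∀ᶠ Y : ℝ in atTop, ∀ S : Finset ℕ,
    (∀ n ∈ S, n ≠ 0 ∧ Real.log n ≤ Y ∧ Exc n) → (S.card : ℝ) ≤ Real.exp (Y / Real.log Y ^ k) := by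
  set W : ℕ := 2 * (k + 2) with hW
  obtain ⟨C, hC, h⟩ := EE_bound (W + 1)
  set C1 : ℝ := 6 * C + 4 * (W.factorial : ℝ) with hC1
  have hC10 : 0 < C1 := by positivity
  have hδ : ∀ᶠ x : ℕ in atTop, 0 < C1 / Real.log x ^ W ∧ C1 / Real.log x ^ W ≤ 1 ∧
      fN x + 4 / x ≤ C1 / Real.log x ^ W := by
    have hWne : W ≠ 0 := by omega
    have e1 : Tendsto (fun x : ℕ => C1 / Real.log x ^ W) atTop (𝓝 0) :=
      (((tendsto_pow_atTop hWne).comp natlog_tendsto)).const_div_atTop C1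
    filter_upwards [e1.eventually_le_const one_pos, natlog_tendsto.eventually EE_small,
      natlog_tendsto.eventually_ge_atTop 2, eventually_ge_atTop 1] with x h1 h2 h3 h4
    have hx0 : (0 : ℝ) < x := by exact_mod_cast h4
    refine ⟨by positivity, h1, ?_⟩
    have h5 := ff_le h3 h2
    rw [← fN_eq h4] at h5
    have h6 := h (Real.log x) (by linarith)
    have h7 := kv_le hC.le h (u := Real.log x) (by linarith)
    set u := Real.log x with hu
    have hu0 : 0 < u := by linarith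
    have h8 : C / (1 + u) ^ (W + 1) ≤ C / u ^ W := by
      have : u ^ W ≤ (1 + u) ^ (W + 1) := by
        calc u ^ W ≤ (1 + u) ^ W := pow_le_pow_left₀ hu0.le (by linarith) _
          _ ≤ (1 + u) ^ (W + 1) := pow_le_pow_right₀ (by linarith) (by omega)
      gcongr
    have h9 : C / (1 + u) ^ W * (1 / u) ≤ C / u ^ W := by
      have h10 : C / (1 + u) ^ W ≤ C / u ^ W := by gcongr; linarith
      have h11 : 1 / u ≤ 1 := by rw [div_le_one hu0]; linarith
      have h12 : 0 ≤ C / u ^ W := by positivity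
      calc C / (1 + u) ^ W * (1 / u) ≤ C / u ^ W * 1 := mul_le_mul h10 h11 (by positivity) h12
        _ = _ := mul_one _
    have h10 : 4 / (x : ℝ) ≤ 4 * (W.factorial : ℝ) / u ^ W := by
      have h11 := Real.pow_div_factorial_le_exp u hu0.le W
      rw [hu, Real.exp_log hx0, ← hu, div_le_iff₀ (by positivity)] at h11
      rw [div_le_div_iff₀ hx0 (by positivity)]
      linarith
    have h12 : C1 / u ^ W = 5 * (C / u ^ W) + C / u ^ W + 4 * (W.factorial : ℝ) / u ^ W := by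
      rw [hC1]; ring
    rw [h12]
    linarith
  obtain ⟨x0, hx3, hth1, hth, hx0⟩ := start _ hδ
  obtain ⟨K0, hK0, hup⟩ := upper_assemble (fun x => C1 / Real.log x ^ W) x0 hx3 hth hth1 hx0
  have hsq : ∀ x : ℕ, 3 ≤ x → 7 * √(C1 / Real.log x ^ W) * (x * Real.log x) =
      7 * √C1 * (x / Real.log x ^ (k + 1)) := by
    intro x hx
    have hx1 : (1 : ℝ) < x := by exact_mod_cast (by omega : 1 < x)
    have hl : 0 < Real.log x := Real.log_pos hx1
    have h1 : √(C1 / Real.log x ^ W) = √C1 / Real.log x ^ (k + 2) := by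
      rw [Real.sqrt_div hC10.le, hW, mul_comm 2 (k + 2), pow_mul, Real.sqrt_sq (by positivity)]
    rw [h1, pow_succ (Real.log x) (k + 1)]
    field_simp
  set A : ℝ → ℝ := fun Y => 7 * √C1 * (√Y + 2 * Y * 2 ^ (k + 1) / Real.log Y ^ (k + 1)) with hAdef
  have hA : ∀ᶠ Y : ℝ in atTop, A Y + 1 + Real.log (K0 + 2 * Y) ≤ Y / Real.log Y ^ k := by
    set B : ℝ := 7 * √C1 * (1 + 2 * 2 ^ (k + 1)) + (3 + Real.log (K0 + 2)) with hB
    have hlK : 0 ≤ Real.log (K0 + 2) := Real.log_nonneg (by linarith)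
    have hB0 : 0 ≤ B := by positivity
    -- log^{k+1} Y ≤ √Y
    have e1 : ∀ᶠ Y : ℝ in atTop, Real.log Y ^ (k + 1) ≤ √Y := by
      have := (Real.isLittleO_pow_log_id_atTop (n := 2 * (k + 1))).bound (one_pos)
      filter_upwards [this, eventually_ge_atTop 1] with Y hY hY1
      simp only [one_mul, Real.norm_eq_abs, id] at hY
      rw [abs_of_nonneg (pow_nonneg (Real.log_nonneg hY1) _), abs_of_nonneg (by linarith)] at hY
      refine Real.le_sqrt_of_sq_le ?_
      rw [← pow_mul, mul_comm (k + 1) 2]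
      exact hY
    filter_upwards [e1, Real.tendsto_log_atTop.eventually_ge_atTop (max 1 B), eventually_ge_atTop 2] with Y h1 h2 h3
    have hY0 : 0 < Y := by linarith
    have hl1 : 1 ≤ Real.log Y := (le_max_left _ _).trans h2
    have hlB : B ≤ Real.log Y := (le_max_right _ _).trans h2
    have hl0 : 0 < Real.log Y := by linarith
    set L := Real.log Y with hL
    set Z := Y / L ^ (k + 1) with hZ
    have hs := Real.mul_self_sqrt hY0.le
    have hs0 : 0 < √Y := Real.sqrt_pos.2 hY0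
    have hZs : √Y ≤ Z := by
      rw [hZ, le_div_iff₀ (by positivity)]
      nlinarith
    have hs1 : L ≤ √Y := by
      refine le_trans ?_ h1
      calc L = L ^ 1 := (pow_one L).symm
        _ ≤ L ^ (k + 1) := pow_le_pow_right₀ hl1 (by omega)
    have hZ1 : 1 ≤ Z := by linarith
    have hZL : L ≤ Z := by linarith
    have h5 : Real.log (K0 + 2 * Y) ≤ Real.log (K0 + 2) + L := by
      have : K0 + 2 * Y ≤ (K0 + 2) * Y := by nlinarith
      have h6 := Real.log_le_log (by linarith) this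
      rw [Real.log_mul (by linarith) hY0.ne'] at h6
      exact h6
    have h6 : Y / L ^ k = L * Z := by
      rw [hZ, pow_succ]
      field_simp
    have h7 : A Y ≤ 7 * √C1 * (Z + 2 * 2 ^ (k + 1) * Z) := by
      simp only [hAdef]
      have : 2 * Y * 2 ^ (k + 1) / Real.log Y ^ (k + 1) = 2 * 2 ^ (k + 1) * Z := by
        rw [hZ]; ring
      rw [this]
      gcongr
    rw [h6]
    calc A Y + 1 + Real.log (K0 + 2 * Y) ≤ 7 * √C1 * (Z + 2 * 2 ^ (k + 1) * Z) + Z +
          (Real.log (K0 + 2) * Z + Z) := by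
          have : Real.log (K0 + 2) ≤ Real.log (K0 + 2) * Z := by nlinarith
          linarith
      _ ≤ B * Z := by rw [hB]; nlinarith
      _ ≤ L * Z := by gcongr
  filter_upwards [hA, eventually_gt_atTop (Real.exp 1)] with Y hY hY1 S hS
  have hY2 : 1 < Y := by
    have := Real.exp_one_gt_d9; linarith
  have hl : 0 < Real.log Y := Real.log_pos hY2
  have hA0 : 0 ≤ A Y := by simp only [hAdef]; positivity
  refine (hup S Y (A Y) (by linarith) hA0 hS fun x hx hxY => ?_).trans (Real.exp_le_exp.2 hY)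
  rw [hsq x (hx3.trans hx)]
  simp only [hAdef]
  refine mul_le_mul_of_nonneg_left ?_ (by positivity)
  have hx3' : (3 : ℝ) ≤ x := by exact_mod_cast hx3.trans hx
  have hlx : 1 ≤ Real.log x := by
    rw [Real.le_log_iff_exp_le (by linarith)]
    exact Real.exp_one_lt_d9.le.trans (by linarith)
  rcases le_total (x : ℝ) (√Y) with h1 | h1
  · have h2 : (x : ℝ) / Real.log x ^ (k + 1) ≤ x := by
      rw [div_le_iff₀ (by positivity)]
      have : 1 ≤ Real.log x ^ (k + 1) := one_le_pow₀ hlx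
      nlinarith
    have h3 : 0 ≤ 2 * Y * 2 ^ (k + 1) / Real.log Y ^ (k + 1) := by positivity
    linarith
  · have h2 : Real.log Y / 2 ≤ Real.log x := by
      have h3 : Real.log (√Y) = Real.log Y / 2 := Real.log_sqrt (by linarith)
      rw [← h3]
      exact Real.log_le_log (Real.sqrt_pos.2 (by linarith)) h1
    have h3 : (Real.log Y / 2) ^ (k + 1) ≤ Real.log x ^ (k + 1) := pow_le_pow_left₀ (by linarith) h2 _
    have h4 : (x : ℝ) / Real.log x ^ (k + 1) ≤ 2 * Y / (Real.log Y / 2) ^ (k + 1) := by gcongr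
    have h5 : 2 * Y / (Real.log Y / 2) ^ (k + 1) = 2 * Y * 2 ^ (k + 1) / Real.log Y ^ (k + 1) := by
      rw [div_pow]; field_simp
    rw [h5] at h4
    have := Real.sqrt_nonneg Y
    linarith

end

end Pool.Agent.N964
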