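import Mathlib

/-! The weights `u^n exp(-cu) / n!`. -/

set_option autoImplicit false

open MeasureTheory Filter Topology

namespace Pool.Agent.N964

noncomputable section

/-- the weight -/
def wt (c : ℝ) (n : ℕ) (u : ℝ) : ℝ := u ^ n / n.factorial * Real.exp (-(c * u))

lemma wt_cont (c : ℝ) (n : ℕ) : Continuous (wt c n) := by unfold wt; fun_prop

lemma wt_nonneg (c : ℝ) (n : ℕ) {u : ℝ} (hu : 0 ≤ u) : 0 ≤ wt c n u := by unfold wt; positivity

lemma wt_zero (c : ℝ) (n : ℕ) : wt c (n + 1) 0 = 0 := by unfold wt; simp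

lemma wt_int {c : ℝ} (hc : 0 < c) (n : ℕ) : IntegrableOn (wt c n) (Set.Ioi 0) := by
  have h := Real.GammaIntegral_convergent (s := n + 1) (by positivity)
  have h1 : IntegrableOn (fun u => Real.exp (-(c * u)) * (c * u) ^ ((n : ℝ) + 1 - 1)) (Set.Ioi 0) := by
    have := (integrableOn_Ioi_comp_mul_left_iff
      (fun x : ℝ => Real.exp (-x) * x ^ ((n : ℝ) + 1 - 1)) 0 hc).2 (by simpa using h)
    simpa using this
  have h2 : IntegrableOn (fun u => ((1 / c) ^ n / n.factorial) *
      (Real.exp (-(c * u)) * (c * u) ^ ((n : ℝ) + 1 - 1))) (Set.Ioi 0) := h1.const_mul _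
  refine h2.congr_fun (fun u hu => ?_) measurableSet_Ioi
  have hu : 0 < u := hu
  simp only [add_sub_cancel_right, Real.rpow_natCast]
  unfold wt
  rw [mul_pow, one_div, inv_pow]
  have : c ^ n ≠ 0 := by positivity
  field_simp

lemma wt_val {c : ℝ} (hc : 0 < c) (n : ℕ) : ∫ u in Set.Ioi 0, wt c n u = (1 / c) ^ (n + 1) := by
  have h := Real.integral_rpow_mul_exp_neg_mul_Ioi (a := n + 1) (r := c) (by positivity) hc
  have h1 : ∫ u in Set.Ioi 0, wt c n u =
      (1 / (n.factorial : ℝ)) * ∫ u in Set.Ioi 0, u ^ ((n : ℝ) + 1 - 1) * Real.exp (-(c * u)) := by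
    rw [← integral_const_mul]
    refine setIntegral_congr_fun measurableSet_Ioi fun u hu => ?_
    simp only [add_sub_cancel_right, Real.rpow_natCast]
    unfold wt
    ring
  rw [h1, h, Real.Gamma_nat_eq_factorial]
  have h2 : (1 / c) ^ ((n : ℝ) + 1) = (1 / c) ^ (n + 1) := by
    rw [← Real.rpow_natCast]; push_cast; rfl
  rw [h2]
  have : (n.factorial : ℝ) ≠ 0 := by positivity
  field_simp

lemma wt_deriv (c : ℝ) (n : ℕ) (u : ℝ) :
    HasDerivAt (wt c (n + 1)) (wt c n u - c * wt c (n + 1) u) u := by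
  have h1 : HasDerivAt (fun u : ℝ => u ^ (n + 1) / ((n + 1).factorial : ℝ))
      (((n + 1 : ℕ) : ℝ) * u ^ n / ((n + 1).factorial : ℝ)) u := by
    have := (hasDerivAt_pow (n + 1) u).div_const ((n + 1).factorial : ℝ)
    simpa using this
  have h2 : HasDerivAt (fun u : ℝ => Real.exp (-(c * u))) (Real.exp (-(c * u)) * (-(c * 1))) u :=
    (((hasDerivAt_id' u).const_mul c).neg).exp
  have h3 := h1.mul h2
  refine h3.congr_deriv ?_
  unfold wt
  rw [Nat.factorial_succ]
  push_cast
  have : (n.factorial : ℝ) ≠ 0 := by positivity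
  field_simp
  ring

lemma wt_exp (c s : ℝ) (n : ℕ) (u : ℝ) : Real.exp (s * u) * wt c n u = wt (c - s) n u := by
  unfold wt
  rw [mul_left_comm, ← Real.exp_add]
  congr 2
  ring

lemma wt_tail_low {c s M : ℝ} (hc : 0 < c) (hs : 0 ≤ s) (n : ℕ) :
    ∫ u in Set.Ioc 0 M, wt c n u ≤ Real.exp (s * M) * (1 / (c + s)) ^ (n + 1) := by
  have h1 : ∫ u in Set.Ioc 0 M, wt c n u ≤ ∫ u in Set.Ioc 0 M, Real.exp (s * M) * wt (c + s) n u := by
    refine setIntegral_mono_on ((wt_int hc n).mono_set Set.Ioc_subset_Ioi_self)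
      (((wt_int (by linarith) n).mono_set Set.Ioc_subset_Ioi_self).const_mul _) measurableSet_Ioc ?_
    intro u hu
    have h2 := wt_exp c (-s) n u
    rw [sub_neg_eq_add] at h2
    rw [← h2, ← mul_assoc, ← Real.exp_add]
    have h3 : 1 ≤ Real.exp (s * M + -s * u) := by
      apply Real.one_le_exp
      have := hu.2
      nlinarith
    have h4 := wt_nonneg c n hu.1.le
    nlinarith
  refine h1.trans ?_
  rw [integral_const_mul, ← wt_val (by linarith : 0 < c + s) n]
  refine mul_le_mul_of_nonneg_left ?_ (Real.exp_pos _).le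
  refine setIntegral_mono_set (wt_int (by linarith) n) ?_ (Set.Ioc_subset_Ioi_self).eventuallyLE
  filter_upwards [ae_restrict_mem measurableSet_Ioi] with u hu
  exact wt_nonneg _ _ (le_of_lt hu)

lemma wt_tail_high {c s U : ℝ} (hc : 0 < c) (hs : 0 ≤ s) (hsc : s < c) (hU : 0 ≤ U) (n : ℕ) :
    ∫ u in Set.Ioi U, wt c n u ≤ Real.exp (-(s * U)) * (1 / (c - s)) ^ (n + 1) := by
  have h1 : ∫ u in Set.Ioi U, wt c n u ≤ ∫ u in Set.Ioi U, Real.exp (-(s * U)) * wt (c - s) n u := by
    refine setIntegral_mono_on ((wt_int hc n).mono_set (Set.Ioi_subset_Ioi hU))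
      (((wt_int (by linarith) n).mono_set (Set.Ioi_subset_Ioi hU)).const_mul _) measurableSet_Ioi ?_
    intro u hu
    have hu : U < u := hu
    rw [← wt_exp, ← mul_assoc, ← Real.exp_add]
    have h3 : 1 ≤ Real.exp (-(s * U) + s * u) := by
      apply Real.one_le_exp
      nlinarith
    have h4 := wt_nonneg c n (hU.trans hu.le)
    nlinarith
  refine h1.trans ?_
  rw [integral_const_mul, ← wt_val (by linarith : 0 < c - s) n]
  refine mul_le_mul_of_nonneg_left ?_ (Real.exp_pos _).le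
  refine setIntegral_mono_set (wt_int (by linarith) n) ?_ (Set.Ioi_subset_Ioi hU).eventuallyLE
  filter_upwards [ae_restrict_mem measurableSet_Ioi] with u hu
  exact wt_nonneg _ _ (le_of_lt hu)

end

end Pool.Agent.N964
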