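import Pool.Agent.N964.B9

/-! Localized oscillation of `kv`. -/

set_option autoImplicit false

open MeasureTheory Filter Topology Complex
open Pool.Agent.H295R2 (Zs Zs_eq)

namespace Pool.Agent.N964

noncomputable section

/-- choice of the center -/
lemma choose_c {b : ℝ} (hb0 : 0 < b)
    (hb : 1 / 2 < b ∨ ∃ ρ : ℂ, riemannZeta ρ = 0 ∧ 1 - b < ρ.re) (c₀ : ℝ) :
    ∃ c : ℝ, 0 < c ∧ c₀ ≤ c ∧ ∀ R₀ : ℝ, R₀ ≤ c + 1 / 2 → (∀ ρ, Zs ρ = 0 → R₀ ≤ ‖ρ - (c + 1)‖) → R₀ < c + b := by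
  rcases hb with hb | ⟨ρ, hρ, hre⟩
  · exact ⟨max c₀ 1, by positivity, le_max_left _ _, fun R₀ h1 _ => by linarith⟩
  · have hρ1 : ρ ≠ 1 := by
      rintro rfl
      exact riemannZeta_ne_zero_of_one_le_re (by simp) hρ
    have hZ : Zs ρ = 0 := by rw [← Zs_eq hρ1, hρ, mul_zero]
    have hd : 0 < b - 1 + ρ.re := by linarith
    have hre1 : ρ.re < 1 := by
      by_contra hcon
      push Not at hcon
      exact riemannZeta_ne_zero_of_one_le_re hcon hρ
    set c := max c₀ (ρ.im ^ 2 / (b - 1 + ρ.re) + 1) with hc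
    have hq0 : 0 ≤ ρ.im ^ 2 / (b - 1 + ρ.re) := by positivity
    have hc1 : ρ.im ^ 2 / (b - 1 + ρ.re) + 1 ≤ c := le_max_right _ _
    have hc0 : 0 < c := by linarith
    refine ⟨c, hc0, le_max_left _ _, fun R₀ _ h2 => lt_of_le_of_lt (h2 ρ hZ) ?_⟩
    have h3 : ρ.im ^ 2 < c * (b - 1 + ρ.re) := by
      rw [← div_lt_iff₀ hd]; linarith
    have h4 : ‖ρ - (c + 1)‖ ^ 2 < (c + b) ^ 2 := by
      rw [← Complex.normSq_eq_norm_sq, Complex.normSq_apply]
      have e1 : (ρ - ((c : ℂ) + 1)).re = ρ.re - (c + 1) := by simp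
      have e2 : (ρ - ((c : ℂ) + 1)).im = ρ.im := by simp
      rw [e1, e2]
      nlinarith
    exact lt_of_pow_lt_pow_left₀ 2 (by linarith) h4

/-- the numerical inequality for the lower tail -/
lemma tail_num1 {c δ : ℝ} (hc : 32 / δ ^ 2 ≤ c) (hδ : 0 < δ) (hδ1 : δ ≤ 1 / 2) {R₀ U : ℝ} (hR0 : 0 < R₀)
    (hR : R₀ ≤ c + 1 / 2) (hU : 0 ≤ U) {m : ℕ} (hm : (1 - δ / 2) * (c * U) - 1 ≤ m) :
    Real.exp (δ * c / 4 * ((1 - δ) * U)) * (1 / (c + δ * c / 4)) ^ m * R₀ ^ m ≤ Real.exp (-U + 1) := by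
  have hδ2 : 0 < δ ^ 2 := by positivity
  have hcδ : 32 ≤ c * δ ^ 2 := by rwa [div_le_iff₀ hδ2] at hc
  have hc0 : 0 < c := by
    by_contra hcon
    push Not at hcon
    nlinarith
  set s := δ * c / 4 with hs
  have hs0 : 1 / 2 < s := by
    rw [hs]; nlinarith
  have hcs : 0 < c + s := by linarith
  have h1 : (1 / (c + s)) ^ m * R₀ ^ m ≤ Real.exp (-((s - 1 / 2) / (c + s))) ^ m := by
    rw [← mul_pow]
    refine pow_le_pow_left₀ (by positivity) ?_ m
    have h2 := Real.add_one_le_exp (-((s - 1 / 2) / (c + s)))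
    refine le_trans ?_ h2
    have h3 : -((s - 1 / 2) / (c + s)) + 1 = (c + 1 / 2) / (c + s) := by
      field_simp; ring
    rw [h3, one_div_mul_eq_div]
    gcongr
  rw [← Real.exp_nat_mul] at h1
  calc Real.exp (s * ((1 - δ) * U)) * (1 / (c + s)) ^ m * R₀ ^ m
      = Real.exp (s * ((1 - δ) * U)) * ((1 / (c + s)) ^ m * R₀ ^ m) := by ring
    _ ≤ Real.exp (s * ((1 - δ) * U)) * Real.exp (m * -((s - 1 / 2) / (c + s))) := by gcongr
    _ = Real.exp (s * ((1 - δ) * U) + m * -((s - 1 / 2) / (c + s))) := by rw [Real.exp_add]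
    _ ≤ _ := by
        refine Real.exp_le_exp.2 ?_
        have h4 : 0 ≤ (s - 1 / 2) / (c + s) := by
          have : 0 ≤ s - 1 / 2 := by linarith
          positivity
        have h5 : ((1 - δ / 2) * (c * U) - 1) * ((s - 1 / 2) / (c + s)) ≤ m * ((s - 1 / 2) / (c + s)) :=
          mul_le_mul_of_nonneg_right hm h4
        have h6 : (s - 1 / 2) / (c + s) ≤ 1 := by
          rw [div_le_one hcs]; linarith
        have h7 : (1 - δ / 2) * (c * U) * ((s - 1 / 2) / (c + s)) ≥ U * ((s - 1 / 2) * (1 - 3 * δ / 4)) := by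
          have h8 : (1 - δ / 2) * (c * U) * ((s - 1 / 2) / (c + s)) =
              U * ((s - 1 / 2) * ((1 - δ / 2) / (1 + δ / 4))) := by
            have : c + s = c * (1 + δ / 4) := by rw [hs]; ring
            rw [this]
            field_simp
          rw [h8]
          have h9 : 1 - 3 * δ / 4 ≤ (1 - δ / 2) / (1 + δ / 4) := by
            rw [le_div_iff₀ (by linarith)]
            nlinarith
          have h10 : 0 ≤ s - 1 / 2 := by linarith
          gcongr
        have h11 : s * ((1 - δ) * U) - U * ((s - 1 / 2) * (1 - 3 * δ / 4)) ≤ -U := by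
          have h12 : s * (1 - δ) - (s - 1 / 2) * (1 - 3 * δ / 4) ≤ -1 := by
            have h13 : s * δ = c * δ ^ 2 / 4 := by rw [hs]; ring
            nlinarith
          nlinarith
        nlinarith

/-- the numerical inequality for the upper tail -/
lemma tail_num2 {c δ : ℝ} (hc : 32 / δ ^ 2 ≤ c) (hδ : 0 < δ) (hδ1 : δ ≤ 1 / 2) {R₀ U : ℝ} (hR0 : 0 < R₀)
    (hR : R₀ ≤ c + 1 / 2) (hU : 0 ≤ U) {m L : ℕ} (hm : (m : ℝ) ≤ (1 - δ / 2) * (c * U) + L) :
    Real.exp (-(δ * c / 4 * U)) * (1 / (c - δ * c / 4)) ^ m * R₀ ^ m ≤ Real.exp (-U + L) := by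
  have hδ2 : 0 < δ ^ 2 := by positivity
  have hcδ : 32 ≤ c * δ ^ 2 := by rwa [div_le_iff₀ hδ2] at hc
  have hc0 : 0 < c := by
    by_contra hcon
    push Not at hcon
    nlinarith
  have hc64 : 64 ≤ c := by nlinarith
  set s := δ * c / 4 with hs
  have hs0 : 1 / 2 < s := by
    rw [hs]; nlinarith
  have hs8 : s ≤ c / 8 := by rw [hs]; nlinarith
  have hcs : 0 < c - s := by linarith
  have h1 : (1 / (c - s)) ^ m * R₀ ^ m ≤ Real.exp ((s + 1 / 2) / (c - s)) ^ m := by
    rw [← mul_pow]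
    refine pow_le_pow_left₀ (by positivity) ?_ m
    have h2 := Real.add_one_le_exp ((s + 1 / 2) / (c - s))
    refine le_trans ?_ h2
    have h3 : (s + 1 / 2) / (c - s) + 1 = (c + 1 / 2) / (c - s) := by
      field_simp; ring
    rw [h3, one_div_mul_eq_div]
    gcongr
  rw [← Real.exp_nat_mul] at h1
  calc Real.exp (-(s * U)) * (1 / (c - s)) ^ m * R₀ ^ m
      = Real.exp (-(s * U)) * ((1 / (c - s)) ^ m * R₀ ^ m) := by ring
    _ ≤ Real.exp (-(s * U)) * Real.exp (m * ((s + 1 / 2) / (c - s))) := by gcongr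
    _ = Real.exp (-(s * U) + m * ((s + 1 / 2) / (c - s))) := by rw [Real.exp_add]
    _ ≤ _ := by
        refine Real.exp_le_exp.2 ?_
        have h4 : 0 ≤ (s + 1 / 2) / (c - s) := by positivity
        have h5 : m * ((s + 1 / 2) / (c - s)) ≤ ((1 - δ / 2) * (c * U) + L) * ((s + 1 / 2) / (c - s)) :=
          mul_le_mul_of_nonneg_right hm h4
        have h6 : (s + 1 / 2) / (c - s) ≤ 1 := by
          rw [div_le_one hcs]; linarith
        have h7 : (1 - δ / 2) * (c * U) * ((s + 1 / 2) / (c - s)) ≤ U * ((s + 1 / 2) * (1 - δ / 4)) := by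
          have h8 : (1 - δ / 2) * (c * U) * ((s + 1 / 2) / (c - s)) =
              U * ((s + 1 / 2) * ((1 - δ / 2) / (1 - δ / 4))) := by
            have : c - s = c * (1 - δ / 4) := by rw [hs]; ring
            rw [this]
            have : 1 - δ / 4 ≠ 0 := by linarith
            field_simp
          rw [h8]
          have h9 : (1 - δ / 2) / (1 - δ / 4) ≤ 1 - δ / 4 := by
            rw [div_le_iff₀ (by linarith)]
            nlinarith
          gcongr
        have h11 : -(s * U) + U * ((s + 1 / 2) * (1 - δ / 4)) ≤ -U := by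
          have h12 : -s + (s + 1 / 2) * (1 - δ / 4) ≤ -1 := by
            have h13 : s * δ = c * δ ^ 2 / 4 := by rw [hs]; ring
            nlinarith
          nlinarith
        have hL : (0 : ℝ) ≤ L := Nat.cast_nonneg L
        nlinarith

/-- **localized oscillation** -/
theorem osc {b δ : ℝ} (hb0 : 0 < b) (hb : 1 / 2 < b ∨ ∃ ρ : ℂ, riemannZeta ρ = 0 ∧ 1 - b < ρ.re)
    (hδ : 0 < δ) (hδ1 : δ ≤ 1 / 2) :
    ∀ᶠ U : ℝ in atTop, ∃ u, (1 - δ) * U ≤ u ∧ u ≤ U ∧ kv u < -Real.exp (-(b * u)) := by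
  obtain ⟨c, hc0, hcc, hcR⟩ := choose_c hb0 hb (32 / δ ^ 2)
  obtain ⟨R₀, h1, h2, h3, η, hη, L, N, hblock⟩ := neg_block hc0
  have hRb : R₀ < c + b := hcR R₀ h2 h3
  have hR0 : 0 < R₀ := hc0.trans h1
  obtain ⟨B, hB, hkB⟩ := kw_bdd
  set s := δ * c / 4 with hs
  have hs0 : 0 < s := by positivity
  have hsc : s < c := by rw [hs]; nlinarith
  -- the main error tends to zero
  have hmain : ∀ᶠ m : ℕ in atTop, (m + 1 : ℝ) * R₀ ^ m * (1 / (c + b)) ^ (m + 1) < η / 2 := by
    have hr : 0 ≤ R₀ / (c + b) := by positivity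
    have hr1 : R₀ / (c + b) < 1 := by rw [div_lt_one (by linarith)]; exact hRb
    have t1 := tendsto_self_mul_const_pow_of_lt_one hr hr1
    have t2 := tendsto_pow_atTop_nhds_zero_of_lt_one hr hr1
    have t3 := (t1.add t2).const_mul (1 / (c + b))
    rw [add_zero, mul_zero] at t3
    filter_upwards [t3.eventually_lt_const (show 0 < η / 2 by positivity)] with m hm
    refine lt_of_eq_of_lt ?_ hm
    rw [pow_succ, div_pow, div_pow, one_pow]
    ring
  have htail : ∀ᶠ U : ℝ in atTop, (c * U + L + 1) * (B * (1 / (c + s) * Real.exp (-U + 1) +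
      1 / (c - s) * Real.exp (-U + L))) < η / 2 := by
    have t1 : Tendsto (fun U : ℝ => U * Real.exp (-U)) atTop (𝓝 0) := by
      have := Real.tendsto_pow_mul_exp_neg_atTop_nhds_zero 1
      simpa using this
    have t2 : Tendsto (fun U : ℝ => Real.exp (-U)) atTop (𝓝 0) := Real.tendsto_exp_neg_atTop_nhds_zero
    set K := B * (1 / (c + s) * Real.exp 1 + 1 / (c - s) * Real.exp L) with hK
    have t3 := ((t1.const_mul c).add (t2.const_mul ((L : ℝ) + 1))).const_mul K
    rw [mul_zero, mul_zero, add_zero, mul_zero] at t3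
    filter_upwards [t3.eventually_lt_const (show 0 < η / 2 by positivity)] with U hU
    refine lt_of_eq_of_lt ?_ hU
    rw [hK, Real.exp_add, Real.exp_add]
    ring
  obtain ⟨m0, hm0⟩ := hmain.exists_forall_of_atTop
  filter_upwards [htail, eventually_ge_atTop (1 / (1 - δ)), eventually_ge_atTop ((N + m0 + 1) / ((1 - δ / 2) * c)),
    eventually_gt_atTop 0] with U hU hU1 hU2 hU0
  by_contra hcon
  push Not at hcon
  have h1δ : 0 < 1 - δ := by linarith
  have hwin : 1 ≤ (1 - δ) * U := by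
    rw [div_le_iff₀ h1δ] at hU1; linarith
  have hpos : 0 < (1 - δ / 2) * c := mul_pos (by linarith) hc0
  set n := ⌊(1 - δ / 2) * (c * U)⌋₊ with hn
  have hn0 : 0 ≤ (1 - δ / 2) * (c * U) := mul_nonneg (by linarith) (by positivity)
  have hn1 : (n : ℝ) ≤ (1 - δ / 2) * (c * U) := Nat.floor_le hn0
  have hn2 : (1 - δ / 2) * (c * U) < n + 1 := Nat.lt_floor_add_one _
  have hnN : N + m0 ≤ n := by
    rw [div_le_iff₀ hpos] at hU2
    have : ((N + m0 : ℕ) : ℝ) < n + 1 := by push_cast; linarith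
    have : N + m0 < n + 1 := by exact_mod_cast this
    omega
  obtain ⟨m, hm1, hm2, hm3⟩ := hblock n (by omega)
  have hm1r : (n : ℝ) ≤ m := by exact_mod_cast hm1
  have hm2r : (m : ℝ) ≤ n + L := by exact_mod_cast hm2
  -- lower bound for the average
  have hW0 : 0 ≤ (1 - δ) * U := by linarith
  have hWU : (1 - δ) * U ≤ U := by nlinarith
  have hlow : -((1 / (c + b)) ^ (m + 1) + B * (Real.exp (s * ((1 - δ) * U)) * (1 / (c + s)) ^ (m + 1) +
      Real.exp (-(s * U)) * (1 / (c - s)) ^ (m + 1))) ≤ an c m := by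
    have hi := an_int hc0 m
    have hw := wt_int hc0 m
    have hsplit : an c m = (∫ u in Set.Ioc 0 ((1 - δ) * U), kw u * wt c m u) +
        ((∫ u in Set.Ioc ((1 - δ) * U) U, kw u * wt c m u) + ∫ u in Set.Ioi U, kw u * wt c m u) := by
      unfold an
      rw [← setIntegral_union (Set.Ioc_disjoint_Ioi le_rfl) measurableSet_Ioi
        (hi.mono_set (Set.Ioc_subset_Ioi_self.trans (Set.Ioi_subset_Ioi hW0)))
        (hi.mono_set (Set.Ioi_subset_Ioi (hW0.trans hWU))), Set.Ioc_union_Ioi_eq_Ioi hWU,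
        ← setIntegral_union (Set.Ioc_disjoint_Ioi le_rfl) measurableSet_Ioi
        (hi.mono_set Set.Ioc_subset_Ioi_self)
        (hi.mono_set (Set.Ioi_subset_Ioi hW0)), Set.Ioc_union_Ioi_eq_Ioi hW0]
    have b1 : -(B * (Real.exp (s * ((1 - δ) * U)) * (1 / (c + s)) ^ (m + 1))) ≤
        ∫ u in Set.Ioc 0 ((1 - δ) * U), kw u * wt c m u := by
      have e1 : ∫ u in Set.Ioc 0 ((1 - δ) * U), -B * wt c m u ≤ ∫ u in Set.Ioc 0 ((1 - δ) * U), kw u * wt c m u := by
        refine setIntegral_mono_on ((hw.mono_set Set.Ioc_subset_Ioi_self).const_mul _)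
          (hi.mono_set Set.Ioc_subset_Ioi_self) measurableSet_Ioc fun u hu => ?_
        exact mul_le_mul_of_nonneg_right (abs_le.1 (hkB u)).1 (wt_nonneg _ _ hu.1.le)
      refine le_trans ?_ e1
      rw [integral_const_mul, neg_mul]
      exact neg_le_neg (mul_le_mul_of_nonneg_left (wt_tail_low hc0 hs0.le m) hB.le)
    have b3 : -(B * (Real.exp (-(s * U)) * (1 / (c - s)) ^ (m + 1))) ≤
        ∫ u in Set.Ioi U, kw u * wt c m u := by
      have e1 : ∫ u in Set.Ioi U, -B * wt c m u ≤ ∫ u in Set.Ioi U, kw u * wt c m u := by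
        refine setIntegral_mono_on ((hw.mono_set (Set.Ioi_subset_Ioi hU0.le)).const_mul _)
          (hi.mono_set (Set.Ioi_subset_Ioi hU0.le)) measurableSet_Ioi fun u hu => ?_
        exact mul_le_mul_of_nonneg_right (abs_le.1 (hkB u)).1 (wt_nonneg _ _ (hU0.trans hu).le)
      refine le_trans ?_ e1
      rw [integral_const_mul, neg_mul]
      exact neg_le_neg (mul_le_mul_of_nonneg_left (wt_tail_high hc0 hs0.le hsc hU0.le m) hB.le)
    have b2 : -(1 / (c + b)) ^ (m + 1) ≤ ∫ u in Set.Ioc ((1 - δ) * U) U, kw u * wt c m u := by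
      have hwb := wt_int (show 0 < c + b by linarith) m
      have hsub : Set.Ioc ((1 - δ) * U) U ⊆ Set.Ioi 0 := Set.Ioc_subset_Ioi_self.trans (Set.Ioi_subset_Ioi hW0)
      have e1 : ∫ u in Set.Ioc ((1 - δ) * U) U, -1 * wt (c + b) m u ≤
          ∫ u in Set.Ioc ((1 - δ) * U) U, kw u * wt c m u := by
        refine setIntegral_mono_on ((hwb.mono_set hsub).const_mul _)
          (hi.mono_set hsub) measurableSet_Ioc fun u hu => ?_
        have hu0 : 0 < u := lt_of_le_of_lt hW0 hu.1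
        have h5 := hcon u hu.1.le hu.2
        have h6 : kw u = kv u := by
          unfold kw
          rw [max_eq_left (by linarith [hu.1])]
        have h7 := wt_exp c (-b) m u
        rw [sub_neg_eq_add] at h7
        rw [h6, ← h7]
        have h8 : Real.exp (-b * u) = Real.exp (-(b * u)) := by rw [neg_mul]
        rw [h8]
        have h9 := wt_nonneg c m hu0.le
        nlinarith [mul_le_mul_of_nonneg_right h5 h9]
      refine le_trans ?_ e1
      rw [integral_const_mul, neg_one_mul, ← wt_val (show 0 < c + b by linarith) m]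
      refine neg_le_neg (setIntegral_mono_set hwb ?_ hsub.eventuallyLE)
      filter_upwards [ae_restrict_mem measurableSet_Ioi] with u hu
      exact wt_nonneg _ _ (le_of_lt hu)
    rw [hsplit]
    linarith
  -- contradiction
  have hmpos : 0 < (m + 1 : ℝ) * R₀ ^ m := by positivity
  have h4 := mul_le_mul_of_nonneg_left hlow hmpos.le
  have h5 := hm0 m (by omega)
  have h6 : (m + 1 : ℝ) * R₀ ^ m * (B * (Real.exp (s * ((1 - δ) * U)) * (1 / (c + s)) ^ (m + 1) +
      Real.exp (-(s * U)) * (1 / (c - s)) ^ (m + 1))) ≤ (c * U + L + 1) * (B * (1 / (c + s) * Real.exp (-U + 1) +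
      1 / (c - s) * Real.exp (-U + L))) := by
    have e1 := tail_num1 hcc hδ hδ1 hR0 h2 hU0.le (m := m) (by linarith)
    have e2 := tail_num2 hcc hδ hδ1 hR0 h2 hU0.le (m := m) (L := L) (by linarith)
    rw [← hs] at e1 e2
    have hcs : 0 < c - s := by linarith
    have hm3 : (m : ℝ) + 1 ≤ c * U + L + 1 := by
      have : (1 - δ / 2) * (c * U) ≤ c * U := by
        have : 0 ≤ c * U := by positivity
        nlinarith
      linarith
    calc (m + 1 : ℝ) * R₀ ^ m * (B * (Real.exp (s * ((1 - δ) * U)) * (1 / (c + s)) ^ (m + 1) +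
          Real.exp (-(s * U)) * (1 / (c - s)) ^ (m + 1)))
        = (m + 1 : ℝ) * (B * (1 / (c + s) * (Real.exp (s * ((1 - δ) * U)) * (1 / (c + s)) ^ m * R₀ ^ m) +
          1 / (c - s) * (Real.exp (-(s * U)) * (1 / (c - s)) ^ m * R₀ ^ m))) := by
          rw [pow_succ, pow_succ]; ring
      _ ≤ _ := by gcongr
  nlinarith

end

end Pool.Agent.N964
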