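import Pool.Agent.N964.B1
import Pool.Agent.N964.A3

/-! The averages of `kv` against the weights and their relation with those of `EE`. -/

set_option autoImplicit false

open MeasureTheory Filter Topology

namespace Pool.Agent.N964

noncomputable section

/-- `kv` made constant on the left of `1` -/
def kw (u : ℝ) : ℝ := kv (max u 1)

/-- averages of `kw` -/
def an (c : ℝ) (n : ℕ) : ℝ := ∫ u in Set.Ioi 0, kw u * wt c n u

/-- averages of `EE` on `(1, ∞)` -/
def en1 (c : ℝ) (n : ℕ) : ℝ := ∫ v in Set.Ioi 1, EE v * wt c n v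

/-- averages of `EE` -/
def en (c : ℝ) (n : ℕ) : ℝ := ∫ v in Set.Ioi 0, EE v * wt c n v

/-- primitive of the weight -/
def Wv (c : ℝ) (n : ℕ) (v : ℝ) : ℝ := ∫ u in Set.Ioc 0 v, wt c n u

lemma kw_bdd : ∃ B : ℝ, 0 < B ∧ ∀ u, |kw u| ≤ B := by
  obtain ⟨C, hC, h⟩ := EE_bound (0 + 1)
  refine ⟨C, hC, fun u => ?_⟩
  unfold kw
  have h1 : 1 ≤ max u 1 := le_max_right _ _
  have h2 := kv_le hC.le h (u := max u 1) (by linarith)
  refine h2.trans ?_
  rw [pow_zero, div_one]
  have : 1 / max u 1 ≤ 1 := by rw [div_le_one (by linarith)]; exact h1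
  nlinarith

lemma kw_eq (u : ℝ) : kw u = ∫ v in Set.Ioi 1, (if u < v then 1 else 0) * (EE v * om v) := by
  unfold kw kv
  have h1 : Set.Ioi (max u 1) = Set.Ioi 1 ∩ Set.Ioi u := by
    ext v; simp [and_comm]
  rw [h1, ← setIntegral_indicator measurableSet_Ioi]
  refine integral_congr_ae (Eventually.of_forall fun v => ?_)
  by_cases hv : u < v
  · simp [Set.indicator, hv]
  · simp [Set.indicator, hv]

lemma kw_cont_or_meas : Measurable kw := by
  have h1 : AntitoneOn (fun u : ℝ => u) Set.univ ∨ True := Or.inr trivial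
  unfold kw
  -- `kv` is continuous on `[1, ∞)`
  have hg : IntegrableOn (fun v => EE v * om v) (Set.Ioi (1 / 2)) := EEom_int (by norm_num)
  have h2 : ∀ u : ℝ, kv (max u 1) = kv 1 - ∫ v in (1 : ℝ)..(max u 1), EE v * om v := by
    intro u
    have h3 := kv_sub (a := 1) (b := max u 1) one_pos (le_max_right _ _)
    rw [intervalIntegral.integral_of_le (le_max_right _ _), h3]
    ring
  have h3 : (fun u => kv (max u 1)) = fun u => kv 1 - ∫ v in (1 : ℝ)..(max u 1), (Set.Ioi (1/2 : ℝ)).indicator
      (fun v => EE v * om v) v := by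
    funext u
    rw [h2]
    congr 1
    refine intervalIntegral.integral_congr fun v hv => ?_
    rw [Set.uIcc_of_le (le_max_right _ _)] at hv
    have : v ∈ Set.Ioi (1 / 2 : ℝ) := by
      simp only [Set.mem_Ioi]; linarith [hv.1]
    simp only [Set.indicator_of_mem this]
  rw [h3]
  have h4 : Integrable ((Set.Ioi (1/2 : ℝ)).indicator (fun v => EE v * om v)) :=
    (integrable_indicator_iff measurableSet_Ioi).2 hg
  have h5 : Continuous (fun x : ℝ => ∫ v in (1 : ℝ)..x, (Set.Ioi (1/2 : ℝ)).indicator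
      (fun v => EE v * om v) v) :=
    intervalIntegral.continuous_primitive (fun a b => h4.intervalIntegrable) 1
  exact (continuous_const.sub (h5.comp (continuous_id.max continuous_const))).measurable

lemma an_int {c : ℝ} (hc : 0 < c) (n : ℕ) : IntegrableOn (fun u => kw u * wt c n u) (Set.Ioi 0) := by
  obtain ⟨B, hB, h⟩ := kw_bdd
  refine Integrable.bdd_mul (c := B) (wt_int hc n) kw_cont_or_meas.aestronglyMeasurable ?_
  exact Eventually.of_forall fun u => h u

lemma EEwt_int {c : ℝ} (hc : 0 < c) (n : ℕ) : IntegrableOn (fun u => EE u * wt c n u) (Set.Ioi 0) := by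
  refine Integrable.bdd_mul (c := 2) (wt_int hc n) EE_meas.aestronglyMeasurable ?_
  exact Eventually.of_forall fun u => EE_crude

lemma an_eq {c : ℝ} (hc : 0 < c) (n : ℕ) : an c n = ∫ v in Set.Ioi 1, EE v * om v * Wv c n v := by
  have h1 : an c n = ∫ u in Set.Ioi 0, ∫ v in Set.Ioi 1,
      (if u < v then 1 else 0) * (EE v * om v) * wt c n u := by
    unfold an
    refine setIntegral_congr_fun measurableSet_Ioi fun u _ => ?_
    rw [kw_eq, ← integral_mul_const]
  have hint : Integrable (fun z : ℝ × ℝ => (if z.1 < z.2 then 1 else 0) * (EE z.2 * om z.2) * wt c n z.1)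
      ((volume.restrict (Set.Ioi (0 : ℝ))).prod (volume.restrict (Set.Ioi (1 : ℝ)))) := by
    have h2 : Integrable (fun z : ℝ × ℝ => wt c n z.1 * (EE z.2 * om z.2))
        ((volume.restrict (Set.Ioi (0 : ℝ))).prod (volume.restrict (Set.Ioi (1 : ℝ)))) :=
      Integrable.mul_prod (wt_int hc n) (EEom_int one_pos)
    have hm : MeasurableSet {z : ℝ × ℝ | z.1 < z.2} := measurableSet_lt measurable_fst measurable_snd
    refine (h2.indicator hm).congr (Eventually.of_forall fun z => ?_)
    by_cases hz : z.1 < z.2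
    · have : z ∈ {z : ℝ × ℝ | z.1 < z.2} := hz
      simp only [Set.indicator_of_mem this, hz, if_true]
      ring
    · have : z ∉ {z : ℝ × ℝ | z.1 < z.2} := hz
      simp only [Set.indicator_of_notMem this, hz, if_false]
      ring
  rw [h1, integral_integral_swap hint]
  refine setIntegral_congr_fun measurableSet_Ioi fun v hv => ?_
  have hv : (1 : ℝ) < v := hv
  have h3 : ∀ u : ℝ, (if u < v then (1 : ℝ) else 0) * (EE v * om v) * wt c n u =
      (EE v * om v) * (Set.Iio v).indicator (wt c n) u := by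
    intro u
    by_cases hu : u < v
    · have : u ∈ Set.Iio v := hu
      rw [Set.indicator_of_mem this, if_pos hu]; ring
    · have : u ∉ Set.Iio v := hu
      rw [Set.indicator_of_notMem this, if_neg hu]; ring
  simp only [h3]
  rw [integral_const_mul, setIntegral_indicator measurableSet_Iio]
  unfold Wv
  rw [Set.Ioi_inter_Iio, ← integral_Ioc_eq_integral_Ioo]

lemma Wv_rel (c : ℝ) (n : ℕ) {v : ℝ} (hv : 0 ≤ v) :
    c * Wv c (n + 1) v - Wv c n v = -wt c (n + 1) v := by
  unfold Wv
  have i1 : IntervalIntegrable (fun u => c * wt c (n + 1) u) volume 0 v :=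
    (continuous_const.mul (wt_cont c (n + 1))).intervalIntegrable _ _
  have i2 : IntervalIntegrable (fun u => wt c n u) volume 0 v := (wt_cont c n).intervalIntegrable _ _
  rw [← intervalIntegral.integral_of_le hv, ← intervalIntegral.integral_of_le hv,
    ← intervalIntegral.integral_const_mul, ← intervalIntegral.integral_sub i1 i2]
  have h := intervalIntegral.integral_eq_sub_of_hasDerivAt (f := fun u => -wt c (n + 1) u)
    (f' := fun u => c * wt c (n + 1) u - wt c n u) (a := 0) (b := v)
    (fun u _ => ((wt_deriv c n u).neg).congr_deriv (by ring))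
    (((continuous_const.mul (wt_cont c (n + 1))).sub (wt_cont c n)).intervalIntegrable _ _)
  rw [h, wt_zero]
  ring

lemma om_wt (c : ℝ) (n : ℕ) {v : ℝ} (hv : 0 < v) : om v * wt c (n + 2) v =
    wt c n v / ((n + 1) * (n + 2)) + wt c (n + 1) v / (n + 2) := by
  unfold om wt
  rw [Nat.factorial_succ, Nat.factorial_succ]
  push_cast
  have : (n.factorial : ℝ) ≠ 0 := by positivity
  have h1 : (n : ℝ) + 1 ≠ 0 := by positivity
  have h2 : (n : ℝ) + 2 ≠ 0 := by positivity
  have h3 : (n : ℝ) + 1 + 1 ≠ 0 := by positivity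
  field_simp
  ring

/-- the relation between the averages -/
theorem rel {c : ℝ} (hc : 0 < c) (n : ℕ) : c * an c (n + 2) - an c (n + 1) =
    -(en1 c n / ((n + 1) * (n + 2)) + en1 c (n + 1) / (n + 2)) := by
  have hWb : ∀ m : ℕ, ∀ v : ℝ, |Wv c m v| ≤ (1 / c) ^ (m + 1) := by
    intro m v
    unfold Wv
    have h0 : 0 ≤ ∫ u in Set.Ioc 0 v, wt c m u :=
      setIntegral_nonneg measurableSet_Ioc fun u hu => wt_nonneg _ _ hu.1.le
    rw [abs_of_nonneg h0, ← wt_val hc m]
    refine setIntegral_mono_set (wt_int hc m) ?_ (Set.Ioc_subset_Ioi_self).eventuallyLE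
    filter_upwards [ae_restrict_mem measurableSet_Ioi] with u hu
    exact wt_nonneg _ _ (le_of_lt hu)
  have hWm : ∀ m : ℕ, AEStronglyMeasurable (Wv c m) (volume.restrict (Set.Ioi (1 : ℝ))) := by
    intro m
    have h1 : Continuous (fun v : ℝ => ∫ u in (0 : ℝ)..v, wt c m u) :=
      intervalIntegral.continuous_primitive (fun a b => (wt_cont c m).intervalIntegrable _ _) 0
    refine h1.aestronglyMeasurable.congr ?_
    filter_upwards [ae_restrict_mem measurableSet_Ioi] with v hv
    have hv : (1 : ℝ) < v := hv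
    unfold Wv
    rw [intervalIntegral.integral_of_le (by linarith)]
  have hI : ∀ m : ℕ, IntegrableOn (fun v => EE v * om v * Wv c m v) (Set.Ioi 1) := by
    intro m
    refine Integrable.mul_bdd (c := (1 / c) ^ (m + 1)) (EEom_int one_pos) (hWm m) ?_
    exact Eventually.of_forall fun v => hWb m v
  rw [an_eq hc, an_eq hc, ← integral_const_mul, ← integral_sub ((hI _).const_mul c) (hI _)]
  have h2 : ∫ v in Set.Ioi 1, (c * (EE v * om v * Wv c (n + 2) v) - EE v * om v * Wv c (n + 1) v) =
      ∫ v in Set.Ioi 1, (-(1 / ((n + 1) * (n + 2))) * (EE v * wt c n v) +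
        (-(1 / (n + 2))) * (EE v * wt c (n + 1) v)) := by
    refine setIntegral_congr_fun measurableSet_Ioi fun v hv => ?_
    have hv : (1 : ℝ) < v := hv
    have h3 := Wv_rel c (n + 1) (v := v) (by linarith)
    have h4 := om_wt c n (v := v) (by linarith)
    have h5 : c * (EE v * om v * Wv c (n + 2) v) - EE v * om v * Wv c (n + 1) v =
        EE v * (om v * (c * Wv c (n + 1 + 1) v - Wv c (n + 1) v)) := by ring
    rw [h5, h3, mul_neg, h4]
    ring
  rw [h2]
  have hE : ∀ m, IntegrableOn (fun u => EE u * wt c m u) (Set.Ioi 1) := fun m =>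
    (EEwt_int hc m).mono_set (Set.Ioi_subset_Ioi zero_le_one)
  rw [integral_add ((hE n).const_mul _) ((hE (n + 1)).const_mul _), integral_const_mul, integral_const_mul]
  unfold en1
  ring

lemma en1_sub {c : ℝ} (hc : 0 < c) (n : ℕ) : |en1 c n - en c n| ≤ 2 / n.factorial := by
  have h1 : en c n = (∫ v in Set.Ioc 0 1, EE v * wt c n v) + en1 c n := by
    unfold en en1
    rw [← setIntegral_union (Set.Ioc_disjoint_Ioi le_rfl) measurableSet_Ioi
      ((EEwt_int hc n).mono_set Set.Ioc_subset_Ioi_self)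
      ((EEwt_int hc n).mono_set (Set.Ioi_subset_Ioi zero_le_one)), Set.Ioc_union_Ioi_eq_Ioi zero_le_one]
  have h2 : en1 c n - en c n = -∫ v in Set.Ioc 0 1, EE v * wt c n v := by rw [h1]; ring
  rw [h2, abs_neg]
  have h3 : ‖∫ v in Set.Ioc (0 : ℝ) 1, EE v * wt c n v‖ ≤ (2 / n.factorial) * (volume.real (Set.Ioc (0 : ℝ) 1)) := by
    refine norm_setIntegral_le_of_norm_le_const (by simp) fun v hv => ?_
    rw [norm_mul, Real.norm_eq_abs, Real.norm_eq_abs, abs_of_nonneg (wt_nonneg c n hv.1.le)]
    have h4 : wt c n v ≤ 1 / n.factorial := by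
      unfold wt
      have h5 : v ^ n ≤ 1 := pow_le_one₀ hv.1.le hv.2
      have h6 : Real.exp (-(c * v)) ≤ 1 := by
        rw [Real.exp_le_one_iff]
        have := mul_pos hc hv.1
        linarith
      have h7 : (0 : ℝ) < n.factorial := by positivity
      calc v ^ n / n.factorial * Real.exp (-(c * v)) ≤ 1 / n.factorial * 1 := by
            gcongr
        _ = _ := by ring
    have h0 := wt_nonneg c n hv.1.le
    calc |EE v| * wt c n v ≤ 2 * (1 / n.factorial) := by
          gcongr
          exact EE_crude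
      _ = _ := by ring
  simpa using h3

/-- the normalized averages tend to zero -/
theorem an_tendsto {c : ℝ} (hc : 0 < c) : Tendsto (fun n => c ^ (n + 1) * an c n) atTop (𝓝 0) := by
  obtain ⟨B, hB, hkB⟩ := kw_bdd
  rw [Metric.tendsto_atTop]
  intro ε hε
  -- choose M
  have h1 : ∀ᶠ u : ℝ in atTop, |kv u| ≤ ε / 4 := by
    have := kv_tendsto.abs
    rw [abs_zero] at this
    exact this.eventually_le_const (by positivity)
  obtain ⟨M0, hM0⟩ := h1.exists_forall_of_atTop
  set M := max M0 1 with hM
  have hM1 : 1 ≤ M := le_max_right _ _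
  have hkM : ∀ u, M ≤ u → |kw u| ≤ ε / 4 := by
    intro u hu
    unfold kw
    exact hM0 _ ((le_max_left _ _).trans (hu.trans (le_max_left _ _)))
  -- the low part
  have h2 : Tendsto (fun n : ℕ => (c * M) * ((c * M) ^ n / n.factorial)) atTop (𝓝 0) := by
    have := (FloorSemiring.tendsto_pow_div_factorial_atTop (c * M)).const_mul (c * M)
    simpa using this
  have h3 := h2.eventually_lt_const (show 0 < ε / (4 * B) by positivity)
  obtain ⟨N, hN⟩ := h3.exists_forall_of_atTop
  refine ⟨N, fun n hn => ?_⟩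
  rw [dist_zero_right, Real.norm_eq_abs, abs_mul, abs_of_pos (by positivity : 0 < c ^ (n + 1))]
  have h4 : |an c n| ≤ B * (∫ u in Set.Ioc 0 M, wt c n u) + ε / 4 * (1 / c) ^ (n + 1) := by
    have hM0' : (0 : ℝ) ≤ M := by linarith
    have h5 : an c n = (∫ u in Set.Ioc 0 M, kw u * wt c n u) + ∫ u in Set.Ioi M, kw u * wt c n u := by
      unfold an
      rw [← setIntegral_union (Set.Ioc_disjoint_Ioi le_rfl) measurableSet_Ioi
        ((an_int hc n).mono_set Set.Ioc_subset_Ioi_self)
        ((an_int hc n).mono_set (Set.Ioi_subset_Ioi hM0')), Set.Ioc_union_Ioi_eq_Ioi hM0']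
    rw [h5]
    refine (abs_add_le _ _).trans (add_le_add ?_ ?_)
    · rw [← integral_const_mul, ← Real.norm_eq_abs]
      refine norm_integral_le_of_norm_le (((wt_int hc n).mono_set Set.Ioc_subset_Ioi_self).const_mul B) ?_
      filter_upwards [ae_restrict_mem measurableSet_Ioc] with u hu
      rw [norm_mul, Real.norm_eq_abs, Real.norm_eq_abs, abs_of_nonneg (wt_nonneg c n hu.1.le)]
      exact mul_le_mul_of_nonneg_right (hkB u) (wt_nonneg c n hu.1.le)
    · rw [← wt_val hc n]
      have h6 : ∫ u in Set.Ioi M, wt c n u ≤ ∫ u in Set.Ioi 0, wt c n u := by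
        refine setIntegral_mono_set (wt_int hc n) ?_ (Set.Ioi_subset_Ioi hM0').eventuallyLE
        filter_upwards [ae_restrict_mem measurableSet_Ioi] with u hu
        exact wt_nonneg _ _ (le_of_lt hu)
      refine le_trans ?_ (mul_le_mul_of_nonneg_left h6 (by positivity))
      rw [← integral_const_mul, ← Real.norm_eq_abs]
      refine norm_integral_le_of_norm_le (((wt_int hc n).mono_set (Set.Ioi_subset_Ioi hM0')).const_mul (ε / 4)) ?_
      filter_upwards [ae_restrict_mem measurableSet_Ioi] with u hu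
      have hu : M < u := hu
      rw [norm_mul, Real.norm_eq_abs, Real.norm_eq_abs, abs_of_nonneg (wt_nonneg c n (hM0'.trans hu.le))]
      exact mul_le_mul_of_nonneg_right (hkM u hu.le) (wt_nonneg c n (hM0'.trans hu.le))
  have h7 : ∫ u in Set.Ioc 0 M, wt c n u ≤ M * (M ^ n / n.factorial) := by
    have h8 : ∫ u in Set.Ioc 0 M, wt c n u ≤ ∫ u in Set.Ioc 0 M, M ^ n / n.factorial := by
      refine setIntegral_mono_on ((wt_int hc n).mono_set Set.Ioc_subset_Ioi_self) (by simp) measurableSet_Ioc ?_
      intro u hu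
      unfold wt
      have h6 : Real.exp (-(c * u)) ≤ 1 := by
        rw [Real.exp_le_one_iff]
        have := mul_pos hc hu.1
        linarith
      have h7 : u ^ n / n.factorial ≤ M ^ n / n.factorial := by
        have := pow_le_pow_left₀ hu.1.le hu.2 n
        gcongr
      have h8 : 0 ≤ u ^ n / (n.factorial : ℝ) := by
        have := hu.1.le
        positivity
      calc u ^ n / n.factorial * Real.exp (-(c * u)) ≤ u ^ n / n.factorial * 1 := by gcongr
        _ ≤ _ := by rw [mul_one]; exact h7
    refine h8.trans (le_of_eq ?_)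
    rw [setIntegral_const, smul_eq_mul]
    congr 1
    simp [Measure.real, Real.volume_Ioc]
    linarith
  have h9 := hN n hn
  have h10 : c ^ (n + 1) * (1 / c) ^ (n + 1) = 1 := by
    rw [← mul_pow, mul_one_div_cancel hc.ne', one_pow]
  have h11 : c ^ (n + 1) * (B * (M * (M ^ n / n.factorial))) = B * ((c * M) * ((c * M) ^ n / n.factorial)) := by
    rw [mul_pow, pow_succ]; ring
  calc c ^ (n + 1) * |an c n| ≤ c ^ (n + 1) * (B * (M * (M ^ n / n.factorial)) + ε / 4 * (1 / c) ^ (n + 1)) := by
        gcongr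
        exact h4.trans (by gcongr)
    _ = B * ((c * M) * ((c * M) ^ n / n.factorial)) + ε / 4 * (c ^ (n + 1) * (1 / c) ^ (n + 1)) := by
        rw [mul_add, h11]; ring
    _ < B * (ε / (4 * B)) + ε / 4 * 1 := by
        rw [h10]
        have := mul_lt_mul_of_pos_left h9 hB
        linarith
    _ ≤ ε := by
        have : B * (ε / (4 * B)) = ε / 4 := by field_simp
        rw [this]; linarith

end

end Pool.Agent.N964
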