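import Mathlib

/-! The Dirichlet series `∑ log p / p^s` and its relation with `ζ'/ζ`. -/

set_option autoImplicit false

open MeasureTheory Filter Topology Complex

namespace Pool.Agent.N964

noncomputable section

/-- coefficients -/
def tc (n : ℕ) : ℂ := if n.Prime then (Real.log n : ℂ) else 0

/-- `p^{-s}` -/
def xp (s : ℂ) (p : ℕ) : ℂ := (p : ℂ) ^ (-s)

lemma norm_xp (s : ℂ) {p : ℕ} (hp : 0 < p) : ‖xp s p‖ = (p : ℝ) ^ (-s.re) := by
  unfold xp
  rw [Complex.norm_natCast_cpow_of_pos hp, neg_re]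

lemma xp_pow {s : ℂ} (hs : s ≠ 0) (p k : ℕ) : ((p ^ k : ℕ) : ℂ) ^ (-s) = xp s p ^ k := by
  have := map_pow (riemannZetaSummandHom hs) p k
  simpa [riemannZetaSummandHom, xp] using this

lemma xp_two {s : ℂ} (p : ℕ) : xp (2 * s) p = xp s p ^ 2 := by
  unfold xp
  rw [show -(2 * s) = (2 : ℕ) * (-s) by push_cast; ring, Complex.cpow_nat_mul]

lemma sum_log {σ : ℝ} (hσ : 1 < σ) : Summable fun p : Nat.Primes => Real.log (p : ℕ) * ((p : ℕ) : ℝ) ^ (-σ) := by
  set e := (σ - 1) / 2 with he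
  have he0 : 0 < e := by rw [he]; linarith
  have h1 : Summable fun p : Nat.Primes => (1 / e) * ((p : ℕ) : ℝ) ^ (-(1 + e)) :=
    (Nat.Primes.summable_rpow.2 (by linarith)).mul_left _
  refine Summable.of_nonneg_of_le (fun p => ?_) (fun p => ?_) h1
  · exact mul_nonneg (Real.log_natCast_nonneg _) (by positivity)
  · have hp : (0 : ℝ) < ((p : ℕ) : ℝ) := by exact_mod_cast p.2.pos
    have h2 := Real.log_le_rpow_div hp.le he0
    calc Real.log (p : ℕ) * ((p : ℕ) : ℝ) ^ (-σ) ≤ ((p : ℕ) : ℝ) ^ e / e * ((p : ℕ) : ℝ) ^ (-σ) := by gcongr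
      _ = (1 / e) * (((p : ℕ) : ℝ) ^ e * ((p : ℕ) : ℝ) ^ (-σ)) := by ring
      _ = _ := by
          rw [← Real.rpow_add hp]
          congr 2
          rw [he]; ring

lemma xp_norm_le {s : ℂ} {σ : ℝ} (hs : σ ≤ s.re) (p : Nat.Primes) : ‖xp s p‖ ≤ ((p : ℕ) : ℝ) ^ (-σ) := by
  rw [norm_xp s p.2.pos]
  have hp : (1 : ℝ) ≤ ((p : ℕ) : ℝ) := by exact_mod_cast p.2.one_lt.le
  exact Real.rpow_le_rpow_of_exponent_le hp (by linarith)

lemma xp_norm_lt {s : ℂ} (hs : 0 < s.re) (p : Nat.Primes) : ‖xp s p‖ < 1 := by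
  rw [norm_xp s p.2.pos]
  have hp : (1 : ℝ) < ((p : ℕ) : ℝ) := by exact_mod_cast p.2.one_lt
  exact Real.rpow_lt_one_of_one_lt_of_neg hp (by linarith)

lemma one_sub_xp {s : ℂ} (hs : 0 < s.re) (p : Nat.Primes) : 1 - xp s p ≠ 0 := by
  intro h
  have h1 : xp s p = 1 := by linear_combination -h
  have := xp_norm_lt hs p
  rw [h1, norm_one] at this
  exact lt_irrefl _ this

lemma xp_norm_le2 {s : ℂ} {σ : ℝ} (hσ : 0 ≤ σ) (hs : σ ≤ s.re) (p : Nat.Primes) : ‖xp s p‖ ≤ (2 : ℝ) ^ (-σ) := by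
  refine (xp_norm_le hs p).trans ?_
  have hp : (2 : ℝ) ≤ ((p : ℕ) : ℝ) := by exact_mod_cast p.2.two_le
  exact Real.rpow_le_rpow_of_nonpos (by norm_num) hp (by linarith)

/-- `H₃` -/
def H3 (s : ℂ) : ℂ := ∑' p : Nat.Primes, (Real.log (p : ℕ) : ℂ) * (xp s p ^ 3 / (1 - xp s p ^ 2))

lemma H3_term {s : ℂ} (hs : 2 / 5 ≤ s.re) (p : Nat.Primes) :
    ‖(Real.log (p : ℕ) : ℂ) * (xp s p ^ 3 / (1 - xp s p ^ 2))‖ ≤
      3 * (Real.log (p : ℕ) * ((p : ℕ) : ℝ) ^ (-(6 / 5) : ℝ)) := by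
  have hlog : 0 ≤ Real.log (p : ℕ) := Real.log_natCast_nonneg _
  have hp0 : (0 : ℝ) < ((p : ℕ) : ℝ) := by exact_mod_cast p.2.pos
  have h1 := xp_norm_le hs p
  have h2 : ‖xp s p‖ ^ 2 ≤ 2 / 3 := by
    have h3 := xp_norm_le2 (by norm_num) hs p
    have h4 : ‖xp s p‖ ^ 5 ≤ ((2 : ℝ) ^ (-(2 / 5) : ℝ)) ^ 5 := pow_le_pow_left₀ (norm_nonneg _) h3 5
    rw [← Real.rpow_mul_natCast (by norm_num)] at h4
    norm_num at h4
    by_contra hcon
    push Not at hcon
    have h5 : (2 / 3 : ℝ) ^ 5 < (‖xp s p‖ ^ 2) ^ 5 := pow_lt_pow_left₀ hcon (by norm_num) (by norm_num)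
    have h6 : (‖xp s p‖ ^ 2) ^ 5 = (‖xp s p‖ ^ 5) ^ 2 := by ring
    rw [h6] at h5
    have h7 : (‖xp s p‖ ^ 5) ^ 2 ≤ (1 / 4) ^ 2 := pow_le_pow_left₀ (by positivity) h4 2
    norm_num at h5 h7
    linarith
  have h3 : 1 / 3 ≤ ‖1 - xp s p ^ 2‖ := by
    have h4 := norm_sub_norm_le (1 : ℂ) (xp s p ^ 2)
    rw [norm_one, norm_pow] at h4
    linarith
  have h4 : ‖xp s p‖ ^ 3 ≤ ((p : ℕ) : ℝ) ^ (-(6 / 5) : ℝ) := by
    calc ‖xp s p‖ ^ 3 ≤ (((p : ℕ) : ℝ) ^ (-(2 / 5) : ℝ)) ^ 3 := pow_le_pow_left₀ (norm_nonneg _) h1 3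
      _ = _ := by
          rw [← Real.rpow_mul_natCast hp0.le]; norm_num
  rw [norm_mul, norm_div, norm_pow, Complex.norm_real, Real.norm_eq_abs, abs_of_nonneg hlog]
  calc Real.log (p : ℕ) * (‖xp s p‖ ^ 3 / ‖1 - xp s p ^ 2‖)
      ≤ Real.log (p : ℕ) * (((p : ℕ) : ℝ) ^ (-(6 / 5) : ℝ) / (1 / 3)) := by gcongr
    _ = _ := by ring

lemma H3_diff : DifferentiableOn ℂ H3 {s : ℂ | 2 / 5 < s.re} := by
  have hU : IsOpen {s : ℂ | 2 / 5 < s.re} := isOpen_lt continuous_const Complex.continuous_re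
  unfold H3
  refine Complex.differentiableOn_tsum_of_summable_norm
    (u := fun p : Nat.Primes => 3 * (Real.log (p : ℕ) * ((p : ℕ) : ℝ) ^ (-(6 / 5) : ℝ)))
    ((sum_log (by norm_num)).mul_left 3) (fun p => ?_) hU (fun p s hs => H3_term (le_of_lt hs) p)
  intro s hs
  have hs : 2 / 5 < s.re := hs
  have hs0 : 0 < (2 * s).re := by
    have : (2 * s).re = 2 * s.re := by simp
    rw [this]; linarith
  have h1 : 1 - xp s p ^ 2 ≠ 0 := by
    rw [← xp_two]; exact one_sub_xp hs0 p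
  have hp : ((p : ℕ) : ℂ) ≠ 0 := by exact_mod_cast p.2.ne_zero
  have h2 : DifferentiableAt ℂ (fun s => xp s p) s := by
    unfold xp
    exact (differentiableAt_id.neg).const_cpow (Or.inl hp)
  refine DifferentiableAt.differentiableWithinAt ?_
  exact (((h2.pow 3).div ((differentiableAt_const _).sub (h2.pow 2)) h1).const_mul _)

lemma summable_xp {s : ℂ} (hs : 1 < s.re) :
    Summable fun p : Nat.Primes => (Real.log (p : ℕ) : ℂ) * xp s p := by
  refine Summable.of_norm_bounded (sum_log hs) fun p => ?_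
  rw [norm_mul, Complex.norm_real, Real.norm_eq_abs, abs_of_nonneg (Real.log_natCast_nonneg _)]
  exact mul_le_mul_of_nonneg_left (xp_norm_le le_rfl p) (Real.log_natCast_nonneg _)

lemma summable_geo {s : ℂ} (hs : 1 < s.re) :
    Summable fun p : Nat.Primes => (Real.log (p : ℕ) : ℂ) * (xp s p / (1 - xp s p)) := by
  refine Summable.of_norm_bounded ((sum_log hs).mul_left 2) fun p => ?_
  rw [norm_mul, Complex.norm_real, Real.norm_eq_abs, abs_of_nonneg (Real.log_natCast_nonneg _), norm_div]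
  have h1 := xp_norm_le2 (s := s) (σ := 1) (by norm_num) hs.le p
  have h2 : (2 : ℝ) ^ (-1 : ℝ) = 1 / 2 := by rw [Real.rpow_neg_one]; norm_num
  rw [h2] at h1
  have h3 : 1 / 2 ≤ ‖1 - xp s p‖ := by
    have h4 := norm_sub_norm_le (1 : ℂ) (xp s p)
    rw [norm_one] at h4
    linarith
  have h5 := xp_norm_le (s := s) (σ := s.re) le_rfl p
  have h6 : 0 ≤ Real.log (p : ℕ) := Real.log_natCast_nonneg _
  calc Real.log (p : ℕ) * (‖xp s p‖ / ‖1 - xp s p‖) ≤
      Real.log (p : ℕ) * (((p : ℕ) : ℝ) ^ (-s.re) / (1 / 2)) := by gcongr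
    _ = _ := by ring

lemma LL_mangoldt {s : ℂ} (hs : 1 < s.re) :
    LSeries (fun n => (ArithmeticFunction.vonMangoldt n : ℂ)) s =
      ∑' p : Nat.Primes, (Real.log (p : ℕ) : ℂ) * (xp s p / (1 - xp s p)) := by
  have hs0 : s ≠ 0 := by rintro rfl; simp at hs; linarith
  have hsum := ArithmeticFunction.LSeriesSummable_vonMangoldt hs
  unfold LSeries
  rw [tsum_eq_tsum_primes_of_support_subset_prime_powers hsum ?_]
  · refine tsum_congr fun p => ?_
    have h1 : ∀ k : ℕ, LSeries.term (fun n => (ArithmeticFunction.vonMangoldt n : ℂ)) s ((p : ℕ) ^ (k + 1)) =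
        (Real.log (p : ℕ) : ℂ) * xp s p * xp s p ^ k := by
      intro k
      have hpk : (p : ℕ) ^ (k + 1) ≠ 0 := pow_ne_zero _ p.2.ne_zero
      rw [LSeries.term_of_ne_zero hpk, ArithmeticFunction.vonMangoldt_apply_pow (by omega),
        ArithmeticFunction.vonMangoldt_apply_prime p.2, div_eq_mul_inv, ← Complex.cpow_neg, xp_pow hs0, pow_succ]
      ring
    simp only [h1]
    rw [tsum_mul_left, tsum_geometric_of_norm_lt_one (xp_norm_lt (by linarith) p)]
    ring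
  · intro n hn
    rw [Function.mem_support] at hn
    show IsPrimePow n
    by_contra hcon
    apply hn
    unfold LSeries.term
    split_ifs with h0
    · rfl
    · have hz := ArithmeticFunction.vonMangoldt_eq_zero_iff.2 hcon
      simp [hz]

lemma LS_tc {s : ℂ} : LSeries tc s = ∑' p : Nat.Primes, (Real.log (p : ℕ) : ℂ) * xp s p := by
  unfold LSeries
  have h1 : Function.support (LSeries.term tc s) ⊆ {n : ℕ | n.Prime} := by
    intro n hn
    rw [Function.mem_support] at hn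
    show n.Prime
    by_contra hcon
    apply hn
    unfold LSeries.term tc
    rw [if_neg hcon]
    simp
  rw [← tsum_subtype_eq_of_support_subset h1]
  refine tsum_congr fun p => ?_
  have hp : (p : ℕ).Prime := p.2
  rw [LSeries.term_of_ne_zero hp.ne_zero, div_eq_mul_inv, ← Complex.cpow_neg]
  unfold tc
  rw [if_pos hp]
  rfl

lemma tc_summable {s : ℂ} (hs : 1 < s.re) : LSeriesSummable tc s := by
  have h := ArithmeticFunction.LSeriesSummable_vonMangoldt hs
  unfold LSeriesSummable at h ⊢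
  refine Summable.of_norm_bounded h.norm fun n => ?_
  rw [LSeries.norm_term_eq, LSeries.norm_term_eq]
  split_ifs with h0
  · exact le_rfl
  · have hn : 0 < (n : ℝ) ^ s.re := by
      have : (0 : ℝ) < n := by exact_mod_cast Nat.pos_of_ne_zero h0
      positivity
    refine div_le_div_of_nonneg_right ?_ hn.le
    unfold tc
    split_ifs with hp
    · rw [ArithmeticFunction.vonMangoldt_apply_prime hp]
    · simp

/-- **the relation** -/
theorem LS_tc_eq {s : ℂ} (hs : 1 < s.re) : LSeries tc s =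
    LSeries (fun n => (ArithmeticFunction.vonMangoldt n : ℂ)) s -
      LSeries (fun n => (ArithmeticFunction.vonMangoldt n : ℂ)) (2 * s) - H3 s := by
  have hs2 : 1 < (2 * s).re := by
    have : (2 * s).re = 2 * s.re := by simp
    rw [this]; linarith
  have hH : Summable fun p : Nat.Primes => (Real.log (p : ℕ) : ℂ) * (xp s p ^ 3 / (1 - xp s p ^ 2)) :=
    Summable.of_norm_bounded ((sum_log (by norm_num)).mul_left 3) fun p => H3_term (by linarith) p
  have hg := summable_geo hs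
  have hg2 := summable_geo hs2
  rw [LS_tc, LL_mangoldt hs, LL_mangoldt hs2]
  unfold H3
  rw [← hg.tsum_sub hg2, ← (hg.sub hg2).tsum_sub hH]
  refine tsum_congr fun p => ?_
  rw [xp_two]
  have h1 : 1 - xp s p ≠ 0 := one_sub_xp (by linarith) p
  have h2 : 1 - xp s p ^ 2 ≠ 0 := by rw [← xp_two]; exact one_sub_xp (by linarith) p
  have h3 : 1 + xp s p ≠ 0 := by
    intro h
    apply h2
    linear_combination (1 - xp s p) * h
  have h4 : 1 - xp s p ^ 2 = (1 - xp s p) * (1 + xp s p) := by ring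
  rw [h4]
  field_simp
  ring

end

end Pool.Agent.N964
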