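import Pool.Agent.H295R2.Z
import Pool.Agent.N964.B2
import Pool.Agent.N964.B3
import Pool.Agent.N964.A4

/-! The Laplace transform of `EE`. -/

set_option autoImplicit false

open MeasureTheory Filter Topology Complex
open Pool.Agent.H295R2 (Zs Zs_eq Zs_differentiable Zs_ne_zero_of_one_le)

namespace Pool.Agent.N964

noncomputable section

/-- the Laplace transform of `EE` -/
def lapE (z : ℂ) : ℂ := ∫ v in Set.Ioi (0 : ℝ), (EE v : ℂ) * cexp (-(z * v))

lemma exp_image_Ioi : Real.exp '' Set.Ioi 0 = Set.Ioi 1 := by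
  ext y
  constructor
  · rintro ⟨v, hv, rfl⟩
    exact Real.one_lt_exp_iff.2 hv
  · intro h
    have h : 1 < y := h
    exact ⟨Real.log y, Real.log_pos h, Real.exp_log (by linarith)⟩

lemma norm_cexp_neg (z : ℂ) (v : ℝ) : ‖cexp (-(z * v))‖ = Real.exp (-(z.re * v)) := by
  rw [Complex.norm_exp]
  congr 1
  simp

lemma cexp_int {z : ℂ} (hz : 0 < z.re) : IntegrableOn (fun v : ℝ => cexp (-(z * v))) (Set.Ioi 0) := by
  have := integrableOn_exp_mul_complex_Ioi (a := -z) (by simpa using hz) 0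
  refine this.congr_fun (fun v _ => ?_) measurableSet_Ioi
  simp only [neg_mul]

lemma EE_cexp_int {z : ℂ} (hz : 0 < z.re) :
    IntegrableOn (fun v : ℝ => (EE v : ℂ) * cexp (-(z * v))) (Set.Ioi 0) := by
  refine Integrable.bdd_mul (c := 2) (cexp_int hz) (Complex.measurable_ofReal.comp EE_meas).aestronglyMeasurable ?_
  exact Eventually.of_forall fun v => by
    rw [Complex.norm_real]; exact EE_crude

lemma sum_tc (t : ℝ) : ∑ k ∈ Finset.Icc 1 ⌊t⌋₊, tc k = (Chebyshev.theta t : ℂ) := by
  unfold Chebyshev.theta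
  rw [Finset.sum_filter, Complex.ofReal_sum]
  refine Finset.sum_congr rfl fun k _ => ?_
  unfold tc
  split_ifs <;> simp

/-- the transform in terms of the Dirichlet series -/
theorem lapE_eq {z : ℂ} (hz : 0 < z.re) : lapE z = LSeries tc (z + 1) / (z + 1) - 1 / z := by
  have hs : 1 < (z + 1).re := by simp; exact hz
  have hs0 : z + 1 ≠ 0 := by
    intro h
    have := congrArg Complex.re h
    simp at this
    linarith
  have hz0 : z ≠ 0 := by rintro rfl; simp at hz
  have hO : (fun n : ℕ => ∑ k ∈ Finset.Icc 1 n, tc k) =O[atTop] fun n : ℕ => (n : ℝ) ^ (1 : ℝ) := by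
    refine Asymptotics.IsBigO.of_bound (Real.log 4) (Eventually.of_forall fun n => ?_)
    have h1 := sum_tc n
    rw [Nat.floor_natCast] at h1
    rw [h1, Complex.norm_real, Real.norm_eq_abs, abs_of_nonneg (Chebyshev.theta_nonneg _), Real.rpow_one,
      Real.norm_eq_abs, abs_of_nonneg (Nat.cast_nonneg n)]
    exact Chebyshev.theta_le_log4_mul_x (Nat.cast_nonneg n)
  have h := LSeries_eq_mul_integral tc (r := 1) zero_le_one (s := z + 1) hs (tc_summable hs) hO
  have h2 : ∫ t in Set.Ioi (1 : ℝ), (∑ k ∈ Finset.Icc 1 ⌊t⌋₊, tc k) * (t : ℂ) ^ (-(z + 1 + 1)) =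
      ∫ v in Set.Ioi (0 : ℝ), (cexp (-(z * v)) + (EE v : ℂ) * cexp (-(z * v))) := by
    rw [← exp_image_Ioi, integral_image_eq_integral_abs_deriv_smul measurableSet_Ioi
      (fun x _ => (Real.hasDerivAt_exp x).hasDerivWithinAt) Real.exp_injective.injOn]
    refine setIntegral_congr_fun measurableSet_Ioi fun v _ => ?_
    rw [sum_tc, theta_exp, abs_of_pos (Real.exp_pos v), Complex.real_smul]
    have h3 : ((Real.exp v : ℝ) : ℂ) ^ (-(z + 1 + 1)) = cexp (-(z + 1 + 1) * v) := by
      rw [Complex.cpow_def_of_ne_zero (by exact_mod_cast (Real.exp_pos v).ne'), ← Complex.ofReal_log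
        (Real.exp_pos v).le, Real.log_exp]
      ring_nf
    rw [h3]
    push_cast
    have h4 : cexp (-(z + 1 + 1) * v) = cexp (-(z * v)) * (cexp v)⁻¹ * (cexp v)⁻¹ := by
      rw [← Complex.exp_neg, ← Complex.exp_add, ← Complex.exp_add]
      congr 1; ring
    rw [h4]
    have h5 : cexp v ≠ 0 := Complex.exp_ne_zero _
    field_simp
  rw [h2, integral_add (cexp_int hz) (EE_cexp_int hz)] at h
  have h6 : ∫ v in Set.Ioi (0 : ℝ), cexp (-(z * v)) = 1 / z := by
    have := integral_exp_mul_complex_Ioi (a := -z) (by simpa using hz) 0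
    simp only [neg_mul] at this
    rw [this]
    simp
  rw [h6] at h
  unfold lapE
  rw [h]
  field_simp
  ring

/-- `ζ'/ζ` in terms of `Zs` -/
lemma mangoldt_Zs {s : ℂ} (hs : 1 < s.re) :
    LSeries (fun n => (ArithmeticFunction.vonMangoldt n : ℂ)) s = 1 / (s - 1) - deriv Zs s / Zs s := by
  have hs1 : s ≠ 1 := by rintro rfl; simp at hs
  have hs2 : s - 1 ≠ 0 := sub_ne_zero.2 hs1
  have hz : riemannZeta s ≠ 0 := riemannZeta_ne_zero_of_one_le_re hs.le
  rw [ArithmeticFunction.LSeries_vonMangoldt_eq_deriv_riemannZeta_div hs]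
  have hev : Zs =ᶠ[𝓝 s] fun z => (z - 1) * riemannZeta z := by
    filter_upwards [isOpen_ne.mem_nhds hs1] with z hz
    exact (Zs_eq hz).symm
  have hd : deriv Zs s = riemannZeta s + (s - 1) * deriv riemannZeta s := by
    rw [hev.deriv_eq]
    have h1 : HasDerivAt (fun z : ℂ => z - 1) 1 s := (hasDerivAt_id s).sub_const 1
    have h2 : HasDerivAt riemannZeta (deriv riemannZeta s) s := (differentiableAt_riemannZeta hs1).hasDerivAt
    have h3 := (h1.fun_mul h2).deriv
    rw [h3]; ring
  rw [hd, ← Zs_eq hs1]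
  field_simp
  ring

/-- the continuation of the transform, in the variable `s = z + 1` -/
def GG (s : ℂ) : ℂ := -(1 / s) * (1 + deriv Zs s / Zs s + 1 / (2 * s - 1) - deriv Zs (2 * s) / Zs (2 * s) + H3 s)

theorem lapE_GG {z : ℂ} (hz : 0 < z.re) : lapE z = GG (z + 1) := by
  have hs : 1 < (z + 1).re := by simp; exact hz
  have hs2 : 1 < (2 * (z + 1)).re := by
    have : (2 * (z + 1)).re = 2 * (z + 1).re := by simp
    rw [this]; linarith
  have hs0 : z + 1 ≠ 0 := by
    intro h
    have := congrArg Complex.re h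
    simp at this
    linarith
  have hz0 : z ≠ 0 := by rintro rfl; simp at hz
  rw [lapE_eq hz, LS_tc_eq hs, mangoldt_Zs hs, mangoldt_Zs hs2]
  unfold GG
  rw [add_sub_cancel_right]
  have h3 : 2 * (z + 1) - 1 ≠ 0 := by
    intro h
    have := congrArg Complex.re h
    simp at this
    linarith
  have h4 := Zs_ne_zero_of_one_le hs.le
  have h5 := Zs_ne_zero_of_one_le hs2.le
  have h6 : 1 / z = 1 / (z * (z + 1)) + 1 / (z + 1) := by
    field_simp
    ring
  rw [h6]
  field_simp
  ring

end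

end Pool.Agent.N964
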