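import Pool.Agent.N964.B4

/-! The poles of the continued transform. -/

set_option autoImplicit false

open MeasureTheory Filter Topology Complex
open Pool.Agent.H295R2 (Zs Zs_eq Zs_differentiable Zs_ne_zero_of_one_le Zs_eq_Zt Zt Hf Hf_eq)

namespace Pool.Agent.N964

noncomputable section

/-- no real zeros -/
lemma Zs_real_ne {σ : ℝ} (hσ : 0 < σ) : Zs (σ : ℂ) ≠ 0 := by
  rcases le_or_gt 1 σ with h1 | h1
  · exact Zs_ne_zero_of_one_le (by simpa using h1)
  · rw [Zs_eq_Zt (by simpa using hσ)]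
    have hH : ∃ r : ℝ, 0 ≤ r ∧ Hf (σ : ℂ) = (r : ℂ) := by
      refine ⟨∫ t in Set.Ioi (1 : ℝ), Int.fract t * t ^ (-(σ + 1)), ?_, ?_⟩
      · refine setIntegral_nonneg measurableSet_Ioi fun t ht => ?_
        have ht : (1 : ℝ) < t := ht
        exact mul_nonneg (Int.fract_nonneg t) (by positivity)
      · rw [Hf_eq, ← integral_complex_ofReal]
        refine setIntegral_congr_fun measurableSet_Ioi fun t ht => ?_
        have ht : (1 : ℝ) < t := ht
        push_cast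
        rw [Complex.ofReal_cpow (by linarith)]
        push_cast
        rfl
    obtain ⟨r, hr, hrH⟩ := hH
    unfold Zt
    rw [hrH]
    intro h
    have h2 := congrArg Complex.re h
    have h3 : ((σ : ℂ) - σ * (σ - 1) * (r : ℂ)).re = σ - σ * (σ - 1) * r := by
      rw [show ((σ : ℂ) - σ * (σ - 1) * (r : ℂ)) = ((σ - σ * (σ - 1) * r : ℝ) : ℂ) by push_cast; ring]
      exact Complex.ofReal_re _
    rw [h3] at h2
    simp only [Complex.zero_re] at h2
    have : 0 ≤ σ * (1 - σ) * r := mul_nonneg (mul_nonneg hσ.le (by linarith)) hr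
    nlinarith

lemma Zs_zero_re {s : ℂ} (h : Zs s = 0) : s.re < 1 := by
  by_contra hcon
  push Not at hcon
  exact Zs_ne_zero_of_one_le hcon h

lemma Zs_zero_im {s : ℂ} (h : Zs s = 0) (hs : 0 < s.re) : s.im ≠ 0 := by
  intro him
  have h1 : s = (s.re : ℂ) := Complex.ext (by simp) (by simp [him])
  rw [h1] at h
  exact Zs_real_ne hs h

lemma Zs_zeros_finite (K : Set ℂ) (hK : IsCompact K) : {v : ℂ | Zs v = 0 ∧ v ∈ K}.Finite := by
  by_contra hinf
  have hinf' : {v : ℂ | Zs v = 0 ∧ v ∈ K}.Infinite := hinf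
  obtain ⟨x, _, hx⟩ := hinf'.exists_accPt_of_subset_isCompact hK (fun v hv => hv.2)
  rw [accPt_iff_frequently_nhdsNE] at hx
  have hFan : AnalyticOnNhd ℂ Zs Set.univ := fun z _ => Zs_differentiable.analyticAt z
  have := hFan.eqOn_zero_of_preconnected_of_frequently_eq_zero isPreconnected_univ (Set.mem_univ x)
    (hx.mono (fun y hy => hy.1))
  have h1 : Zs 1 = 0 := this (Set.mem_univ 1)
  exact Zs_ne_zero_of_one_le (s := 1) (by simp) h1

lemma Zs_an (s : ℂ) : AnalyticAt ℂ Zs s := Zs_differentiable.analyticAt s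

/-- the part of `GG` without the first logarithmic derivative -/
lemma rest_an {s : ℂ} (h1 : 1 / 2 ≤ s.re) : AnalyticAt ℂ (fun s => deriv Zs (2 * s) / Zs (2 * s)) s ∧
    AnalyticAt ℂ H3 s ∧ AnalyticAt ℂ (fun s : ℂ => -(1 / s)) s := by
  have hU : IsOpen {s : ℂ | 2 / 5 < s.re} := isOpen_lt continuous_const Complex.continuous_re
  have hs0 : s ≠ 0 := by
    rintro rfl
    simp at h1
    linarith
  have h2s : Zs (2 * s) ≠ 0 := Zs_ne_zero_of_one_le (by
    have : (2 * s).re = 2 * s.re := by simp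
    rw [this]; linarith)
  refine ⟨?_, ?_, ?_⟩
  · have a1 : AnalyticAt ℂ (fun s : ℂ => 2 * s) s := analyticAt_const.mul analyticAt_id
    have a2 : AnalyticAt ℂ (fun s => deriv Zs (2 * s)) s := (Zs_an (2 * s)).deriv.comp' a1
    have a3 : AnalyticAt ℂ (fun s => Zs (2 * s)) s := (Zs_an (2 * s)).comp' a1
    exact a2.div a3 h2s
  · exact H3_diff.analyticOnNhd hU s (show 2 / 5 < s.re by linarith)
  · exact (analyticAt_const.div analyticAt_id hs0).neg

lemma GG_an {s : ℂ} (h1 : 1 / 2 ≤ s.re) (h2 : s ≠ 1 / 2) (h3 : Zs s ≠ 0) : AnalyticAt ℂ GG s := by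
  obtain ⟨a1, a2, a3⟩ := rest_an h1
  have a4 : AnalyticAt ℂ (fun s => deriv Zs s / Zs s) s := (Zs_an s).deriv.div (Zs_an s) h3
  have h4 : 2 * s - 1 ≠ 0 := by
    intro h
    apply h2
    linear_combination h / 2
  have a5 : AnalyticAt ℂ (fun s : ℂ => 1 / (2 * s - 1)) s :=
    analyticAt_const.div ((analyticAt_const.mul analyticAt_id).sub analyticAt_const) h4
  exact a3.mul ((((analyticAt_const.add a4).add a5).sub a1).add a2)

/-- the local form at the point `1/2` -/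
lemma GG_half : ∃ h : ℂ → ℂ, AnalyticAt ℂ h (1 / 2) ∧
    ∀ᶠ s in 𝓝[≠] (1 / 2 : ℂ), GG s - (-1) / (s - 1 / 2) = h s := by
  obtain ⟨a1, a2, a3⟩ := rest_an (s := 1 / 2) (by norm_num)
  have h3 : Zs (1 / 2) ≠ 0 := by
    have := Zs_real_ne (σ := 1 / 2) (by norm_num)
    push_cast at this
    exact this
  have a4 : AnalyticAt ℂ (fun s => deriv Zs s / Zs s) (1 / 2) := (Zs_an _).deriv.div (Zs_an _) h3
  refine ⟨fun s => -(1 / s) * (1 + deriv Zs s / Zs s - deriv Zs (2 * s) / Zs (2 * s) + H3 s) + 1 / s, ?_, ?_⟩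
  · refine (a3.mul (((analyticAt_const.add a4).sub a1).add a2)).add ?_
    exact analyticAt_const.div analyticAt_id (by norm_num)
  · have e1 : ∀ᶠ s in 𝓝[≠] (1 / 2 : ℂ), s ≠ 1 / 2 := eventually_mem_nhdsWithin
    have e2' : ∀ᶠ s in 𝓝 (1 / 2 : ℂ), s ≠ 0 := isOpen_ne.mem_nhds (by norm_num)
    have e2 : ∀ᶠ s in 𝓝[≠] (1 / 2 : ℂ), s ≠ 0 := e2'.filter_mono nhdsWithin_le_nhds
    filter_upwards [e1, e2] with s hs hs0
    unfold GG
    have h4 : 2 * s - 1 ≠ 0 := by
      intro h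
      apply hs
      linear_combination h / 2
    have h5 : s - 1 / 2 ≠ 0 := sub_ne_zero.2 hs
    have h6 : (-1 : ℂ) / (s - 1 / 2) = -(2 / (2 * s - 1)) := by
      rw [show (2 * s - 1) = 2 * (s - 1 / 2) by ring]
      field_simp
    rw [h6]
    have hw : (2 * s - 1) * (1 / (2 * s - 1)) = 1 := mul_one_div_cancel h4
    have ht : s * (1 / s) = 1 := mul_one_div_cancel hs0
    have h7 : -(1 / s) * (1 / (2 * s - 1)) + 2 / (2 * s - 1) = 1 / s := by
      have h8 : (2 : ℂ) / (2 * s - 1) = 2 * (1 / (2 * s - 1)) := by ring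
      rw [h8]
      linear_combination (1 / s) * hw - 2 * (1 / (2 * s - 1)) * ht
    linear_combination h7

/-- the local form at a zero -/
lemma GG_zero {ρ : ℂ} (h1 : 1 / 2 ≤ ρ.re) (h2 : ρ ≠ 1 / 2) (h3 : Zs ρ = 0) : ∃ (C : ℂ) (h : ℂ → ℂ), C ≠ 0 ∧
    AnalyticAt ℂ h ρ ∧ ∀ᶠ s in 𝓝[≠] ρ, GG s - C / (s - ρ) = h s := by
  obtain ⟨a1, a2, a3⟩ := rest_an h1
  have hρ0 : ρ ≠ 0 := by
    rintro rfl
    simp at h1
    linarith
  have hne : ¬ ∀ᶠ z in 𝓝 ρ, Zs z = 0 := by
    intro hcon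
    have hFan : AnalyticOnNhd ℂ Zs Set.univ := fun z _ => Zs_an z
    have := hFan.eqOn_zero_of_preconnected_of_frequently_eq_zero isPreconnected_univ (Set.mem_univ ρ)
      ((hcon.filter_mono nhdsWithin_le_nhds).frequently)
    have h1 : Zs 1 = 0 := this (Set.mem_univ 1)
    exact Zs_ne_zero_of_one_le (s := 1) (by simp) h1
  obtain ⟨n, g, hg, hg0, hfg⟩ := (Zs_an ρ).exists_eventuallyEq_pow_smul_nonzero_iff.2 hne
  have hn : n ≠ 0 := by
    rintro rfl
    have := hfg.self_of_nhds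
    rw [h3, pow_zero, one_smul] at this
    exact hg0 this.symm
  have h4 : 2 * ρ - 1 ≠ 0 := by
    intro h
    apply h2
    linear_combination h / 2
  have a5 : AnalyticAt ℂ (fun s : ℂ => 1 / (2 * s - 1)) ρ :=
    analyticAt_const.div ((analyticAt_const.mul analyticAt_id).sub analyticAt_const) h4
  have a6 : AnalyticAt ℂ (fun s => deriv g s / g s) ρ := hg.deriv.div hg hg0
  have hnC : (n : ℂ) ≠ 0 := by exact_mod_cast hn
  refine ⟨-(n / ρ), fun s => -(1 / s) * (1 + deriv g s / g s + 1 / (2 * s - 1) - deriv Zs (2 * s) / Zs (2 * s)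
    + H3 s) + n / (s * ρ), neg_ne_zero.2 (div_ne_zero hnC hρ0), ?_, ?_⟩
  · refine (a3.mul ((((analyticAt_const.add a6).add a5).sub a1).add a2)).add ?_
    exact analyticAt_const.div (analyticAt_id.mul analyticAt_const) (mul_ne_zero hρ0 hρ0)
  · have e1 : ∀ᶠ s in 𝓝[≠] ρ, s ≠ ρ := eventually_mem_nhdsWithin
    have e2' : ∀ᶠ s in 𝓝 ρ, s ≠ 0 := isOpen_ne.mem_nhds hρ0
    have e2 : ∀ᶠ s in 𝓝[≠] ρ, s ≠ 0 := e2'.filter_mono nhdsWithin_le_nhds
    have e3 : ∀ᶠ s in 𝓝[≠] ρ, g s ≠ 0 := (hg.continuousAt.eventually_ne hg0).filter_mono nhdsWithin_le_nhds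
    have e4 : ∀ᶠ s in 𝓝[≠] ρ, ∀ᶠ z in 𝓝 s, Zs z = (z - ρ) ^ n • g z :=
      hfg.eventually_nhds.filter_mono nhdsWithin_le_nhds
    have e5 : ∀ᶠ s in 𝓝[≠] ρ, AnalyticAt ℂ g s := hg.eventually_analyticAt.filter_mono nhdsWithin_le_nhds
    filter_upwards [e1, e2, e3, e4, e5] with s hs hs0 hgs hev hgan
    have hsρ : s - ρ ≠ 0 := sub_ne_zero.2 hs
    have hlog : deriv Zs s / Zs s = n / (s - ρ) + deriv g s / g s := by
      have hv := hev.self_of_nhds
      have hd : deriv Zs s = (n : ℂ) * (s - ρ) ^ (n - 1) * g s + (s - ρ) ^ n * deriv g s := by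
        have h5 : Zs =ᶠ[𝓝 s] fun z => (z - ρ) ^ n * g z := by
          filter_upwards [hev] with z hz
          rw [hz, smul_eq_mul]
        rw [h5.deriv_eq]
        have h6 : HasDerivAt (fun z : ℂ => (z - ρ) ^ n) ((n : ℂ) * (s - ρ) ^ (n - 1) * 1) s :=
          ((hasDerivAt_id s).sub_const ρ).pow n
        have h7 := (h6.fun_mul hgan.differentiableAt.hasDerivAt).deriv
        rw [h7]; ring
      rw [hd, hv, smul_eq_mul]
      obtain ⟨m, rfl⟩ := Nat.exists_eq_succ_of_ne_zero hn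
      simp only [Nat.succ_eq_add_one, Nat.add_sub_cancel]
      rw [pow_succ]
      have : (s - ρ) ^ m ≠ 0 := pow_ne_zero _ hsρ
      field_simp
    unfold GG
    rw [hlog]
    have h7 : -(1 / s) * (n / (s - ρ)) - -(n / ρ) / (s - ρ) = n / (s * ρ) := by
      field_simp
      ring
    linear_combination h7

end

end Pool.Agent.N964
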