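import Pool.Agent.N964.B5

/-! Subtraction of the dominant poles. -/

set_option autoImplicit false

open MeasureTheory Filter Topology Complex Metric
open Pool.Agent.H295R2 (Zs Zs_eq Zs_differentiable Zs_ne_zero_of_one_le)

namespace Pool.Agent.N964

noncomputable section

/-- the set where everything is meromorphic -/
def UU : Set ℂ := {s : ℂ | 2 / 5 < s.re}

lemma UU_open : IsOpen UU := isOpen_lt continuous_const Complex.continuous_re

lemma ball_re {c R : ℝ} {s : ℂ} (hs : s ∈ closedBall ((c : ℂ) + 1) R) : c + 1 - R ≤ s.re := by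
  rw [mem_closedBall, dist_eq_norm] at hs
  have h1 := (Complex.abs_re_le_norm (s - (c + 1))).trans hs
  have h2 : (s - ((c : ℂ) + 1)).re = s.re - (c + 1) := by simp
  rw [h2] at h1
  linarith [(abs_le.1 h1).1]

lemma GG_mero : MeromorphicOn GG UU := by
  intro s hs
  have hs : 2 / 5 < s.re := hs
  have a1 : AnalyticAt ℂ (fun s : ℂ => 2 * s) s := analyticAt_const.mul analyticAt_id
  have m1 : MeromorphicAt (fun s => deriv Zs s / Zs s) s := (Zs_an s).deriv.meromorphicAt.div (Zs_an s).meromorphicAt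
  have m2 : MeromorphicAt (fun s => deriv Zs (2 * s) / Zs (2 * s)) s :=
    ((Zs_an (2 * s)).deriv.comp' a1).meromorphicAt.div ((Zs_an (2 * s)).comp' a1).meromorphicAt
  have m3 : MeromorphicAt (fun s : ℂ => 1 / (2 * s - 1)) s :=
    (analyticAt_const (v := (1 : ℂ))).meromorphicAt.div
      (((analyticAt_const (v := (2 : ℂ))).mul analyticAt_id).sub analyticAt_const).meromorphicAt
  have m4 : MeromorphicAt (fun s : ℂ => 1 / s) s :=
    (analyticAt_const (v := (1 : ℂ))).meromorphicAt.div analyticAt_id.meromorphicAt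
  have m5 : MeromorphicAt H3 s := (H3_diff.analyticOnNhd UU_open s hs).meromorphicAt
  have m6 : MeromorphicAt (fun _ : ℂ => (1 : ℂ)) s := analyticAt_const.meromorphicAt
  exact m4.neg.mul ((((m6.add m1).add m3).sub m2).add m5)

/-- **extraction of the dominant poles** -/
theorem poles {c : ℝ} (hc : 0 < c) : ∃ (R₀ R₁ : ℝ) (P : Finset ℂ) (C g : ℂ → ℂ),
    c < R₀ ∧ R₀ ≤ c + 1 / 2 ∧ P.Nonempty ∧
    (∀ ρ ∈ P, ‖ρ - (c + 1)‖ = R₀ ∧ C ρ ≠ 0 ∧ (ρ = 1 / 2 → C ρ = -1) ∧ (ρ ≠ 1 / 2 → ρ.im ≠ 0)) ∧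
    (∀ ρ, Zs ρ = 0 → R₀ ≤ ‖ρ - (c + 1)‖) ∧ R₀ < R₁ ∧
    DifferentiableOn ℂ g (ball ((c : ℂ) + 1) R₁) ∧
    ∀ s ∈ ball ((c : ℂ) + 1) R₀, GG s = g s + ∑ ρ ∈ P, C ρ / (s - ρ) := by
  classical
  set a : ℂ := (c : ℂ) + 1 with ha
  have hfin := Zs_zeros_finite (closedBall a (c + 1 / 2)) (isCompact_closedBall _ _)
  set P0 : Finset ℂ := insert (1 / 2) hfin.toFinset with hP0
  have hmem0 : ∀ s, s ∈ P0 ↔ s = 1 / 2 ∨ (Zs s = 0 ∧ s ∈ closedBall a (c + 1 / 2)) := by
    intro s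
    rw [hP0, Finset.mem_insert, hfin.mem_toFinset]
    rfl
  obtain ⟨ρ₁, hρ₁, hmin⟩ := Finset.exists_min_image P0 (fun s => ‖s - a‖) ⟨1 / 2, by rw [hmem0]; exact Or.inl rfl⟩
  set R₀ : ℝ := ‖ρ₁ - a‖ with hR₀
  have hhalf : ‖(1 / 2 : ℂ) - a‖ = c + 1 / 2 := by
    rw [ha, show (1 / 2 : ℂ) - (c + 1) = ((-(c + 1 / 2) : ℝ) : ℂ) by push_cast; ring, Complex.norm_real,
      Real.norm_eq_abs, abs_neg, abs_of_pos (by linarith)]
  have hR0le : R₀ ≤ c + 1 / 2 := by
    have := hmin (1 / 2) (by rw [hmem0]; exact Or.inl rfl)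
    rwa [hhalf] at this
  have hlow : ∀ s : ℂ, s.re < 1 → c < ‖s - a‖ := by
    intro s hs
    have h1 := Complex.abs_re_le_norm (s - a)
    have h2 : (s - a).re = s.re - (c + 1) := by rw [ha]; simp
    rw [h2] at h1
    have h3 := neg_abs_le (s.re - (c + 1))
    linarith
  have hcR : c < R₀ := by
    refine hlow ρ₁ ?_
    rcases (hmem0 ρ₁).1 hρ₁ with h | h
    · rw [h]; norm_num
    · exact Zs_zero_re h.1
  have hR0pos : 0 < R₀ := hc.trans hcR
  set P : Finset ℂ := P0.filter (fun s => ‖s - a‖ = R₀) with hP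
  have hP1 : ρ₁ ∈ P := by rw [hP, Finset.mem_filter]; exact ⟨hρ₁, rfl⟩
  have hre : ∀ s ∈ closedBall a R₀, 1 / 2 ≤ s.re := by
    intro s hs
    have := ball_re hs
    linarith
  have hnot : ∀ s ∈ closedBall a R₀, s ∉ P → s ≠ 1 / 2 ∧ Zs s ≠ 0 := by
    intro s hs hsP
    have hs2 : ‖s - a‖ ≤ R₀ := by rwa [mem_closedBall, dist_eq_norm] at hs
    have h0 : s ∉ P0 := by
      intro h
      apply hsP
      rw [hP, Finset.mem_filter]
      exact ⟨h, le_antisymm hs2 (hmin s h)⟩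
    rw [hmem0] at h0
    push Not at h0
    refine ⟨h0.1, fun hz => h0.2 hz (closedBall_subset_closedBall hR0le hs)⟩
  have hPre : ∀ ρ ∈ P, ρ ∈ closedBall a R₀ := by
    intro ρ hρ
    rw [mem_closedBall, dist_eq_norm]
    exact (Finset.mem_filter.1 hρ).2.le
  -- local forms
  have hloc : ∀ ρ ∈ P, ∃ (C : ℂ) (h : ℂ → ℂ), C ≠ 0 ∧ (ρ = 1 / 2 → C = -1) ∧ (ρ ≠ 1 / 2 → ρ.im ≠ 0) ∧
      AnalyticAt ℂ h ρ ∧ ∀ᶠ s in 𝓝[≠] ρ, GG s - C / (s - ρ) = h s := by
    intro ρ hρ
    by_cases h : ρ = 1 / 2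
    · obtain ⟨k, hk1, hk2⟩ := GG_half
      refine ⟨-1, k, by norm_num, fun _ => rfl, fun h' => absurd h h', ?_, ?_⟩
      · rw [h]; exact hk1
      · rw [h]; exact hk2
    · have h0 : Zs ρ = 0 := by
        rcases (hmem0 ρ).1 (Finset.mem_filter.1 hρ).1 with h1 | h1
        · exact absurd h1 h
        · exact h1.1
      have hre' := hre ρ (hPre ρ hρ)
      obtain ⟨C, k, hC, hk1, hk2⟩ := GG_zero hre' h h0
      exact ⟨C, k, hC, fun h' => absurd h' h, fun _ => Zs_zero_im h0 (by linarith), hk1, hk2⟩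
  choose! C h hC1 hC2 hC3 han hev using hloc
  -- the difference
  set G0 : ℂ → ℂ := fun s => GG s - ∑ ρ ∈ P, C ρ / (s - ρ) with hG0
  have hfrac : ∀ ρ s : ℂ, s ≠ ρ → AnalyticAt ℂ (fun s => C ρ / (s - ρ)) s := fun ρ s hs =>
    analyticAt_const.div (analyticAt_id.sub analyticAt_const) (sub_ne_zero.2 hs)
  have hG0m : MeromorphicOn G0 UU := by
    intro s hs
    refine (GG_mero s hs).sub ?_
    have h1 : MeromorphicAt (∑ ρ ∈ P, fun s => C ρ / (s - ρ)) s := by
      refine MeromorphicAt.sum fun ρ _ => ?_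
      exact (analyticAt_const (v := C ρ)).meromorphicAt.div
        (analyticAt_id.sub analyticAt_const).meromorphicAt
    refine h1.congr (Eventually.of_forall fun z => ?_)
    simp [Finset.sum_apply]
  have hG0an : ∀ s ∈ closedBall a R₀, s ∉ P → AnalyticAt ℂ G0 s := by
    intro s hs hsP
    obtain ⟨h1, h2⟩ := hnot s hs hsP
    refine (GG_an (hre s hs) h1 h2).sub ?_
    refine Finset.analyticAt_fun_sum P fun ρ hρ => hfrac ρ s ?_
    rintro rfl
    exact hsP hρ
  have hUsub : closedBall a R₀ ⊆ UU := fun s hs => by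
    have := hre s hs
    show 2 / 5 < s.re
    linarith
  set g : ℂ → ℂ := toMeromorphicNFOn G0 UU with hg
  have hgan : ∀ s ∈ closedBall a R₀, AnalyticAt ℂ g s := by
    intro s hs
    have hsU := hUsub hs
    have h1 : MeromorphicNFAt g s := meromorphicNFOn_toMeromorphicNFOn G0 UU hsU
    rw [← h1.meromorphicOrderAt_nonneg_iff_analyticAt, hg, meromorphicOrderAt_toMeromorphicNFOn hG0m hsU]
    by_cases hsP : s ∈ P
    · -- local form at a pole
      have h2 : AnalyticAt ℂ (fun z => h s z - ∑ ρ ∈ P.erase s, C ρ / (z - ρ)) s := by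
        refine (han s hsP).sub (Finset.analyticAt_fun_sum _ fun ρ hρ => hfrac ρ s ?_)
        exact (Finset.mem_erase.1 hρ).1.symm
      have h3 : G0 =ᶠ[𝓝[≠] s] fun z => h s z - ∑ ρ ∈ P.erase s, C ρ / (z - ρ) := by
        filter_upwards [hev s hsP] with z hz
        simp only [hG0]
        rw [← Finset.add_sum_erase P _ hsP, ← hz]
        ring
      rw [meromorphicOrderAt_congr h3]
      exact h2.meromorphicOrderAt_nonneg
    · exact (hG0an s hs hsP).meromorphicOrderAt_nonneg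
  -- extension of the radius
  have hopen : IsOpen {s | AnalyticAt ℂ g s} := isOpen_analyticAt ℂ g
  obtain ⟨δ, hδ, hδ2⟩ := (isCompact_closedBall a R₀).exists_cthickening_subset_open hopen hgan
  rw [cthickening_closedBall hδ.le hR0pos.le] at hδ2
  refine ⟨R₀, δ + R₀, P, C, g, hcR, hR0le, ⟨ρ₁, hP1⟩, fun ρ hρ => ⟨(Finset.mem_filter.1 hρ).2, hC1 ρ hρ,
    hC2 ρ hρ, hC3 ρ hρ⟩, ?_, by linarith, ?_, ?_⟩
  · intro ρ hρ
    by_cases hb : ρ ∈ closedBall a (c + 1 / 2)
    · exact hmin ρ ((hmem0 ρ).2 (Or.inr ⟨hρ, hb⟩))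
    · rw [mem_closedBall, dist_eq_norm] at hb
      push Not at hb
      exact hR0le.trans hb.le
  · intro s hs
    exact (hδ2 (ball_subset_closedBall hs)).differentiableAt.differentiableWithinAt
  · intro s hs
    have hs1 : s ∈ closedBall a R₀ := ball_subset_closedBall hs
    have hsP : s ∉ P := by
      intro hcon
      have := (Finset.mem_filter.1 hcon).2
      rw [mem_ball, dist_eq_norm] at hs
      linarith
    have h1 := hG0an s hs1 hsP
    have h2 : g s = G0 s := by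
      rw [hg, toMeromorphicNFOn_eq_toMeromorphicNFAt hG0m (hUsub hs1),
        toMeromorphicNFAt_eq_self.2 h1.meromorphicNFAt]
    rw [h2]
    simp only [hG0]
    ring

end

end Pool.Agent.N964
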