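import Pool.Agent.N964.B6

/-! Asymptotics of the averages of `EE`. -/

set_option autoImplicit false

open MeasureTheory Filter Topology Complex Metric
open Pool.Agent.H295R2 (Zs)

namespace Pool.Agent.N964

noncomputable section

/-- uniqueness of the coefficients -/
lemma coeff_zero (q : ℕ → ℂ) {c : ℝ} (hc : 0 < c) (h : ∀ w : ℂ, ‖w‖ < c → HasSum (fun n => q n * w ^ n) 0)
    (n : ℕ) : q n = 0 := by
  set p : FormalMultilinearSeries ℂ ℂ ℂ := FormalMultilinearSeries.ofScalars ℂ q with hp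
  set r : NNReal := ⟨c / 2, by positivity⟩ with hr
  have hr0 : 0 < r := by
    rw [← NNReal.coe_pos]; show 0 < c / 2; positivity
  have hrc : (r : ℝ) = c / 2 := rfl
  -- the terms are bounded
  have h1 := (h ((c / 2 : ℝ) : ℂ) (by
    rw [Complex.norm_real, Real.norm_eq_abs, abs_of_pos (by positivity)]; linarith)).summable.tendsto_atTop_zero
  obtain ⟨B, hB⟩ := h1.norm.bddAbove_range
  have h2 : (r : ENNReal) ≤ p.radius := by
    refine p.le_radius_of_bound B fun n => ?_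
    rw [hp, FormalMultilinearSeries.ofScalars_norm, hrc]
    have h3 := hB ⟨n, rfl⟩
    simp only [norm_mul, norm_pow, Complex.norm_real, Real.norm_eq_abs] at h3
    rwa [abs_of_pos (show 0 < c / 2 by positivity)] at h3
  have h3 : HasFPowerSeriesOnBall (0 : ℂ → ℂ) p 0 (r : ENNReal) := by
    refine ⟨h2, by exact_mod_cast hr0, fun {y} hy => ?_⟩
    have hy2 : ‖y‖ < c := by
      rw [Metric.mem_eball, edist_zero_right] at hy
      have h4 : ‖y‖ < c / 2 := by
        rw [← ofReal_norm_eq_enorm] at hy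
        have h5 := ENNReal.toReal_lt_of_lt_ofReal (a := ENNReal.ofReal ‖y‖) (b := c / 2) (by
          have : (r : ENNReal) = ENNReal.ofReal (c / 2) := by
            rw [← hrc, ENNReal.ofReal_coe_nnreal]
          rwa [← this])
        rwa [ENNReal.toReal_ofReal (norm_nonneg y)] at h5
      linarith
    have := h y hy2
    simpa [hp, FormalMultilinearSeries.ofScalars_apply_eq, smul_eq_mul, mul_comm] using this
  have h4 : p = 0 := h3.hasFPowerSeriesAt.eq_zero
  have h5 : p n (fun _ => (1 : ℂ)) = 0 := by rw [h4]; simp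
  rw [hp, FormalMultilinearSeries.ofScalars_apply_eq] at h5
  simpa using h5

/-- the generating function of the averages -/
lemma hasSum_en {c : ℝ} (hc : 0 < c) {w : ℂ} (hw : ‖w‖ < c) :
    HasSum (fun n => ((en c n : ℝ) : ℂ) * w ^ n) (lapE (c - w)) := by
  set F : ℕ → ℝ → ℂ := fun n v => (EE v : ℂ) * (wt c n v : ℂ) * w ^ n with hF
  have hFi : ∀ n, Integrable (F n) (volume.restrict (Set.Ioi (0 : ℝ))) := by
    intro n
    have h1 : Integrable (fun v => ((EE v * wt c n v : ℝ) : ℂ)) (volume.restrict (Set.Ioi (0 : ℝ))) :=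
      (EEwt_int hc n).ofReal
    refine (h1.mul_const (w ^ n)).congr (Eventually.of_forall fun v => ?_)
    simp only [hF]
    push_cast
    ring
  have hFn : ∀ n, ∫ v in Set.Ioi (0 : ℝ), ‖F n v‖ ≤ 2 * (1 / c) * (‖w‖ / c) ^ n := by
    intro n
    have h1 : ∫ v in Set.Ioi (0 : ℝ), ‖F n v‖ ≤ ∫ v in Set.Ioi (0 : ℝ), 2 * ‖w‖ ^ n * wt c n v := by
      refine setIntegral_mono_on (hFi n).norm ((wt_int hc n).const_mul _) measurableSet_Ioi fun v hv => ?_
      simp only [hF]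
      rw [norm_mul, norm_mul, norm_pow, Complex.norm_real, Complex.norm_real, Real.norm_eq_abs, Real.norm_eq_abs,
        abs_of_nonneg (wt_nonneg c n (le_of_lt hv))]
      have h0 := wt_nonneg c n (le_of_lt hv)
      have h2 := EE_crude (v := v)
      have h3 : 0 ≤ ‖w‖ ^ n := by positivity
      nlinarith [mul_nonneg h0 h3]
    refine h1.trans (le_of_eq ?_)
    rw [integral_const_mul, wt_val hc n, div_pow, div_pow, one_pow, pow_succ]
    field_simp
  have hsum : Summable fun n => ∫ v in Set.Ioi (0 : ℝ), ‖F n v‖ := by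
    refine Summable.of_nonneg_of_le (fun n => integral_nonneg fun v => norm_nonneg _) hFn ?_
    refine Summable.mul_left _ (summable_geometric_of_lt_one (by positivity) ?_)
    rw [div_lt_one hc]; exact hw
  have h := hasSum_integral_of_summable_integral_norm hFi hsum
  have h1 : ∀ n, ∫ v in Set.Ioi (0 : ℝ), F n v = ((en c n : ℝ) : ℂ) * w ^ n := by
    intro n
    simp only [hF]
    rw [integral_mul_const]
    congr 1
    unfold en
    rw [← integral_complex_ofReal]
    refine integral_congr_ae (Eventually.of_forall fun v => ?_)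
    simp only
    push_cast
    rfl
  simp only [h1] at h
  suffices hfin : ∫ v in Set.Ioi (0 : ℝ), ∑' n, F n v = lapE (c - w) by rwa [hfin] at h
  unfold lapE
  refine integral_congr_ae (Eventually.of_forall fun v => ?_)
  simp only [hF]
  have h2 : ∀ n : ℕ, (EE v : ℂ) * (wt c n v : ℂ) * w ^ n =
      (EE v : ℂ) * cexp (-(c * v)) * ((w * v) ^ n / (n.factorial : ℂ)) := by
    intro n
    unfold wt
    push_cast
    rw [mul_pow]
    ring
  simp only [h2]
  rw [tsum_mul_left]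
  have h3 := (NormedSpace.expSeries_div_hasSum_exp (w * (v : ℂ))).tsum_eq
  rw [h3, ← Complex.exp_eq_exp_ℂ, mul_assoc, ← Complex.exp_add]
  congr 2
  ring

/-- **asymptotics of the averages of `EE`** -/
theorem en_asymp {c : ℝ} (hc : 0 < c) : ∃ (R₀ R₂ M : ℝ) (P : Finset ℂ) (C : ℂ → ℂ),
    c < R₀ ∧ R₀ ≤ c + 1 / 2 ∧ P.Nonempty ∧
    (∀ ρ ∈ P, ‖ρ - (c + 1)‖ = R₀ ∧ C ρ ≠ 0 ∧ (ρ = 1 / 2 → C ρ = -1) ∧ (ρ ≠ 1 / 2 → ρ.im ≠ 0)) ∧
    (∀ ρ, Zs ρ = 0 → R₀ ≤ ‖ρ - (c + 1)‖) ∧ R₀ < R₂ ∧ 0 ≤ M ∧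
    ∀ n : ℕ, ‖((en c n : ℝ) : ℂ) - ∑ ρ ∈ P, C ρ / (c + 1 - ρ) ^ (n + 1)‖ ≤ M / R₂ ^ n := by
  obtain ⟨R₀, R₁, P, C, g, h1, h2, h3, h4, h5, h6, h7, h8⟩ := poles hc
  have hR0 : 0 < R₀ := hc.trans h1
  set R₂ : ℝ := (R₀ + R₁) / 2 with hR2
  have hR02 : R₀ < R₂ := by rw [hR2]; linarith
  have hR21 : R₂ < R₁ := by rw [hR2]; linarith
  have hR2p : 0 < R₂ := hR0.trans hR02
  set φ : ℂ → ℂ := fun w => g (c + 1 - w) with hφ
  have hφd : DifferentiableOn ℂ φ (ball 0 R₁) := by
    refine h7.comp ((differentiable_const _).sub differentiable_id).differentiableOn ?_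
    intro w hw
    rw [mem_ball, dist_zero_right] at hw
    have e1 : (c : ℂ) + 1 - w - (c + 1) = -w := by ring
    have e2 : ‖(c : ℂ) + 1 - w - (c + 1)‖ < R₁ := by rw [e1, norm_neg]; exact hw
    rw [mem_ball, dist_eq_norm]
    exact e2
  -- bound for the derivatives
  have hcl : DiffContOnCl ℂ φ (ball 0 R₂) := hφd.diffContOnCl_ball (closedBall_subset_ball hR21)
  have hcont : ContinuousOn φ (sphere 0 R₂) :=
    (hφd.continuousOn).mono (sphere_subset_closedBall.trans (closedBall_subset_ball hR21))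
  obtain ⟨M, hM⟩ := (isCompact_sphere (0 : ℂ) R₂).exists_bound_of_continuousOn hcont
  have hder : ∀ n, ‖iteratedDeriv n φ 0‖ ≤ n.factorial * M / R₂ ^ n := fun n =>
    Complex.norm_iteratedDeriv_le_of_forall_mem_sphere_norm_le n hR2p hcl hM
  have hM0 : 0 ≤ M := by
    obtain ⟨z, hz⟩ := NormedSpace.sphere_nonempty (x := (0 : ℂ)) (r := R₂) |>.2 hR2p.le
    exact (norm_nonneg _).trans (hM z hz)
  refine ⟨R₀, R₂, M, P, C, h1, h2, h3, h4, h5, hR02, hM0, fun n => ?_⟩
  -- the coefficients agree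
  have key : ∀ m : ℕ, ((en c m : ℝ) : ℂ) - ∑ ρ ∈ P, C ρ / (c + 1 - ρ) ^ (m + 1) -
      ((m.factorial : ℂ))⁻¹ * iteratedDeriv m φ 0 = 0 := by
    refine coeff_zero (fun m => ((en c m : ℝ) : ℂ) - ∑ ρ ∈ P, C ρ / (c + 1 - ρ) ^ (m + 1) -
      ((m.factorial : ℂ))⁻¹ * iteratedDeriv m φ 0) hc fun w hw => ?_
    have hwR0 : ‖w‖ < R₀ := hw.trans h1
    have s1 := hasSum_en hc hw
    have hz : 0 < ((c : ℂ) - w).re := by
      have := (abs_le.1 (Complex.abs_re_le_norm w)).2
      simp only [sub_re, ofReal_re]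
      linarith
    have hball : (c : ℂ) - w + 1 ∈ ball ((c : ℂ) + 1) R₀ := by
      rw [mem_ball, dist_eq_norm, show (c : ℂ) - w + 1 - (c + 1) = -w by ring, norm_neg]
      exact hwR0
    rw [lapE_GG hz, h8 _ hball] at s1
    have s2 := Complex.hasSum_taylorSeries_on_ball hφd (z := w) (by
      rw [mem_ball, dist_zero_right]; linarith)
    have s3 : ∀ ρ ∈ P, HasSum (fun m : ℕ => C ρ / (c + 1 - ρ) ^ (m + 1) * w ^ m) (C ρ / ((c : ℂ) - w + 1 - ρ)) := by
      intro ρ hρ
      have hn : ‖(c : ℂ) + 1 - ρ‖ = R₀ := by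
        rw [← (h4 ρ hρ).1, ← norm_neg]; congr 1; ring
      have hne : (c : ℂ) + 1 - ρ ≠ 0 := by
        intro h0; rw [h0, norm_zero] at hn; linarith
      have hlt : ‖w / (c + 1 - ρ)‖ < 1 := by
        rw [norm_div, hn, div_lt_one hR0]; exact hwR0
      have h9 := (hasSum_geometric_of_norm_lt_one hlt).mul_left (C ρ / (c + 1 - ρ))
      have hne2 : (c : ℂ) - w + 1 - ρ ≠ 0 := by
        intro h0
        have : w = c + 1 - ρ := by linear_combination -h0
        rw [this, hn] at hwR0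
        exact lt_irrefl _ hwR0
      have hne3 : 1 - w / (c + 1 - ρ) ≠ 0 := by
        rw [one_sub_div hne, div_ne_zero_iff]
        refine ⟨?_, hne⟩
        intro h0; apply hne2; linear_combination h0
      have e1 : (fun m : ℕ => C ρ / (c + 1 - ρ) ^ (m + 1) * w ^ m) =
          fun m : ℕ => C ρ / (c + 1 - ρ) * (w / (c + 1 - ρ)) ^ m := by
        funext m
        rw [div_pow, pow_succ]
        field_simp
      have e2 : C ρ / ((c : ℂ) - w + 1 - ρ) = C ρ / (c + 1 - ρ) * (1 - w / (c + 1 - ρ))⁻¹ := by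
        rw [one_sub_div hne, inv_div, div_mul_div_cancel₀ hne]
        congr 1
        ring
      rw [e1, e2]
      exact h9
    have s4 := (s1.sub (hasSum_sum s3)).sub s2
    have h10 : g ((c : ℂ) - w + 1) + ∑ ρ ∈ P, C ρ / ((c : ℂ) - w + 1 - ρ) -
        ∑ ρ ∈ P, C ρ / ((c : ℂ) - w + 1 - ρ) - φ w = 0 := by
      simp only [hφ]
      rw [show (c : ℂ) + 1 - w = c - w + 1 by ring]
      ring
    rw [h10] at s4
    have e3 : (fun m : ℕ => (((en c m : ℝ) : ℂ) - ∑ ρ ∈ P, C ρ / (c + 1 - ρ) ^ (m + 1) -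
        ((m.factorial : ℂ))⁻¹ * iteratedDeriv m φ 0) * w ^ m) = fun m : ℕ =>
        ((en c m : ℝ) : ℂ) * w ^ m - ∑ ρ ∈ P, C ρ / (c + 1 - ρ) ^ (m + 1) * w ^ m -
          ((m.factorial : ℂ))⁻¹ • (w - 0) ^ m • iteratedDeriv m φ 0 := by
      funext m
      simp only [sub_zero, smul_eq_mul]
      rw [sub_mul, sub_mul, Finset.sum_mul]
      ring
    rw [e3]
    exact s4
  have h9 : ((en c n : ℝ) : ℂ) - ∑ ρ ∈ P, C ρ / (c + 1 - ρ) ^ (n + 1) =
      ((n.factorial : ℂ))⁻¹ * iteratedDeriv n φ 0 := by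
    linear_combination key n
  rw [h9, norm_mul, norm_inv, Complex.norm_natCast]
  have hf : (0 : ℝ) < n.factorial := by positivity
  calc ((n.factorial : ℝ))⁻¹ * ‖iteratedDeriv n φ 0‖ ≤ ((n.factorial : ℝ))⁻¹ * (n.factorial * M / R₂ ^ n) := by
        gcongr
        exact hder n
    _ = M / R₂ ^ n := by field_simp

end

end Pool.Agent.N964
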