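import Mathlib

/-! A bounded sequence driven by a nontrivial trigonometric polynomial takes negative values in every long block. -/

set_option autoImplicit false

open Filter Topology

namespace Pool.Agent.N964

lemma geo_bound {z : ℂ} (hz : ‖z‖ = 1) (hz1 : z ≠ 1) (n L : ℕ) :
    ‖∑ k ∈ Finset.range L, z ^ (n + k)‖ ≤ 2 / ‖z - 1‖ := by
  have h0 : z - 1 ≠ 0 := sub_ne_zero.2 hz1
  have h1 : ∑ k ∈ Finset.range L, z ^ (n + k) = z ^ n * ((z ^ L - 1) / (z - 1)) := by
    rw [← geom_sum_eq hz1, Finset.mul_sum]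
    exact Finset.sum_congr rfl fun k _ => by rw [pow_add]
  rw [h1, norm_mul, norm_pow, hz, one_pow, one_mul, norm_div]
  refine div_le_div_of_nonneg_right ?_ (norm_nonneg _)
  refine (norm_sub_le _ _).trans ?_
  rw [norm_pow, hz, one_pow, norm_one]
  norm_num

theorem block {ι : Type*} (P : Finset ι) (ω D : ι → ℂ) (hω : ∀ i ∈ P, ‖ω i‖ = 1)
    (hinj : ∀ i ∈ P, ∀ j ∈ P, ω i = ω j → i = j) (h1 : ∀ i ∈ P, ω i = 1 → 0 ≤ (D i).re)
    (hne : ∃ i ∈ P, D i ≠ 0) (b : ℕ → ℝ) (B : ℝ) (hB : ∀ n, |b n| ≤ B) (q : ℝ) (hq0 : 0 < q) (hq1 : q < 1)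
    (hlim : Tendsto (fun n => ((q * b (n + 1) - b n : ℝ) : ℂ) - ∑ i ∈ P, D i * ω i ^ n) atTop (𝓝 0)) :
    ∃ η : ℝ, 0 < η ∧ ∃ L N : ℕ, ∀ n, N ≤ n → ∃ m, n ≤ m ∧ m ≤ n + L ∧ b m ≤ -η := by
  classical
  obtain ⟨j, hj, hDj⟩ := hne
  set κ : ℝ := ‖D j‖ with hκ
  have hκ0 : 0 < κ := norm_pos_iff.2 hDj
  have hB0 : 0 ≤ B := (abs_nonneg _).trans (hB 0)
  set C1 : ℝ := ∑ i ∈ P, ‖D i‖ * (2 / ‖ω i - 1‖) with hC1
  have hC10 : 0 ≤ C1 := Finset.sum_nonneg fun i _ => by positivity
  set τ : ℂ := (starRingEnd ℂ) (ω j) with hτ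
  have hτn : ‖τ‖ = 1 := by rw [hτ, RCLike.norm_conj]; exact hω j hj
  have hττ : ω j * τ = 1 := by
    rw [hτ, Complex.mul_conj, Complex.normSq_eq_norm_sq, hω j hj]; simp
  set C2 : ℝ := ∑ i ∈ P, ‖D i‖ * (2 / ‖ω i * τ - 1‖) with hC2
  have hC20 : 0 ≤ C2 := Finset.sum_nonneg fun i _ => by positivity
  have h1q : 0 < 1 - q := by linarith
  set ε : ℝ := κ * (1 - q) / 16 with hε
  have hε0 : 0 < ε := by positivity
  set η : ℝ := κ / 16 with hη
  set K : ℝ := C2 + 2 * ((2 * B + C1) / (1 - q)) + B with hK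
  obtain ⟨L, hL⟩ := exists_nat_gt (2 * K / κ)
  rw [Metric.tendsto_atTop] at hlim
  obtain ⟨N, hN⟩ := hlim ε hε0
  refine ⟨η, by positivity, L, N, fun n hn => ?_⟩
  by_contra hcon
  push Not at hcon
  -- the trigonometric polynomial
  set p : ℕ → ℂ := fun m => ∑ i ∈ P, D i * ω i ^ m with hp
  set r : ℕ → ℂ := fun m => ((q * b (m + 1) - b m : ℝ) : ℂ) - p m with hr
  have hrb : ∀ m, N ≤ m → ‖r m‖ ≤ ε := by
    intro m hm
    have := hN m hm
    rw [dist_zero_right] at this
    exact this.le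
  -- (1)
  have e1 : -C1 ≤ (∑ k ∈ Finset.range L, p (n + k)).re := by
    have h2 : ∑ k ∈ Finset.range L, p (n + k) = ∑ i ∈ P, D i * ∑ k ∈ Finset.range L, ω i ^ (n + k) := by
      simp only [hp]
      rw [Finset.sum_comm]
      exact Finset.sum_congr rfl fun i _ => by rw [Finset.mul_sum]
    rw [h2, Complex.re_sum, hC1, ← Finset.sum_neg_distrib]
    refine Finset.sum_le_sum fun i hi => ?_
    by_cases hi1 : ω i = 1
    · rw [hi1]
      simp only [one_pow, Finset.sum_const, Finset.card_range, nsmul_eq_mul, mul_one]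
      have h3 := h1 i hi hi1
      have h4 : (D i * (L : ℂ)).re = (D i).re * L := by simp
      rw [h4]
      have h5 : 0 ≤ (D i).re * L := by positivity
      have h6 : 0 ≤ ‖D i‖ * (2 / ‖(1 : ℂ) - 1‖) := by positivity
      linarith
    · have h3 := geo_bound (hω i hi) hi1 n L
      have h4 := (abs_le.1 (Complex.abs_re_le_norm (D i * ∑ k ∈ Finset.range L, ω i ^ (n + k)))).1
      rw [norm_mul] at h4
      have h5 := mul_le_mul_of_nonneg_left h3 (norm_nonneg (D i))
      linarith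
  -- (2)
  have e2 : κ * L - C2 ≤ ∑ k ∈ Finset.range L, ‖p (n + k)‖ := by
    have h2 : ∑ k ∈ Finset.range L, p (n + k) * τ ^ (n + k) =
        ∑ i ∈ P, D i * ∑ k ∈ Finset.range L, (ω i * τ) ^ (n + k) := by
      simp only [hp, Finset.sum_mul]
      rw [Finset.sum_comm]
      refine Finset.sum_congr rfl fun i _ => ?_
      rw [Finset.mul_sum]
      exact Finset.sum_congr rfl fun k _ => by rw [mul_pow]; ring
    have h3 : ‖∑ k ∈ Finset.range L, p (n + k) * τ ^ (n + k)‖ ≤ ∑ k ∈ Finset.range L, ‖p (n + k)‖ := by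
      refine (norm_sum_le _ _).trans (Finset.sum_le_sum fun k _ => ?_)
      rw [norm_mul, norm_pow, hτn, one_pow, mul_one]
    refine le_trans ?_ h3
    rw [h2, ← Finset.add_sum_erase P _ hj, hττ]
    simp only [one_pow, Finset.sum_const, Finset.card_range, nsmul_eq_mul, mul_one]
    have h4 : ‖∑ i ∈ P.erase j, D i * ∑ k ∈ Finset.range L, (ω i * τ) ^ (n + k)‖ ≤ C2 := by
      refine (norm_sum_le _ _).trans ?_
      rw [hC2]
      refine le_trans (Finset.sum_le_sum fun i hi => ?_) (Finset.sum_le_sum_of_subset_of_nonneg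
        (f := fun i => ‖D i‖ * (2 / ‖ω i * τ - 1‖)) (Finset.erase_subset j P) fun i _ _ => by positivity)
      obtain ⟨hij, hiP⟩ := Finset.mem_erase.1 hi
      rw [norm_mul]
      refine mul_le_mul_of_nonneg_left (geo_bound ?_ ?_ n L) (norm_nonneg _)
      · rw [norm_mul, hω i hiP, hτn, one_mul]
      · intro h5
        apply hij
        apply hinj i hiP j hj
        have h6 : ω j * (ω i * τ) = ω i := by linear_combination (ω i) * hττ
        rw [h5, mul_one] at h6
        exact h6.symm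
    have h5 := norm_sub_norm_le (D j * (L : ℂ)) (-(∑ i ∈ P.erase j, D i * ∑ k ∈ Finset.range L, (ω i * τ) ^ (n + k)))
    rw [norm_neg, sub_neg_eq_add, norm_mul, Complex.norm_natCast] at h5
    linarith
  -- sums of b
  set Sb : ℝ := ∑ k ∈ Finset.range L, b (n + k) with hSb
  have hshift : ∑ k ∈ Finset.range L, b (n + k + 1) = Sb + b (n + L) - b n := by
    have h2 := Finset.sum_range_succ (fun k => b (n + k)) L
    have h3 := Finset.sum_range_succ' (fun k => b (n + k)) L
    simp only [add_zero] at h3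
    have h4 : ∑ k ∈ Finset.range L, b (n + (k + 1)) = ∑ k ∈ Finset.range L, b (n + k + 1) := rfl
    rw [h4] at h3
    linarith
  have e3 : ∑ k ∈ Finset.range L, (q * b (n + k + 1) - b (n + k)) = -(1 - q) * Sb + q * (b (n + L) - b n) := by
    rw [Finset.sum_sub_distrib, ← Finset.mul_sum, hshift, ← hSb]
    ring
  have e4 : ∑ k ∈ Finset.range L, (q * b (n + k + 1) - b (n + k)) =
      (∑ k ∈ Finset.range L, p (n + k)).re + (∑ k ∈ Finset.range L, r (n + k)).re := by
    rw [← Complex.add_re, ← Finset.sum_add_distrib, Complex.re_sum]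
    refine Finset.sum_congr rfl fun k _ => ?_
    simp only [hr]
    rw [add_sub_cancel, Complex.ofReal_re]
  have e5 : -(ε * L) ≤ (∑ k ∈ Finset.range L, r (n + k)).re := by
    have h2 := (abs_le.1 (Complex.abs_re_le_norm (∑ k ∈ Finset.range L, r (n + k)))).1
    have h3 : ‖∑ k ∈ Finset.range L, r (n + k)‖ ≤ ε * L := by
      refine (norm_sum_le _ _).trans ((Finset.sum_le_sum fun k _ => hrb (n + k) (by omega)).trans ?_)
      rw [Finset.sum_const, Finset.card_range, nsmul_eq_mul, mul_comm]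
    linarith
  have hbn := abs_le.1 (hB n)
  have hbL := abs_le.1 (hB (n + L))
  have e6 : (1 - q) * Sb ≤ 2 * B + C1 + ε * L := by
    have h2 : q * (b (n + L) - b n) ≤ 2 * B := by
      have : b (n + L) - b n ≤ 2 * B := by linarith
      nlinarith
    linarith
  have e7 : ∑ k ∈ Finset.range L, |b (n + k)| ≤ Sb + 2 * η * L := by
    have h2 : ∀ k ∈ Finset.range L, |b (n + k)| ≤ b (n + k) + 2 * η := by
      intro k hk
      have h3 := hcon (n + k) (by omega) (by have := Finset.mem_range.1 hk; omega)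
      rw [abs_le]
      constructor
      · have : 0 < η := by positivity
        linarith
      · have : 0 < η := by positivity
        linarith
    refine (Finset.sum_le_sum h2).trans (le_of_eq ?_)
    rw [Finset.sum_add_distrib, Finset.sum_const, Finset.card_range, nsmul_eq_mul]
    ring
  have e8 : ∑ k ∈ Finset.range L, ‖p (n + k)‖ ≤ 2 * (∑ k ∈ Finset.range L, |b (n + k)|) + B + ε * L := by
    have h2 : ∀ k ∈ Finset.range L, ‖p (n + k)‖ ≤ |b (n + k + 1)| + |b (n + k)| + ε := by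
      intro k _
      have h3 : p (n + k) = ((q * b (n + k + 1) - b (n + k) : ℝ) : ℂ) - r (n + k) := by simp only [hr]; ring
      rw [h3]
      refine (norm_sub_le _ _).trans (add_le_add ?_ (hrb _ (by omega)))
      rw [Complex.norm_real, Real.norm_eq_abs]
      refine (abs_sub _ _).trans ?_
      rw [abs_mul, abs_of_pos hq0]
      have := abs_nonneg (b (n + k + 1))
      nlinarith
    refine (Finset.sum_le_sum h2).trans ?_
    rw [Finset.sum_add_distrib, Finset.sum_add_distrib, Finset.sum_const, Finset.card_range, nsmul_eq_mul]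
    have h3 : ∑ k ∈ Finset.range L, |b (n + k + 1)| ≤ ∑ k ∈ Finset.range L, |b (n + k)| + B := by
      have h4 := Finset.sum_range_succ (fun k => |b (n + k)|) L
      have h5 := Finset.sum_range_succ' (fun k => |b (n + k)|) L
      simp only [add_zero] at h5
      have h6 : ∑ k ∈ Finset.range L, |b (n + (k + 1))| = ∑ k ∈ Finset.range L, |b (n + k + 1)| := rfl
      rw [h6] at h5
      have h7 := abs_nonneg (b n)
      have h8 := hB (n + L)
      linarith
    linarith
  -- conclusion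
  have e9 : Sb ≤ (2 * B + C1) / (1 - q) + κ / 16 * L := by
    have h2 : Sb ≤ (2 * B + C1 + ε * L) / (1 - q) := by
      rw [le_div_iff₀ h1q]; linarith
    refine h2.trans (le_of_eq ?_)
    rw [hε]
    field_simp
  have e10 : ε ≤ κ / 16 := by
    rw [hε]
    nlinarith
  have hL0 : (0 : ℝ) ≤ L := Nat.cast_nonneg L
  have e11 : ε * L ≤ κ / 16 * L := mul_le_mul_of_nonneg_right e10 hL0
  have e12 : κ * L ≤ K + κ / 8 * L + κ / 4 * L + κ / 16 * L := by
    rw [hK]
    have : 2 * η * (L : ℝ) = κ / 8 * L := by rw [hη]; ring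
    nlinarith
  rw [div_lt_iff₀ hκ0] at hL
  nlinarith

end Pool.Agent.N964
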