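import Pool.Agent.N964.B7
import Pool.Agent.N964.B8

/-! The averages of `kw` are negative in every long block. -/

set_option autoImplicit false

open MeasureTheory Filter Topology Complex
open Pool.Agent.H295R2 (Zs)

namespace Pool.Agent.N964

noncomputable section

lemma geom_tail_zero {x : ℕ → ℝ} {a q : ℝ} (ha : 0 ≤ a) (hq0 : 0 < q) (hq1 : q < 1)
    (hx : Tendsto x atTop (𝓝 0)) (h : ∀ n, x n ≤ x (n + 1) + a * (q ^ n / (n + 2))) (n : ℕ) :
    x n ≤ a / (1 - q) * (q ^ n / (n + 2)) := by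
  have h1q : 0 < 1 - q := by linarith
  set y : ℕ → ℝ := fun n => x n - a / (1 - q) * (q ^ n / (n + 2)) with hy
  have hmono : Monotone y := by
    refine monotone_nat_of_le_succ fun m => ?_
    simp only [hy]
    have h1 := h m
    have h2 : q ^ (m + 1) / ((m + 1 : ℕ) + 2 : ℝ) ≤ q * (q ^ m / (m + 2)) := by
      rw [pow_succ, mul_comm (q ^ m) q, mul_div_assoc]
      refine mul_le_mul_of_nonneg_left ?_ hq0.le
      refine div_le_div_of_nonneg_left (by positivity) (by positivity) ?_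
      push_cast; linarith
    have h3 : 0 ≤ a / (1 - q) := by positivity
    have h4 := mul_le_mul_of_nonneg_left h2 h3
    have h5 : a / (1 - q) * (q ^ m / (m + 2)) - a / (1 - q) * (q * (q ^ m / (m + 2))) = a * (q ^ m / (m + 2)) := by
      field_simp
    linarith
  have hlim : Tendsto y atTop (𝓝 0) := by
    have h1 : Tendsto (fun n : ℕ => q ^ n / ((n : ℝ) + 2)) atTop (𝓝 0) := by
      refine squeeze_zero (fun n => by positivity) (fun n => ?_) (tendsto_pow_atTop_nhds_zero_of_lt_one hq0.le hq1)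
      rw [div_le_iff₀ (by positivity)]
      have : 0 ≤ q ^ n := by positivity
      have hn : (0 : ℝ) ≤ n := Nat.cast_nonneg n
      nlinarith
    have h2 := hx.sub (h1.const_mul (a / (1 - q)))
    simpa using h2
  have := hmono.ge_of_tendsto hlim n
  simp only [hy] at this
  linarith

/-- bound for a fixed geometric sequence against a factorial -/
lemma fact_bound (R : ℝ) : ∃ K : ℝ, 0 ≤ K ∧ ∀ n : ℕ, R ^ n / n.factorial ≤ K := by
  have h := FloorSemiring.tendsto_pow_div_factorial_atTop R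
  obtain ⟨B, hB⟩ := h.bddAbove_range
  exact ⟨max B 0, le_max_right _ _, fun n => (hB ⟨n, rfl⟩).trans (le_max_left _ _)⟩

/-- **the averages are negative in every long block** -/
theorem neg_block {c : ℝ} (hc : 0 < c) : ∃ R₀ : ℝ, c < R₀ ∧ R₀ ≤ c + 1 / 2 ∧
    (∀ ρ, Zs ρ = 0 → R₀ ≤ ‖ρ - (c + 1)‖) ∧
    ∃ η : ℝ, 0 < η ∧ ∃ L N : ℕ, ∀ n, N ≤ n → ∃ m, n ≤ m ∧ m ≤ n + L ∧ (m + 1) * R₀ ^ m * an c m ≤ -η := by
  obtain ⟨R₀, R₂, M, P, C, h1, h2, h3, h4, h5, h6, hM, h7⟩ := en_asymp hc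
  refine ⟨R₀, h1, h2, h5, ?_⟩
  have hR0 : 0 < R₀ := hc.trans h1
  have hR2 : 0 < R₂ := hR0.trans h6
  set q : ℝ := c / R₀ with hq
  have hq0 : 0 < q := by positivity
  have hq1 : q < 1 := by rw [hq, div_lt_one hR0]; exact h1
  set ζ : ℂ → ℂ := fun ρ => (c : ℂ) + 1 - ρ with hζ
  have hζn : ∀ ρ ∈ P, ‖ζ ρ‖ = R₀ := by
    intro ρ hρ
    rw [← (h4 ρ hρ).1, ← norm_neg]
    congr 1
    simp only [hζ]; ring
  have hζ0 : ∀ ρ ∈ P, ζ ρ ≠ 0 := by
    intro ρ hρ h0
    have := hζn ρ hρ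
    rw [h0, norm_zero] at this
    linarith
  set ω : ℂ → ℂ := fun ρ => (R₀ : ℂ) / ζ ρ with hω
  set D : ℂ → ℂ := fun ρ => -(C ρ / ζ ρ) with hD
  -- error terms of en1
  obtain ⟨K2, hK2, hfb⟩ := fact_bound R₂
  set s1 : ℕ → ℂ := fun n => ((en1 c n : ℝ) : ℂ) * (R₀ : ℂ) ^ n - ∑ ρ ∈ P, C ρ / ζ ρ * ω ρ ^ n with hs1
  have herr : ∀ n, ‖s1 n‖ ≤ (M + 2 * K2) * (R₀ / R₂) ^ n := by
    intro n
    have e1 : s1 n = (((en c n : ℝ) : ℂ) - ∑ ρ ∈ P, C ρ / (c + 1 - ρ) ^ (n + 1)) * (R₀ : ℂ) ^ n +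
        ((en1 c n - en c n : ℝ) : ℂ) * (R₀ : ℂ) ^ n := by
      simp only [hs1]
      have e2 : ∑ ρ ∈ P, C ρ / ζ ρ * ω ρ ^ n = (∑ ρ ∈ P, C ρ / (c + 1 - ρ) ^ (n + 1)) * (R₀ : ℂ) ^ n := by
        rw [Finset.sum_mul]
        refine Finset.sum_congr rfl fun ρ hρ => ?_
        simp only [hω, hζ]
        have := hζ0 ρ hρ
        simp only [hζ] at this
        rw [div_pow, pow_succ]
        field_simp
      rw [e2]
      push_cast
      ring
    rw [e1]
    refine (norm_add_le _ _).trans ?_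
    rw [norm_mul, norm_mul, norm_pow, Complex.norm_real, Complex.norm_real, Real.norm_eq_abs, Real.norm_eq_abs,
      abs_of_pos hR0]
    have e3 := en1_sub hc n
    have e4 : 2 / (n.factorial : ℝ) ≤ 2 * K2 / R₂ ^ n := by
      have hf : (0 : ℝ) < n.factorial := by positivity
      have := hfb n
      rw [div_le_iff₀ hf] at this
      rw [div_le_div_iff₀ hf (by positivity)]
      linarith
    have e5 : (M + 2 * K2) * (R₀ / R₂) ^ n = M / R₂ ^ n * R₀ ^ n + 2 * K2 / R₂ ^ n * R₀ ^ n := by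
      rw [div_pow]; ring
    rw [e5]
    refine add_le_add (mul_le_mul_of_nonneg_right (h7 n) (by positivity)) ?_
    exact mul_le_mul_of_nonneg_right (e3.trans e4) (by positivity)
  have hs1lim : Tendsto s1 atTop (𝓝 0) := by
    refine squeeze_zero_norm herr ?_
    have : Tendsto (fun n : ℕ => (R₀ / R₂) ^ n) atTop (𝓝 0) :=
      tendsto_pow_atTop_nhds_zero_of_lt_one (by positivity) (by rw [div_lt_one hR2]; exact h6)
    simpa using this.const_mul (M + 2 * K2)
  -- boundedness of en1 * R0^n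
  obtain ⟨K1, hK10, hK1⟩ : ∃ K1 : ℝ, 0 ≤ K1 ∧ ∀ n, |en1 c n| * R₀ ^ n ≤ K1 := by
    refine ⟨∑ ρ ∈ P, ‖C ρ / ζ ρ‖ + (M + 2 * K2), by positivity, fun n => ?_⟩
    have e1 : ((en1 c n : ℝ) : ℂ) * (R₀ : ℂ) ^ n = s1 n + ∑ ρ ∈ P, C ρ / ζ ρ * ω ρ ^ n := by
      simp only [hs1]; ring
    have e2 : |en1 c n| * R₀ ^ n = ‖((en1 c n : ℝ) : ℂ) * (R₀ : ℂ) ^ n‖ := by
      rw [norm_mul, norm_pow, Complex.norm_real, Complex.norm_real, Real.norm_eq_abs, Real.norm_eq_abs,
        abs_of_pos hR0]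
    rw [e2, e1, add_comm]
    refine (norm_add_le _ _).trans (add_le_add ?_ ?_)
    · refine (norm_sum_le _ _).trans (Finset.sum_le_sum fun ρ hρ => ?_)
      rw [norm_mul, norm_pow]
      have : ‖ω ρ‖ = 1 := by
        simp only [hω]
        rw [norm_div, hζn ρ hρ, Complex.norm_real, Real.norm_eq_abs, abs_of_pos hR0, div_self hR0.ne']
      rw [this, one_pow, mul_one]
    · refine (herr n).trans ?_
      have : (R₀ / R₂) ^ n ≤ 1 := pow_le_one₀ (by positivity) (by rw [div_le_one hR2]; exact h6.le)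
      have h0 : 0 ≤ M + 2 * K2 := by positivity
      nlinarith
  -- the bound for the averages
  set K3 : ℝ := K1 * (1 + 1 / R₀) with hK3
  have hK30 : 0 ≤ K3 := by positivity
  have hE : ∀ n : ℕ, |en1 c n / ((n + 1) * (n + 2)) + en1 c (n + 1) / (n + 2)| ≤ K3 / (R₀ ^ n * (n + 2)) := by
    intro n
    have hn : (0 : ℝ) ≤ n := Nat.cast_nonneg n
    have e1 : |en1 c n| ≤ K1 / R₀ ^ n := by rw [le_div_iff₀ (by positivity)]; exact hK1 n
    have e2 : |en1 c (n + 1)| ≤ K1 / R₀ ^ (n + 1) := by rw [le_div_iff₀ (by positivity)]; exact hK1 (n + 1)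
    refine (abs_add_le _ _).trans ?_
    rw [abs_div, abs_div, abs_of_pos (show (0 : ℝ) < (n + 1) * (n + 2) by positivity),
      abs_of_pos (show (0 : ℝ) < n + 2 by positivity)]
    calc |en1 c n| / ((n + 1) * (n + 2)) + |en1 c (n + 1)| / (n + 2)
        ≤ (K1 / R₀ ^ n) / (1 * (n + 2)) + (K1 / R₀ ^ (n + 1)) / (n + 2) := by
          gcongr
          linarith
      _ = _ := by
          rw [hK3, pow_succ]
          field_simp
  have hrel : ∀ n : ℕ, c * an c (n + 2) - an c (n + 1) =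
      -(en1 c n / ((n + 1) * (n + 2)) + en1 c (n + 1) / (n + 2)) := rel hc
  have hab : ∀ n : ℕ, c ^ (n + 1) * |an c (n + 1)| ≤ c * K3 / (1 - q) * (q ^ n / (n + 2)) := by
    intro n
    refine geom_tail_zero (x := fun n => c ^ (n + 1) * |an c (n + 1)|) (a := c * K3) (by positivity) hq0 hq1 ?_ ?_ n
    · have e1 := ((an_tendsto hc).comp (tendsto_add_atTop_nat 1)).abs
      rw [abs_zero] at e1
      have e2 := e1.const_mul (1 / c)
      rw [mul_zero] at e2
      refine e2.congr fun n => ?_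
      simp only [Function.comp]
      rw [abs_mul, abs_of_pos (by positivity : 0 < c ^ (n + 1 + 1)), pow_succ c (n + 1)]
      field_simp
    · intro n
      have e1 : an c (n + 1) = c * an c (n + 2) + (en1 c n / ((n + 1) * (n + 2)) + en1 c (n + 1) / (n + 2)) := by
        have := hrel n
        linarith
      have e2 : |an c (n + 1)| ≤ c * |an c (n + 2)| + K3 / (R₀ ^ n * (n + 2)) := by
        rw [e1]
        refine (abs_add_le _ _).trans (add_le_add ?_ (hE n))
        rw [abs_mul, abs_of_pos hc]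
      have e3 := mul_le_mul_of_nonneg_left e2 (by positivity : 0 ≤ c ^ (n + 1))
      refine e3.trans (le_of_eq ?_)
      rw [hq, div_pow, pow_succ c (n + 1)]
      field_simp
      ring
  set b : ℕ → ℝ := fun n => (n + 1) * R₀ ^ n * an c n with hb
  have hbs : ∀ n, |b (n + 1)| ≤ R₀ * K3 / (1 - q) := by
    intro n
    simp only [hb]
    have hn : (0 : ℝ) ≤ n := Nat.cast_nonneg n
    rw [abs_mul, abs_of_nonneg (by positivity)]
    have e1 := hab n
    have e2 : |an c (n + 1)| ≤ (c * K3 / (1 - q) * (q ^ n / (n + 2))) / c ^ (n + 1) := by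
      rw [le_div_iff₀ (by positivity)]; linarith
    have h1q : 0 < 1 - q := by linarith
    refine (mul_le_mul_of_nonneg_left e2 (by positivity)).trans (le_of_eq ?_)
    have e3 : q ^ n = c ^ n / R₀ ^ n := by rw [hq, div_pow]
    rw [e3]
    push_cast
    rw [pow_succ, pow_succ]
    field_simp
    ring
  obtain ⟨B, hB⟩ : ∃ B : ℝ, ∀ n, |b n| ≤ B := by
    refine ⟨max |b 0| (R₀ * K3 / (1 - q)), fun n => ?_⟩
    rcases n with _ | n
    · exact le_max_left _ _
    · exact (hbs n).trans (le_max_right _ _)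
  have hB0 : 0 ≤ B := (abs_nonneg _).trans (hB 0)
  -- the limit relation
  have hlim : Tendsto (fun n => ((q * b (n + 1) - b n : ℝ) : ℂ) - ∑ ρ ∈ P, D ρ * ω ρ ^ n) atTop (𝓝 0) := by
    rw [← tendsto_add_atTop_iff_nat 1]
    -- split
    have e0 : ∀ n : ℕ, ((q * b (n + 1 + 1) - b (n + 1) : ℝ) : ℂ) - ∑ ρ ∈ P, D ρ * ω ρ ^ (n + 1) =
        -s1 (n + 1) + ((-(R₀ * (en1 c n * R₀ ^ n) / (n + 1)) + q * b (n + 2) / (n + 3) : ℝ) : ℂ) := by
      intro n
      have hsum : ∑ ρ ∈ P, D ρ * ω ρ ^ (n + 1) = -∑ ρ ∈ P, C ρ / ζ ρ * ω ρ ^ (n + 1) := by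
        rw [← Finset.sum_neg_distrib]
        exact Finset.sum_congr rfl fun ρ _ => by simp only [hD]; ring
      have hreal : q * b (n + 1 + 1) - b (n + 1) = -(en1 c (n + 1) * R₀ ^ (n + 1)) +
          (-(R₀ * (en1 c n * R₀ ^ n) / (n + 1)) + q * b (n + 2) / (n + 3)) := by
        have hr := hrel n
        simp only [hb]
        have e1 : q * (((n + 1 + 1 : ℕ) : ℝ) + 1) * R₀ ^ (n + 1 + 1) * an c (n + 1 + 1) =
            (n + 3) * R₀ ^ (n + 1) * (c * an c (n + 2)) := by
          rw [hq, pow_succ R₀ (n + 1)]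
          push_cast
          field_simp
          ring
        have e2 : q * ((((n + 2 : ℕ) : ℝ) + 1) * R₀ ^ (n + 2) * an c (n + 2)) / (n + 3) =
            R₀ ^ (n + 1) * (c * an c (n + 2)) := by
          rw [hq, pow_succ R₀ (n + 1)]
          push_cast
          field_simp
          ring
        have hn : (0 : ℝ) ≤ n := Nat.cast_nonneg n
        have e3 : c * an c (n + 2) = an c (n + 1) - (en1 c n / ((n + 1) * (n + 2)) + en1 c (n + 1) / (n + 2)) := by
          linarith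
        rw [e2]
        have e4 : q * ((((n + 1 + 1 : ℕ) : ℝ) + 1) * R₀ ^ (n + 1 + 1) * an c (n + 1 + 1)) =
            (n + 3) * R₀ ^ (n + 1) * (c * an c (n + 2)) := by rw [← e1]; ring
        rw [e4, e3]
        push_cast
        rw [pow_succ]
        field_simp
        ring
      rw [hsum, hreal]
      simp only [hs1]
      push_cast
      ring
    simp only [e0]
    have t1 : Tendsto (fun n => -s1 (n + 1)) atTop (𝓝 0) := by
      have := (hs1lim.comp (tendsto_add_atTop_nat 1)).neg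
      simpa using this
    have t2 : Tendsto (fun n : ℕ => -(R₀ * (en1 c n * R₀ ^ n) / (n + 1)) + q * b (n + 2) / (n + 3)) atTop (𝓝 0) := by
      have t3 : Tendsto (fun n : ℕ => (R₀ * K1 + q * B) * (1 / ((n : ℝ) + 1))) atTop (𝓝 0) := by
        have := (tendsto_one_div_add_atTop_nhds_zero_nat (𝕜 := ℝ)).const_mul (R₀ * K1 + q * B)
        simpa using this
      refine squeeze_zero_norm (fun n => ?_) t3
      have hn : (0 : ℝ) ≤ n := Nat.cast_nonneg n
      rw [Real.norm_eq_abs]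
      refine (abs_add_le _ _).trans ?_
      rw [abs_neg, abs_div, abs_div, abs_mul, abs_mul, abs_mul, abs_pow, abs_of_pos hR0, abs_of_pos hq0,
        abs_of_pos (show (0 : ℝ) < n + 1 by positivity), abs_of_pos (show (0 : ℝ) < n + 3 by positivity)]
      have e1 := hK1 n
      have e2 := hB (n + 2)
      calc R₀ * (|en1 c n| * R₀ ^ n) / (n + 1) + q * |b (n + 2)| / (n + 3)
          ≤ R₀ * K1 / (n + 1) + q * B / (n + 1) := by
            gcongr
            linarith
        _ = _ := by ring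
    have t4 := t1.add ((Complex.continuous_ofReal.tendsto 0).comp t2)
    simpa using t4
  -- apply the block lemma
  refine block P ω D (fun ρ hρ => ?_) ?_ ?_ ?_ b B hB q hq0 hq1 hlim
  · simp only [hω]
    rw [norm_div, hζn ρ hρ, Complex.norm_real, Real.norm_eq_abs, abs_of_pos hR0, div_self hR0.ne']
  · intro ρ hρ ρ' hρ' he
    simp only [hω] at he
    have hR : (R₀ : ℂ) ≠ 0 := by exact_mod_cast hR0.ne'
    rw [div_eq_div_iff (hζ0 ρ hρ) (hζ0 ρ' hρ')] at he
    have h8 := mul_left_cancel₀ hR he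
    simp only [hζ] at h8
    linear_combination h8
  · intro ρ hρ he
    simp only [hω] at he
    rw [div_eq_one_iff_eq (hζ0 ρ hρ)] at he
    simp only [hζ] at he
    have him : ρ.im = 0 := by
      have := congrArg Complex.im he
      simp at this
      exact this
    have hhalf : ρ = 1 / 2 := by
      by_contra hcon
      exact (h4 ρ hρ).2.2.2 hcon him
    have hC := (h4 ρ hρ).2.2.1 hhalf
    simp only [hD, hζ]
    rw [hC, ← he]
    have : (-((-1 : ℂ) / (R₀ : ℂ))) = ((1 / R₀ : ℝ) : ℂ) := by push_cast; ring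
    rw [this, Complex.ofReal_re]
    positivity
  · obtain ⟨ρ, hρ⟩ := h3
    refine ⟨ρ, hρ, ?_⟩
    simp only [hD]
    exact neg_ne_zero.2 (div_ne_zero (h4 ρ hρ).2.1 (hζ0 ρ hρ))

end

end Pool.Agent.N964
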