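import Pool.Agent.N964.A5

/-! Modification of an integer by swapping primes. -/

set_option autoImplicit false

open Finset

namespace Pool.Agent.N964

noncomputable section

section
variable {M : ℕ} (T : ℕ) (p q : Fin M → ℕ)

/-- the modified integer -/
def md (I : Finset (Fin M)) : ℕ := T * ((∏ i ∈ I, q i) * ∏ i ∈ Iᶜ, p i)

variable {T p q}

lemma md_ne {hT : T ≠ 0} (hp : ∀ i, p i ≠ 0) (hq : ∀ i, q i ≠ 0) (I : Finset (Fin M)) : md T p q I ≠ 0 :=
  mul_ne_zero hT (mul_ne_zero (Finset.prod_ne_zero_iff.2 fun i _ => hq i)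
    (Finset.prod_ne_zero_iff.2 fun i _ => hp i))

lemma md_empty : md T p q ∅ = T * ∏ i, p i := by
  unfold md
  rw [Finset.prod_empty, Finset.compl_empty, one_mul]

/-- multiplicativity over a pairwise coprime family -/
lemma r_prod {r : ℕ → ℝ} (h1 : r 1 = 1) (hmul : ∀ a b : ℕ, Nat.Coprime a b → r (a * b) = r a * r b)
    {ι : Type*} (s : Finset ι) (f : ι → ℕ) (hf : ∀ i ∈ s, ∀ j ∈ s, i ≠ j → Nat.Coprime (f i) (f j)) :
    r (∏ i ∈ s, f i) = ∏ i ∈ s, r (f i) := by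
  classical
  induction s using Finset.induction_on with
  | empty => simp [h1]
  | insert a s ha ih =>
    rw [Finset.prod_insert ha, Finset.prod_insert ha, hmul, ih]
    · intro i hi j hj hij
      exact hf i (Finset.mem_insert_of_mem hi) j (Finset.mem_insert_of_mem hj) hij
    · refine Nat.Coprime.prod_right fun i hi => ?_
      refine hf a (Finset.mem_insert_self a s) i (Finset.mem_insert_of_mem hi) ?_
      rintro rfl
      exact ha hi

lemma md_r {r : ℕ → ℝ} (h1 : r 1 = 1) (hmul : ∀ a b : ℕ, Nat.Coprime a b → r (a * b) = r a * r b)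
    (hTp : ∀ i, Nat.Coprime T (p i)) (hTq : ∀ i, Nat.Coprime T (q i))
    (hpp : ∀ i j, i ≠ j → Nat.Coprime (p i) (p j)) (hqq : ∀ i j, i ≠ j → Nat.Coprime (q i) (q j))
    (hpq : ∀ i j, Nat.Coprime (q i) (p j)) (I : Finset (Fin M)) :
    r (md T p q I) = r T * ((∏ i ∈ I, r (q i)) * ∏ i ∈ Iᶜ, r (p i)) := by
  unfold md
  rw [hmul, hmul, r_prod h1 hmul, r_prod h1 hmul]
  · exact fun i _ j _ h => hpp i j h
  · exact fun i _ j _ h => hqq i j h
  · exact Nat.Coprime.prod_left fun i _ => Nat.Coprime.prod_right fun j _ => hpq i j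
  · exact Nat.Coprime.mul_right (Nat.Coprime.prod_right fun i _ => hTq i) (Nat.Coprime.prod_right fun i _ => hTp i)

/-- the ratio does not drop much -/
lemma md_ratio {r : ℕ → ℝ} (h1 : r 1 = 1) (hmul : ∀ a b : ℕ, Nat.Coprime a b → r (a * b) = r a * r b)
    (hpos : ∀ n : ℕ, n ≠ 0 → 0 < r n) (hT : T ≠ 0) (hp0 : ∀ i, p i ≠ 0) (_hq0 : ∀ i, q i ≠ 0)
    (hTp : ∀ i, Nat.Coprime T (p i)) (hTq : ∀ i, Nat.Coprime T (q i))
    (hpp : ∀ i j, i ≠ j → Nat.Coprime (p i) (p j)) (hqq : ∀ i j, i ≠ j → Nat.Coprime (q i) (q j))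
    (hpq : ∀ i j, Nat.Coprime (q i) (p j)) {τ : ℝ} (hτ0 : 0 ≤ τ) (hτ1 : τ ≤ 1)
    (hτ : ∀ i, r (p i) * (1 - τ) ≤ r (q i)) (I : Finset (Fin M)) :
    r (md T p q ∅) * (1 - M * τ) ≤ r (md T p q I) := by
  rw [md_r h1 hmul hTp hTq hpp hqq hpq, md_r h1 hmul hTp hTq hpp hqq hpq]
  have h2 : (∏ i ∈ I, r (p i)) * (1 - τ) ^ I.card ≤ ∏ i ∈ I, r (q i) := by
    rw [← Finset.prod_const, ← Finset.prod_mul_distrib]
    refine Finset.prod_le_prod (fun i _ => ?_) fun i _ => hτ i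
    exact mul_nonneg (hpos _ (hp0 i)).le (by linarith)
  have h3 : 1 - M * τ ≤ (1 - τ) ^ I.card := by
    have h4 := one_add_mul_le_pow (show (-2 : ℝ) ≤ -τ by linarith) I.card
    have h5 : (I.card : ℝ) ≤ M := by
      have := Finset.card_le_univ I
      rw [Fintype.card_fin] at this
      exact_mod_cast this
    have h6 : (1 : ℝ) + -τ = 1 - τ := by ring
    rw [h6] at h4
    nlinarith
  have h7 : (∏ i ∈ (∅ : Finset (Fin M)), r (q i)) * ∏ i ∈ (∅ : Finset (Fin M))ᶜ, r (p i) =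
      (∏ i ∈ I, r (p i)) * ∏ i ∈ Iᶜ, r (p i) := by
    rw [Finset.prod_empty, Finset.compl_empty, one_mul, Finset.prod_mul_prod_compl]
  rw [h7]
  have hTpos := hpos T hT
  have hA : 0 ≤ ∏ i ∈ I, r (p i) := Finset.prod_nonneg fun i _ => (hpos _ (hp0 i)).le
  have hB : 0 ≤ ∏ i ∈ Iᶜ, r (p i) := Finset.prod_nonneg fun i _ => (hpos _ (hp0 i)).le
  calc r T * ((∏ i ∈ I, r (p i)) * ∏ i ∈ Iᶜ, r (p i)) * (1 - M * τ)
      ≤ r T * ((∏ i ∈ I, r (p i)) * ∏ i ∈ Iᶜ, r (p i)) * (1 - τ) ^ I.card := by gcongr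
    _ = r T * (((∏ i ∈ I, r (p i)) * (1 - τ) ^ I.card) * ∏ i ∈ Iᶜ, r (p i)) := by ring
    _ ≤ _ := by gcongr

/-- the logarithm does not grow much -/
lemma md_log (hT : T ≠ 0) (hp0 : ∀ i, p i ≠ 0) (hq0 : ∀ i, q i ≠ 0) {κ : ℝ} (hκ0 : 0 ≤ κ)
    (hκ : ∀ i, Real.log (q i) ≤ Real.log (p i) + κ) (I : Finset (Fin M)) :
    Real.log (md T p q I) ≤ Real.log (md T p q ∅) + M * κ := by
  have h0 : ∀ J : Finset (Fin M), Real.log (md T p q J) =
      Real.log T + (∑ i ∈ J, Real.log (q i) + ∑ i ∈ Jᶜ, Real.log (p i)) := by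
    intro J
    unfold md
    have a1 : (T : ℝ) ≠ 0 := Nat.cast_ne_zero.2 hT
    have a2 : ∀ i ∈ J, ((q i : ℕ) : ℝ) ≠ 0 := fun i _ => Nat.cast_ne_zero.2 (hq0 i)
    have a3 : ∀ i ∈ Jᶜ, ((p i : ℕ) : ℝ) ≠ 0 := fun i _ => Nat.cast_ne_zero.2 (hp0 i)
    push_cast
    rw [Real.log_mul a1 (mul_ne_zero (Finset.prod_ne_zero_iff.2 a2) (Finset.prod_ne_zero_iff.2 a3)),
      Real.log_mul (Finset.prod_ne_zero_iff.2 a2) (Finset.prod_ne_zero_iff.2 a3), Real.log_prod a2, Real.log_prod a3]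
  rw [h0, h0, Finset.sum_empty, Finset.compl_empty, zero_add, ← Finset.sum_add_sum_compl I (fun i => Real.log (p i))]
  have h1 : ∑ i ∈ I, Real.log (q i) ≤ ∑ i ∈ I, Real.log (p i) + M * κ := by
    have h2 : ∑ i ∈ I, Real.log (q i) ≤ ∑ i ∈ I, (Real.log (p i) + κ) := Finset.sum_le_sum fun i _ => hκ i
    rw [Finset.sum_add_distrib, Finset.sum_const, nsmul_eq_mul] at h2
    have h5 : (I.card : ℝ) ≤ M := by
      have := Finset.card_le_univ I
      rw [Fintype.card_fin] at this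
      exact_mod_cast this
    nlinarith
  linarith

/-- the modified integers are distinct -/
lemma md_inj (hpr : ∀ i, (p i).Prime) (hTp : ∀ i, Nat.Coprime T (p i))
    (hpp : ∀ i j, i ≠ j → Nat.Coprime (p i) (p j))
    (hpq : ∀ i j, Nat.Coprime (q i) (p j)) : Function.Injective (md T p q) := by
  have key : ∀ (I : Finset (Fin M)) (i : Fin M), p i ∣ md T p q I ↔ i ∉ I := by
    intro I i
    unfold md
    rw [(hpr i).dvd_mul, (hpr i).dvd_mul, (hpr i).prime.dvd_finset_prod_iff, (hpr i).prime.dvd_finset_prod_iff]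
    constructor
    · rintro (h | ⟨j, _, h⟩ | ⟨j, hj, h⟩)
      · exact absurd h (((hpr i).coprime_iff_not_dvd).1 (hTp i).symm)
      · exact absurd h (((hpr i).coprime_iff_not_dvd).1 (hpq j i).symm)
      · by_cases hij : i = j
        · rw [hij]; exact Finset.mem_compl.1 hj
        · exact absurd h (((hpr i).coprime_iff_not_dvd).1 (hpp i j hij))
    · intro h
      exact Or.inr (Or.inr ⟨i, Finset.mem_compl.2 h, dvd_rfl⟩)
  intro I J h
  ext i
  have h1 := key I i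
  have h2 := key J i
  rw [h] at h1
  tauto

end

/-- the final inequality -/
lemma final_ineq {G B r0 r1 l0 l1 lam t w : ℝ} (hG : 0 ≤ G) (hB : Real.exp 1 ≤ B) (hl0 : l0 = Real.log B)
    (hl1 : l1 ≤ B + w * B) (hl1' : 0 ≤ l1) (hr : 0 ≤ r1) (hw : 0 ≤ w)
    (hr0 : G * l0 * (1 + lam) ≤ r0) (hr1 : r0 * (1 - t) ≤ r1) (ht : t ≤ 1)
    (h : 1 + w ≤ (1 + lam) * (1 - t)) : G * Real.log l1 ≤ r1 := by
  have hB0 : 0 < B := (Real.exp_pos 1).trans_le hB
  have h1 : 1 ≤ l0 := by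
    rw [hl0, Real.le_log_iff_exp_le hB0]; exact hB
  rcases le_or_gt l1 1 with hc | hc
  · have := Real.log_nonpos hl1' hc
    nlinarith
  have h2 : Real.log l1 ≤ l0 * (1 + w) := by
    have h3 : Real.log l1 ≤ Real.log (B * (1 + w)) := Real.log_le_log (by linarith) (by linarith)
    rw [Real.log_mul hB0.ne' (by linarith), ← hl0] at h3
    have h4 := Real.log_le_sub_one_of_pos (show 0 < 1 + w by linarith)
    nlinarith
  have h5 : 0 ≤ G * l0 := mul_nonneg hG (by linarith)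
  calc G * Real.log l1 ≤ G * (l0 * (1 + w)) := by gcongr
    _ = G * l0 * (1 + w) := by ring
    _ ≤ G * l0 * ((1 + lam) * (1 - t)) := by gcongr
    _ = G * l0 * (1 + lam) * (1 - t) := by ring
    _ ≤ r0 * (1 - t) := by
        apply mul_le_mul_of_nonneg_right hr0; linarith
    _ ≤ r1 := hr1

end

end Pool.Agent.N964
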