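import Pool.Agent.N964.C1

/-! The two ratios `n/φ(n)` and `σ(n)/n`. -/

set_option autoImplicit false

open Finset

namespace Pool.Agent.N964

noncomputable section

/-- `n / φ(n)` -/
def r1 (n : ℕ) : ℝ := (n : ℝ) / (Nat.totient n : ℝ)

/-- `σ(n) / n` -/
def r2 (n : ℕ) : ℝ := (ArithmeticFunction.sigma 1 n : ℝ) / (n : ℝ)

lemma r1_one : r1 1 = 1 := by unfold r1; simp

lemma r2_one : r2 1 = 1 := by unfold r2; simp

lemma r1_mul (a b : ℕ) (h : Nat.Coprime a b) : r1 (a * b) = r1 a * r1 b := by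
  unfold r1
  rw [Nat.totient_mul h]
  push_cast
  rw [mul_div_mul_comm]

lemma r2_mul (a b : ℕ) (h : Nat.Coprime a b) : r2 (a * b) = r2 a * r2 b := by
  unfold r2
  rw [ArithmeticFunction.isMultiplicative_sigma.map_mul_of_coprime h]
  push_cast
  rw [mul_div_mul_comm]

lemma r1_pos (n : ℕ) (hn : n ≠ 0) : 0 < r1 n := by
  unfold r1
  have h1 : (0 : ℝ) < n := by exact_mod_cast Nat.pos_of_ne_zero hn
  have h2 : (0 : ℝ) < (Nat.totient n : ℝ) := by exact_mod_cast Nat.totient_pos.2 (Nat.pos_of_ne_zero hn)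
  positivity

lemma r2_pos (n : ℕ) (hn : n ≠ 0) : 0 < r2 n := by
  unfold r2
  have h1 : (0 : ℝ) < n := by exact_mod_cast Nat.pos_of_ne_zero hn
  have h2 : (0 : ℝ) < (ArithmeticFunction.sigma 1 n : ℝ) := by
    exact_mod_cast ArithmeticFunction.sigma_pos 1 n hn
  positivity

lemma r1_prime {p : ℕ} (hp : p.Prime) : r1 p = (p : ℝ) / (p - 1) := by
  unfold r1
  rw [Nat.totient_prime hp, Nat.cast_sub hp.one_le, Nat.cast_one]

lemma r2_prime {p : ℕ} (hp : p.Prime) : r2 p = ((p : ℝ) + 1) / p := by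
  unfold r2
  have := ArithmeticFunction.sigma_one_apply_prime_pow (p := p) (i := 1) hp
  rw [pow_one] at this
  rw [this]
  simp [Finset.sum_range_succ, add_comm]

/-- `σ(n) φ(n) ≤ n²` -/
lemma sigma_mul_totient (n : ℕ) : ArithmeticFunction.sigma 1 n * Nat.totient n ≤ n ^ 2 := by
  induction n using Nat.recOnPosPrimePosCoprime with
  | prime_pow p k hp hk =>
    rw [ArithmeticFunction.sigma_one_apply_prime_pow hp, Nat.totient_prime_pow hp hk]
    have h1 := Nat.geomSum_eq hp.two_le (k + 1)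
    have h2 : (∑ i ∈ Finset.range (k + 1), p ^ i) * (p - 1) = p ^ (k + 1) - 1 := by
      rw [Nat.geomSum_eq hp.two_le]
      refine Nat.div_mul_cancel ?_
      have := Nat.sub_one_dvd_pow_sub_one p (k + 1)
      exact this
    calc (∑ i ∈ Finset.range (k + 1), p ^ i) * (p ^ (k - 1) * (p - 1))
        = p ^ (k - 1) * ((∑ i ∈ Finset.range (k + 1), p ^ i) * (p - 1)) := by ring
      _ = p ^ (k - 1) * (p ^ (k + 1) - 1) := by rw [h2]
      _ ≤ p ^ (k - 1) * p ^ (k + 1) := Nat.mul_le_mul_left _ (Nat.sub_le _ _)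
      _ = (p ^ k) ^ 2 := by rw [← pow_add, ← pow_mul]; congr 1; omega
  | zero => simp
  | one => simp
  | coprime a b ha hb hab iha ihb =>
    rw [ArithmeticFunction.isMultiplicative_sigma.map_mul_of_coprime hab, Nat.totient_mul hab]
    calc ArithmeticFunction.sigma 1 a * ArithmeticFunction.sigma 1 b * (Nat.totient a * Nat.totient b)
        = (ArithmeticFunction.sigma 1 a * Nat.totient a) * (ArithmeticFunction.sigma 1 b * Nat.totient b) := by ring
      _ ≤ a ^ 2 * b ^ 2 := Nat.mul_le_mul iha ihb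
      _ = (a * b) ^ 2 := by ring

lemma r2_le_r1 {n : ℕ} (hn : n ≠ 0) : r2 n ≤ r1 n := by
  unfold r1 r2
  have h1 : (0 : ℝ) < n := by exact_mod_cast Nat.pos_of_ne_zero hn
  have h2 : (0 : ℝ) < (Nat.totient n : ℝ) := by exact_mod_cast Nat.totient_pos.2 (Nat.pos_of_ne_zero hn)
  rw [div_le_div_iff₀ h1 h2]
  have := sigma_mul_totient n
  have h3 : ((ArithmeticFunction.sigma 1 n * Nat.totient n : ℕ) : ℝ) ≤ ((n ^ 2 : ℕ) : ℝ) := by exact_mod_cast this
  push_cast at h3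
  nlinarith

/-- the ratio at a prime, comparison -/
lemma r1_swap {p q : ℕ} (hp : p.Prime) (hq : q.Prime) (hpq : p ≤ q) {τ : ℝ}
    (h : (q : ℝ) - p ≤ τ * (p * (q - 1))) : r1 p * (1 - τ) ≤ r1 q := by
  rw [r1_prime hp, r1_prime hq]
  have h1 : (1 : ℝ) < p := by exact_mod_cast hp.one_lt
  have h2 : (p : ℝ) ≤ q := by exact_mod_cast hpq
  rw [div_mul_eq_mul_div, div_le_div_iff₀ (by linarith) (by linarith)]
  nlinarith

lemma r2_swap {p q : ℕ} (hp : p.Prime) (hq : q.Prime) (hpq : p ≤ q) {τ : ℝ} (hτ : 0 ≤ τ)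
    (h : (q : ℝ) - p ≤ τ * (p * (q - 1))) : r2 p * (1 - τ) ≤ r2 q := by
  rw [r2_prime hp, r2_prime hq]
  have h1 : (1 : ℝ) < p := by exact_mod_cast hp.one_lt
  have h2 : (p : ℝ) ≤ q := by exact_mod_cast hpq
  rw [div_mul_eq_mul_div, div_le_div_iff₀ (by linarith) (by linarith)]
  have h3 : τ * (p * (q - 1)) ≤ τ * ((p + 1) * q) := by
    apply mul_le_mul_of_nonneg_left _ hτ
    nlinarith
  nlinarith

/-- removal of a prime -/
lemma r1_remove {p : ℕ} (hp : p.Prime) {τ : ℝ} (h : 1 ≤ τ * p) : r1 p * (1 - τ) ≤ r1 1 := by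
  rw [r1_prime hp, r1_one]
  have h1 : (1 : ℝ) < p := by exact_mod_cast hp.one_lt
  rw [div_mul_eq_mul_div, div_le_one (by linarith)]
  nlinarith

lemma r2_remove {p : ℕ} (hp : p.Prime) {τ : ℝ} (hτ : 0 ≤ τ) (h : 1 ≤ τ * p) : r2 p * (1 - τ) ≤ r2 1 := by
  rw [r2_prime hp, r2_one]
  have h1 : (1 : ℝ) < p := by exact_mod_cast hp.one_lt
  rw [div_mul_eq_mul_div, div_le_one (by linarith)]
  nlinarith

end

end Pool.Agent.N964
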