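import Pool.Agent.N964.C2

/-! Families of exceptional integers. -/

set_option autoImplicit false

open Finset

namespace Pool.Agent.N964

noncomputable section

/-- the properties of the ratio used below -/
structure IsR (r : ℕ → ℝ) : Prop where
  one : r 1 = 1
  mul : ∀ a b : ℕ, Nat.Coprime a b → r (a * b) = r a * r b
  pos : ∀ n : ℕ, n ≠ 0 → 0 < r n
  swap : ∀ p q : ℕ, p.Prime → q.Prime → p ≤ q → ∀ τ : ℝ, 0 ≤ τ → (q : ℝ) - p ≤ τ * (p * (q - 1)) →
    r p * (1 - τ) ≤ r q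
  remove : ∀ p : ℕ, p.Prime → ∀ τ : ℝ, 0 ≤ τ → 1 ≤ τ * p → r p * (1 - τ) ≤ r 1

lemma isR_r1 : IsR r1 where
  one := r1_one
  mul := r1_mul
  pos := r1_pos
  swap := fun _ _ hp hq hpq _ _ h => r1_swap hp hq hpq h
  remove := fun _ hp _ _ h => r1_remove hp h

lemma isR_r2 : IsR r2 where
  one := r2_one
  mul := r2_mul
  pos := r2_pos
  swap := fun _ _ hp hq hpq _ hτ h => r2_swap hp hq hpq hτ h
  remove := fun _ hp _ hτ h => r2_remove hp hτ h

/-- splitting off simple prime factors -/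
lemma split_primes {M N : ℕ} (hN : N ≠ 0) (p : Fin M → ℕ) (hp : ∀ i, (p i).Prime) (hinj : Function.Injective p)
    (hd : ∀ i, p i ∣ N) (hd2 : ∀ i, ¬ p i ^ 2 ∣ N) :
    ∃ T : ℕ, T ≠ 0 ∧ N = T * ∏ i, p i ∧ T ∣ N ∧ ∀ i, Nat.Coprime T (p i) := by
  have h1 : (∏ i, p i) ∣ N := by
    have h2 : (∏ i, p i) = ∏ q ∈ Finset.univ.image p, q := by
      rw [Finset.prod_image fun i _ j _ h => hinj h]
    rw [h2]
    refine Finset.prod_primes_dvd N (fun q hq => ?_) fun q hq => ?_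
    · obtain ⟨i, -, rfl⟩ := Finset.mem_image.1 hq
      exact (hp i).prime
    · obtain ⟨i, -, rfl⟩ := Finset.mem_image.1 hq
      exact hd i
  obtain ⟨T, hT⟩ := h1
  refine ⟨T, ?_, by rw [hT, mul_comm], ⟨∏ i, p i, by rw [hT, mul_comm]⟩, fun i => ?_⟩
  · rintro rfl
    rw [mul_zero] at hT
    exact hN hT
  · rw [Nat.coprime_comm, (hp i).coprime_iff_not_dvd]
    intro hdT
    apply hd2 i
    rw [hT, pow_two]
    exact Nat.mul_dvd_mul (Finset.dvd_prod_of_mem p (Finset.mem_univ i)) hdT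

lemma exists_fam (S : Finset ℕ) (M : ℕ) (h : M ≤ S.card) : ∃ p : Fin M → ℕ, Function.Injective p ∧ ∀ i, p i ∈ S := by
  obtain ⟨S', hS', hc⟩ := Finset.exists_subset_card_eq h
  have e := S'.equivFinOfCardEq hc
  refine ⟨fun i => (e.symm i : ℕ), fun i j hij => ?_, fun i => hS' (e.symm i).2⟩
  exact e.symm.injective (Subtype.ext hij)

lemma fam_finset {M : ℕ} {T : ℕ} {p q : Fin M → ℕ} (hinj : Function.Injective (md T p q)) (Q : ℕ → Prop)
    (h : ∀ I, Q (md T p q I)) : ∃ S : Finset ℕ, S.card = 2 ^ M ∧ ∀ n ∈ S, Q n := by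
  classical
  refine ⟨Finset.univ.image (md T p q), ?_, fun n hn => ?_⟩
  · rw [Finset.card_image_of_injective _ hinj, Finset.card_univ, Fintype.card_finset, Fintype.card_fin]
  · obtain ⟨I, -, rfl⟩ := Finset.mem_image.1 hn
    exact h I

/-- **swapping primes** -/
theorem fam_swap {r : ℕ → ℝ} (hr : IsR r) {x v M N : ℕ} {lam G : ℝ} (hG : 0 ≤ G) (hx : 4 ≤ x) (hv4 : 4 * v ≤ x)
    (hMv : M ≤ v) (hN : N ≠ 0)
    (hN1 : ∀ p : ℕ, p.Prime → x < p + v → p ≤ x → p ∣ N ∧ ¬ p ^ 2 ∣ N)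
    (hN2 : ∀ q : ℕ, q.Prime → x < q → ¬ q ∣ N)
    (hc1 : M ≤ ((Finset.Ioc (x - v) x).filter Nat.Prime).card)
    (hc2 : M ≤ ((Finset.Ioc x (x + v)).filter Nat.Prime).card)
    (hl1 : (x : ℝ) / 2 ≤ Real.log N) (hl2 : Real.exp 1 ≤ Real.log N)
    (hrN : G * Real.log (Real.log N) * (1 + lam) ≤ r N)
    (hV : 12 * (v : ℝ) ^ 2 ≤ x ^ 2) (hlam : 12 * (v : ℝ) ^ 2 / x ^ 2 ≤ lam) :
    ∃ S : Finset ℕ, S.card = 2 ^ M ∧ ∀ n ∈ S, n ≠ 0 ∧ Real.log n ≤ Real.log N + x ∧
      G * Real.log (Real.log n) ≤ r n := by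
  obtain ⟨p, hpi, hpS⟩ := exists_fam _ M hc1
  obtain ⟨q, hqi, hqS⟩ := exists_fam _ M hc2
  have hp : ∀ i, (p i).Prime ∧ x < p i + v ∧ p i ≤ x := by
    intro i
    have := hpS i
    rw [Finset.mem_filter, Finset.mem_Ioc] at this
    exact ⟨this.2, by omega, this.1.2⟩
  have hq : ∀ i, (q i).Prime ∧ x < q i ∧ q i ≤ x + v := by
    intro i
    have := hqS i
    rw [Finset.mem_filter, Finset.mem_Ioc] at this
    exact ⟨this.2, this.1.1, this.1.2⟩
  obtain ⟨T, hT, hNT, hTN, hTp⟩ := split_primes hN p (fun i => (hp i).1) hpi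
    (fun i => (hN1 _ (hp i).1 (hp i).2.1 (hp i).2.2).1) (fun i => (hN1 _ (hp i).1 (hp i).2.1 (hp i).2.2).2)
  have hTq : ∀ i, Nat.Coprime T (q i) := by
    intro i
    rw [Nat.coprime_comm, (hq i).1.coprime_iff_not_dvd]
    exact fun h => hN2 _ (hq i).1 (hq i).2.1 (h.trans hTN)
  have hpp : ∀ i j, i ≠ j → Nat.Coprime (p i) (p j) := fun i j hij =>
    (Nat.coprime_primes (hp i).1 (hp j).1).2 fun h => hij (hpi h)
  have hqq : ∀ i j, i ≠ j → Nat.Coprime (q i) (q j) := fun i j hij =>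
    (Nat.coprime_primes (hq i).1 (hq j).1).2 fun h => hij (hqi h)
  have hpq : ∀ i j, Nat.Coprime (q i) (p j) := fun i j =>
    (Nat.coprime_primes (hq i).1 (hp j).1).2 fun h => by
      have h1 := (hq i).2.1
      have h2 := (hp j).2.2
      omega
  have hp0 : ∀ i, p i ≠ 0 := fun i => (hp i).1.ne_zero
  have hq0 : ∀ i, q i ≠ 0 := fun i => (hq i).1.ne_zero
  have hbase : md T p q ∅ = N := by rw [md_empty, ← hNT]
  have hxr : (4 : ℝ) ≤ x := by exact_mod_cast hx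
  have hx0 : (0 : ℝ) < x := by linarith
  have hv4r : 4 * (v : ℝ) ≤ x := by exact_mod_cast hv4
  have hMr : (M : ℝ) ≤ v := by exact_mod_cast hMv
  have hv0 : (0 : ℝ) ≤ v := Nat.cast_nonneg v
  have hM0 : (0 : ℝ) ≤ M := Nat.cast_nonneg M
  have hpr : ∀ i, 3 * (x : ℝ) / 4 ≤ p i := by
    intro i
    have h1 : (x : ℝ) < p i + v := by exact_mod_cast (hp i).2.1
    linarith
  have hdiff : ∀ i, (q i : ℝ) - p i ≤ 2 * v := by
    intro i
    have h1 : (x : ℝ) < p i + v := by exact_mod_cast (hp i).2.1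
    have h2 : (q i : ℝ) ≤ x + v := by exact_mod_cast (hq i).2.2
    linarith
  have hq1 : ∀ i, (x : ℝ) ≤ q i - 1 := by
    intro i
    have h1 : ((x + 1 : ℕ) : ℝ) ≤ q i := by exact_mod_cast (hq i).2.1
    push_cast at h1
    linarith
  set τ : ℝ := 8 * v / (3 * x ^ 2) with hτ
  have hτ0 : 0 ≤ τ := by positivity
  set V : ℝ := (v : ℝ) ^ 2 / x ^ 2 with hVd
  have hV0 : 0 ≤ V := by positivity
  have hV1 : V ≤ 1 / 12 := by
    rw [hVd, div_le_div_iff₀ (by positivity) (by norm_num)]; linarith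
  have hMτ : M * τ ≤ 3 * V := by
    have h1 : M * τ ≤ v * τ := mul_le_mul_of_nonneg_right hMr hτ0
    have h2 : v * τ = 8 / 3 * V := by rw [hτ, hVd]; field_simp
    linarith
  have hτ1 : τ ≤ 1 := by
    rw [hτ, div_le_one (by positivity)]
    nlinarith
  have hswap : ∀ i, r (p i) * (1 - τ) ≤ r (q i) := by
    intro i
    refine hr.swap _ _ (hp i).1 (hq i).1 (by have := (hp i).2.2; have := (hq i).2.1; omega) τ hτ0 ?_
    refine (hdiff i).trans ?_
    have h1 : 3 * (x : ℝ) / 4 * x ≤ p i * (q i - 1) := by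
      have := hpr i
      have := hq1 i
      gcongr
    have h2 : τ * (3 * (x : ℝ) / 4 * x) = 2 * v := by rw [hτ]; field_simp; ring
    rw [← h2]
    exact mul_le_mul_of_nonneg_left h1 hτ0
  set κ : ℝ := 8 * v / (3 * x) with hκ
  have hκ0 : 0 ≤ κ := by positivity
  have hlogs : ∀ i, Real.log (q i) ≤ Real.log (p i) + κ := by
    intro i
    have h1 : (0 : ℝ) < p i := by exact_mod_cast (hp i).1.pos
    have h2 : (0 : ℝ) < q i := by exact_mod_cast (hq i).1.pos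
    have h3 := Real.log_le_sub_one_of_pos (div_pos h2 h1)
    rw [Real.log_div h2.ne' h1.ne'] at h3
    have h4 : (q i : ℝ) / p i - 1 ≤ κ := by
      rw [div_sub_one h1.ne', hκ, div_le_div_iff₀ h1 (by positivity)]
      have h5 := hdiff i
      have h6 := hpr i
      nlinarith
    linarith
  have hMκ : M * κ ≤ 3 * V * x := by
    have h1 : M * κ ≤ v * κ := mul_le_mul_of_nonneg_right hMr hκ0
    have h2 : v * κ = 8 / 3 * V * x := by rw [hκ, hVd]; field_simp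
    nlinarith
  refine fam_finset (md_inj (fun i => (hp i).1) hTp hpp hpq) _ fun I => ?_
  have hne : md T p q I ≠ 0 := md_ne (hT := hT) hp0 hq0 I
  have hlogI := md_log hT hp0 hq0 hκ0 hlogs I
  rw [hbase] at hlogI
  have hratio := md_ratio hr.one hr.mul hr.pos hT hp0 hq0 hTp hTq hpp hqq hpq hτ0 hτ1 hswap I
  rw [hbase] at hratio
  have hVx : 3 * V * x ≤ x := by nlinarith
  refine ⟨hne, by linarith, ?_⟩
  refine final_ineq (B := Real.log N) (l0 := Real.log (Real.log N)) (lam := lam) (t := M * τ) (w := 6 * V) hG hl2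
    rfl ?_ (Real.log_natCast_nonneg _) (hr.pos _ hne).le (by positivity) hrN hratio (by linarith) ?_
  · have : 3 * V * x ≤ 6 * V * Real.log N := by nlinarith
    linarith
  · have h1 : 12 * V ≤ lam := by
      have : 12 * V = 12 * (v : ℝ) ^ 2 / x ^ 2 := by rw [hVd]; ring
      rw [this]; exact hlam
    have h2 : 0 ≤ 1 - M * τ := by linarith
    have h3 : 0 ≤ M * τ := by positivity
    nlinarith

/-- **removing primes** -/
theorem fam_remove {r : ℕ → ℝ} (hr : IsR r) {x M N : ℕ} {lam G : ℝ} (hG : 0 ≤ G) (hx : 4 ≤ x) (hN : N ≠ 0)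
    (hN1 : ∀ p : ℕ, p.Prime → x < 2 * p → p ≤ x → p ∣ N ∧ ¬ p ^ 2 ∣ N)
    (hc1 : M ≤ ((Finset.Ioc (x / 2) x).filter Nat.Prime).card)
    (hl2 : Real.exp 1 ≤ Real.log N)
    (hrN : G * Real.log (Real.log N) * (1 + lam) ≤ r N)
    (hlam : 4 * (M : ℝ) / x ≤ lam) (hlam1 : lam ≤ 1) :
    ∃ S : Finset ℕ, S.card = 2 ^ M ∧ ∀ n ∈ S, n ≠ 0 ∧ Real.log n ≤ Real.log N ∧
      G * Real.log (Real.log n) ≤ r n := by
  obtain ⟨p, hpi, hpS⟩ := exists_fam _ M hc1
  have hp : ∀ i, (p i).Prime ∧ x < 2 * p i ∧ p i ≤ x := by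
    intro i
    have := hpS i
    rw [Finset.mem_filter, Finset.mem_Ioc] at this
    exact ⟨this.2, by omega, this.1.2⟩
  obtain ⟨T, hT, hNT, hTN, hTp⟩ := split_primes hN p (fun i => (hp i).1) hpi
    (fun i => (hN1 _ (hp i).1 (hp i).2.1 (hp i).2.2).1) (fun i => (hN1 _ (hp i).1 (hp i).2.1 (hp i).2.2).2)
  set q : Fin M → ℕ := fun _ => 1 with hq
  have hpp : ∀ i j, i ≠ j → Nat.Coprime (p i) (p j) := fun i j hij =>
    (Nat.coprime_primes (hp i).1 (hp j).1).2 fun h => hij (hpi h)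
  have hp0 : ∀ i, p i ≠ 0 := fun i => (hp i).1.ne_zero
  have hq0 : ∀ i, q i ≠ 0 := fun i => one_ne_zero
  have hbase : md T p q ∅ = N := by rw [md_empty, ← hNT]
  have hxr : (4 : ℝ) ≤ x := by exact_mod_cast hx
  have hx0 : (0 : ℝ) < x := by linarith
  have hM0 : (0 : ℝ) ≤ M := Nat.cast_nonneg M
  set τ : ℝ := 2 / x with hτ
  have hτ0 : 0 ≤ τ := by positivity
  have hτ1 : τ ≤ 1 := by
    rw [hτ, div_le_one hx0]; linarith
  have hMτ : M * τ = 2 * M / x := by rw [hτ]; ring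
  have hlam0 : 0 ≤ lam := le_trans (by positivity) hlam
  have hswap : ∀ i, r (p i) * (1 - τ) ≤ r (q i) := by
    intro i
    refine hr.remove _ (hp i).1 τ hτ0 ?_
    have h1 : (x : ℝ) < 2 * p i := by exact_mod_cast (hp i).2.1
    rw [hτ, div_mul_eq_mul_div, le_div_iff₀ hx0]
    linarith
  have hlogs : ∀ i, Real.log (q i) ≤ Real.log (p i) + 0 := by
    intro i
    simp only [hq, Nat.cast_one, Real.log_one, add_zero]
    exact Real.log_natCast_nonneg _
  refine fam_finset (md_inj (fun i => (hp i).1) hTp hpp fun i j => Nat.coprime_one_left _) _ fun I => ?_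
  have hne : md T p q I ≠ 0 := md_ne (hT := hT) hp0 hq0 I
  have hlogI := md_log hT hp0 hq0 le_rfl hlogs I
  rw [hbase, mul_zero, add_zero] at hlogI
  have hratio := md_ratio hr.one hr.mul hr.pos hT hp0 hq0 hTp (fun i => Nat.coprime_one_right _) hpp
    (fun i j _ => Nat.coprime_one_left _) (fun i j => Nat.coprime_one_left _) hτ0 hτ1 hswap I
  rw [hbase] at hratio
  have ht : M * τ ≤ lam / 2 := by
    rw [hMτ]
    have : 4 * (M : ℝ) / x = 2 * (2 * M / x) := by ring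
    rw [this] at hlam
    linarith
  refine ⟨hne, hlogI, ?_⟩
  refine final_ineq (B := Real.log N) (l0 := Real.log (Real.log N)) (lam := lam) (t := M * τ) (w := 0) hG hl2
    rfl (by linarith) (Real.log_natCast_nonneg _) (hr.pos _ hne).le le_rfl hrN hratio (by linarith) ?_
  nlinarith

end

end Pool.Agent.N964
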