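import Pool.Agent.N964.C3

/-! The two base integers: the primorial and the least common multiple. -/

set_option autoImplicit false

open Finset

namespace Pool.Agent.N964

noncomputable section

/-- the product of the primes up to `x` -/
def PP (x : ℕ) : ℕ := ∏ p ∈ Pr x, p

lemma PP_pf (x : ℕ) : (PP x).primeFactors = Pr x :=
  Nat.primeFactors_prod fun p hp => (mem_Pr.1 hp).1

lemma PP_ne (x : ℕ) : PP x ≠ 0 := Finset.prod_ne_zero_iff.2 fun p hp => (mem_Pr.1 hp).1.ne_zero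

lemma log_PP (x : ℕ) : Real.log (PP x) = th x := by
  unfold PP th
  rw [Nat.cast_prod, Real.log_prod fun p hp => ?_]
  exact_mod_cast (mem_Pr.1 hp).1.ne_zero

lemma r1_PP (x : ℕ) : r1 (PP x) = Real.exp (LL x) := by
  have h := log_ratio (PP_ne x)
  rw [PP_pf] at h
  have h2 : Real.log (r1 (PP x)) = LL x := h
  rw [← h2, Real.exp_log (r1_pos _ (PP_ne x))]

lemma PP_dvd {x p : ℕ} (hp : p.Prime) (hpx : p ≤ x) : p ∣ PP x ∧ ¬ p ^ 2 ∣ PP x := by
  have hm : p ∈ Pr x := mem_Pr.2 ⟨hp, hpx⟩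
  refine ⟨Finset.dvd_prod_of_mem (fun p => p) hm, fun h => ?_⟩
  have h1 : PP x = p * ∏ q ∈ (Pr x).erase p, q := (Finset.mul_prod_erase (Pr x) (fun q => q) hm).symm
  rw [h1, pow_two] at h
  have h2 := Nat.dvd_of_mul_dvd_mul_left hp.pos h
  rw [hp.prime.dvd_finset_prod_iff] at h2
  obtain ⟨q, hq, hpq⟩ := h2
  obtain ⟨hqp, hqx⟩ := Finset.mem_erase.1 hq
  exact hqp ((Nat.prime_dvd_prime_iff_eq hp (mem_Pr.1 hqx).1).1 hpq).symm

lemma PP_not_dvd {x q : ℕ} (hq : q.Prime) (hxq : x < q) : ¬ q ∣ PP x := by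
  intro h
  have : q ∈ (PP x).primeFactors := Nat.mem_primeFactors.2 ⟨hq, h, PP_ne x⟩
  rw [PP_pf, mem_Pr] at this
  omega

/-- the base inequality for the primorial -/
theorem base_PP {x : ℕ} (h : 1 < th x) :
    Real.exp Real.eulerMascheroniConstant * Real.log (Real.log (PP x)) * (1 + fN x) ≤ r1 (PP x) := by
  have hl : 0 < Real.log (th x) := Real.log_pos h
  have h1 : LL x = Real.eulerMascheroniConstant + Real.log (Real.log (th x)) + fN x := by unfold fN; ring
  rw [r1_PP, log_PP, h1, Real.exp_add, Real.exp_add, Real.exp_log hl]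
  have := Real.add_one_le_exp (fN x)
  have h0 : 0 < Real.exp Real.eulerMascheroniConstant * Real.log (th x) := by positivity
  nlinarith

lemma Pr_eq (x : ℕ) : Nat.primesLE x = Pr x := by
  ext p
  rw [mem_Pr, Nat.mem_primesLE]
  tauto

lemma lcm_dvd {x p : ℕ} (hp : p.Prime) (hpx : p ≤ x) (h2 : x < p ^ 2) :
    p ∣ Nat.lcmUpto x ∧ ¬ p ^ 2 ∣ Nat.lcmUpto x := by
  have hf := Nat.factorization_lcmUpto x hp
  have h1 : Nat.log p x = 1 := by
    rw [Nat.log_eq_iff (Or.inl one_ne_zero)]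
    exact ⟨by simpa using hpx, by simpa using h2⟩
  rw [h1] at hf
  constructor
  · exact (hp.dvd_iff_one_le_factorization (Nat.lcmUpto_ne_zero x)).2 hf.ge
  · intro h
    have := (hp.pow_dvd_iff_le_factorization (Nat.lcmUpto_ne_zero x)).1 h
    omega

lemma lcm_not_dvd {x q : ℕ} (hq : q.Prime) (hxq : x < q) : ¬ q ∣ Nat.lcmUpto x := by
  intro h
  have : q ∈ (Nat.lcmUpto x).primeFactors := Nat.mem_primeFactors.2 ⟨hq, h, Nat.lcmUpto_ne_zero x⟩
  rw [Nat.primeFactors_lcmUpto, Nat.mem_primesLE] at this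
  omega

lemma r2_pow {p : ℕ} (hp : p.Prime) (k : ℕ) :
    r2 (p ^ k) = Real.exp (gg p) * (1 - (1 / (p : ℝ)) ^ (k + 1)) := by
  have h1 : (1 : ℝ) < p := by exact_mod_cast hp.one_lt
  have h0 := one_sub_pos h1
  have hpne : (p : ℝ) ≠ 0 := by linarith
  unfold r2 gg
  rw [ArithmeticFunction.sigma_one_apply_prime_pow hp, Real.exp_neg, Real.exp_log h0]
  push_cast
  have h2 : ∑ i ∈ Finset.range (k + 1), (p : ℝ) ^ i = ((p : ℝ) ^ (k + 1) - 1) / (p - 1) :=
    geom_sum_eq h1.ne' (k + 1)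
  rw [h2]
  have h3 : (p : ℝ) - 1 ≠ 0 := by linarith
  have h4 : (1 : ℝ) - 1 / p = (p - 1) / p := by field_simp
  rw [h4, one_div, inv_pow, pow_succ]
  field_simp

lemma prod_one_sub_ge {ι : Type*} (s : Finset ι) (y : ι → ℝ) (h0 : ∀ i ∈ s, 0 ≤ y i) (h1 : ∀ i ∈ s, y i ≤ 1) :
    1 - ∑ i ∈ s, y i ≤ ∏ i ∈ s, (1 - y i) := by
  classical
  induction s using Finset.induction_on with
  | empty => simp
  | insert a s ha ih =>
    rw [Finset.sum_insert ha, Finset.prod_insert ha]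
    have i1 := ih (fun i hi => h0 i (Finset.mem_insert_of_mem hi)) (fun i hi => h1 i (Finset.mem_insert_of_mem hi))
    have a0 := h0 a (Finset.mem_insert_self a s)
    have a1 := h1 a (Finset.mem_insert_self a s)
    have p1 : ∏ i ∈ s, (1 - y i) ≤ 1 :=
      Finset.prod_le_one (fun i hi => by linarith [h1 i (Finset.mem_insert_of_mem hi)])
        (fun i hi => by linarith [h0 i (Finset.mem_insert_of_mem hi)])
    nlinarith

lemma sum_inv_Pr (x : ℕ) (hx : 1 ≤ x) : ∑ p ∈ Pr x, (1 : ℝ) / p ≤ 1 + Real.log x := by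
  have h1 : ∑ p ∈ Pr x, (1 : ℝ) / p ≤ ∑ p ∈ Finset.Icc 1 x, (1 : ℝ) / p := by
    refine Finset.sum_le_sum_of_subset_of_nonneg ?_ fun p _ _ => by positivity
    intro p hp
    rw [mem_Pr] at hp
    rw [Finset.mem_Icc]
    exact ⟨hp.1.pos, hp.2⟩
  refine h1.trans ?_
  have h2 := harmonic_le_one_add_log x
  rw [harmonic_eq_sum_Icc] at h2
  push_cast at h2
  simpa [one_div] using h2

/-- lower bound for `σ(n)/n` at the least common multiple -/
lemma r2_lcm {x : ℕ} (hx : 2 ≤ x) :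
    Real.exp (LL x) * (1 - (1 + Real.log x) / √(x : ℝ)) ≤ r2 (Nat.lcmUpto x) := by
  have hx0 : (0 : ℝ) < x := by exact_mod_cast (by omega : 0 < x)
  have hs0 : 0 < √(x : ℝ) := Real.sqrt_pos.2 hx0
  rw [Nat.lcmUpto_eq_prod_pow_log, Pr_eq, r_prod r2_one r2_mul]
  · have h1 : ∏ p ∈ Pr x, r2 (p ^ Nat.log p x) =
        Real.exp (LL x) * ∏ p ∈ Pr x, (1 - (1 / (p : ℝ)) ^ (Nat.log p x + 1)) := by
      unfold LL
      rw [Real.exp_sum, ← Finset.prod_mul_distrib]
      exact Finset.prod_congr rfl fun p hp => r2_pow (mem_Pr.1 hp).1 _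
    rw [h1]
    refine mul_le_mul_of_nonneg_left ?_ (Real.exp_pos _).le
    refine le_trans ?_ (prod_one_sub_ge _ _ (fun p _ => by positivity) fun p hp => ?_)
    · have h2 : ∑ p ∈ Pr x, (1 / (p : ℝ)) ^ (Nat.log p x + 1) ≤ ∑ p ∈ Pr x, 1 / √(x : ℝ) * (1 / p) := by
        refine Finset.sum_le_sum fun p hp => ?_
        obtain ⟨hpp, hpx⟩ := mem_Pr.1 hp
        have hp0 : (0 : ℝ) < p := by exact_mod_cast hpp.pos
        rw [div_pow, one_pow, div_mul_div_comm, one_mul]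
        refine one_div_le_one_div_of_le (by positivity) ?_
        have e1 : (x : ℝ) < (p : ℝ) ^ (Nat.log p x + 1) := by
          exact_mod_cast Nat.lt_pow_succ_log_self hpp.one_lt x
        have e2 : (p : ℝ) ^ 2 ≤ (p : ℝ) ^ (Nat.log p x + 1) := by
          refine pow_le_pow_right₀ (by exact_mod_cast hpp.one_lt.le) ?_
          have : 1 ≤ Nat.log p x := Nat.log_pos hpp.one_lt hpx
          omega
        set A := (p : ℝ) ^ (Nat.log p x + 1) with hA
        have hA0 : 0 < A := by positivity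
        have e3 : (√(x : ℝ) * p) ^ 2 ≤ A ^ 2 := by
          rw [mul_pow, Real.sq_sqrt hx0.le, sq A]
          exact mul_le_mul e1.le e2 (by positivity) hA0.le
        exact abs_le_of_sq_le_sq' e3 hA0.le |>.2
      rw [← Finset.mul_sum] at h2
      have h3 := sum_inv_Pr x (by omega)
      have h4 : 1 / √(x : ℝ) * ∑ p ∈ Pr x, 1 / (p : ℝ) ≤ (1 + Real.log x) / √(x : ℝ) := by
        rw [one_div_mul_eq_div]
        gcongr
      linarith
    · have h1 : (1 : ℝ) < p := by exact_mod_cast (mem_Pr.1 hp).1.one_lt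
      refine pow_le_one₀ (by positivity) ?_
      rw [div_le_one (by linarith)]
      exact h1.le
  · intro p hp q hq hpq
    exact Nat.Coprime.pow _ _ ((Nat.coprime_primes (mem_Pr.1 hp).1 (mem_Pr.1 hq).1).2 hpq)

end

end Pool.Agent.N964
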