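import Pool.Agent.N964.C4
import Pool.Agent.N964.A6

/-! Lower bounds for the number of exceptions, given a large excess at `x`. -/

set_option autoImplicit false

open Finset Filter Topology

namespace Pool.Agent.N964

noncomputable section

/-- a base integer exists whenever the excess is large -/
def BaseOK (r : ℕ → ℝ) (b : ℝ) : Prop := ∀ᶠ x : ℕ in atTop, 2 * (x : ℝ) ^ (-b) ≤ fN x →
  ∃ N : ℕ, N ≠ 0 ∧ (∀ p : ℕ, p.Prime → x < 2 * p → p ≤ x → p ∣ N ∧ ¬ p ^ 2 ∣ N) ∧
    (∀ q : ℕ, q.Prime → x < q → ¬ q ∣ N) ∧ (x : ℝ) / 2 ≤ Real.log N ∧ Real.log N ≤ 2 * x ∧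
    Real.exp Real.eulerMascheroniConstant * Real.log (Real.log N) * (1 + (x : ℝ) ^ (-b)) ≤ r N

lemma th_le (x : ℕ) : th x ≤ 3 / 2 * x := by
  have h := Chebyshev.theta_le_log4_mul_x (Nat.cast_nonneg x)
  rw [th_eq] at h
  have h2 : Real.log 4 ≤ 3 / 2 := by
    have : (4 : ℝ) = 2 ^ 2 := by norm_num
    rw [this, Real.log_pow]
    have := Real.log_two_lt_d9
    push_cast
    linarith
  have h3 : (0 : ℝ) ≤ x := Nat.cast_nonneg x
  nlinarith

lemma th_half : ∀ᶠ x : ℕ in atTop, (x : ℝ) / 2 ≤ th x := by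
  obtain ⟨x0, h⟩ := th_ge
  filter_upwards [eventually_ge_atTop x0] with x hx
  exact h x hx

theorem base_r1 {b : ℝ} (hb : 0 < b) : BaseOK r1 b := by
  unfold BaseOK
  filter_upwards [th_half, eventually_ge_atTop 4] with x h1 h2 h3
  have hx : (4 : ℝ) ≤ x := by exact_mod_cast h2
  refine ⟨PP x, PP_ne x, fun p hp _ hpx => PP_dvd hp hpx, fun q hq hxq => PP_not_dvd hq hxq, ?_, ?_, ?_⟩
  · rw [log_PP]; exact h1
  · rw [log_PP]; have := th_le x; linarith
  · have hth : 1 < th x := by linarith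
    refine le_trans ?_ (base_PP hth)
    rw [log_PP]
    have hl : 0 < Real.log (th x) := Real.log_pos hth
    have h4 : 0 ≤ (x : ℝ) ^ (-b) := by positivity
    refine mul_le_mul_of_nonneg_left (by linarith) (by positivity)

lemma fN_small : ∀ᶠ x : ℕ in atTop, fN x ≤ 1 := by
  have h1 := (kv_tendsto.abs)
  rw [abs_zero] at h1
  obtain ⟨C, hC, hE⟩ := EE_bound 1
  have e1 : ∀ᶠ u : ℝ in atTop, |EE u| ≤ 1 / 10 := by
    filter_upwards [eventually_ge_atTop (10 * C), eventually_ge_atTop 0] with u hu hu0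
    refine (hE u hu0).trans ?_
    rw [pow_one, div_le_div_iff₀ (by linarith) (by norm_num)]
    linarith
  filter_upwards [natlog_tendsto.eventually (h1.eventually_le_const (show (0 : ℝ) < 1 / 2 by norm_num)),
    natlog_tendsto.eventually e1, natlog_tendsto.eventually_ge_atTop 2, eventually_ge_atTop 1] with x h2 h3 h4 h5
  rw [fN_eq h5]
  have := ff_le h4 (h3.trans (by norm_num))
  linarith

theorem base_r2 {b : ℝ} (hb : 0 < b) (hb1 : b < 1 / 2) : BaseOK r2 b := by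
  unfold BaseOK
  obtain ⟨C0, hC0⟩ := Chebyshev.psi_sub_theta_le_mul_sqrt
  set C := |C0| with hC
  have hCn : 0 ≤ C := abs_nonneg _
  -- the error is smaller than x^{-b}
  have herr : ∀ᶠ x : ℕ in atTop, 2 * (1 + Real.log x + 2 * C) ≤ (x : ℝ) ^ (1 / 2 - b) := by
    have e1 : ∀ᶠ x : ℝ in atTop, 2 * (1 + Real.log x + 2 * C) ≤ x ^ (1 / 2 - b) := by
      have l1 := (isLittleO_log_rpow_atTop (show 0 < 1 / 2 - b by linarith)).bound (show (0 : ℝ) < 1 / 4 by norm_num)
      have l2 := (tendsto_rpow_atTop (show 0 < 1 / 2 - b by linarith)).eventually_ge_atTop (4 * (1 + 2 * C))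
      filter_upwards [l1, l2, eventually_ge_atTop 1] with x h1 h2 h3
      rw [Real.norm_eq_abs, Real.norm_eq_abs, abs_of_nonneg (Real.log_nonneg h3), abs_of_nonneg (by positivity)] at h1
      linarith
    exact tendsto_natCast_atTop_atTop.eventually e1
  filter_upwards [th_half, eventually_ge_atTop 8, fN_small, herr,
    tendsto_natCast_atTop_atTop.eventually_ge_atTop (16 * C ^ 2)] with x h1 h2 h3 h4 h5 h6
  have hx : (8 : ℝ) ≤ x := by exact_mod_cast h2
  have hx0 : (0 : ℝ) < x := by linarith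
  have hs0 : 0 < √(x : ℝ) := Real.sqrt_pos.2 hx0
  have hss := Real.mul_self_sqrt hx0.le
  have hth : Real.exp 1 ≤ th x := by
    have := Real.exp_one_lt_d9
    linarith
  have hth0 : 0 < th x := (Real.exp_pos 1).trans_le hth
  have hl1 : 1 ≤ Real.log (th x) := by rw [Real.le_log_iff_exp_le hth0]; exact hth
  have hpsi : Real.log (Nat.lcmUpto x) = Chebyshev.psi x := (Chebyshev.psi_eq_log_lcmUpto x).symm
  have hpt : Chebyshev.psi x ≤ th x + C * √(x : ℝ) := by
    have := hC0 x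
    rw [th_eq] at this
    have h7 : C0 * √(x : ℝ) ≤ C * √(x : ℝ) := mul_le_mul_of_nonneg_right (le_abs_self _) hs0.le
    linarith
  have hpt2 : th x ≤ Chebyshev.psi x := by
    rw [← th_eq]; exact Chebyshev.theta_le_psi _
  have hCs : C * √(x : ℝ) ≤ x / 4 := by
    have h7 : 4 * C ≤ √(x : ℝ) := by
      refine Real.le_sqrt_of_sq_le ?_
      nlinarith
    nlinarith
  refine ⟨Nat.lcmUpto x, Nat.lcmUpto_ne_zero x, fun p hp hp1 hpx => ?_, fun q hq hxq => lcm_not_dvd hq hxq, ?_, ?_, ?_⟩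
  · refine lcm_dvd hp hpx ?_
    nlinarith
  · rw [hpsi]; linarith
  · rw [hpsi]; have := th_le x; linarith
  · set f := fN x with hf
    have hxb : (x : ℝ) ^ (-b) ≤ f / 2 := by linarith
    have hxb0 : 0 < (x : ℝ) ^ (-b) := by positivity
    set Er := (1 + Real.log x) / √(x : ℝ) with hEr
    set Er' := 2 * C / √(x : ℝ) with hEr'
    have hlogx : 0 ≤ Real.log x := Real.log_nonneg (by linarith)
    have hEr0 : 0 ≤ Er := by positivity
    have hEr'0 : 0 ≤ Er' := by positivity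
    have hE2 : 4 * (Er + Er') ≤ f := by
      have h7 : 4 * (Er + Er') = 2 * (2 * (1 + Real.log x + 2 * C)) / √(x : ℝ) := by
        rw [hEr, hEr']; ring
      have h8 : 2 * (2 * (1 + Real.log x + 2 * C)) / √(x : ℝ) ≤ 2 * (x : ℝ) ^ (-b) := by
        rw [div_le_iff₀ hs0]
        have h9 : (x : ℝ) ^ (-b) * √(x : ℝ) = (x : ℝ) ^ (1 / 2 - b) := by
          rw [Real.sqrt_eq_rpow, ← Real.rpow_add hx0]
          congr 1; ring
        nlinarith
      linarith
    have h7 : Real.log (Real.log (Nat.lcmUpto x)) ≤ Real.log (th x) * (1 + Er') := by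
      rw [hpsi]
      have h8 : Chebyshev.psi x ≤ th x * (1 + Er') := by
        have h9 : C * √(x : ℝ) ≤ th x * Er' := by
          have h10 : (x : ℝ) / 2 * Er' = C * √(x : ℝ) := by
            rw [hEr', mul_div_assoc', div_eq_iff hs0.ne']
            linear_combination (-C) * hss
          rw [← h10]
          exact mul_le_mul_of_nonneg_right h1 hEr'0
        linarith
      have h9 := Real.log_le_log (by linarith) h8
      rw [Real.log_mul hth0.ne' (by linarith)] at h9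
      have h10 := Real.log_le_sub_one_of_pos (show 0 < 1 + Er' by linarith)
      nlinarith
    have h8 := r2_lcm (show 2 ≤ x by omega)
    have h9 : LL x = Real.eulerMascheroniConstant + Real.log (Real.log (th x)) + f := by
      rw [hf]; unfold fN; ring
    rw [h9, Real.exp_add, Real.exp_add, Real.exp_log (by linarith)] at h8
    have h10 := Real.add_one_le_exp f
    set g := Real.exp Real.eulerMascheroniConstant with hg
    have hg0 : 0 < g := Real.exp_pos _
    set l := Real.log (th x) with hl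
    have hlpos : 0 < l := by linarith
    have hEr1 : Er ≤ 1 := by linarith
    have h11 : (1 + Er') * (1 + (x : ℝ) ^ (-b)) ≤ (1 + f) * (1 - Er) := by
      have : (1 + Er') * (1 + (x : ℝ) ^ (-b)) ≤ (1 + Er') * (1 + f / 2) := by gcongr
      nlinarith
    calc g * Real.log (Real.log (Nat.lcmUpto x)) * (1 + (x : ℝ) ^ (-b))
        ≤ g * (l * (1 + Er')) * (1 + (x : ℝ) ^ (-b)) := by gcongr
      _ = g * l * ((1 + Er') * (1 + (x : ℝ) ^ (-b))) := by ring
      _ ≤ g * l * ((1 + f) * (1 - Er)) := by gcongr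
      _ ≤ g * l * (Real.exp f * (1 - Er)) := by
          have : 0 ≤ 1 - Er := by linarith
          gcongr
          linarith
      _ = g * l * Real.exp f * (1 - Er) := by ring
      _ ≤ _ := h8

/-- a set of size `2^M` without the numbers `1` and `2` -/
lemma drop_two {Q : ℕ → Prop} {M : ℕ} (hM : 2 ≤ M) (h : ∃ S : Finset ℕ, S.card = 2 ^ M ∧ ∀ n ∈ S, n ≠ 0 ∧ Q n) :
    ∃ S : Finset ℕ, 2 ^ (M - 1) ≤ S.card ∧ ∀ n ∈ S, 3 ≤ n ∧ Q n := by
  obtain ⟨S, hS, hn⟩ := h
  refine ⟨S \ {1, 2}, ?_, fun n hn' => ?_⟩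
  · have h1 := Finset.le_card_sdiff ({1, 2} : Finset ℕ) S
    have h2 : ({1, 2} : Finset ℕ).card = 2 := by decide
    rw [h2, hS] at h1
    have h3 : 2 ^ M = 2 * 2 ^ (M - 1) := by
      rw [← pow_succ']; congr 1; omega
    have h4 : 2 ≤ 2 ^ (M - 1) := by
      calc 2 = 2 ^ 1 := by norm_num
        _ ≤ 2 ^ (M - 1) := Nat.pow_le_pow_right (by norm_num) (by omega)
    omega
  · rw [Finset.mem_sdiff, Finset.mem_insert, Finset.mem_singleton] at hn'
    have := hn n hn'.1
    refine ⟨by have := this.1; omega, this.2⟩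

/-- counting primes in an interval by `θ` -/
lemma card_primes {a b : ℕ} (hab : a ≤ b) : th b - th a ≤
    (((Finset.Ioc a b).filter Nat.Prime).card : ℝ) * Real.log b := by
  have h1 : Pr b = Pr a ∪ (Finset.Ioc a b).filter Nat.Prime := by
    ext p
    rw [Finset.mem_union, mem_Pr, mem_Pr, Finset.mem_filter, Finset.mem_Ioc]
    constructor
    · rintro ⟨hp, hpb⟩
      rcases le_or_gt p a with h | h
      · exact Or.inl ⟨hp, h⟩
      · exact Or.inr ⟨⟨h, hpb⟩, hp⟩
    · rintro (⟨hp, h⟩ | ⟨⟨_, h⟩, hp⟩)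
      · exact ⟨hp, h.trans hab⟩
      · exact ⟨hp, h⟩
  have h2 : Disjoint (Pr a) ((Finset.Ioc a b).filter Nat.Prime) := by
    rw [Finset.disjoint_left]
    intro p hp hp2
    rw [mem_Pr] at hp
    rw [Finset.mem_filter, Finset.mem_Ioc] at hp2
    omega
  unfold th
  rw [h1, Finset.sum_union h2, add_sub_cancel_left]
  refine (Finset.sum_le_card_nsmul _ _ (Real.log b) fun p hp => ?_).trans (by rw [nsmul_eq_mul])
  rw [Finset.mem_filter, Finset.mem_Ioc] at hp
  exact Real.log_le_log (by exact_mod_cast hp.2.pos) (by exact_mod_cast hp.1.2)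

/-- the power bound for `θ` at integers -/
lemma th_power {C a : ℝ} (h : ∀ v : ℝ, 0 ≤ v → |EE v| ≤ C * Real.exp (-a * v)) {x : ℕ} (hx : 1 ≤ x) :
    |th x - x| ≤ C * (x : ℝ) ^ (1 - a) := by
  have hx0 : (0 : ℝ) < x := by exact_mod_cast hx
  have h1 := h (Real.log x) (Real.log_natCast_nonneg x)
  have h2 := theta_exp (Real.log x)
  rw [Real.exp_log hx0, th_eq] at h2
  have h3 : th x - x = x * EE (Real.log x) := by rw [h2]; ring
  have h4 : Real.exp (-a * Real.log x) = (x : ℝ) ^ (-a) := by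
    rw [Real.rpow_def_of_pos hx0]; ring_nf
  rw [h4] at h1
  rw [h3, abs_mul, abs_of_pos hx0]
  have h5 : (x : ℝ) ^ (1 - a) = x * (x : ℝ) ^ (-a) := by
    rw [sub_eq_add_neg, Real.rpow_add hx0, Real.rpow_one]
  rw [h5]
  calc x * |EE (Real.log x)| ≤ x * (C * (x : ℝ) ^ (-a)) := by gcongr
    _ = _ := by ring

/-- `2 ^ (M-1)` against a power -/
lemma two_pow_ge {M : ℕ} {A : ℝ} (h : 2 * A + 2 ≤ M) (hA : 0 ≤ A) : 2 ≤ M ∧ Real.exp A ≤ ((2 ^ (M - 1) : ℕ) : ℝ) := by
  have hM : 2 ≤ M := by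
    have : (2 : ℝ) ≤ M := by linarith
    exact_mod_cast this
  refine ⟨hM, ?_⟩
  push_cast
  have h1 : (2 : ℝ) ^ (M - 1) = Real.exp ((M - 1 : ℕ) * Real.log 2) := by
    rw [Real.exp_nat_mul, Real.exp_log (by norm_num)]
  rw [h1]
  refine Real.exp_le_exp.2 ?_
  rw [Nat.cast_sub (by omega), Nat.cast_one]
  have := Real.log_two_gt_d9
  have h2 : 2 * A + 1 ≤ (M : ℝ) - 1 := by linarith
  nlinarith

/-- **lower bound by swapping** -/
theorem lower_swap {r : ℕ → ℝ} (hr : IsR r) {b : ℝ} (hbase : BaseOK r b) {C a : ℝ} (hC : 0 < C) (ha : 0 < a)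
    (ha1 : a ≤ 1) (h : ∀ v : ℝ, 0 ≤ v → |EE v| ≤ C * Real.exp (-a * v)) (hb : 0 < b) (hb1 : b ≤ 1) (hba : b < 2 * a) {κ : ℝ}
    (hκ : κ < 1 - b / 2) :
    ∀ᶠ x : ℕ in atTop, 2 * (x : ℝ) ^ (-b) ≤ fN x → ∃ S : Finset ℕ, Real.exp ((x : ℝ) ^ κ) ≤ S.card ∧
      ∀ n ∈ S, 3 ≤ n ∧ Real.log n ≤ 3 * x ∧
        Real.exp Real.eulerMascheroniConstant * Real.log (Real.log n) ≤ r n := by
  set μ : ℝ := 1 - b / 2 with hμ
  have hμ0 : 0 < μ := by rw [hμ]; linarith
  -- growth conditions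
  have g1 : ∀ᶠ x : ℝ in atTop, 64 * C * x ^ (1 - a) ≤ x ^ μ := by
    have := (tendsto_rpow_atTop (show 0 < μ - (1 - a) by rw [hμ]; linarith)).eventually_ge_atTop (64 * C)
    filter_upwards [this, eventually_gt_atTop 0] with x hx hx0
    have h1 : x ^ μ = x ^ (μ - (1 - a)) * x ^ (1 - a) := by
      rw [← Real.rpow_add hx0]; ring_nf
    rw [h1]
    have : 0 ≤ x ^ (1 - a) := by positivity
    nlinarith
  have g2 : ∀ᶠ x : ℝ in atTop, (2 * x ^ κ + 4) * (2 * Real.log (2 * x)) ≤ x ^ μ / 4 - 1 := by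
    obtain ⟨κ', hκ', hκμ, hκ0⟩ : ∃ κ' : ℝ, κ ≤ κ' ∧ κ' < μ ∧ 0 < κ' :=
      ⟨max κ (μ / 2), le_max_left _ _, max_lt hκ (by linarith), by positivity⟩
    set d := (μ - κ') / 2 with hd
    have hd0 : 0 < d := by rw [hd]; linarith
    have l1 := (isLittleO_log_rpow_atTop hd0).bound (one_pos)
    have l2 := (tendsto_rpow_atTop hd0).eventually_ge_atTop 101
    filter_upwards [l1, l2, eventually_ge_atTop 2] with x h1 h2 h3
    have hx0 : 0 < x := by linarith
    rw [Real.norm_eq_abs, Real.norm_eq_abs, abs_of_nonneg (Real.log_nonneg (by linarith)),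
      abs_of_nonneg (by positivity), one_mul] at h1
    have h4 : Real.log (2 * x) ≤ 2 * x ^ d := by
      rw [Real.log_mul (by norm_num) hx0.ne']
      have : Real.log 2 ≤ Real.log x := Real.log_le_log (by norm_num) h3
      linarith
    have h5 : x ^ μ = x ^ κ' * (x ^ d * x ^ d) := by
      rw [← Real.rpow_add hx0, ← Real.rpow_add hx0]; congr 1; rw [hd]; ring
    have h6 : x ^ κ ≤ x ^ κ' := Real.rpow_le_rpow_of_exponent_le (by linarith) hκ'
    have h7 : 1 ≤ x ^ κ' := Real.one_le_rpow (by linarith) hκ0.le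
    have h8 : 0 ≤ Real.log (2 * x) := Real.log_nonneg (by linarith)
    rw [h5]
    set P := x ^ κ'
    set Q := x ^ d
    calc (2 * x ^ κ + 4) * (2 * Real.log (2 * x)) ≤ (2 * P + 4 * P) * (2 * (2 * Q)) := by
          gcongr
          linarith
      _ = 24 * (P * Q) := by ring
      _ ≤ P * (Q * Q) / 4 - 1 := by
          have h9 : 1 ≤ P * Q := by nlinarith
          nlinarith
  filter_upwards [hbase, tendsto_natCast_atTop_atTop.eventually g1, tendsto_natCast_atTop_atTop.eventually g2,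
    eventually_ge_atTop 8] with x hB h1 h2 h3 h4
  obtain ⟨N, hN, hN1, hN2, hl1, hl2, hrN⟩ := hB h4
  have hx : (8 : ℝ) ≤ x := by exact_mod_cast h3
  have hx0 : (0 : ℝ) < x := by linarith
  set v : ℕ := ⌊(x : ℝ) ^ μ / 4⌋₊ with hv
  have hv1 : (v : ℝ) ≤ (x : ℝ) ^ μ / 4 := Nat.floor_le (by positivity)
  have hv2 : (x : ℝ) ^ μ / 4 < v + 1 := Nat.lt_floor_add_one _
  have hxμ : (x : ℝ) ^ μ ≤ x := by
    calc (x : ℝ) ^ μ ≤ (x : ℝ) ^ (1 : ℝ) := Real.rpow_le_rpow_of_exponent_le (by linarith) (by rw [hμ]; linarith)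
      _ = x := Real.rpow_one _
  have hv4r : 4 * (v : ℝ) ≤ x := by linarith
  have hv4 : 4 * v ≤ x := by exact_mod_cast hv4r
  have hvx : v ≤ x := by omega
  set L : ℝ := Real.log (2 * x) with hL
  have hL1 : 1 ≤ L := by
    rw [hL, Real.le_log_iff_exp_le (by positivity)]
    have := Real.exp_one_lt_d9
    linarith
  have hxκ : 0 ≤ (x : ℝ) ^ κ := by positivity
  have hvbig : (2 * (x : ℝ) ^ κ + 4) * (2 * L) ≤ v := by linarith
  set M : ℕ := ⌊(v : ℝ) / (2 * L)⌋₊ with hM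
  have hM1 : (M : ℝ) ≤ v / (2 * L) := Nat.floor_le (by positivity)
  have hM2 : (v : ℝ) / (2 * L) < M + 1 := Nat.lt_floor_add_one _
  have hM3 : 2 * (x : ℝ) ^ κ + 3 ≤ M := by
    have : 2 * (x : ℝ) ^ κ + 4 ≤ v / (2 * L) := by rw [le_div_iff₀ (by linarith)]; exact hvbig
    linarith
  have hv0 : (0 : ℝ) ≤ v := Nat.cast_nonneg v
  have hMv : M ≤ v := by
    have : (M : ℝ) ≤ v := hM1.trans (by rw [div_le_iff₀ (by linarith)]; nlinarith)
    exact_mod_cast this
  have hxa : 0 ≤ (x : ℝ) ^ (1 - a) := by positivity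
  have hxa1 : 1 ≤ (x : ℝ) ^ μ / 16 := by
    have : 8 ≤ v := by
      have : (8 : ℝ) ≤ v := by nlinarith
      exact_mod_cast this
    have : (8 : ℝ) ≤ v := by exact_mod_cast this
    linarith
  have hv8 : 8 * C * (x : ℝ) ^ (1 - a) ≤ v := by linarith
  have t0 := abs_le.1 (th_power h (x := x) (by omega))
  have t1 := abs_le.1 (th_power h (x := x - v) (by omega))
  have t2 := abs_le.1 (th_power h (x := x + v) (by omega))
  have c1 : ((x - v : ℕ) : ℝ) = x - v := by rw [Nat.cast_sub hvx]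
  have c2 : ((x + v : ℕ) : ℝ) = x + v := by push_cast; ring
  have hpa : ((x - v : ℕ) : ℝ) ^ (1 - a) ≤ 2 * (x : ℝ) ^ (1 - a) ∧ ((x + v : ℕ) : ℝ) ^ (1 - a) ≤ 2 * (x : ℝ) ^ (1 - a) := by
    rw [c1, c2]
    constructor
    · have : ((x : ℝ) - v) ^ (1 - a) ≤ (x : ℝ) ^ (1 - a) :=
        Real.rpow_le_rpow (by linarith) (by linarith) (by linarith)
      linarith
    · have h5 : ((x : ℝ) + v) ^ (1 - a) ≤ (2 * x) ^ (1 - a) :=
        Real.rpow_le_rpow (by linarith) (by linarith) (by linarith)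
      rw [Real.mul_rpow (by norm_num) hx0.le] at h5
      have h6 : (2 : ℝ) ^ (1 - a) ≤ 2 := by
        calc (2 : ℝ) ^ (1 - a) ≤ 2 ^ (1 : ℝ) := Real.rpow_le_rpow_of_exponent_le (by norm_num) (by linarith)
          _ = 2 := Real.rpow_one _
      nlinarith
  have q1 : M ≤ ((Finset.Ioc (x - v) x).filter Nat.Prime).card := by
    have h5 := card_primes (a := x - v) (b := x) (Nat.sub_le x v)
    have h6 : (v : ℝ) / 2 ≤ th x - th (x - v) := by
      have := mul_le_mul_of_nonneg_left hpa.1 hC.le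
      rw [c1] at t1 this
      linarith
    have h7 : Real.log x ≤ L := Real.log_le_log hx0 (by linarith)
    have h8 : (v : ℝ) / 2 ≤ (((Finset.Ioc (x - v) x).filter Nat.Prime).card : ℝ) * L := by
      refine (h6.trans h5).trans ?_
      gcongr
    have h9 : (M : ℝ) ≤ (((Finset.Ioc (x - v) x).filter Nat.Prime).card : ℝ) := by
      refine hM1.trans ?_
      rw [div_le_iff₀ (by linarith)]
      linarith
    exact_mod_cast h9
  have q2 : M ≤ ((Finset.Ioc x (x + v)).filter Nat.Prime).card := by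
    have h5 := card_primes (a := x) (b := x + v) (Nat.le_add_right x v)
    have h6 : (v : ℝ) / 2 ≤ th (x + v) - th x := by
      have := mul_le_mul_of_nonneg_left hpa.2 hC.le
      rw [c2] at t2 this
      linarith
    have h7 : Real.log ((x + v : ℕ) : ℝ) ≤ L := by
      rw [c2]
      exact Real.log_le_log (by linarith) (by linarith)
    have h8 : (v : ℝ) / 2 ≤ (((Finset.Ioc x (x + v)).filter Nat.Prime).card : ℝ) * L := by
      refine (h6.trans h5).trans ?_
      gcongr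
    have h9 : (M : ℝ) ≤ (((Finset.Ioc x (x + v)).filter Nat.Prime).card : ℝ) := by
      refine hM1.trans ?_
      rw [div_le_iff₀ (by linarith)]
      linarith
    exact_mod_cast h9
  have hxb : (x : ℝ) ^ μ ^ (1 : ℕ) * (x : ℝ) ^ μ ^ (1 : ℕ) = x ^ 2 * (x : ℝ) ^ (-b) := by
    rw [pow_one, ← Real.rpow_add hx0, ← Real.rpow_natCast x 2, ← Real.rpow_add hx0]
    congr 1
    rw [hμ]; push_cast; ring
  rw [pow_one] at hxb
  have hxb1 : (x : ℝ) ^ (-b) ≤ 1 := Real.rpow_le_one_of_one_le_of_nonpos (by linarith) (by linarith)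
  have hvv : 12 * (v : ℝ) ^ 2 ≤ x ^ 2 * (x : ℝ) ^ (-b) := by
    rw [← hxb]
    have : (v : ℝ) ^ 2 ≤ ((x : ℝ) ^ μ / 4) ^ 2 := pow_le_pow_left₀ hv0 hv1 2
    nlinarith
  have hfam := fam_swap hr (x := x) (v := v) (M := M) (N := N) (lam := (x : ℝ) ^ (-b))
    (G := Real.exp Real.eulerMascheroniConstant) (Real.exp_pos _).le (by omega) hv4 hMv hN
    (fun p hp hp1 hp2 => hN1 p hp (by omega) hp2) hN2 q1 q2 hl1
    (by have := Real.exp_one_lt_d9; linarith) hrN
    (hvv.trans (by nlinarith [sq_nonneg (x : ℝ)])) (by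
      rw [div_le_iff₀ (by positivity)]
      linarith)
  obtain ⟨h10, h11⟩ := two_pow_ge (M := M) (A := (x : ℝ) ^ κ) (by linarith) hxκ
  obtain ⟨S, hS1, hS2⟩ := drop_two h10 hfam
  refine ⟨S, h11.trans (by exact_mod_cast hS1), fun n hn => ?_⟩
  obtain ⟨k1, k2, k3⟩ := hS2 n hn
  exact ⟨k1, by linarith, k3⟩

end

end Pool.Agent.N964
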