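import Pool.Agent.N964.C5

/-! Lower bounds for the number of exceptions by removing primes. -/

set_option autoImplicit false

open Finset Filter Topology

namespace Pool.Agent.N964

noncomputable section

lemma th_close : ∀ᶠ x : ℕ in atTop, |th x - x| ≤ x / 10 := by
  obtain ⟨C, hC, hE⟩ := EE_bound 1
  have e1 : ∀ᶠ u : ℝ in atTop, |EE u| ≤ 1 / 10 := by
    filter_upwards [eventually_ge_atTop (10 * C), eventually_ge_atTop 0] with u hu hu0
    refine (hE u hu0).trans ?_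
    rw [pow_one, div_le_div_iff₀ (by linarith) (by norm_num)]
    linarith
  filter_upwards [natlog_tendsto.eventually e1, eventually_ge_atTop 1] with x h1 h2
  have hx0 : (0 : ℝ) < x := by exact_mod_cast h2
  have h3 := theta_exp (Real.log x)
  rw [Real.exp_log hx0, th_eq] at h3
  have h4 : th x - x = x * EE (Real.log x) := by rw [h3]; ring
  rw [h4, abs_mul, abs_of_pos hx0]
  nlinarith

lemma tendsto_half : Tendsto (fun x : ℕ => x / 2) atTop atTop := by
  refine tendsto_atTop.2 fun b => ?_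
  filter_upwards [eventually_ge_atTop (2 * b)] with x hx
  omega

/-- **lower bound by removing** -/
theorem lower_remove {r : ℕ → ℝ} (hr : IsR r) {b : ℝ} (hbase : BaseOK r b) (hb : 0 < b) (hb1 : b < 1) {κ : ℝ}
    (hκ : κ < 1 - b) :
    ∀ᶠ x : ℕ in atTop, 2 * (x : ℝ) ^ (-b) ≤ fN x → ∃ S : Finset ℕ, Real.exp ((x : ℝ) ^ κ) ≤ S.card ∧
      ∀ n ∈ S, 3 ≤ n ∧ Real.log n ≤ 3 * x ∧
        Real.exp Real.eulerMascheroniConstant * Real.log (Real.log n) ≤ r n := by
  set μ : ℝ := 1 - b with hμ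
  have hμ0 : 0 < μ := by rw [hμ]; linarith
  have g1 : ∀ᶠ x : ℝ in atTop, Real.log x ≤ x ^ b := by
    have l1 := (isLittleO_log_rpow_atTop hb).bound (one_pos)
    filter_upwards [l1, eventually_ge_atTop 1] with x h1 h2
    rw [Real.norm_eq_abs, Real.norm_eq_abs, abs_of_nonneg (Real.log_nonneg h2),
      abs_of_nonneg (by positivity), one_mul] at h1
    exact h1
  have g2 : ∀ᶠ x : ℝ in atTop, 2 * x ^ κ + 2 ≤ x ^ μ / 4 - 1 := by
    obtain ⟨κ', hκ', hκμ, hκ0⟩ : ∃ κ' : ℝ, κ ≤ κ' ∧ κ' < μ ∧ 0 < κ' :=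
      ⟨max κ (μ / 2), le_max_left _ _, max_lt hκ (by linarith), by positivity⟩
    have l2 := (tendsto_rpow_atTop (show 0 < μ - κ' by linarith)).eventually_ge_atTop 20
    filter_upwards [l2, eventually_ge_atTop 1] with x h1 h2
    have hx0 : 0 < x := by linarith
    have h5 : x ^ μ = x ^ κ' * x ^ (μ - κ') := by
      rw [← Real.rpow_add hx0]; congr 1; ring
    have h6 : x ^ κ ≤ x ^ κ' := Real.rpow_le_rpow_of_exponent_le (by linarith) hκ'
    have h7 : 1 ≤ x ^ κ' := Real.one_le_rpow (by linarith) hκ0.le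
    rw [h5]
    nlinarith
  filter_upwards [hbase, tendsto_natCast_atTop_atTop.eventually g1, tendsto_natCast_atTop_atTop.eventually g2,
    eventually_ge_atTop 8, th_close, tendsto_half.eventually th_close] with x hB h1 h2 h3 t0 t1 h4
  obtain ⟨N, hN, hN1, hN2, hl1, hl2, hrN⟩ := hB h4
  have hx : (8 : ℝ) ≤ x := by exact_mod_cast h3
  have hx0 : (0 : ℝ) < x := by linarith
  set M : ℕ := ⌊(x : ℝ) ^ μ / 4⌋₊ with hM
  have hM1 : (M : ℝ) ≤ (x : ℝ) ^ μ / 4 := Nat.floor_le (by positivity)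
  have hM2 : (x : ℝ) ^ μ / 4 < M + 1 := Nat.lt_floor_add_one _
  have hxb : (x : ℝ) ^ μ = x * (x : ℝ) ^ (-b) := by
    rw [hμ, sub_eq_add_neg, Real.rpow_add hx0, Real.rpow_one]
  have hxb2 : (x : ℝ) ^ μ * (x : ℝ) ^ b = x := by
    rw [← Real.rpow_add hx0, hμ, sub_add_cancel, Real.rpow_one]
  have hlog1 : 1 ≤ Real.log x := by
    rw [Real.le_log_iff_exp_le hx0]
    have := Real.exp_one_lt_d9
    linarith
  have hhalf : ((x / 2 : ℕ) : ℝ) ≤ (x : ℝ) / 2 := Nat.cast_div_le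
  have q1 : M ≤ ((Finset.Ioc (x / 2) x).filter Nat.Prime).card := by
    have h5 := card_primes (a := x / 2) (b := x) (Nat.div_le_self x 2)
    have h6 : (x : ℝ) / 4 ≤ th x - th (x / 2) := by
      have := (abs_le.1 t0).1
      have := (abs_le.1 t1).2
      linarith
    have h8 : (M : ℝ) * Real.log x ≤ (((Finset.Ioc (x / 2) x).filter Nat.Prime).card : ℝ) * Real.log x := by
      refine le_trans ?_ (h6.trans h5)
      calc (M : ℝ) * Real.log x ≤ ((x : ℝ) ^ μ / 4) * (x : ℝ) ^ b := by gcongr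
        _ = x / 4 := by rw [div_mul_eq_mul_div, hxb2]
    have h9 := le_of_mul_le_mul_right h8 (by linarith)
    exact_mod_cast h9
  have hlam : 4 * (M : ℝ) / x ≤ (x : ℝ) ^ (-b) := by
    rw [div_le_iff₀ hx0, mul_comm ((x : ℝ) ^ (-b)), ← hxb]
    linarith
  have hxb1 : (x : ℝ) ^ (-b) ≤ 1 := Real.rpow_le_one_of_one_le_of_nonpos (by linarith) (by linarith)
  have hfam := fam_remove hr (x := x) (M := M) (N := N) (lam := (x : ℝ) ^ (-b))
    (G := Real.exp Real.eulerMascheroniConstant) (Real.exp_pos _).le (by omega) hN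
    (fun p hp hp1 hp2 => hN1 p hp hp1 hp2) q1
    (by have := Real.exp_one_lt_d9; linarith) hrN hlam hxb1
  obtain ⟨h10, h11⟩ := two_pow_ge (M := M) (A := (x : ℝ) ^ κ) (by linarith) (by positivity)
  obtain ⟨S, hS1, hS2⟩ := drop_two h10 hfam
  refine ⟨S, h11.trans (by exact_mod_cast hS1), fun n hn => ?_⟩
  obtain ⟨k1, k2, k3⟩ := hS2 n hn
  exact ⟨k1, by linarith, k3⟩

end

end Pool.Agent.N964
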