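import Pool.Agent.N964.C6
import Pool.Agent.N964.B10

/-! From the oscillation of the excess to lower bounds for the number of exceptions. -/

set_option autoImplicit false

open Finset Filter Topology

namespace Pool.Agent.N964

noncomputable section

/-- what a lower bound construction provides -/
def Low (r : ℕ → ℝ) (b κ : ℝ) : Prop :=
    ∀ᶠ x : ℕ in atTop, 2 * (x : ℝ) ^ (-b) ≤ fN x → ∃ S : Finset ℕ, Real.exp ((x : ℝ) ^ κ) ≤ S.card ∧
      ∀ n ∈ S, 3 ≤ n ∧ Real.log n ≤ 3 * x ∧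
        Real.exp Real.eulerMascheroniConstant * Real.log (Real.log n) ≤ r n

theorem glue {r : ℕ → ℝ} {b b' κ κ' : ℝ} (hb'0 : 0 < b') (hbb : b' < b) (hb1 : b ≤ 1) (hκ : 0 < κ) (hκ1 : κ ≤ 1)
    (hosc : 1 / 2 < b' ∨ ∃ ρ : ℂ, riemannZeta ρ = 0 ∧ 1 - b' < ρ.re) (hlow : Low r b κ) (hκ'0 : 0 < κ') (hκ' : κ' < κ) :
    ∀ᶠ Y : ℝ in atTop, ∃ S : Finset ℕ, Real.exp (Y ^ κ') ≤ S.card ∧
      ∀ n ∈ S, 3 ≤ n ∧ Real.log n ≤ Y ∧
        Real.exp Real.eulerMascheroniConstant * Real.log (Real.log n) ≤ r n := by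
  obtain ⟨x0, hx0⟩ := hlow.exists_forall_of_atTop
  -- the parameter `δ`
  set δ : ℝ := (κ - κ') / (2 * κ) with hδ
  have hδ0 : 0 < δ := by rw [hδ]; apply div_pos <;> linarith
  have hδ1 : δ ≤ 1 / 2 := by
    rw [hδ, div_le_div_iff₀ (by linarith) (by norm_num)]
    linarith
  have hδκ : (1 - δ) * κ = (κ + κ') / 2 := by
    rw [hδ]; field_simp; ring
  -- the growth condition on `x`
  have g1 : ∀ᶠ x : ℝ in atTop, 2 * x ^ (-b) + x⁻¹ ≤ (1 / 2) * x ^ (-b') := by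
    have l1 := (tendsto_rpow_atTop (show 0 < b - b' by linarith)).eventually_ge_atTop 6
    filter_upwards [l1, eventually_ge_atTop 1] with x h1 h2
    have hx : 0 < x := by linarith
    have h3 : x⁻¹ ≤ x ^ (-b) := by
      rw [← Real.rpow_neg_one]
      exact Real.rpow_le_rpow_of_exponent_le h2 (by linarith)
    have h4 : x ^ (-b') = x ^ (b - b') * x ^ (-b) := by
      rw [← Real.rpow_add hx]; congr 1; ring
    have h5 : 0 < x ^ (-b) := by positivity
    rw [h4]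
    nlinarith
  obtain ⟨x1, hx1⟩ := g1.exists_forall_of_atTop
  -- the growth condition on `Y`
  have g2 : ∀ᶠ Y : ℝ in atTop, Y ^ κ' ≤ ((1 / 2) * (Y / 3) ^ (1 - δ)) ^ κ := by
    have l1 := (tendsto_rpow_atTop (show 0 < (κ - κ') / 2 by linarith)).eventually_ge_atTop 6
    filter_upwards [l1, eventually_ge_atTop 3] with Y h1 h2
    have hY : 0 < Y := by linarith
    have h3 : (Y / 3 : ℝ) ^ (1 - δ) = Y ^ (1 - δ) / 3 ^ (1 - δ) := Real.div_rpow hY.le (by norm_num) _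
    have h4 : (3 : ℝ) ^ (1 - δ) ≤ 3 := by
      calc (3 : ℝ) ^ (1 - δ) ≤ 3 ^ (1 : ℝ) := Real.rpow_le_rpow_of_exponent_le (by norm_num) (by linarith)
        _ = 3 := Real.rpow_one _
    have h5 : Y ^ (1 - δ) / 6 ≤ (1 / 2) * (Y / 3) ^ (1 - δ) := by
      rw [h3]
      have h6 : (0 : ℝ) < 3 ^ (1 - δ) := by positivity
      have h7 : Y ^ (1 - δ) / 3 ≤ Y ^ (1 - δ) / 3 ^ (1 - δ) := by gcongr
      linarith
    have h6 : (Y ^ (1 - δ) / 6) ^ κ ≤ ((1 / 2) * (Y / 3) ^ (1 - δ)) ^ κ :=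
      Real.rpow_le_rpow (by positivity) h5 hκ.le
    refine le_trans ?_ h6
    rw [Real.div_rpow (by positivity) (by norm_num), ← Real.rpow_mul hY.le, hδκ]
    have h7 : (6 : ℝ) ^ κ ≤ 6 := by
      calc (6 : ℝ) ^ κ ≤ 6 ^ (1 : ℝ) := Real.rpow_le_rpow_of_exponent_le (by norm_num) hκ1
        _ = 6 := Real.rpow_one _
    have h8 : (0 : ℝ) < 6 ^ κ := by positivity
    rw [le_div_iff₀ h8]
    have h9 : Y ^ ((κ + κ') / 2) = Y ^ κ' * Y ^ ((κ - κ') / 2) := by
      rw [← Real.rpow_add hY]; congr 1; ring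
    rw [h9]
    have h10 : 0 < Y ^ κ' := by positivity
    nlinarith
  -- the lower bound for `x` tends to infinity
  have g3 : Tendsto (fun Y : ℝ => (1 / 2) * (Y / 3) ^ (1 - δ)) atTop atTop := by
    refine Tendsto.const_mul_atTop (by norm_num) ?_
    exact (tendsto_rpow_atTop (by linarith)).comp (tendsto_id.atTop_div_const (by norm_num))
  have gU : Tendsto (fun Y : ℝ => Real.log (Y / 3)) atTop atTop :=
    Real.tendsto_log_atTop.comp (tendsto_id.atTop_div_const (by norm_num))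
  obtain ⟨u0, hu0⟩ := EE_small.exists_forall_of_atTop
  filter_upwards [g2, g3.eventually_ge_atTop (max (x0 : ℝ) (max x1 1)), gU.eventually (osc hb'0 hosc hδ0 hδ1),
    gU.eventually_ge_atTop (2 * max u0 2), eventually_gt_atTop 3] with Y h2 h3 h4 h5 h6
  obtain ⟨u, hu1, hu2, hu3⟩ := h4
  have hY0 : 0 < Y / 3 := by linarith
  set U := Real.log (Y / 3) with hU
  have hU0 : 0 ≤ U := by
    have : (2 : ℝ) ≤ max u0 2 := le_max_right _ _
    linarith
  have huge : max u0 2 ≤ u := by nlinarith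
  have hu0' : u0 ≤ u := (le_max_left _ _).trans huge
  have hu2' : 2 ≤ u := (le_max_right _ _).trans huge
  set x := ⌊Real.exp u⌋₊ with hx
  have hxle : (x : ℝ) ≤ Real.exp u := Nat.floor_le (Real.exp_pos _).le
  have hxlt : Real.exp u < x + 1 := Nat.lt_floor_add_one _
  have heY : Real.exp u ≤ Y / 3 := by
    calc Real.exp u ≤ Real.exp U := Real.exp_le_exp.2 hu2
      _ = Y / 3 := Real.exp_log hY0
  have heY2 : (Y / 3) ^ (1 - δ) ≤ Real.exp u := by
    rw [Real.rpow_def_of_pos hY0, mul_comm]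
    exact Real.exp_le_exp.2 hu1
  have hxhalf : (1 / 2) * (Y / 3) ^ (1 - δ) ≤ x := by
    have : 2 ≤ Real.exp u := by
      have := Real.add_one_le_exp u
      linarith
    linarith
  have hxx0 : (x0 : ℝ) ≤ x := (le_max_left _ _).trans (h3.trans hxhalf)
  have hxx1 : x1 ≤ x := (le_max_left _ _).trans ((le_max_right _ _).trans (h3.trans hxhalf))
  have hx1' : (1 : ℝ) ≤ x := (le_max_right _ _).trans ((le_max_right _ _).trans (h3.trans hxhalf))
  have hxpos : (0 : ℝ) < x := by linarith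
  have hf := ff_ge hu2' (hu0 u hu0')
  rw [ff_floor, ← hx] at hf
  have hexp : (1 / 2) * (x : ℝ) ^ (-b') ≤ Real.exp (-(b' * u)) := by
    have e1 : Real.exp (-(b' * u)) = (Real.exp u) ^ (-b') := by
      rw [← Real.exp_mul]; ring_nf
    rw [e1]
    have e2 : Real.exp u ≤ 2 * x := by linarith
    have e3 : (2 * (x : ℝ)) ^ (-b') ≤ (Real.exp u) ^ (-b') :=
      Real.rpow_le_rpow_of_nonpos (Real.exp_pos _) e2 (by linarith)
    refine le_trans ?_ e3
    rw [Real.mul_rpow (by norm_num) hxpos.le]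
    have e4 : (1 / 2 : ℝ) ≤ 2 ^ (-b') := by
      calc (1 / 2 : ℝ) = 2 ^ (-1 : ℝ) := by rw [Real.rpow_neg_one]; norm_num
        _ ≤ 2 ^ (-b') := Real.rpow_le_rpow_of_exponent_le (by norm_num) (by linarith)
    gcongr
  have hfin : 2 * (x : ℝ) ^ (-b) ≤ fN x := by
    have e1 := hx1 x hxx1
    have e2 : (1 : ℝ) / x = (x : ℝ)⁻¹ := one_div _
    rw [e2] at hf
    linarith
  obtain ⟨S, hS1, hS2⟩ := hx0 x (by exact_mod_cast hxx0) hfin
  refine ⟨S, ?_, fun n hn => ?_⟩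
  · refine le_trans ?_ hS1
    refine Real.exp_le_exp.2 (h2.trans ?_)
    exact Real.rpow_le_rpow (by positivity) hxhalf hκ.le
  · obtain ⟨k1, k2, k3⟩ := hS2 n hn
    exact ⟨k1, by linarith, k3⟩

end

end Pool.Agent.N964
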