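import Mathlib

/-! The kernel for the finite Nyman-Beurling problem. -/

set_option autoImplicit false

open Real Finset Filter Topology MeasureTheory

namespace Pool.Agent.N964.NB

noncomputable section

/-- the kernel: a combination of Gaussians with `Kr 0 = 0` and integral `0` -/
def Kr (u : ℝ) : ℝ := exp (-π * u ^ 2) - 3 / 2 * exp (-π * (u / 2) ^ 2) + 1 / 2 * exp (-π * (u / 4) ^ 2)

lemma Kr_small (u : ℝ) : |Kr u| ≤ 5 * u ^ 2 := by
  have hpi : π < 3.15 := Real.pi_lt_d2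
  have hpi0 : 0 < π := Real.pi_pos
  have hu : 0 ≤ u ^ 2 := sq_nonneg u
  have a1 : exp (-π * u ^ 2) ≤ 1 := Real.exp_le_one_iff.2 (by nlinarith)
  have a2 : 1 - π * u ^ 2 ≤ exp (-π * u ^ 2) := by
    have := Real.add_one_le_exp (-π * u ^ 2); linarith
  have b1 : exp (-π * (u / 2) ^ 2) ≤ 1 := Real.exp_le_one_iff.2 (by nlinarith [sq_nonneg (u / 2)])
  have b2 : 1 - π * (u / 2) ^ 2 ≤ exp (-π * (u / 2) ^ 2) := by
    have := Real.add_one_le_exp (-π * (u / 2) ^ 2); linarith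
  have c1 : exp (-π * (u / 4) ^ 2) ≤ 1 := Real.exp_le_one_iff.2 (by nlinarith [sq_nonneg (u / 4)])
  have c2 : 1 - π * (u / 4) ^ 2 ≤ exp (-π * (u / 4) ^ 2) := by
    have := Real.add_one_le_exp (-π * (u / 4) ^ 2); linarith
  have e : π * u ^ 2 ≤ 3.15 * u ^ 2 := by gcongr
  have e2 : π * (u / 2) ^ 2 = π * u ^ 2 / 4 := by ring
  have e3 : π * (u / 4) ^ 2 = π * u ^ 2 / 16 := by ring
  rw [e2] at b2
  rw [e3] at c2
  unfold Kr
  rw [abs_le]
  constructor <;> nlinarith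

lemma gauss_le (u : ℝ) : exp (-π * (u / 4) ^ 2) ≤ exp 2 * exp (-u) := by
  rw [← Real.exp_add]
  refine Real.exp_le_exp.2 ?_
  have hpi : 3 < π := Real.pi_gt_three
  have : 3 * (u / 4) ^ 2 ≤ π * (u / 4) ^ 2 := by gcongr
  nlinarith [sq_nonneg (3 * u - 8)]

lemma gauss_mono {u c : ℝ} (hc : 0 < c) (hc4 : c ≤ 4) : exp (-π * (u / c) ^ 2) ≤ exp (-π * (u / 4) ^ 2) := by
  refine Real.exp_le_exp.2 ?_
  have hpi0 : 0 < π := Real.pi_pos
  have : (u / 4) ^ 2 ≤ (u / c) ^ 2 := by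
    rw [div_pow, div_pow]
    gcongr
  nlinarith

lemma Kr_exp (u : ℝ) : |Kr u| ≤ 3 * exp 2 * exp (-u) := by
  have h1 := gauss_le u
  have h2 := gauss_mono (u := u) (c := 1) one_pos (by norm_num)
  have h3 := gauss_mono (u := u) (c := 2) two_pos (by norm_num)
  rw [div_one] at h2
  have p1 := Real.exp_pos (-π * u ^ 2)
  have p2 := Real.exp_pos (-π * (u / 2) ^ 2)
  have p3 := Real.exp_pos (-π * (u / 4) ^ 2)
  unfold Kr
  rw [abs_le]
  constructor <;> nlinarith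

lemma hasDerivAt_gauss (c u : ℝ) :
    HasDerivAt (fun u : ℝ => exp (-π * (u / c) ^ 2)) (exp (-π * (u / c) ^ 2) * (-π * (2 * (u / c) * (1 / c)))) u := by
  have h1 : HasDerivAt (fun u : ℝ => u / c) (1 / c) u := (hasDerivAt_id u).div_const c
  have h2 := ((h1.pow 2).const_mul (-π)).exp
  refine h2.congr_deriv ?_
  norm_num

lemma hasDerivAt_Kr (u : ℝ) :
    HasDerivAt Kr (exp (-π * u ^ 2) * (-π * (2 * u)) - 3 / 2 * (exp (-π * (u / 2) ^ 2) * (-π * (2 * (u / 2) * (1 / 2))))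
      + 1 / 2 * (exp (-π * (u / 4) ^ 2) * (-π * (2 * (u / 4) * (1 / 4))))) u := by
  have h1 : HasDerivAt (fun u : ℝ => exp (-π * u ^ 2)) (exp (-π * u ^ 2) * (-π * (2 * u))) u := by
    have := hasDerivAt_gauss 1 u
    simpa using this
  exact (h1.sub ((hasDerivAt_gauss 2 u).const_mul (3 / 2))).add ((hasDerivAt_gauss 4 u).const_mul (1 / 2))

lemma continuous_Kr : Continuous Kr := by
  unfold Kr
  fun_prop

lemma u_gauss {u : ℝ} (hu : 0 ≤ u) : u * exp (-π * (u / 4) ^ 2) ≤ exp 6 * exp (-u) := by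
  have h0 : u ≤ exp u := by have := Real.add_one_le_exp u; linarith
  calc u * exp (-π * (u / 4) ^ 2) ≤ exp u * exp (-π * (u / 4) ^ 2) := by gcongr
    _ = exp (u + -π * (u / 4) ^ 2) := by rw [Real.exp_add]
    _ ≤ exp (6 + -u) := by
        refine Real.exp_le_exp.2 ?_
        have hpi : 3 < π := Real.pi_gt_three
        have : 3 * (u / 4) ^ 2 ≤ π * (u / 4) ^ 2 := by gcongr
        nlinarith [sq_nonneg (3 * u - 16)]
    _ = exp 6 * exp (-u) := by rw [Real.exp_add]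

/-- constant for the differences -/
def CK : ℝ := 12 * exp 6

lemma CK_pos : 0 < CK := by unfold CK; positivity

lemma deriv_bound {u : ℝ} (hu : 0 ≤ u) :
    ‖exp (-π * u ^ 2) * (-π * (2 * u)) - 3 / 2 * (exp (-π * (u / 2) ^ 2) * (-π * (2 * (u / 2) * (1 / 2))))
      + 1 / 2 * (exp (-π * (u / 4) ^ 2) * (-π * (2 * (u / 4) * (1 / 4))))‖ ≤ CK * exp (-u) := by
  have hpi : π < 3.15 := Real.pi_lt_d2
  have hpi0 : 0 < π := Real.pi_pos
  have h0 := u_gauss hu
  have h2 := gauss_mono (u := u) (c := 1) one_pos (by norm_num)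
  have h3 := gauss_mono (u := u) (c := 2) two_pos (by norm_num)
  rw [div_one] at h2
  set A := exp (-π * u ^ 2)
  set B := exp (-π * (u / 2) ^ 2)
  set G := exp (-π * (u / 4) ^ 2)
  have p1 : 0 < A := Real.exp_pos _
  have p2 : 0 < B := Real.exp_pos _
  have p3 : 0 < G := Real.exp_pos _
  have q1 : 0 ≤ u * A := by positivity
  have q2 : 0 ≤ u * B := by positivity
  have q3 : 0 ≤ u * G := by positivity
  have r1 : u * A ≤ u * G := by gcongr
  have r2 : u * B ≤ u * G := by gcongr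
  have e : A * (-π * (2 * u)) - 3 / 2 * (B * (-π * (2 * (u / 2) * (1 / 2))))
      + 1 / 2 * (G * (-π * (2 * (u / 4) * (1 / 4)))) = π * (-2 * (u * A) + 3 / 4 * (u * B) - 1 / 16 * (u * G)) := by
    ring
  rw [e, Real.norm_eq_abs, abs_mul, abs_of_pos hpi0]
  have : |(-2 * (u * A) + 3 / 4 * (u * B) - 1 / 16 * (u * G))| ≤ 3 * (u * G) := by
    rw [abs_le]; constructor <;> linarith
  unfold CK
  calc π * |(-2 * (u * A) + 3 / 4 * (u * B) - 1 / 16 * (u * G))| ≤ 4 * (3 * (u * G)) := by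
        gcongr; linarith
    _ ≤ 12 * exp 6 * exp (-u) := by linarith

lemma Kr_diff {a b : ℝ} (ha : 0 ≤ a) (hab : a ≤ b) : |Kr b - Kr a| ≤ CK * exp (-a) * (b - a) := by
  have := Convex.norm_image_sub_le_of_norm_hasDerivWithin_le (f := Kr) (s := Set.Icc a b)
    (C := CK * exp (-a))
    (f' := fun u => exp (-π * u ^ 2) * (-π * (2 * u)) - 3 / 2 * (exp (-π * (u / 2) ^ 2) * (-π * (2 * (u / 2) * (1 / 2))))
      + 1 / 2 * (exp (-π * (u / 4) ^ 2) * (-π * (2 * (u / 4) * (1 / 4)))))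
    (fun x _ => (hasDerivAt_Kr x).hasDerivWithinAt)
    (fun x hx => (deriv_bound (ha.trans hx.1)).trans
      (mul_le_mul_of_nonneg_left (Real.exp_le_exp.2 (by linarith [hx.1])) CK_pos.le))
    (convex_Icc a b) (Set.left_mem_Icc.2 hab) (Set.right_mem_Icc.2 hab)
  rw [Real.norm_eq_abs, Real.norm_eq_abs, abs_of_nonneg (sub_nonneg.2 hab)] at this
  exact this

/-- a bound by a power at zero and by the exponential at infinity -/
lemma Kr_pow {u : ℝ} (hu : 0 < u) : |Kr u| ≤ 3 * exp 2 * exp (-u) := Kr_exp u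

end

end Pool.Agent.N964.NB
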