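import Pool.Agent.N964.E1

/-! The theta series attached to the kernel. -/

set_option autoImplicit false

open Real Finset Filter Topology MeasureTheory

namespace Pool.Agent.N964.NB

noncomputable section

/-- half of the theta series minus one -/
def ps (a : ℝ) : ℝ := ∑' m : ℕ, exp (-π * a * ((m : ℝ) + 1) ^ 2)

lemma ps_term_le {a : ℝ} (ha : 0 ≤ a) (m : ℕ) :
    exp (-π * a * ((m : ℝ) + 1) ^ 2) ≤ exp (-π * a) ^ (m + 1) := by
  rw [← Real.exp_nat_mul]
  refine Real.exp_le_exp.2 ?_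
  push_cast
  have hpi0 : 0 < π := Real.pi_pos
  have h1 : (m : ℝ) + 1 ≤ ((m : ℝ) + 1) ^ 2 := by
    have : (0 : ℝ) ≤ m := Nat.cast_nonneg m
    nlinarith
  have h2 : 0 ≤ π * a := by positivity
  nlinarith

lemma ps_summable {a : ℝ} (ha : 0 < a) : Summable fun m : ℕ => exp (-π * a * ((m : ℝ) + 1) ^ 2) := by
  have hr : exp (-π * a) < 1 := by
    rw [Real.exp_lt_one_iff]
    have := mul_pos Real.pi_pos ha
    linarith
  refine Summable.of_nonneg_of_le (fun m => (Real.exp_pos _).le) (ps_term_le ha.le) ?_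
  exact (summable_nat_add_iff 1).2 (summable_geometric_of_lt_one (Real.exp_pos _).le hr)

lemma ps_nonneg (a : ℝ) : 0 ≤ ps a := tsum_nonneg fun _ => (Real.exp_pos _).le

lemma ps_le {a : ℝ} (ha : 1 ≤ a) : ps a ≤ 2 * exp (-π * a) := by
  have ha0 : 0 < a := by linarith
  have hr0 : 0 < exp (-π * a) := Real.exp_pos _
  have hr : exp (-π * a) ≤ 1 / 2 := by
    have h1 : exp (-π * a) ≤ exp (-1) := by
      refine Real.exp_le_exp.2 ?_
      nlinarith [Real.pi_gt_three]
    have h2 : (2 : ℝ) ≤ exp 1 := by have := Real.add_one_le_exp (1 : ℝ); linarith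
    have h3 : exp (-1) ≤ 1 / 2 := by
      rw [Real.exp_neg]
      rw [inv_le_comm₀ (Real.exp_pos _) (by norm_num)]
      simpa using h2
    linarith
  have hr1 : exp (-π * a) < 1 := by linarith
  have hs := (summable_geometric_of_lt_one hr0.le hr1)
  have hs1 : Summable fun m : ℕ => exp (-π * a) ^ (m + 1) := (summable_nat_add_iff 1).2 hs
  calc ps a ≤ ∑' m : ℕ, exp (-π * a) ^ (m + 1) := (ps_summable ha0).tsum_le_tsum (ps_term_le ha0.le) hs1
    _ = exp (-π * a) * (1 - exp (-π * a))⁻¹ := by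
        rw [← tsum_geometric_of_lt_one hr0.le hr1, ← tsum_mul_left]
        congr 1; funext m; ring
    _ ≤ 2 * exp (-π * a) := by
        have : (1 - exp (-π * a))⁻¹ ≤ 2 := by
          rw [inv_le_comm₀ (by linarith) (by norm_num)]
          linarith
        nlinarith

lemma ps_anti {a b : ℝ} (ha : 0 < a) (hab : a ≤ b) : ps b ≤ ps a := by
  refine (ps_summable (ha.trans_le hab)).tsum_le_tsum (fun m => Real.exp_le_exp.2 ?_) (ps_summable ha)
  have hpi0 : 0 < π := Real.pi_pos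
  have : π * a * ((m : ℝ) + 1) ^ 2 ≤ π * b * ((m : ℝ) + 1) ^ 2 := by gcongr
  linarith

lemma int_sum {a : ℝ} (ha : 0 < a) : (∑' n : ℤ, exp (-π * a * (n : ℝ) ^ 2)) = 1 + 2 * ps a := by
  have h1 : Summable fun m : ℕ => exp (-π * a * ((m : ℝ)) ^ 2) := by
    rw [← summable_nat_add_iff 1]
    have := ps_summable ha
    refine this.congr fun m => ?_
    push_cast
    rfl
  have h2 : Summable fun m : ℕ => exp (-π * a * (((-((m : ℤ) + 1) : ℤ)) : ℝ) ^ 2) := by
    refine (ps_summable ha).congr fun m => ?_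
    congr 1
    push_cast
    ring
  have h1' : Summable fun m : ℕ => exp (-π * a * (((m : ℤ)) : ℝ) ^ 2) := by
    refine h1.congr fun m => ?_
    push_cast
    rfl
  rw [tsum_of_nat_of_neg_add_one h1' h2]
  rw [h1'.tsum_eq_zero_add]
  have e1 : ∑' m : ℕ, exp (-π * a * (((-((m : ℤ) + 1) : ℤ)) : ℝ) ^ 2) = ps a := by
    unfold ps
    congr 1; funext m
    congr 1
    push_cast
    ring
  have e2 : ∑' m : ℕ, exp (-π * a * ((((m + 1 : ℕ) : ℤ)) : ℝ) ^ 2) = ps a := by
    unfold ps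
    congr 1; funext m
    congr 1
    push_cast
    ring
  rw [e1, e2]
  simp
  ring

lemma ps_fe {t : ℝ} (ht : 0 < t) : ps (t ^ 2) = (1 / t - 1) / 2 + 1 / t * ps (1 / t ^ 2) := by
  have h := Real.tsum_exp_neg_mul_int_sq (a := t ^ 2) (by positivity)
  rw [int_sum (by positivity)] at h
  have e1 : (∑' n : ℤ, exp (-π / t ^ 2 * (n : ℝ) ^ 2)) = 1 + 2 * ps (1 / t ^ 2) := by
    rw [← int_sum (by positivity)]
    congr 1; funext n
    congr 1
    ring
  rw [e1] at h
  have e2 : (t ^ 2) ^ (1 / 2 : ℝ) = t := by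
    rw [← Real.sqrt_eq_rpow, Real.sqrt_sq ht.le]
  rw [e2] at h
  linarith

/-- the theta series of the kernel -/
def th (t : ℝ) : ℝ := ∑' m : ℕ, Kr (((m : ℝ) + 1) * t)

lemma geo_lt {t : ℝ} (ht : 0 < t) : exp (-t) < 1 := by
  rw [Real.exp_lt_one_iff]; linarith

lemma geo_summable {t : ℝ} (ht : 0 < t) : Summable fun m : ℕ => exp (-(((m : ℝ) + 1) * t)) := by
  have := (summable_nat_add_iff 1).2 (summable_geometric_of_lt_one (Real.exp_pos (-t)).le (geo_lt ht))
  refine this.congr fun m => ?_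
  rw [← Real.exp_nat_mul]
  push_cast
  congr 1; ring

lemma th_summable_norm {t : ℝ} (ht : 0 < t) : Summable fun m : ℕ => |Kr (((m : ℝ) + 1) * t)| := by
  refine Summable.of_nonneg_of_le (fun m => abs_nonneg _) (fun m => Kr_exp _) ?_
  exact (geo_summable ht).mul_left _

lemma th_summable {t : ℝ} (ht : 0 < t) : Summable fun m : ℕ => Kr (((m : ℝ) + 1) * t) :=
  (th_summable_norm ht).of_abs

lemma th_eq {t : ℝ} (ht : 0 < t) : th t = 1 / t * (ps (1 / t ^ 2) - 3 * ps (1 / (t / 2) ^ 2) + 2 * ps (1 / (t / 4) ^ 2)) := by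
  have e0 : th t = ps (t ^ 2) - 3 / 2 * ps ((t / 2) ^ 2) + 1 / 2 * ps ((t / 4) ^ 2) := by
    unfold th ps
    rw [← tsum_mul_left, ← tsum_mul_left]
    have s1 := ps_summable (a := t ^ 2) (by positivity)
    have s2 := (ps_summable (a := (t / 2) ^ 2) (by positivity)).mul_left (3 / 2)
    have s3 := (ps_summable (a := (t / 4) ^ 2) (by positivity)).mul_left (1 / 2)
    rw [← s1.tsum_sub s2, ← (s1.sub s2).tsum_add s3]
    congr 1; funext m
    unfold Kr
    congr 1
    · congr 1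
      · congr 1; ring
      · congr 2; ring
    · congr 2; ring
  rw [e0, ps_fe ht, ps_fe (t := t / 2) (by positivity), ps_fe (t := t / 4) (by positivity)]
  field_simp
  ring

lemma th_small {t : ℝ} (ht : 0 < t) (ht1 : t ≤ 1) : |th t| ≤ 12 * exp (-(1 / t)) := by
  have h1 : 1 ≤ 1 / t := by rw [le_div_iff₀ ht]; linarith
  have h2 : 1 / t ≤ 1 / t ^ 2 := by
    rw [div_le_div_iff₀ ht (by positivity)]
    nlinarith
  have h2' : (1:ℝ) ≤ 1 / t ^ 2 := h1.trans h2
  have h3 : ps (1 / (t / 2) ^ 2) ≤ ps (1 / t ^ 2) := by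
    refine ps_anti (by positivity) ?_
    rw [div_le_div_iff₀ (by positivity) (by positivity)]
    nlinarith [sq_nonneg t]
  have h4 : ps (1 / (t / 4) ^ 2) ≤ ps (1 / t ^ 2) := by
    refine ps_anti (by positivity) ?_
    rw [div_le_div_iff₀ (by positivity) (by positivity)]
    nlinarith [sq_nonneg t]
  have h5 := ps_le h2'
  have n1 := ps_nonneg (1 / t ^ 2)
  have n2 := ps_nonneg (1 / (t / 2) ^ 2)
  have n3 := ps_nonneg (1 / (t / 4) ^ 2)
  rw [th_eq ht, abs_mul, abs_of_pos (by positivity : 0 < 1 / t)]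
  have h6 : |ps (1 / t ^ 2) - 3 * ps (1 / (t / 2) ^ 2) + 2 * ps (1 / (t / 4) ^ 2)| ≤ 6 * ps (1 / t ^ 2) := by
    rw [abs_le]; constructor <;> linarith
  have h7 : 1 / t ≤ exp (1 / t) := by have := Real.add_one_le_exp (1 / t); linarith
  calc 1 / t * |ps (1 / t ^ 2) - 3 * ps (1 / (t / 2) ^ 2) + 2 * ps (1 / (t / 4) ^ 2)|
      ≤ exp (1 / t) * (6 * (2 * exp (-π * (1 / t ^ 2)))) := by gcongr; linarith
    _ = 12 * exp (1 / t + -π * (1 / t ^ 2)) := by rw [Real.exp_add]; ring
    _ ≤ 12 * exp (-(1 / t)) := by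
        gcongr
        nlinarith [Real.pi_gt_three]

lemma th_large {t : ℝ} (ht : 1 ≤ t) : |th t| ≤ 6 * exp 2 * exp (-t) := by
  have ht0 : 0 < t := by linarith
  have h2 : exp (-t) ≤ 1 / 2 := by
    have h1 : exp (-t) ≤ exp (-1) := Real.exp_le_exp.2 (by linarith)
    have h2 : (2 : ℝ) ≤ exp 1 := by have := Real.add_one_le_exp (1 : ℝ); linarith
    have h3 : exp (-1) ≤ 1 / 2 := by
      rw [Real.exp_neg]
      rw [inv_le_comm₀ (Real.exp_pos _) (by norm_num)]
      simpa using h2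
    linarith
  have e : ∑' m : ℕ, 3 * exp 2 * exp (-(((m : ℝ) + 1) * t)) = 3 * exp 2 * (exp (-t) * (1 - exp (-t))⁻¹) := by
    rw [tsum_mul_left]
    congr 1
    rw [← tsum_geometric_of_lt_one (Real.exp_pos (-t)).le (geo_lt ht0), ← tsum_mul_left]
    congr 1; funext m
    rw [← Real.exp_nat_mul, ← Real.exp_add]
    congr 1; ring
  calc |th t| ≤ ∑' m : ℕ, |Kr (((m : ℝ) + 1) * t)| := by
        have := norm_tsum_le_tsum_norm (f := fun m : ℕ => Kr (((m : ℝ) + 1) * t)) (by simpa using th_summable_norm ht0)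
        simpa [th] using this
    _ ≤ ∑' m : ℕ, 3 * exp 2 * exp (-(((m : ℝ) + 1) * t)) :=
        (th_summable_norm ht0).tsum_le_tsum (fun m => Kr_exp _) ((geo_summable ht0).mul_left _)
    _ = 3 * exp 2 * (exp (-t) * (1 - exp (-t))⁻¹) := e
    _ ≤ 3 * exp 2 * (exp (-t) * 2) := by
        have : (1 - exp (-t))⁻¹ ≤ 2 := by
          rw [inv_le_comm₀ (by linarith) (by norm_num)]
          linarith
        have := Real.exp_pos (-t)
        gcongr
    _ = 6 * exp 2 * exp (-t) := by ring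

lemma th_cont : ContinuousOn th (Set.Ioi 0) := by
  intro t ht
  have ht' : 0 < t := ht
  have h1 : ContinuousOn th (Set.Ioi (t / 2)) := by
    unfold th
    refine continuousOn_tsum (u := fun m : ℕ => 3 * exp 2 * exp (-(((m : ℝ) + 1) * (t / 2))))
      (fun m => (continuous_Kr.comp (by fun_prop : Continuous fun t : ℝ => ((m : ℝ) + 1) * t)).continuousOn)
      ((geo_summable (by positivity)).mul_left _) (fun m x hx => ?_)
    rw [Real.norm_eq_abs]
    refine (Kr_exp _).trans ?_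
    have hx' : t / 2 < x := hx
    have : ((m : ℝ) + 1) * (t / 2) ≤ ((m : ℝ) + 1) * x := by gcongr
    gcongr
  have h2 : ContinuousAt th t := h1.continuousAt (Ioi_mem_nhds (by linarith))
  exact h2.continuousWithinAt

end

end Pool.Agent.N964.NB
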