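import Pool.Agent.N964.E2
import Pool.Agent.H295R2.Z

/-! Mellin transforms of the kernel and of its theta series. -/

set_option autoImplicit false

open Finset Filter Topology MeasureTheory
open Pool.Agent.H295R2 (Zs Zs_eq Zs_differentiable)

namespace Pool.Agent.N964.NB

noncomputable section

lemma conv_of_exp {f : ℝ → ℝ} {C : ℝ} (hf : ContinuousOn f (Set.Ioi 0))
    (hb : ∀ t : ℝ, 0 < t → |f t| ≤ C * Real.exp (-t)) {s : ℂ} (hs : 0 < s.re) :
    MellinConvergent (fun t => (f t : ℂ)) s := by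
  unfold MellinConvergent
  have h1 := (Real.GammaIntegral_convergent hs).const_mul C
  refine Integrable.mono' h1 ?_ ?_
  · refine ContinuousOn.aestronglyMeasurable ?_ measurableSet_Ioi
    simp only [smul_eq_mul]
    refine ContinuousOn.mul ?_ ?_
    · intro t ht
      have ht' : (0:ℝ) < t := ht
      exact (Complex.continuousAt_ofReal_cpow_const t (s - 1) (Or.inr ht'.ne')).continuousWithinAt
    · exact Complex.continuous_ofReal.comp_continuousOn hf
  · refine (ae_restrict_iff' measurableSet_Ioi).2 (Eventually.of_forall fun t ht => ?_)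
    have ht' : (0:ℝ) < t := ht
    rw [norm_smul, Complex.norm_cpow_eq_rpow_re_of_pos ht', Complex.norm_real, Real.norm_eq_abs]
    have h2 := hb t ht'
    have h3 : 0 ≤ t ^ (s - 1).re := Real.rpow_nonneg ht'.le _
    calc t ^ (s - 1).re * |f t| ≤ t ^ (s - 1).re * (C * Real.exp (-t)) := by gcongr
      _ = C * (Real.exp (-t) * t ^ (s.re - 1)) := by
          rw [Complex.sub_re, Complex.one_re]; ring

/-- Mellin transform of the kernel -/
def ka (s : ℂ) : ℂ := mellin (fun t => (Kr t : ℂ)) s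

/-- the Gaussian -/
def Ga (t : ℝ) : ℝ := Real.exp (-Real.pi * t ^ 2)

lemma Ga_bound (c : ℝ) (hc : 0 < c) (hc4 : c ≤ 4) (t : ℝ) : |Ga (t / c)| ≤ Real.exp 2 * Real.exp (-t) := by
  unfold Ga
  rw [abs_of_pos (Real.exp_pos _)]
  exact (gauss_mono hc hc4).trans (gauss_le t)

lemma Ga_cont : Continuous Ga := by unfold Ga; fun_prop

lemma Ga_conv (c : ℝ) (hc : 0 < c) (hc4 : c ≤ 4) {s : ℂ} (hs : 0 < s.re) :
    MellinConvergent (fun t => (Ga (t / c) : ℂ)) s :=
  conv_of_exp (Ga_cont.comp (by fun_prop)).continuousOn (fun t _ => Ga_bound c hc hc4 t) hs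

/-- the gamma factor -/
def gR (s : ℂ) : ℂ := (1 / (Real.pi : ℂ)) ^ (s / 2) * Complex.Gamma (s / 2)

lemma mellin_Ga {s : ℂ} (hs : 0 < s.re) : mellin (fun t => (Ga t : ℂ)) s = 1 / 2 * gR s := by
  have h := mellin_comp_rpow (fun y : ℝ => ((Real.exp (-Real.pi * y) : ℝ) : ℂ)) s 2
  have e1 : (fun t : ℝ => ((Real.exp (-Real.pi * t ^ (2:ℝ)) : ℝ) : ℂ)) = fun t => (Ga t : ℂ) := by
    funext t
    unfold Ga
    rw [Real.rpow_two]
  rw [e1] at h
  rw [h]
  have hs2 : 0 < (s / 2).re := by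
    rw [Complex.div_ofNat_re]; positivity
  have h2 := Complex.integral_cpow_mul_exp_neg_mul_Ioi (a := s / 2) (r := Real.pi) hs2 (by
    simpa using Real.pi_pos)
  have e2 : mellin (fun y : ℝ => ((Real.exp (-Real.pi * y) : ℝ) : ℂ)) (s / ((2:ℝ) : ℂ)) = gR s := by
    unfold mellin gR
    rw [← h2]
    refine setIntegral_congr_fun measurableSet_Ioi fun t _ => ?_
    simp only [smul_eq_mul]
    push_cast
    congr 2
    ring
  rw [e2]
  rw [abs_of_pos (by norm_num : (0:ℝ) < 2)]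
  rw [Complex.real_smul]
  push_cast
  ring

/-- the factor of the dilations -/
def wf (s : ℂ) : ℂ := 1 - 3 / 2 * ((1 / 2 : ℝ) : ℂ) ^ (-s) + 1 / 2 * ((1 / 4 : ℝ) : ℂ) ^ (-s)

lemma ka_eq {s : ℂ} (hs : 0 < s.re) : ka s = 1 / 2 * gR s * wf s := by
  have c1 := Ga_conv 1 one_pos (by norm_num) hs
  have c2 := (Ga_conv 2 two_pos (by norm_num) hs).const_smul (3 / 2 : ℂ)
  have c4 := (Ga_conv 4 (by norm_num) (by norm_num) hs).const_smul (1 / 2 : ℂ)
  have h12 := hasMellin_sub c1 c2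
  have h := hasMellin_add h12.1 c4
  have e : (fun t : ℝ => ((Ga (t / 1) : ℂ) - (3 / 2 : ℂ) • (Ga (t / 2) : ℂ)) + (1 / 2 : ℂ) • (Ga (t / 4) : ℂ)) =
      fun t => (Kr t : ℂ) := by
    funext t
    unfold Ga Kr
    simp only [smul_eq_mul, div_one]
    push_cast
    ring
  unfold ka
  rw [← e, h.2, h12.2]
  have m2 : mellin (fun t : ℝ => (3 / 2 : ℂ) • (Ga (t / 2) : ℂ)) s = 3 / 2 * (((1 / 2 : ℝ) : ℂ) ^ (-s) * (1 / 2 * gR s)) := by
    rw [mellin_const_smul, smul_eq_mul, ← mellin_Ga hs]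
    congr 1
    rw [← smul_eq_mul, ← mellin_comp_mul_left (fun t => (Ga t : ℂ)) s (by norm_num : (0:ℝ) < 1 / 2)]
    congr 1; funext t
    congr 2; ring
  have m4 : mellin (fun t : ℝ => (1 / 2 : ℂ) • (Ga (t / 4) : ℂ)) s = 1 / 2 * (((1 / 4 : ℝ) : ℂ) ^ (-s) * (1 / 2 * gR s)) := by
    rw [mellin_const_smul, smul_eq_mul, ← mellin_Ga hs]
    congr 1
    rw [← smul_eq_mul, ← mellin_comp_mul_left (fun t => (Ga t : ℂ)) s (by norm_num : (0:ℝ) < 1 / 4)]
    congr 1; funext t
    congr 2; ring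
  have m1 : mellin (fun t : ℝ => (Ga (t / 1) : ℂ)) s = 1 / 2 * gR s := by
    simp only [div_one]
    exact mellin_Ga hs
  rw [m1, m2, m4]
  unfold wf
  ring

lemma gR_ne {s : ℂ} (hs : 0 < s.re) : gR s ≠ 0 := by
  unfold gR
  refine mul_ne_zero ?_ (Complex.Gamma_ne_zero_of_re_pos ?_)
  · rw [Complex.cpow_def_of_ne_zero]
    · exact Complex.exp_ne_zero _
    · have : (Real.pi : ℂ) ≠ 0 := by exact_mod_cast Real.pi_ne_zero
      exact one_div_ne_zero this
  · rw [Complex.div_ofNat_re]; positivity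

lemma wf_ne {s : ℂ} (h0 : 0 < s.re) (h1 : s.re < 1) : wf s ≠ 0 := by
  set z : ℂ := ((1 / 2 : ℝ) : ℂ) ^ (-s) with hz
  have h2 : ((1 / 4 : ℝ) : ℂ) ^ (-s) = z * z := by
    rw [hz, ← Complex.mul_cpow_ofReal_nonneg (by norm_num) (by norm_num)]
    congr 1
    push_cast
    norm_num
  have hzn : ‖z‖ = (2:ℝ) ^ s.re := by
    rw [hz, Complex.norm_cpow_eq_rpow_re_of_pos (by norm_num), Complex.neg_re, Real.rpow_neg (by norm_num),
      ← Real.inv_rpow (by norm_num)]
    norm_num
  have hz1 : 1 < ‖z‖ := by rw [hzn]; exact Real.one_lt_rpow (by norm_num) h0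
  have hz2 : ‖z‖ < 2 := by
    rw [hzn]
    calc (2:ℝ) ^ s.re < 2 ^ (1:ℝ) := Real.rpow_lt_rpow_of_exponent_lt (by norm_num) h1
      _ = 2 := Real.rpow_one 2
  have e : wf s = (1 - z) * (1 - z / 2) := by
    unfold wf
    rw [h2]
    ring
  rw [e]
  refine mul_ne_zero ?_ ?_
  · intro h
    have : z = 1 := by linear_combination -h
    rw [this, norm_one] at hz1
    exact lt_irrefl _ hz1
  · intro h
    have : z = 2 := by linear_combination -2 * h
    rw [this] at hz2
    norm_num at hz2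

lemma ka_ne {s : ℂ} (h0 : 0 < s.re) (h1 : s.re < 1) : ka s ≠ 0 := by
  rw [ka_eq h0]
  exact mul_ne_zero (mul_ne_zero (by norm_num) (gR_ne h0)) (wf_ne h0 h1)

lemma mellin_th {s : ℂ} (hs : 1 < s.re) : mellin (fun t => (th t : ℂ)) s = riemannZeta s * ka s := by
  have hs0 : 0 < s.re := by linarith
  have hc : ∀ m : ℕ, (0:ℝ) < (m:ℝ) + 1 := fun m => by positivity
  have hbound : ∀ m : ℕ, ∀ t : ℝ, 0 < t → ‖(t : ℂ) ^ (s - 1) • (Kr (((m : ℝ) + 1) * t) : ℂ)‖ ≤
      3 * Real.exp 2 * (t ^ (s.re - 1) * Real.exp (-(((m : ℝ) + 1) * t))) := by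
    intro m t ht
    rw [norm_smul, Complex.norm_cpow_eq_rpow_re_of_pos ht, Complex.norm_real, Real.norm_eq_abs,
      Complex.sub_re, Complex.one_re]
    have h3 : 0 ≤ t ^ (s.re - 1) := Real.rpow_nonneg ht.le _
    calc t ^ (s.re - 1) * |Kr (((m : ℝ) + 1) * t)|
        ≤ t ^ (s.re - 1) * (3 * Real.exp 2 * Real.exp (-(((m : ℝ) + 1) * t))) := by
          gcongr; exact Kr_exp _
      _ = _ := by ring
  have hgi : ∀ m : ℕ, IntegrableOn (fun t : ℝ => 3 * Real.exp 2 * (t ^ (s.re - 1) * Real.exp (-(((m : ℝ) + 1) * t))))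
      (Set.Ioi 0) := by
    intro m
    refine Integrable.const_mul ?_ _
    by_contra hcon
    have h1 := Real.integral_rpow_mul_exp_neg_mul_Ioi hs0 (hc m)
    rw [integral_undef hcon] at h1
    have h2 : 0 < (1 / ((m:ℝ) + 1)) ^ s.re * Real.Gamma s.re :=
      mul_pos (Real.rpow_pos_of_pos (by positivity) _) (Real.Gamma_pos_of_pos hs0)
    linarith
  have hint : ∀ m : ℕ, Integrable (fun t : ℝ => (t : ℂ) ^ (s - 1) • (Kr (((m : ℝ) + 1) * t) : ℂ))
      (volume.restrict (Set.Ioi 0)) := by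
    intro m
    refine Integrable.mono' (hgi m) ?_ ?_
    · refine ContinuousOn.aestronglyMeasurable ?_ measurableSet_Ioi
      simp only [smul_eq_mul]
      refine ContinuousOn.mul ?_ ?_
      · intro t ht
        have ht' : (0:ℝ) < t := ht
        exact (Complex.continuousAt_ofReal_cpow_const t (s - 1) (Or.inr ht'.ne')).continuousWithinAt
      · exact (Complex.continuous_ofReal.comp (continuous_Kr.comp (by fun_prop))).continuousOn
    · exact (ae_restrict_iff' measurableSet_Ioi).2 (Eventually.of_forall fun t ht => hbound m t ht)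
  have hsum : Summable fun m : ℕ => ∫ t : ℝ in Set.Ioi 0, ‖(t : ℂ) ^ (s - 1) • (Kr (((m : ℝ) + 1) * t) : ℂ)‖ := by
    have hz : Summable fun m : ℕ => 3 * Real.exp 2 * ((1 / ((m:ℝ) + 1)) ^ s.re * Real.Gamma s.re) := by
      refine Summable.mul_left _ (Summable.mul_right _ ?_)
      have h1 := (summable_nat_add_iff 1).2 (Real.summable_one_div_nat_rpow.2 hs)
      refine h1.congr fun m => ?_
      rw [Real.div_rpow zero_le_one (by positivity), Real.one_rpow]
      push_cast
      rfl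
    refine Summable.of_nonneg_of_le (fun m => integral_nonneg fun t => norm_nonneg _) (fun m => ?_) hz
    rw [← Real.integral_rpow_mul_exp_neg_mul_Ioi hs0 (hc m), ← integral_const_mul]
    exact setIntegral_mono_on (hint m).norm (hgi m) measurableSet_Ioi (fun t ht => hbound m t ht)
  have hmain := hasSum_integral_of_summable_integral_norm hint hsum
  have e1 : ∀ m : ℕ, ∫ t : ℝ in Set.Ioi 0, (t : ℂ) ^ (s - 1) • (Kr (((m : ℝ) + 1) * t) : ℂ) =
      1 / ((m : ℂ) + 1) ^ s * ka s := by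
    intro m
    have := mellin_comp_mul_left (fun t => (Kr t : ℂ)) s (hc m)
    have h2 : ∫ t : ℝ in Set.Ioi 0, (t : ℂ) ^ (s - 1) • (Kr (((m : ℝ) + 1) * t) : ℂ) =
      mellin (fun t => ((Kr (((m:ℝ) + 1) * t) : ℝ) : ℂ)) s := rfl
    rw [h2, this]
    unfold ka
    rw [smul_eq_mul, Complex.cpow_neg, one_div]
    push_cast
    rfl
  have e2 : ∫ t : ℝ in Set.Ioi 0, ∑' m : ℕ, (t : ℂ) ^ (s - 1) • (Kr (((m : ℝ) + 1) * t) : ℂ) =
      mellin (fun t => (th t : ℂ)) s := by
    unfold mellin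
    refine setIntegral_congr_fun measurableSet_Ioi fun t _ => ?_
    simp only [smul_eq_mul]
    rw [tsum_mul_left]
    congr 1
    unfold th
    rw [Complex.ofReal_tsum]
  rw [e2] at hmain
  simp only [e1] at hmain
  rw [← hmain.tsum_eq, tsum_mul_right, zeta_eq_tsum_one_div_nat_add_one_cpow hs]

lemma ka_diff {s : ℂ} (hs : 0 < s.re) : DifferentiableAt ℂ ka s := by
  have hc : ContinuousOn (fun t : ℝ => (Kr t : ℂ)) (Set.Ioi 0) :=
    (Complex.continuous_ofReal.comp continuous_Kr).continuousOn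
  refine mellin_differentiableAt_of_isBigO_rpow_exp (a := 1) (b := 0) one_pos
    (hc.locallyIntegrableOn measurableSet_Ioi) ?_ ?_ hs
  · refine Asymptotics.IsBigO.of_bound (3 * Real.exp 2) (Eventually.of_forall fun t => ?_)
    rw [Complex.norm_real, Real.norm_eq_abs, Real.norm_of_nonneg (Real.exp_pos _).le]
    have := Kr_exp t
    rwa [neg_one_mul]
  · refine Asymptotics.IsBigO.of_bound (3 * Real.exp 2) ?_
    filter_upwards [self_mem_nhdsWithin] with t ht
    have ht' : (0:ℝ) < t := ht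
    rw [Complex.norm_real, Real.norm_eq_abs, neg_zero, Real.rpow_zero, norm_one, mul_one]
    refine (Kr_exp t).trans ?_
    have : Real.exp (-t) ≤ 1 := Real.exp_le_one_iff.2 (by linarith)
    nlinarith [Real.exp_pos 2]

lemma mth_diff {s : ℂ} (hs : 0 < s.re) : DifferentiableAt ℂ (mellin fun t => (th t : ℂ)) s := by
  have hc : ContinuousOn (fun t : ℝ => (th t : ℂ)) (Set.Ioi 0) :=
    Complex.continuous_ofReal.comp_continuousOn th_cont
  refine mellin_differentiableAt_of_isBigO_rpow_exp (a := 1) (b := 0) one_pos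
    (hc.locallyIntegrableOn measurableSet_Ioi) ?_ ?_ hs
  · refine Asymptotics.IsBigO.of_bound (6 * Real.exp 2) ?_
    filter_upwards [eventually_ge_atTop 1] with t ht
    rw [Complex.norm_real, Real.norm_eq_abs, Real.norm_of_nonneg (Real.exp_pos _).le]
    have := th_large ht
    rwa [neg_one_mul]
  · refine Asymptotics.IsBigO.of_bound 12 ?_
    filter_upwards [Ioc_mem_nhdsGT (show (0:ℝ) < 1 by norm_num)] with t ht
    rw [Complex.norm_real, Real.norm_eq_abs, neg_zero, Real.rpow_zero, norm_one, mul_one]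
    refine (th_small ht.1 ht.2).trans ?_
    have : Real.exp (-(1 / t)) ≤ 1 := Real.exp_le_one_iff.2 (by have := ht.1; simp; positivity)
    linarith

lemma mth_eq {s : ℂ} (hs : 0 < s.re) : (s - 1) * mellin (fun t => (th t : ℂ)) s = Zs s * ka s := by
  have hop : IsOpen {s : ℂ | 0 < s.re} := isOpen_lt continuous_const Complex.continuous_re
  have hop1 : IsOpen {s : ℂ | 1 < s.re} := isOpen_lt continuous_const Complex.continuous_re
  have h1 : AnalyticOnNhd ℂ (fun s => (s - 1) * mellin (fun t => (th t : ℂ)) s) {s : ℂ | 0 < s.re} :=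
    DifferentiableOn.analyticOnNhd (fun s hs => ((by fun_prop : DifferentiableAt ℂ (fun s : ℂ => s - 1) s).mul
      (mth_diff hs)).differentiableWithinAt) hop
  have h2 : AnalyticOnNhd ℂ (fun s => Zs s * ka s) {s : ℂ | 0 < s.re} :=
    DifferentiableOn.analyticOnNhd (fun s hs => ((Zs_differentiable s).mul (ka_diff hs)).differentiableWithinAt) hop
  have h3 := h1.eqOn_of_preconnected_of_eventuallyEq h2 (convex_halfSpace_re_gt 0).isPreconnected
    (z₀ := 2) (by simp) (by
      have : {s : ℂ | 1 < s.re} ∈ 𝓝 (2 : ℂ) := hop1.mem_nhds (by simp)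
      filter_upwards [this] with z hz
      have hz1 : z ≠ 1 := by
        rintro rfl
        simp at hz
      rw [mellin_th hz, ← Zs_eq hz1]
      ring)
  exact h3 hs

/-- the Mellin transform of the theta series vanishes at the zeros of zeta -/
lemma mth_zero {ρ : ℂ} (hρ : riemannZeta ρ = 0) (h0 : 0 < ρ.re) : mellin (fun t => (th t : ℂ)) ρ = 0 := by
  have hρ1 : ρ ≠ 1 := by
    rintro rfl
    exact riemannZeta_ne_zero_of_one_le_re (by simp) hρ
  have h := mth_eq h0
  rw [← Zs_eq hρ1, hρ, mul_zero, zero_mul] at h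
  rcases mul_eq_zero.1 h with h | h
  · exact absurd (sub_eq_zero.1 h) hρ1
  · exact h

end

end Pool.Agent.N964.NB
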