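import Pool.Agent.N964.E3

/-! The basic identity for the error function of the finite Nyman-Beurling problem. -/

set_option autoImplicit false

open Finset Filter Topology MeasureTheory

namespace Pool.Agent.N964.NB

noncomputable section

/-- the error of the approximation of `1` by `∑ a n ⌊k / n⌋` -/
def Er (a : ℕ → ℝ) (N k : ℕ) : ℝ := 1 - ∑ n ∈ Finset.Icc 1 N, a n * ((k / n : ℕ) : ℝ)

lemma th_bound {t : ℝ} (ht : 0 < t) : |th t| ≤ 60 * Real.exp (-t) := by
  rcases le_total t 1 with h | h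
  · have h1 := th_small ht h
    have h2 : Real.exp (-(1 / t)) ≤ 1 := Real.exp_le_one_iff.2 (by simp; positivity)
    have h3 : Real.exp (-1) ≤ Real.exp (-t) := Real.exp_le_exp.2 (by linarith)
    have h4 : 0.36 < Real.exp (-1) := by
      have := Real.exp_neg_one_gt_d9
      linarith
    nlinarith
  · have h1 := th_large h
    have h2 : Real.exp 2 < 8 := by
      have h3 := Real.exp_one_lt_d9
      have h4 : Real.exp 2 = Real.exp 1 * Real.exp 1 := by rw [← Real.exp_add]; norm_num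
      rw [h4]
      nlinarith [Real.exp_pos 1]
    have h5 := Real.exp_pos (-t)
    nlinarith

lemma mul_geo_summable {t : ℝ} (ht : 0 < t) :
    Summable fun k : ℕ => ((k : ℝ) + 1) * Real.exp (-(((k : ℝ) + 1) * t)) := by
  have h0 : ‖Real.exp (-t)‖ < 1 := by
    rw [Real.norm_of_nonneg (Real.exp_pos _).le]; exact geo_lt ht
  have h1 := (summable_nat_add_iff 1).2 (summable_pow_mul_geometric_of_norm_lt_one 1 h0)
  refine h1.congr fun k => ?_
  rw [pow_one, ← Real.exp_nat_mul]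
  push_cast
  congr 2; ring

lemma lin_Kr_summable {t : ℝ} (ht : 0 < t) (c : ℕ → ℝ) (A : ℝ) (hc : ∀ k, |c k| ≤ A * ((k : ℝ) + 1)) :
    Summable fun k : ℕ => c k * Kr (((k : ℝ) + 1) * t) := by
  have hA : 0 ≤ A := by
    have := (abs_nonneg _).trans (hc 0)
    simpa using this
  refine Summable.of_norm_bounded (g := fun k : ℕ => (A * (3 * Real.exp 2)) * (((k : ℝ) + 1) * Real.exp (-(((k : ℝ) + 1) * t))))
    ((mul_geo_summable ht).mul_left _) fun k => ?_
  rw [Real.norm_eq_abs, abs_mul]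
  calc |c k| * |Kr (((k : ℝ) + 1) * t)| ≤ (A * ((k : ℝ) + 1)) * (3 * Real.exp 2 * Real.exp (-(((k : ℝ) + 1) * t))) := by
        gcongr
        · exact hc k
        · exact Kr_exp _
    _ = _ := by ring

/-- the difference -/
def Dk (k : ℕ) (t : ℝ) : ℝ := Kr (((k : ℝ) + 1) * t) - Kr (((k : ℝ) + 2) * t)

lemma sum_Dk {t : ℝ} (ht : 0 < t) : HasSum (fun k : ℕ => Dk k t) (Kr t) := by
  have h1 : Summable fun k : ℕ => Kr (((k : ℝ) + 1) * t) := th_summable ht
  have h2 : Summable fun k : ℕ => Kr (((k : ℝ) + 2) * t) := by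
    have := (summable_nat_add_iff 1).2 h1
    refine this.congr fun k => ?_
    push_cast
    congr 2; ring
  have h3 := h1.hasSum.sub h2.hasSum
  have e : ∑' k : ℕ, Kr (((k : ℝ) + 1) * t) = Kr t + ∑' k : ℕ, Kr (((k : ℝ) + 2) * t) := by
    rw [h1.tsum_eq_zero_add]
    congr 1
    · congr 1; push_cast; ring
    · congr 1; funext k
      push_cast
      congr 2; ring
  rw [e] at h3
  simpa [Dk] using h3

lemma div_le_lin (n k : ℕ) : |(((k / n : ℕ)) : ℝ)| ≤ 1 * ((k : ℝ) + 1) := by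
  rw [abs_of_nonneg (Nat.cast_nonneg _)]
  have : ((k / n : ℕ) : ℝ) ≤ (k : ℝ) := by exact_mod_cast Nat.div_le_self k n
  linarith

lemma sum_floor_Dk {t : ℝ} (ht : 0 < t) {n : ℕ} (hn : 1 ≤ n) :
    HasSum (fun k : ℕ => (((k + 1) / n : ℕ) : ℝ) * Dk k t) (th (n * t)) := by
  have b1 : ∀ k : ℕ, |((((k + 1) / n : ℕ)) : ℝ)| ≤ 1 * ((k : ℝ) + 1) := by
    intro k
    rw [abs_of_nonneg (Nat.cast_nonneg _)]
    have : (((k + 1) / n : ℕ) : ℝ) ≤ ((k + 1 : ℕ) : ℝ) := by exact_mod_cast Nat.div_le_self (k + 1) n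
    push_cast at this
    linarith
  have s1 := lin_Kr_summable ht (fun k : ℕ => (((k + 1) / n : ℕ) : ℝ)) 1 b1
  have s2 := lin_Kr_summable ht (fun k : ℕ => ((k / n : ℕ) : ℝ)) 1 (div_le_lin n)
  have s3 : Summable fun k : ℕ => (((k + 1) / n : ℕ) : ℝ) * Kr (((k : ℝ) + 2) * t) := by
    have := (summable_nat_add_iff 1).2 s2
    refine this.congr fun k => ?_
    push_cast
    congr 3; ring
  have e3 : ∑' k : ℕ, (((k + 1) / n : ℕ) : ℝ) * Kr (((k : ℝ) + 2) * t) =
      ∑' k : ℕ, ((k / n : ℕ) : ℝ) * Kr (((k : ℝ) + 1) * t) := by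
    rw [s2.tsum_eq_zero_add]
    simp only [Nat.zero_div, Nat.cast_zero, zero_mul, zero_add]
    congr 1; funext k
    push_cast
    congr 3; ring
  have h := s1.hasSum.sub s3.hasSum
  rw [e3] at h
  have h' := s1.hasSum.sub s2.hasSum
  have e4 : ∑' k : ℕ, (((k + 1) / n : ℕ) : ℝ) * Kr (((k : ℝ) + 1) * t) -
      ∑' k : ℕ, ((k / n : ℕ) : ℝ) * Kr (((k : ℝ) + 1) * t) = th (n * t) := by
    rw [← s1.tsum_sub s2]
    have e5 : ∀ k : ℕ, (((k + 1) / n : ℕ) : ℝ) * Kr (((k : ℝ) + 1) * t) - ((k / n : ℕ) : ℝ) * Kr (((k : ℝ) + 1) * t) =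
        if n ∣ k + 1 then Kr (((k : ℝ) + 1) * t) else 0 := by
      intro k
      rw [Nat.succ_div]
      split_ifs with hd
      · push_cast; ring
      · push_cast; ring
    simp only [e5]
    have hinj : Function.Injective (fun m : ℕ => n * (m + 1) - 1) := by
      intro m m' hm
      have h1 : 1 ≤ n * (m + 1) := Nat.mul_pos hn (Nat.succ_pos m)
      have h2 : 1 ≤ n * (m' + 1) := Nat.mul_pos hn (Nat.succ_pos m')
      have h3 : n * (m + 1) = n * (m' + 1) := by
        have : n * (m + 1) - 1 = n * (m' + 1) - 1 := hm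
        omega
      have h4 := Nat.eq_of_mul_eq_mul_left (by omega : 0 < n) h3
      omega
    rw [← hinj.tsum_eq (f := fun k : ℕ => if n ∣ k + 1 then Kr (((k : ℝ) + 1) * t) else 0)]
    · unfold th
      congr 1; funext m
      have h1 : 1 ≤ n * (m + 1) := Nat.mul_pos hn (Nat.succ_pos m)
      have h2 : n * (m + 1) - 1 + 1 = n * (m + 1) := by omega
      rw [h2, if_pos (Dvd.intro _ rfl)]
      congr 1
      have h3 : ((n * (m + 1) - 1 : ℕ) : ℝ) + 1 = (n : ℝ) * ((m : ℝ) + 1) := by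
        have : ((n * (m + 1) - 1 + 1 : ℕ) : ℝ) = ((n * (m + 1) : ℕ) : ℝ) := by rw [h2]
        push_cast at this
        linarith
      rw [h3]; ring
    · intro k hk
      have hk' : n ∣ k + 1 := by
        by_contra hcon
        simp [hcon] at hk
      obtain ⟨m, hm⟩ := hk'
      have hm0 : m ≠ 0 := by
        rintro rfl
        simp at hm
      refine ⟨m - 1, ?_⟩
      have : m - 1 + 1 = m := by omega
      simp only [this]
      omega
  rw [e4] at h
  have e6 : (fun k : ℕ => (((k + 1) / n : ℕ) : ℝ) * Dk k t) = fun k : ℕ =>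
      (((k + 1) / n : ℕ) : ℝ) * Kr (((k : ℝ) + 1) * t) - (((k + 1) / n : ℕ) : ℝ) * Kr (((k : ℝ) + 2) * t) := by
    funext k
    unfold Dk
    ring
  rw [e6]
  exact h

/-- the identity `Kr t = ∑ a n th (n t) + ∑ E (k+1) (Kr ((k+1) t) - Kr ((k+2) t))` -/
lemma star {t : ℝ} (ht : 0 < t) (a : ℕ → ℝ) (N : ℕ) :
    HasSum (fun k : ℕ => Er a N (k + 1) * Dk k t) (Kr t - ∑ n ∈ Finset.Icc 1 N, a n * th (n * t)) := by
  have h1 := sum_Dk ht
  have h2 : HasSum (fun k : ℕ => ∑ n ∈ Finset.Icc 1 N, a n * ((((k + 1) / n : ℕ) : ℝ) * Dk k t))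
      (∑ n ∈ Finset.Icc 1 N, a n * th (n * t)) :=
    hasSum_sum fun n hn => (sum_floor_Dk ht (Finset.mem_Icc.1 hn).1).mul_left (a n)
  have e : (fun k : ℕ => Er a N (k + 1) * Dk k t) =
      fun k : ℕ => Dk k t - ∑ n ∈ Finset.Icc 1 N, a n * ((((k + 1) / n : ℕ) : ℝ) * Dk k t) := by
    funext k
    unfold Er
    rw [sub_mul, one_mul, Finset.sum_mul]
    congr 1
    refine Finset.sum_congr rfl fun n _ => by ring
  rw [e]
  exact h1.sub h2

end

end Pool.Agent.N964.NB
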