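import Pool.Agent.N964.E4

/-! The key inequality at a zero of zeta. -/

set_option autoImplicit false

open Finset Filter Topology MeasureTheory

namespace Pool.Agent.N964.NB

noncomputable section

lemma mconv_Kr {s : ℂ} (hs : 0 < s.re) : MellinConvergent (fun t => (Kr t : ℂ)) s :=
  conv_of_exp continuous_Kr.continuousOn (fun t _ => Kr_exp t) hs

lemma mconv_th {s : ℂ} (hs : 0 < s.re) : MellinConvergent (fun t => (th t : ℂ)) s :=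
  conv_of_exp th_cont (fun _ ht => th_bound ht) hs

lemma mconv_thn {s : ℂ} (hs : 0 < s.re) {n : ℕ} (hn : 1 ≤ n) :
    IntegrableOn (fun t : ℝ => (t : ℂ) ^ (s - 1) • (th (n * t) : ℂ)) (Set.Ioi 0) := by
  have hn0 : (0:ℝ) < n := by exact_mod_cast hn
  exact (MellinConvergent.comp_mul_left (f := fun t => (th t : ℂ)) (s := s) hn0).2 (mconv_th hs)

lemma mellin_thn {ρ : ℂ} (hρ : riemannZeta ρ = 0) (h0 : 0 < ρ.re) {n : ℕ} (hn : 1 ≤ n) :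
    ∫ t : ℝ in Set.Ioi 0, (t : ℂ) ^ (ρ - 1) • (th (n * t) : ℂ) = 0 := by
  have hn0 : (0:ℝ) < n := by exact_mod_cast hn
  have := mellin_comp_mul_left (fun t => (th t : ℂ)) ρ hn0
  unfold mellin at this
  rw [this]
  have h := mth_zero hρ h0
  unfold mellin at h
  rw [h, smul_zero]

lemma split_int {f : ℝ → ℂ} (hf : IntegrableOn f (Set.Ioi 0)) {τ : ℝ} (hτ : 0 < τ) :
    ∫ t in Set.Ioi 0, f t = (∫ t in Set.Ioc 0 τ, f t) + ∫ t in Set.Ioi τ, f t := by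
  rw [← Set.Ioc_union_Ioi_eq_Ioi hτ.le] at hf ⊢
  exact setIntegral_union (Set.Ioc_disjoint_Ioi le_rfl) measurableSet_Ioi (hf.mono_set Set.subset_union_left)
    (hf.mono_set Set.subset_union_right)

lemma norm_cpow_sub_one {ρ : ℂ} {t : ℝ} (ht : 0 < t) : ‖(t : ℂ) ^ (ρ - 1)‖ = t ^ (ρ.re - 1) := by
  rw [Complex.norm_cpow_eq_rpow_re_of_pos ht, Complex.sub_re, Complex.one_re]

lemma rpow_int {b τ : ℝ} (hb : 0 < b) (hτ : 0 < τ) :
    IntegrableOn (fun t : ℝ => t ^ (b - 1)) (Set.Ioc 0 τ) ∧ ∫ t in Set.Ioc 0 τ, t ^ (b - 1) = τ ^ b / b := by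
  constructor
  · rw [← intervalIntegrable_iff_integrableOn_Ioc_of_le hτ.le]
    exact intervalIntegral.intervalIntegrable_rpow' (by linarith)
  · rw [← intervalIntegral.integral_of_le hτ.le, integral_rpow (Or.inl (by linarith))]
    simp only [sub_add_cancel]
    rw [Real.zero_rpow hb.ne', sub_zero]

/-- the first part of the integral for the kernel -/
lemma head_Kr {ρ : ℂ} (h0 : 0 < ρ.re) {τ : ℝ} (hτ : 0 < τ) (hτ1 : τ ≤ 1) :
    ‖∫ t : ℝ in Set.Ioc 0 τ, (t : ℂ) ^ (ρ - 1) • (Kr t : ℂ)‖ ≤ 5 * τ ^ 2 / ρ.re := by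
  obtain ⟨i1, i2⟩ := rpow_int h0 hτ
  have h1 : ‖∫ t : ℝ in Set.Ioc 0 τ, (t : ℂ) ^ (ρ - 1) • (Kr t : ℂ)‖ ≤
      ∫ t : ℝ in Set.Ioc 0 τ, 5 * τ ^ 2 * t ^ (ρ.re - 1) := by
    refine norm_integral_le_of_norm_le (i1.const_mul _) ?_
    refine (ae_restrict_iff' measurableSet_Ioc).2 (Eventually.of_forall fun t ht => ?_)
    rw [norm_smul, norm_cpow_sub_one ht.1, Complex.norm_real, Real.norm_eq_abs]
    have h2 := Kr_small t
    have h3 : 0 ≤ t ^ (ρ.re - 1) := Real.rpow_nonneg ht.1.le _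
    have h4 : t ^ 2 ≤ τ ^ 2 := by
      have := ht.1
      have := ht.2
      gcongr
    calc t ^ (ρ.re - 1) * |Kr t| ≤ t ^ (ρ.re - 1) * (5 * τ ^ 2) := by
          gcongr; linarith
      _ = _ := by ring
  refine h1.trans ?_
  rw [integral_const_mul, i2]
  have h5 : τ ^ ρ.re ≤ 1 := Real.rpow_le_one hτ.le hτ1 h0.le
  rw [mul_div_assoc']
  exact div_le_div_of_nonneg_right (mul_le_of_le_one_right (by positivity) h5) h0.le

lemma head_th {ρ : ℂ} (h0 : 0 < ρ.re) {τ : ℝ} (hτ : 0 < τ) (hτ1 : τ ≤ 1) {N n : ℕ} (hn : 1 ≤ n) (hnN : n ≤ N)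
    (hN : (N:ℝ) * τ ≤ 1) :
    ‖∫ t : ℝ in Set.Ioc 0 τ, (t : ℂ) ^ (ρ - 1) • (th (n * t) : ℂ)‖ ≤ 12 * Real.exp (-(1 / (N * τ))) / ρ.re := by
  obtain ⟨i1, i2⟩ := rpow_int h0 hτ
  have hn0 : (0:ℝ) < n := by exact_mod_cast hn
  have hnN' : (n:ℝ) ≤ N := by exact_mod_cast hnN
  have h1 : ‖∫ t : ℝ in Set.Ioc 0 τ, (t : ℂ) ^ (ρ - 1) • (th (n * t) : ℂ)‖ ≤
      ∫ t : ℝ in Set.Ioc 0 τ, 12 * Real.exp (-(1 / (N * τ))) * t ^ (ρ.re - 1) := by
    refine norm_integral_le_of_norm_le (i1.const_mul _) ?_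
    refine (ae_restrict_iff' measurableSet_Ioc).2 (Eventually.of_forall fun t ht => ?_)
    rw [norm_smul, norm_cpow_sub_one ht.1, Complex.norm_real, Real.norm_eq_abs]
    have ht0 : 0 < t := ht.1
    have hnt : (n:ℝ) * t ≤ N * τ := mul_le_mul hnN' ht.2 ht0.le (hn0.le.trans hnN')
    have h2 := th_small (t := n * t) (by positivity) (hnt.trans hN)
    have h3 : 0 ≤ t ^ (ρ.re - 1) := Real.rpow_nonneg ht.1.le _
    have h4 : Real.exp (-(1 / (n * t))) ≤ Real.exp (-(1 / (N * τ))) := by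
      refine Real.exp_le_exp.2 (neg_le_neg ?_)
      exact one_div_le_one_div_of_le (by positivity) hnt
    calc t ^ (ρ.re - 1) * |th (n * t)| ≤ t ^ (ρ.re - 1) * (12 * Real.exp (-(1 / (N * τ)))) := by
          gcongr; linarith
      _ = _ := by ring
  refine h1.trans ?_
  rw [integral_const_mul, i2]
  have h5 : τ ^ ρ.re ≤ 1 := Real.rpow_le_one hτ.le hτ1 h0.le
  rw [mul_div_assoc']
  exact div_le_div_of_nonneg_right (mul_le_of_le_one_right (by positivity) h5) h0.le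

/-- constant -/
def Cb (b : ℝ) : ℝ := CK * ((2:ℝ) ^ (b + 1) * Real.Gamma (b + 1))

lemma Cb_pos {b : ℝ} (hb : 0 < b) : 0 < Cb b :=
  mul_pos CK_pos (mul_pos (Real.rpow_pos_of_pos two_pos _) (Real.Gamma_pos_of_pos (by linarith)))

/-- the dominating function -/
lemma dom_int {b : ℝ} (hb : 0 < b) (k : ℕ) :
    IntegrableOn (fun t : ℝ => t ^ ((b + 1) - 1) * Real.exp (-((((k:ℝ) + 1) / 2) * t))) (Set.Ioi 0) := by
  by_contra hcon
  have h1 := Real.integral_rpow_mul_exp_neg_mul_Ioi (a := b + 1) (r := ((k:ℝ) + 1) / 2) (by linarith) (by positivity)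
  rw [integral_undef hcon] at h1
  have h2 : 0 < (1 / (((k:ℝ) + 1) / 2)) ^ (b + 1) * Real.Gamma (b + 1) :=
    mul_pos (Real.rpow_pos_of_pos (by positivity) _) (Real.Gamma_pos_of_pos (by linarith))
  linarith

lemma Dk_bound (k : ℕ) {t : ℝ} (ht : 0 < t) : |Dk k t| ≤ CK * Real.exp (-(((k:ℝ) + 1) * t)) * t := by
  unfold Dk
  rw [abs_sub_comm]
  have := Kr_diff (a := ((k:ℝ) + 1) * t) (b := ((k:ℝ) + 2) * t) (by positivity) (by nlinarith)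
  refine this.trans (le_of_eq ?_)
  ring

lemma Dk_cont (k : ℕ) : Continuous (Dk k) := by
  unfold Dk
  exact (continuous_Kr.comp (by fun_prop)).sub (continuous_Kr.comp (by fun_prop))

lemma term_bound {ρ : ℂ} {τ : ℝ} (hτ : 0 < τ) (k : ℕ) (e : ℝ) {t : ℝ} (ht : τ < t) :
    ‖(t : ℂ) ^ (ρ - 1) • ((e * Dk k t : ℝ) : ℂ)‖ ≤
      CK * |e| * Real.exp (-(((k:ℝ) + 1) * τ / 2)) *
        (t ^ ((ρ.re + 1) - 1) * Real.exp (-((((k:ℝ) + 1) / 2) * t))) := by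
  have ht0 : 0 < t := hτ.trans ht
  rw [norm_smul, norm_cpow_sub_one ht0, Complex.norm_real, Real.norm_eq_abs, abs_mul]
  have h1 := Dk_bound k ht0
  have h2 : t ^ ((ρ.re + 1) - 1) = t ^ (ρ.re - 1) * t := by
    rw [← Real.rpow_add_one ht0.ne']
    congr 1; ring
  have h3 : Real.exp (-(((k:ℝ) + 1) * t)) ≤ Real.exp (-(((k:ℝ) + 1) * τ / 2)) * Real.exp (-((((k:ℝ) + 1) / 2) * t)) := by
    rw [← Real.exp_add]
    refine Real.exp_le_exp.2 ?_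
    have : ((k:ℝ) + 1) * τ ≤ ((k:ℝ) + 1) * t := by gcongr
    linarith
  have h4 : 0 ≤ t ^ (ρ.re - 1) := Real.rpow_nonneg ht0.le _
  have hC := CK_pos
  rw [h2]
  calc t ^ (ρ.re - 1) * (|e| * |Dk k t|)
      ≤ t ^ (ρ.re - 1) * (|e| * (CK * (Real.exp (-(((k:ℝ) + 1) * τ / 2)) * Real.exp (-((((k:ℝ) + 1) / 2) * t))) * t)) := by
        gcongr
        refine h1.trans ?_
        gcongr
    _ = _ := by ring

/-- the key inequality -/
theorem key {ρ : ℂ} (hρ : riemannZeta ρ = 0) (h0 : 0 < ρ.re) (N : ℕ) (a : ℕ → ℝ)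
    {τ A : ℝ} (hτ : 0 < τ) (hτ1 : τ ≤ 1) (hN : (N:ℝ) * τ ≤ 1) (hA : ∀ k : ℕ, |Er a N (k + 1)| ≤ A * ((k:ℝ) + 1)) :
    ‖ka ρ‖ ≤ 5 * τ ^ 2 / ρ.re + 12 * Real.exp (-(1 / (N * τ))) / ρ.re * (∑ n ∈ Finset.Icc 1 N, |a n|) +
      Cb ρ.re * ∑' k : ℕ, |Er a N (k + 1)| * (((k:ℝ) + 1) ^ (-(ρ.re + 1)) * Real.exp (-(((k:ℝ) + 1) * τ / 2))) := by
  have hA0 : 0 ≤ A := by
    have := (abs_nonneg _).trans (hA 0)
    simpa using this
  have hI := mconv_Kr h0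
  -- splitting
  have hs1 : ka ρ = (∫ t : ℝ in Set.Ioc 0 τ, (t : ℂ) ^ (ρ - 1) • (Kr t : ℂ)) +
      ∫ t : ℝ in Set.Ioi τ, (t : ℂ) ^ (ρ - 1) • (Kr t : ℂ) := split_int hI hτ
  have hs2 : ∀ n ∈ Finset.Icc 1 N, ∫ t : ℝ in Set.Ioi τ, (t : ℂ) ^ (ρ - 1) • (th (n * t) : ℂ) =
      - ∫ t : ℝ in Set.Ioc 0 τ, (t : ℂ) ^ (ρ - 1) • (th (n * t) : ℂ) := by
    intro n hn
    have h1 := split_int (mconv_thn h0 (Finset.mem_Icc.1 hn).1) hτ
    rw [mellin_thn hρ h0 (Finset.mem_Icc.1 hn).1] at h1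
    linear_combination -h1
  -- the functions
  set F : ℕ → ℝ → ℂ := fun k t => (t : ℂ) ^ (ρ - 1) • ((Er a N (k + 1) * Dk k t : ℝ) : ℂ) with hF
  have hGi : ∀ k : ℕ, IntegrableOn (fun t : ℝ => CK * |Er a N (k + 1)| * Real.exp (-(((k:ℝ) + 1) * τ / 2)) *
        (t ^ ((ρ.re + 1) - 1) * Real.exp (-((((k:ℝ) + 1) / 2) * t)))) (Set.Ioi 0) :=
    fun k => (dom_int h0 k).const_mul _
  have hGi' := fun k : ℕ => (hGi k).mono_set (Set.Ioi_subset_Ioi hτ.le)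
  have hFi : ∀ k : ℕ, Integrable (F k) (volume.restrict (Set.Ioi τ)) := by
    intro k
    refine Integrable.mono' (hGi' k) ?_ ?_
    · refine ContinuousOn.aestronglyMeasurable ?_ measurableSet_Ioi
      simp only [hF, smul_eq_mul]
      refine ContinuousOn.mul ?_ ?_
      · intro t ht
        have ht' : (0:ℝ) < t := hτ.trans ht
        exact (Complex.continuousAt_ofReal_cpow_const t (ρ - 1) (Or.inr ht'.ne')).continuousWithinAt
      · exact (Complex.continuous_ofReal.comp (continuous_const.mul (Dk_cont k))).continuousOn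
    · exact (ae_restrict_iff' measurableSet_Ioi).2 (Eventually.of_forall fun t ht => term_bound hτ k _ ht)
  have hnorm : ∀ k : ℕ, ∫ t : ℝ in Set.Ioi τ, ‖F k t‖ ≤
      Cb ρ.re * (|Er a N (k + 1)| * (((k:ℝ) + 1) ^ (-(ρ.re + 1)) * Real.exp (-(((k:ℝ) + 1) * τ / 2)))) := by
    intro k
    have h1 : ∫ t : ℝ in Set.Ioi τ, ‖F k t‖ ≤ ∫ t : ℝ in Set.Ioi τ, CK * |Er a N (k + 1)| * Real.exp (-(((k:ℝ) + 1) * τ / 2)) *
        (t ^ ((ρ.re + 1) - 1) * Real.exp (-((((k:ℝ) + 1) / 2) * t))) :=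
      setIntegral_mono_on (hFi k).norm (hGi' k) measurableSet_Ioi (fun t ht => term_bound hτ k _ ht)
    have h2 : ∫ t : ℝ in Set.Ioi τ, CK * |Er a N (k + 1)| * Real.exp (-(((k:ℝ) + 1) * τ / 2)) *
        (t ^ ((ρ.re + 1) - 1) * Real.exp (-((((k:ℝ) + 1) / 2) * t))) ≤
        ∫ t : ℝ in Set.Ioi 0, CK * |Er a N (k + 1)| * Real.exp (-(((k:ℝ) + 1) * τ / 2)) *
        (t ^ ((ρ.re + 1) - 1) * Real.exp (-((((k:ℝ) + 1) / 2) * t))) := by
      refine setIntegral_mono_set (hGi k) ?_ (Set.Ioi_subset_Ioi hτ.le).eventuallyLE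
      refine (ae_restrict_iff' measurableSet_Ioi).2 (Eventually.of_forall fun t ht => ?_)
      have ht' : (0:ℝ) < t := ht
      have := CK_pos
      simp only [Pi.zero_apply]
      positivity
    refine (h1.trans h2).trans (le_of_eq ?_)
    rw [integral_const_mul, Real.integral_rpow_mul_exp_neg_mul_Ioi (a := ρ.re + 1) (r := ((k:ℝ) + 1) / 2)
      (by linarith) (by positivity)]
    have h3 : (1 / (((k:ℝ) + 1) / 2)) ^ (ρ.re + 1) = (2:ℝ) ^ (ρ.re + 1) * ((k:ℝ) + 1) ^ (-(ρ.re + 1)) := by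
      rw [one_div_div, Real.div_rpow (by norm_num) (by positivity), Real.rpow_neg (by positivity)]
      rfl
    rw [h3]
    unfold Cb
    ring
  have hsumG : Summable fun k : ℕ =>
      |Er a N (k + 1)| * (((k:ℝ) + 1) ^ (-(ρ.re + 1)) * Real.exp (-(((k:ℝ) + 1) * τ / 2))) := by
    refine Summable.of_nonneg_of_le (fun k => by positivity) (fun k => ?_)
      ((mul_geo_summable (t := τ / 2) (by positivity)).mul_left A)
    have h4 : ((k:ℝ) + 1) ^ (-(ρ.re + 1)) ≤ 1 :=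
      Real.rpow_le_one_of_one_le_of_nonpos (by have : (0:ℝ) ≤ k := Nat.cast_nonneg k; linarith) (by linarith)
    calc |Er a N (k + 1)| * (((k:ℝ) + 1) ^ (-(ρ.re + 1)) * Real.exp (-(((k:ℝ) + 1) * τ / 2)))
        ≤ (A * ((k:ℝ) + 1)) * (1 * Real.exp (-(((k:ℝ) + 1) * τ / 2))) := by
          gcongr
          exact hA k
      _ = A * (((k:ℝ) + 1) * Real.exp (-(((k:ℝ) + 1) * (τ / 2)))) := by
          rw [mul_div_assoc]; ring
  have hsumF : Summable fun k : ℕ => ∫ t : ℝ in Set.Ioi τ, ‖F k t‖ :=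
    Summable.of_nonneg_of_le (fun k => integral_nonneg fun t => norm_nonneg _) hnorm (hsumG.mul_left _)
  have hmain := hasSum_integral_of_summable_integral_norm hFi hsumF
  -- pointwise identity
  have hpt : ∀ t ∈ Set.Ioi τ, ∑' k : ℕ, F k t = (t : ℂ) ^ (ρ - 1) • (Kr t : ℂ) -
      ∑ n ∈ Finset.Icc 1 N, (a n : ℂ) * ((t : ℂ) ^ (ρ - 1) • (th (n * t) : ℂ)) := by
    intro t ht
    have ht' : (0:ℝ) < t := hτ.trans ht
    have h1 := (star ht' a N).tsum_eq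
    have h2 : ∑' k : ℕ, F k t = (t : ℂ) ^ (ρ - 1) * ((∑' k : ℕ, Er a N (k + 1) * Dk k t : ℝ) : ℂ) := by
      rw [Complex.ofReal_tsum, ← tsum_mul_left]
      rfl
    rw [h2, h1]
    simp only [smul_eq_mul]
    push_cast
    rw [mul_sub, Finset.mul_sum]
    congr 1
    refine Finset.sum_congr rfl fun n _ => by ring
  have hInt : ∫ t : ℝ in Set.Ioi τ, ∑' k : ℕ, F k t = (∫ t : ℝ in Set.Ioi τ, (t : ℂ) ^ (ρ - 1) • (Kr t : ℂ)) -
      ∑ n ∈ Finset.Icc 1 N, (a n : ℂ) * ∫ t : ℝ in Set.Ioi τ, (t : ℂ) ^ (ρ - 1) • (th (n * t) : ℂ) := by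
    rw [setIntegral_congr_fun measurableSet_Ioi hpt, integral_sub, integral_finsetSum]
    · congr 1
      refine Finset.sum_congr rfl fun n _ => ?_
      rw [integral_const_mul]
    · intro n hn
      exact ((mconv_thn h0 (Finset.mem_Icc.1 hn).1).mono_set (Set.Ioi_subset_Ioi hτ.le)).const_mul _
    · exact hI.mono_set (Set.Ioi_subset_Ioi hτ.le)
    · refine integrable_finsetSum _ fun n hn => ?_
      exact ((mconv_thn h0 (Finset.mem_Icc.1 hn).1).mono_set (Set.Ioi_subset_Ioi hτ.le)).const_mul _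
  have hfinal : ka ρ = (∫ t : ℝ in Set.Ioc 0 τ, (t : ℂ) ^ (ρ - 1) • (Kr t : ℂ)) -
      (∑ n ∈ Finset.Icc 1 N, (a n : ℂ) * ∫ t : ℝ in Set.Ioc 0 τ, (t : ℂ) ^ (ρ - 1) • (th (n * t) : ℂ)) +
      ∑' k : ℕ, ∫ t : ℝ in Set.Ioi τ, F k t := by
    rw [hmain.tsum_eq, hInt, hs1]
    have : ∑ n ∈ Finset.Icc 1 N, (a n : ℂ) * ∫ t : ℝ in Set.Ioi τ, (t : ℂ) ^ (ρ - 1) • (th (n * t) : ℂ) =
        - ∑ n ∈ Finset.Icc 1 N, (a n : ℂ) * ∫ t : ℝ in Set.Ioc 0 τ, (t : ℂ) ^ (ρ - 1) • (th (n * t) : ℂ) := by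
      rw [← Finset.sum_neg_distrib]
      refine Finset.sum_congr rfl fun n hn => ?_
      rw [hs2 n hn]; ring
    rw [this]; ring
  rw [hfinal]
  have e1 := head_Kr h0 hτ hτ1 (ρ := ρ)
  have e2 : ‖∑ n ∈ Finset.Icc 1 N, (a n : ℂ) * ∫ t : ℝ in Set.Ioc 0 τ, (t : ℂ) ^ (ρ - 1) • (th (n * t) : ℂ)‖ ≤
      12 * Real.exp (-(1 / (N * τ))) / ρ.re * (∑ n ∈ Finset.Icc 1 N, |a n|) := by
    rw [Finset.mul_sum]
    refine (norm_sum_le _ _).trans (Finset.sum_le_sum fun n hn => ?_)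
    rw [norm_mul, Complex.norm_real, Real.norm_eq_abs, mul_comm]
    gcongr
    exact head_th h0 hτ hτ1 (Finset.mem_Icc.1 hn).1 (Finset.mem_Icc.1 hn).2 hN
  have e3 : ‖∑' k : ℕ, ∫ t : ℝ in Set.Ioi τ, F k t‖ ≤ Cb ρ.re * ∑' k : ℕ,
      |Er a N (k + 1)| * (((k:ℝ) + 1) ^ (-(ρ.re + 1)) * Real.exp (-(((k:ℝ) + 1) * τ / 2))) := by
    rw [← tsum_mul_left]
    have hsn : Summable fun k : ℕ => ‖∫ t : ℝ in Set.Ioi τ, F k t‖ :=
      Summable.of_nonneg_of_le (fun k => norm_nonneg _) (fun k => norm_integral_le_integral_norm _) hsumF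
    refine (norm_tsum_le_tsum_norm hsn).trans ?_
    exact hsn.tsum_le_tsum (fun k => (norm_integral_le_integral_norm _).trans (hnorm k)) (hsumG.mul_left _)
  calc ‖(∫ t : ℝ in Set.Ioc 0 τ, (t : ℂ) ^ (ρ - 1) • (Kr t : ℂ)) -
      (∑ n ∈ Finset.Icc 1 N, (a n : ℂ) * ∫ t : ℝ in Set.Ioc 0 τ, (t : ℂ) ^ (ρ - 1) • (th (n * t) : ℂ)) +
      ∑' k : ℕ, ∫ t : ℝ in Set.Ioi τ, F k t‖ ≤ ‖(∫ t : ℝ in Set.Ioc 0 τ, (t : ℂ) ^ (ρ - 1) • (Kr t : ℂ)) -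
      (∑ n ∈ Finset.Icc 1 N, (a n : ℂ) * ∫ t : ℝ in Set.Ioc 0 τ, (t : ℂ) ^ (ρ - 1) • (th (n * t) : ℂ))‖ +
      ‖∑' k : ℕ, ∫ t : ℝ in Set.Ioi τ, F k t‖ := norm_add_le _ _
    _ ≤ (‖(∫ t : ℝ in Set.Ioc 0 τ, (t : ℂ) ^ (ρ - 1) • (Kr t : ℂ))‖ +
      ‖(∑ n ∈ Finset.Icc 1 N, (a n : ℂ) * ∫ t : ℝ in Set.Ioc 0 τ, (t : ℂ) ^ (ρ - 1) • (th (n * t) : ℂ))‖) +
      ‖∑' k : ℕ, ∫ t : ℝ in Set.Ioi τ, F k t‖ := by gcongr; exact norm_sub_le _ _
    _ ≤ _ := by gcongr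

end

end Pool.Agent.N964.NB
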