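import Pool.Agent.N964.E5

/-! Bounds for the coefficients and the lower bound. -/

set_option autoImplicit false

open Finset Filter Topology MeasureTheory

namespace Pool.Agent.N964.NB

noncomputable section

lemma Er_zero (a : ℕ → ℝ) (N : ℕ) : Er a N 0 = 1 := by
  unfold Er
  simp

lemma Er_diff (a : ℕ → ℝ) (N : ℕ) {m : ℕ} (hm : 0 < m) (hmN : m ≤ N) :
    ∑ d ∈ m.divisors, a d = Er a N (m - 1) - Er a N m := by
  obtain ⟨k, rfl⟩ : ∃ k, m = k + 1 := ⟨m - 1, by omega⟩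
  unfold Er
  rw [Nat.add_sub_cancel]
  have e1 : ∀ n ∈ Finset.Icc 1 N, a n * (((k + 1) / n : ℕ) : ℝ) - a n * ((k / n : ℕ) : ℝ) =
      if n ∣ k + 1 then a n else 0 := by
    intro n _
    rw [Nat.succ_div]
    split_ifs with hd
    · push_cast; ring
    · push_cast; ring
  have e2 : (1 - ∑ n ∈ Finset.Icc 1 N, a n * ((k / n : ℕ) : ℝ)) - (1 - ∑ n ∈ Finset.Icc 1 N, a n * (((k + 1) / n : ℕ) : ℝ))
      = ∑ n ∈ Finset.Icc 1 N, if n ∣ k + 1 then a n else 0 := by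
    rw [← Finset.sum_congr rfl e1, Finset.sum_sub_distrib]
    ring
  rw [e2, ← Finset.sum_filter]
  refine Finset.sum_congr ?_ fun _ _ => rfl
  ext d
  simp only [Nat.mem_divisors, Finset.mem_filter, Finset.mem_Icc]
  constructor
  · rintro ⟨h1, h2⟩
    exact ⟨⟨Nat.pos_of_dvd_of_pos h1 hm, (Nat.le_of_dvd hm h1).trans hmN⟩, h1⟩
  · rintro ⟨_, h2⟩
    exact ⟨h2, by omega⟩

lemma coeff_bound (a : ℕ → ℝ) (N : ℕ) {B : ℝ} (hB : ∀ k ≤ N, |Er a N k| ≤ B) {n : ℕ} (hn : 1 ≤ n) (hnN : n ≤ N) :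
    |a n| ≤ n * (2 * B) := by
  have hB0 : 0 ≤ B := (abs_nonneg _).trans (hB 0 (Nat.zero_le _))
  have h := (ArithmeticFunction.sum_eq_iff_sum_mul_moebius_eq_on (R := ℝ) (f := a)
    (g := fun m => Er a N (m - 1) - Er a N m) {m | 0 < m ∧ m ≤ N} (fun m k hmk hk =>
      ⟨Nat.pos_of_dvd_of_pos hmk hk.1, (Nat.le_of_dvd hk.1 hmk).trans hk.2⟩)).1
      (fun m hm hmN => Er_diff a N hm hmN.2) n hn ⟨hn, hnN⟩
  rw [← h]
  refine (Finset.abs_sum_le_sum_abs _ _).trans ?_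
  have h2 : ∀ x ∈ n.divisorsAntidiagonal, |((ArithmeticFunction.moebius x.1 : ℤ) : ℝ) * (Er a N (x.2 - 1) - Er a N x.2)| ≤ 2 * B := by
    intro x hx
    have hx2 : x.2 ∣ n := (Nat.mem_divisorsAntidiagonal.1 hx).1 ▸ Dvd.intro_left _ rfl
    have hle : x.2 ≤ N := (Nat.le_of_dvd hn hx2).trans hnN
    rw [abs_mul]
    have h3 : |((ArithmeticFunction.moebius x.1 : ℤ) : ℝ)| ≤ 1 := by
      exact_mod_cast ArithmeticFunction.abs_moebius_le_one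
    have h4 : |Er a N (x.2 - 1) - Er a N x.2| ≤ 2 * B := by
      refine (abs_sub _ _).trans ?_
      have := hB (x.2 - 1) (by omega)
      have := hB x.2 hle
      linarith
    calc _ ≤ 1 * (2 * B) := by gcongr
      _ = 2 * B := one_mul _
  refine (Finset.sum_le_sum h2).trans ?_
  rw [Finset.sum_const, nsmul_eq_mul]
  have h5 : (n.divisorsAntidiagonal.card : ℝ) ≤ n := by
    have h6 : n.divisorsAntidiagonal.card = n.divisors.card := by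
      rw [← Nat.map_div_right_divisors, Finset.card_map]
    rw [h6]
    exact_mod_cast Nat.card_divisors_le_self n
  gcongr

/-- the weighted `l^p` error -/
def Qf (p σ : ℝ) (a : ℕ → ℝ) (N K : ℕ) : ℝ :=
  ∑ k ∈ Finset.Icc 1 K, |Er a N k| ^ p / (k : ℝ) ^ (p * σ + 1)

lemma Qf_nonneg (p σ : ℝ) (a : ℕ → ℝ) (N K : ℕ) : 0 ≤ Qf p σ a N K :=
  Finset.sum_nonneg fun _ _ => by positivity

lemma Qf_mono (p σ : ℝ) (a : ℕ → ℝ) (N : ℕ) {K K' : ℕ} (h : K ≤ K') : Qf p σ a N K ≤ Qf p σ a N K' :=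
  Finset.sum_le_sum_of_subset_of_nonneg (Finset.Icc_subset_Icc_right h) fun _ _ _ => by positivity

/-- from `Q ≤ 1` to pointwise bounds -/
lemma pt_bound {p σ : ℝ} (hp : 1 ≤ p) (hσ : 0 < σ) {a : ℕ → ℝ} {N K : ℕ} (hK : N ≤ K) (hN : 1 ≤ N)
    (hQ : Qf p σ a N K ≤ 1) {k : ℕ} (hk : k ≤ N) : |Er a N k| ≤ (N : ℝ) ^ (σ + 1) := by
  have hN' : (1:ℝ) ≤ N := by exact_mod_cast hN
  rcases Nat.eq_zero_or_pos k with rfl | hk0
  · rw [Er_zero, abs_one]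
    exact Real.one_le_rpow hN' (by linarith)
  · have hk0' : (0:ℝ) < k := by exact_mod_cast hk0
    have hk1 : (1:ℝ) ≤ k := by exact_mod_cast hk0
    have hkN : (k:ℝ) ≤ N := by exact_mod_cast hk
    have h1 : |Er a N k| ^ p / (k : ℝ) ^ (p * σ + 1) ≤ 1 := by
      refine le_trans ?_ hQ
      exact Finset.single_le_sum (f := fun k : ℕ => |Er a N k| ^ p / (k : ℝ) ^ (p * σ + 1))
        (fun i _ => by positivity) (Finset.mem_Icc.2 ⟨hk0, hk.trans hK⟩)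
    rw [div_le_one (by positivity)] at h1
    have hp0 : 0 < p := by linarith
    have h2 : |Er a N k| ^ p ≤ ((k:ℝ) ^ (σ + 1)) ^ p := by
      refine h1.trans ?_
      rw [← Real.rpow_mul hk0'.le]
      refine Real.rpow_le_rpow_of_exponent_le hk1 ?_
      nlinarith
    have h3 : |Er a N k| ≤ (k:ℝ) ^ (σ + 1) := (Real.rpow_le_rpow_iff (abs_nonneg _) (by positivity) hp0).1 h2
    exact h3.trans (Real.rpow_le_rpow hk0'.le hkN (by linarith))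

lemma abs_sum_bound {p σ : ℝ} (hp : 1 ≤ p) (hσ : 0 < σ) {a : ℕ → ℝ} {N K : ℕ} (hK : N ≤ K) (hN : 1 ≤ N)
    (hQ : Qf p σ a N K ≤ 1) : ∑ n ∈ Finset.Icc 1 N, |a n| ≤ 2 * (N : ℝ) ^ (σ + 3) := by
  have hN' : (1:ℝ) ≤ N := by exact_mod_cast hN
  have h1 : ∀ n ∈ Finset.Icc 1 N, |a n| ≤ (N:ℝ) * (2 * (N : ℝ) ^ (σ + 1)) := by
    intro n hn
    rw [Finset.mem_Icc] at hn
    refine (coeff_bound a N (fun k hk => pt_bound hp hσ hK hN hQ hk) hn.1 hn.2).trans ?_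
    have : (n:ℝ) ≤ N := by exact_mod_cast hn.2
    gcongr
  refine (Finset.sum_le_sum h1).trans (le_of_eq ?_)
  rw [Finset.sum_const, nsmul_eq_mul, Nat.card_Icc, Nat.add_sub_cancel]
  have e : (N:ℝ) ^ (σ + 3) = (N:ℝ) ^ (σ + 1) * N ^ 2 := by
    rw [← Real.rpow_natCast (N:ℝ) 2, ← Real.rpow_add (by linarith)]
    congr 1; push_cast; ring
  rw [e]; ring

/-- the linear growth of the error -/
lemma lin_growth (a : ℕ → ℝ) (N k : ℕ) : |Er a N k| ≤ 1 + k * ∑ n ∈ Finset.Icc 1 N, |a n| := by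
  unfold Er
  refine (abs_sub _ _).trans ?_
  rw [abs_one, Finset.mul_sum]
  gcongr
  refine (Finset.abs_sum_le_sum_abs _ _).trans (Finset.sum_le_sum fun n _ => ?_)
  rw [abs_mul, mul_comm, abs_of_nonneg (Nat.cast_nonneg _ : (0:ℝ) ≤ ((k / n : ℕ) : ℝ))]
  gcongr
  exact Nat.div_le_self k n

lemma holder_part {p σ β : ℝ} (hp : 1 ≤ p) (a : ℕ → ℝ) (N K : ℕ) (hK : 1 ≤ K) :
    ∑ k ∈ Finset.Icc 1 K, |Er a N k| * (k : ℝ) ^ (-(β + 1)) ≤
      (K : ℝ) ^ (max (σ - β) 0) * (1 + Real.log K) * (Qf p σ a N K) ^ (p⁻¹) := by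
  have hK' : (1:ℝ) ≤ K := by exact_mod_cast hK
  have hp0 : 0 < p := by linarith
  have h1 : ∀ k ∈ Finset.Icc 1 K, |Er a N k| * (k : ℝ) ^ (-(β + 1)) ≤
      (K : ℝ) ^ (max (σ - β) 0) * (((k:ℝ)⁻¹) * (|Er a N k| * (k:ℝ) ^ (-σ))) := by
    intro k hk
    rw [Finset.mem_Icc] at hk
    have hk0 : (0:ℝ) < k := by exact_mod_cast hk.1
    have hk1 : (1:ℝ) ≤ k := by exact_mod_cast hk.1
    have hkK : (k:ℝ) ≤ K := by exact_mod_cast hk.2
    have e : (k : ℝ) ^ (-(β + 1)) = (k:ℝ) ^ (σ - β) * ((k:ℝ)⁻¹ * (k:ℝ) ^ (-σ)) := by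
      rw [← Real.rpow_neg_one, ← Real.rpow_add hk0, ← Real.rpow_add hk0]
      congr 1; ring
    have h2 : (k:ℝ) ^ (σ - β) ≤ (K : ℝ) ^ (max (σ - β) 0) :=
      (Real.rpow_le_rpow_of_exponent_le hk1 (le_max_left _ _)).trans
        (Real.rpow_le_rpow hk0.le hkK (le_max_right _ _))
    rw [e]
    calc |Er a N k| * ((k:ℝ) ^ (σ - β) * ((k:ℝ)⁻¹ * (k:ℝ) ^ (-σ)))
        ≤ |Er a N k| * ((K : ℝ) ^ (max (σ - β) 0) * ((k:ℝ)⁻¹ * (k:ℝ) ^ (-σ))) := by gcongr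
      _ = _ := by ring
  refine (Finset.sum_le_sum h1).trans ?_
  rw [← Finset.mul_sum, mul_assoc]
  refine mul_le_mul_of_nonneg_left ?_ (by positivity)
  have h3 := Real.inner_le_weight_mul_Lp_of_nonneg (Finset.Icc 1 K) hp (fun k : ℕ => (k:ℝ)⁻¹)
    (fun k : ℕ => |Er a N k| * (k:ℝ) ^ (-σ)) (fun k => by positivity) (fun k => by positivity)
  refine h3.trans ?_
  have h4 : (∑ k ∈ Finset.Icc 1 K, ((k:ℝ)⁻¹)) ≤ 1 + Real.log K := by
    have := harmonic_le_one_add_log K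
    rw [harmonic_eq_sum_Icc] at this
    push_cast at this
    exact this
  have h5 : 1 ≤ (∑ k ∈ Finset.Icc 1 K, ((k:ℝ)⁻¹)) := by
    have := Finset.single_le_sum (f := fun k : ℕ => ((k:ℝ)⁻¹)) (s := Finset.Icc 1 K) (fun i _ => by positivity)
      (Finset.mem_Icc.2 ⟨le_refl 1, hK⟩)
    simpa using this
  have h6 : (∑ k ∈ Finset.Icc 1 K, ((k:ℝ)⁻¹)) ^ (1 - p⁻¹) ≤ 1 + Real.log K := by
    refine le_trans ?_ h4
    calc (∑ k ∈ Finset.Icc 1 K, ((k:ℝ)⁻¹)) ^ (1 - p⁻¹) ≤ (∑ k ∈ Finset.Icc 1 K, ((k:ℝ)⁻¹)) ^ (1:ℝ) := by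
          refine Real.rpow_le_rpow_of_exponent_le h5 ?_
          have : 0 < p⁻¹ := by positivity
          linarith
      _ = _ := Real.rpow_one _
  have h7 : ∑ k ∈ Finset.Icc 1 K, (k:ℝ)⁻¹ * (|Er a N k| * (k:ℝ) ^ (-σ)) ^ p = Qf p σ a N K := by
    unfold Qf
    refine Finset.sum_congr rfl fun k hk => ?_
    rw [Finset.mem_Icc] at hk
    have hk0 : (0:ℝ) < k := by exact_mod_cast hk.1
    rw [Real.mul_rpow (abs_nonneg _) (by positivity), ← Real.rpow_mul hk0.le, Real.rpow_add hk0, Real.rpow_one]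
    have : (k:ℝ) ^ (-σ * p) = ((k:ℝ) ^ (p * σ))⁻¹ := by
      rw [← Real.rpow_neg hk0.le]
      congr 1; ring
    rw [this]
    field_simp
  rw [h7]
  have : 0 ≤ (Qf p σ a N K) ^ (p⁻¹) := Real.rpow_nonneg (Qf_nonneg _ _ _ _ _) _
  gcongr

end

end Pool.Agent.N964.NB
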