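import Pool.Agent.N964.E6

/-! The lower bound. -/

set_option autoImplicit false

open Finset Filter Topology MeasureTheory

namespace Pool.Agent.N964.NB

noncomputable section

lemma tsum_exp_le {x : ℝ} (hx : 0 < x) : ∑' k : ℕ, Real.exp (-(((k:ℝ) + 1) * x)) ≤ 1 / x := by
  have hg := geo_lt hx
  have e : ∑' k : ℕ, Real.exp (-(((k:ℝ) + 1) * x)) = Real.exp (-x) * (1 - Real.exp (-x))⁻¹ := by
    rw [← tsum_geometric_of_lt_one (Real.exp_pos (-x)).le hg, ← tsum_mul_left]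
    congr 1; funext m
    rw [← Real.exp_nat_mul, ← Real.exp_add]
    congr 1; ring
  rw [e, ← div_eq_mul_inv, div_le_div_iff₀ (by linarith) hx, one_mul]
  have h1 : x + 1 ≤ Real.exp x := Real.add_one_le_exp x
  have h2 : Real.exp (-x) * Real.exp x = 1 := by rw [← Real.exp_add]; simp
  have h3 := Real.exp_pos (-x)
  nlinarith

lemma sum_Icc_range {f : ℕ → ℝ} (K : ℕ) : ∑ k ∈ Finset.range K, f (k + 1) = ∑ k ∈ Finset.Icc 1 K, f k := by
  rw [Finset.range_eq_Ico, Finset.sum_Ico_add' f 0 K 1]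
  rfl

lemma sum_split {β τ A : ℝ} (hβ : 0 < β) (hτ : 0 < τ) (c : ℕ → ℝ) (hA : ∀ k : ℕ, |c (k + 1)| ≤ A * ((k:ℝ) + 1)) (K : ℕ) :
    ∑' k : ℕ, |c (k + 1)| * (((k:ℝ) + 1) ^ (-(β + 1)) * Real.exp (-(((k:ℝ) + 1) * τ / 2))) ≤
      ∑ k ∈ Finset.Icc 1 K, |c k| * (k:ℝ) ^ (-(β + 1)) + A * (Real.exp (-(K * τ / 2)) * (2 / τ)) := by
  have hA0 : 0 ≤ A := by
    have := (abs_nonneg _).trans (hA 0)
    simpa using this
  have hb : ∀ k : ℕ, |c (k + 1)| * (((k:ℝ) + 1) ^ (-(β + 1)) * Real.exp (-(((k:ℝ) + 1) * τ / 2))) ≤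
      A * Real.exp (-(((k:ℝ) + 1) * (τ / 2))) := by
    intro k
    have hk1 : (1:ℝ) ≤ (k:ℝ) + 1 := by have : (0:ℝ) ≤ k := Nat.cast_nonneg k; linarith
    have h4 : ((k:ℝ) + 1) * ((k:ℝ) + 1) ^ (-(β + 1)) ≤ 1 := by
      have : ((k:ℝ) + 1) * ((k:ℝ) + 1) ^ (-(β + 1)) = ((k:ℝ) + 1) ^ (-β) := by
        rw [mul_comm, ← Real.rpow_add_one (by positivity)]
        congr 1; ring
      rw [this]
      exact Real.rpow_le_one_of_one_le_of_nonpos hk1 (by linarith)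
    calc |c (k + 1)| * (((k:ℝ) + 1) ^ (-(β + 1)) * Real.exp (-(((k:ℝ) + 1) * τ / 2)))
        ≤ (A * ((k:ℝ) + 1)) * (((k:ℝ) + 1) ^ (-(β + 1)) * Real.exp (-(((k:ℝ) + 1) * τ / 2))) := by
          gcongr
          exact hA k
      _ = A * (((k:ℝ) + 1) * ((k:ℝ) + 1) ^ (-(β + 1))) * Real.exp (-(((k:ℝ) + 1) * τ / 2)) := by ring
      _ ≤ A * 1 * Real.exp (-(((k:ℝ) + 1) * τ / 2)) := by gcongr
      _ = _ := by rw [mul_one, mul_div_assoc]
  have hs : Summable fun k : ℕ => |c (k + 1)| * (((k:ℝ) + 1) ^ (-(β + 1)) * Real.exp (-(((k:ℝ) + 1) * τ / 2))) :=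
    Summable.of_nonneg_of_le (fun k => by positivity) hb ((geo_summable (by positivity)).mul_left A)
  rw [← hs.sum_add_tsum_nat_add K]
  refine add_le_add ?_ ?_
  · rw [← sum_Icc_range (f := fun k : ℕ => |c k| * (k:ℝ) ^ (-(β + 1)))]
    refine Finset.sum_le_sum fun k _ => ?_
    push_cast
    have h1 : Real.exp (-(((k:ℝ) + 1) * τ / 2)) ≤ 1 := Real.exp_le_one_iff.2 (by
      have : 0 ≤ ((k:ℝ) + 1) * τ / 2 := by positivity
      linarith)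
    have h2 : 0 ≤ ((k:ℝ) + 1) ^ (-(β + 1)) := by positivity
    calc |c (k + 1)| * (((k:ℝ) + 1) ^ (-(β + 1)) * Real.exp (-(((k:ℝ) + 1) * τ / 2)))
        ≤ |c (k + 1)| * (((k:ℝ) + 1) ^ (-(β + 1)) * 1) := by gcongr
      _ = _ := by rw [mul_one]
  · have h1 : ∀ k : ℕ, |c (k + K + 1)| * (((k + K : ℕ) : ℝ) + 1) ^ (-(β + 1)) * Real.exp (-((((k + K : ℕ) : ℝ) + 1) * τ / 2)) ≤
        A * Real.exp (-(K * τ / 2)) * Real.exp (-(((k:ℝ) + 1) * (τ / 2))) := by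
      intro k
      have := hb (k + K)
      rw [← mul_assoc] at this
      refine this.trans (le_of_eq ?_)
      rw [mul_assoc, ← Real.exp_add]
      congr 2
      push_cast
      ring
    have hs2 := (summable_nat_add_iff K).2 hs
    have hs3 : Summable fun k : ℕ => A * Real.exp (-(K * τ / 2)) * Real.exp (-(((k:ℝ) + 1) * (τ / 2))) :=
      (geo_summable (by positivity)).mul_left _
    have h2 := hs2.tsum_le_tsum (fun k => by
      have := h1 k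
      rw [← mul_assoc]
      exact this) hs3
    refine h2.trans ?_
    rw [tsum_mul_left, mul_assoc]
    have h3 := tsum_exp_le (x := τ / 2) (by positivity)
    have e : 1 / (τ / 2) = 2 / τ := by rw [one_div_div]
    rw [e] at h3
    gcongr

/-- the inequality for large `N` -/
theorem low1 {ρ : ℂ} (hρ : riemannZeta ρ = 0) (h0 : 0 < ρ.re) {p σ : ℝ} (hp : 1 ≤ p) (hσ : 0 < σ) :
    ∃ C1 : ℝ, 0 < C1 ∧ ∀ᶠ N : ℕ in atTop, ∀ K : ℕ, (N:ℝ) * Real.log N ^ 3 ≤ K → ∀ a : ℕ → ℝ, Qf p σ a N K ≤ 1 →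
      ‖ka ρ‖ ≤ C1 / N + Cb ρ.re * (((N:ℝ) * Real.log N ^ 3) ^ (max (σ - ρ.re) 0) *
        (1 + Real.log ((N:ℝ) * Real.log N ^ 3)) * (Qf p σ a N K) ^ (p⁻¹)) := by
  set L : ℝ := σ + 5 with hL
  have hL0 : 0 < L := by linarith
  have hCb := Cb_pos h0
  refine ⟨5 / ρ.re + 24 / ρ.re + 12 * L * Cb ρ.re, by positivity, ?_⟩
  have t1 : Tendsto (fun N : ℕ => Real.log N) atTop atTop := Real.tendsto_log_atTop.comp tendsto_natCast_atTop_atTop
  filter_upwards [t1.eventually_ge_atTop (max 1 (2 * L * (σ + 6))), eventually_ge_atTop 1] with N hy hN1 K hK a hQ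
  set y : ℝ := Real.log N with hydef
  have hy1 : 1 ≤ y := (le_max_left _ _).trans hy
  have hy2 : 2 * L * (σ + 6) ≤ y := (le_max_right _ _).trans hy
  have hN1' : (1:ℝ) ≤ N := by exact_mod_cast hN1
  have hN0 : (0:ℝ) < N := by linarith
  have hyN : y ≤ N := by
    have := Real.log_le_sub_one_of_pos hN0
    rw [← hydef] at this; linarith
  have hy0 : 0 < y := by linarith
  set τ : ℝ := 1 / (L * N * y) with hτdef
  have hτ : 0 < τ := by positivity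
  have hL5 : 5 ≤ L := by linarith
  have hLN : (N:ℝ) ≤ L * N * y := by
    have : (1:ℝ) ≤ L * y := by nlinarith
    nlinarith
  have hτN : τ ≤ 1 / N := one_div_le_one_div_of_le hN0 hLN
  have h1N : 1 / (N:ℝ) ≤ 1 := by rw [div_le_one hN0]; exact hN1'
  have hτ1 : τ ≤ 1 := hτN.trans h1N
  have hNτ : (N:ℝ) * τ = 1 / (L * y) := by
    rw [hτdef]; field_simp
  have hNτ1 : (N:ℝ) * τ ≤ 1 := by
    rw [hNτ, div_le_one (by positivity)]
    nlinarith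
  -- K
  set K0 : ℕ := ⌊(N:ℝ) * y ^ 3⌋₊ with hK0
  have hx0 : (1:ℝ) ≤ (N:ℝ) * y ^ 3 := by
    have : (1:ℝ) ≤ y ^ 3 := one_le_pow₀ hy1
    nlinarith
  have hK0K : K0 ≤ K := Nat.floor_le_of_le hK
  have hNK0 : N ≤ K0 := by
    rw [hK0]
    refine Nat.le_floor ?_
    have : (1:ℝ) ≤ y ^ 3 := one_le_pow₀ hy1
    nlinarith
  have hK0le : (K0:ℝ) ≤ (N:ℝ) * y ^ 3 := Nat.floor_le (by positivity)
  have hK0ge : (N:ℝ) * y ^ 3 < K0 + 1 := Nat.lt_floor_add_one _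
  have hK01 : 1 ≤ K0 := hN1.trans hNK0
  have hK01' : (1:ℝ) ≤ K0 := by exact_mod_cast hK01
  have hQ0 : Qf p σ a N K0 ≤ Qf p σ a N K := Qf_mono p σ a N hK0K
  have hsum := abs_sum_bound hp hσ hNK0 hN1 (hQ0.trans hQ)
  set Sa : ℝ := ∑ n ∈ Finset.Icc 1 N, |a n| with hSa
  have hSa0 : 0 ≤ Sa := Finset.sum_nonneg fun _ _ => abs_nonneg _
  have hA : ∀ k : ℕ, |Er a N (k + 1)| ≤ (1 + Sa) * ((k:ℝ) + 1) := by
    intro k
    refine (lin_growth a N (k + 1)).trans ?_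
    push_cast
    have : (0:ℝ) ≤ k := Nat.cast_nonneg k
    nlinarith
  have hkey := key hρ h0 N a hτ hτ1 hNτ1 hA
  have hsp := sum_split h0 hτ (fun k => Er a N k) hA K0
  have hho := holder_part (σ := σ) (β := ρ.re) hp a N K0 hK01
  have hNs : 1 ≤ (N:ℝ) ^ (σ + 3) := Real.one_le_rpow hN1' (by linarith)
  -- first terms
  have T1 : 5 * τ ^ 2 / ρ.re ≤ 5 / ρ.re / N := by
    have : τ ^ 2 ≤ 1 / N := by nlinarith
    calc 5 * τ ^ 2 / ρ.re ≤ 5 * (1 / N) / ρ.re := by gcongr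
      _ = 5 / ρ.re / N := by field_simp
  have hexp : Real.exp (-(1 / (N * τ))) = (N:ℝ) ^ (-L) := by
    rw [hNτ, one_div_one_div, Real.rpow_def_of_pos hN0, ← hydef]
    congr 1; ring
  have T2 : 12 * Real.exp (-(1 / (N * τ))) / ρ.re * Sa ≤ 24 / ρ.re / N := by
    rw [hexp]
    have h1 : (N:ℝ) ^ (-L) * (N:ℝ) ^ (σ + 3) ≤ 1 / N := by
      rw [← Real.rpow_add hN0, one_div, ← Real.rpow_neg_one]
      refine Real.rpow_le_rpow_of_exponent_le hN1' ?_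
      rw [hL]; linarith
    have h2 : 0 ≤ (N:ℝ) ^ (-L) := by positivity
    calc 12 * (N:ℝ) ^ (-L) / ρ.re * Sa ≤ 12 * (N:ℝ) ^ (-L) / ρ.re * (2 * (N:ℝ) ^ (σ + 3)) := by gcongr
      _ = 24 / ρ.re * ((N:ℝ) ^ (-L) * (N:ℝ) ^ (σ + 3)) := by ring
      _ ≤ 24 / ρ.re * (1 / N) := by gcongr
      _ = 24 / ρ.re / N := by ring
  have hKτ : Real.exp (-(K0 * τ / 2)) ≤ 2 * Real.exp (-(y ^ 2 / (2 * L))) := by
    have h1 : y ^ 2 / L - 1 ≤ K0 * τ := by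
      have h2 : ((N:ℝ) * y ^ 3 - 1) * τ ≤ K0 * τ := by gcongr; linarith
      have h3 : (N:ℝ) * y ^ 3 * τ = y ^ 2 / L := by rw [hτdef]; field_simp
      nlinarith
    have h4 : Real.exp (1 / 2) ≤ 2 := by
      have h5 := Real.exp_one_lt_d9
      have h6 : Real.exp (1 / 2) * Real.exp (1 / 2) = Real.exp 1 := by rw [← Real.exp_add]; norm_num
      nlinarith [Real.exp_pos (1 / 2)]
    calc Real.exp (-(K0 * τ / 2)) ≤ Real.exp (1 / 2 + -(y ^ 2 / (2 * L))) := by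
          refine Real.exp_le_exp.2 ?_
          have : y ^ 2 / (2 * L) = y ^ 2 / L / 2 := by field_simp
          rw [this]; linarith
      _ = Real.exp (1 / 2) * Real.exp (-(y ^ 2 / (2 * L))) := by rw [Real.exp_add]
      _ ≤ _ := by gcongr
  have T3 : (1 + Sa) * (Real.exp (-(K0 * τ / 2)) * (2 / τ)) ≤ 12 * L / N := by
    have h1 : 1 + Sa ≤ 3 * (N:ℝ) ^ (σ + 3) := by linarith
    have h2 : 2 / τ ≤ 2 * L * (N:ℝ) ^ (2:ℝ) := by
      rw [hτdef, div_div_eq_mul_div, div_one, Real.rpow_two]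
      have : L * N * y ≤ L * N * N := by gcongr
      nlinarith
    have h3 : Real.exp (-(y ^ 2 / (2 * L))) ≤ (N:ℝ) ^ (-(σ + 6)) := by
      rw [Real.rpow_def_of_pos hN0, ← hydef]
      refine Real.exp_le_exp.2 ?_
      have : (σ + 6) * y ≤ y ^ 2 / (2 * L) := by
        rw [le_div_iff₀ (by positivity)]
        nlinarith
      linarith
    calc (1 + Sa) * (Real.exp (-(K0 * τ / 2)) * (2 / τ))
        ≤ (3 * (N:ℝ) ^ (σ + 3)) * ((2 * (N:ℝ) ^ (-(σ + 6))) * (2 * L * (N:ℝ) ^ (2:ℝ))) := by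
          gcongr
          exact hKτ.trans (by gcongr)
      _ = 12 * L * ((N:ℝ) ^ (σ + 3) * (N:ℝ) ^ (-(σ + 6)) * (N:ℝ) ^ (2:ℝ)) := by ring
      _ = 12 * L * (N:ℝ) ^ (-1:ℝ) := by
          rw [← Real.rpow_add hN0, ← Real.rpow_add hN0]
          congr 2; ring
      _ = 12 * L / N := by rw [Real.rpow_neg_one]; rfl
  have hM : 0 ≤ max (σ - ρ.re) 0 := le_max_right _ _
  have T4 : (K0 : ℝ) ^ (max (σ - ρ.re) 0) * (1 + Real.log K0) * (Qf p σ a N K0) ^ (p⁻¹) ≤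
      ((N:ℝ) * y ^ 3) ^ (max (σ - ρ.re) 0) * (1 + Real.log ((N:ℝ) * y ^ 3)) * (Qf p σ a N K) ^ (p⁻¹) := by
    have h1 : Real.log K0 ≤ Real.log ((N:ℝ) * y ^ 3) := Real.log_le_log (by linarith) hK0le
    have h2 : 0 ≤ Real.log K0 := Real.log_nonneg hK01'
    have h3 : (Qf p σ a N K0) ^ (p⁻¹) ≤ (Qf p σ a N K) ^ (p⁻¹) :=
      Real.rpow_le_rpow (Qf_nonneg _ _ _ _ _) hQ0 (by positivity)
    have h4 : 0 ≤ (Qf p σ a N K0) ^ (p⁻¹) := Real.rpow_nonneg (Qf_nonneg _ _ _ _ _) _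
    have h5 : 0 ≤ Real.log ((N:ℝ) * y ^ 3) := h2.trans h1
    have h6 : 0 ≤ ((N:ℝ) * y ^ 3) ^ (max (σ - ρ.re) 0) * (1 + Real.log ((N:ℝ) * y ^ 3)) := by positivity
    gcongr
  calc ‖ka ρ‖ ≤ _ := hkey
    _ ≤ 5 / ρ.re / N + 24 / ρ.re / N + Cb ρ.re * (((N:ℝ) * y ^ 3) ^ (max (σ - ρ.re) 0) *
        (1 + Real.log ((N:ℝ) * y ^ 3)) * (Qf p σ a N K) ^ (p⁻¹) + 12 * L / N) := by
        gcongr
        refine hsp.trans ?_
        exact add_le_add (hho.trans T4) T3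
    _ = _ := by ring

/-- the lower bound at a zero -/
theorem low2 {ρ : ℂ} (hρ : riemannZeta ρ = 0) (h0 : 0 < ρ.re) {p σ : ℝ} (hp : 1 ≤ p) (hσ : 0 < σ) {ε : ℝ}
    (hε : 0 < ε) : ∀ᶠ N : ℕ in atTop, ∀ K : ℕ, (N:ℝ) * Real.log N ^ 3 ≤ K → ∀ a : ℕ → ℝ,
      (N:ℝ) ^ (-(p * max (σ - ρ.re) 0 + ε)) ≤ Qf p σ a N K := by
  obtain ⟨C1, hC1, h1⟩ := low1 hρ h0 hp hσ
  have hre1 : ρ.re < 1 := by
    by_contra h
    exact riemannZeta_ne_zero_of_one_le_re (not_lt.1 h) hρ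
  have hκ : 0 < ‖ka ρ‖ := norm_pos_iff.2 (ka_ne h0 hre1)
  have hp0 : 0 < p := by linarith
  have hCb := Cb_pos h0
  set M : ℝ := max (σ - ρ.re) 0 with hM
  have hM0 : 0 ≤ M := le_max_right _ _
  set D : ℝ := 2 * Cb ρ.re / ‖ka ρ‖ with hD
  have hD0 : 0 < D := by positivity
  have t1 : Tendsto (fun N : ℕ => Real.log N) atTop atTop := Real.tendsto_log_atTop.comp tendsto_natCast_atTop_atTop
  have t2 : ∀ᶠ N : ℕ in atTop, C1 / N ≤ ‖ka ρ‖ / 2 := by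
    have : Tendsto (fun N : ℕ => C1 / (N:ℝ)) atTop (𝓝 0) := tendsto_const_div_atTop_nhds_zero_nat C1
    exact this.eventually_le_const (by positivity)
  have t3 : ∀ᶠ N : ℕ in atTop, 5 * D * Real.log N ^ (3 * M + 1) ≤ (N:ℝ) ^ (ε / p) := by
    have h2 := (isLittleO_log_rpow_rpow_atTop (3 * M + 1) (show 0 < ε / p by positivity)).bound
      (show 0 < 1 / (5 * D) by positivity)
    have h3 := tendsto_natCast_atTop_atTop (R := ℝ) |>.eventually h2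
    filter_upwards [h3, t1.eventually_ge_atTop 0, eventually_ge_atTop 1] with N h4 h5 h6
    have h5' : 0 ≤ Real.log (N:ℝ) := h5
    rw [Real.norm_of_nonneg (by positivity), Real.norm_of_nonneg (by positivity)] at h4
    rw [div_mul_eq_mul_div, one_mul, le_div_iff₀ (by positivity)] at h4
    linarith
  filter_upwards [h1, t2, t3, t1.eventually_ge_atTop 1, eventually_ge_atTop 1] with N g1 g2 g3 g4 g5 K hK a
  have hN1 : (1:ℝ) ≤ N := by exact_mod_cast g5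
  have hN0 : (0:ℝ) < N := by linarith
  have hneg : (N:ℝ) ^ (-(p * M + ε)) ≤ 1 := Real.rpow_le_one_of_one_le_of_nonpos hN1 (by nlinarith)
  rcases le_or_gt (Qf p σ a N K) 1 with hQ | hQ
  swap
  · linarith
  have g := g1 K hK a hQ
  set y : ℝ := Real.log N with hy
  have hy1 : 1 ≤ y := g4
  have hy0 : 0 < y := by linarith
  have hlog : Real.log ((N:ℝ) * y ^ 3) ≤ 4 * y := by
    rw [Real.log_mul hN0.ne' (by positivity), Real.log_pow, ← hy]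
    have := Real.log_le_sub_one_of_pos hy0
    push_cast
    linarith
  have hpow : ((N:ℝ) * y ^ 3) ^ M = (N:ℝ) ^ M * y ^ (3 * M) := by
    rw [Real.mul_rpow hN0.le (by positivity), ← Real.rpow_natCast y 3, ← Real.rpow_mul hy0.le]
    norm_num
  set q : ℝ := (Qf p σ a N K) ^ (p⁻¹) with hq
  have hq0 : 0 ≤ q := Real.rpow_nonneg (Qf_nonneg _ _ _ _ _) _
  have g6 : ‖ka ρ‖ / 2 ≤ Cb ρ.re * ((N:ℝ) ^ M * y ^ (3 * M) * (5 * y) * q) := by
    have : Cb ρ.re * (((N:ℝ) * y ^ 3) ^ M * (1 + Real.log ((N:ℝ) * y ^ 3)) * q) ≤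
        Cb ρ.re * ((N:ℝ) ^ M * y ^ (3 * M) * (5 * y) * q) := by
      rw [hpow]
      gcongr
      linarith
    linarith
  have g7 : 1 ≤ (N:ℝ) ^ (M + ε / p) * q := by
    have h3 : (5 * D * y ^ (3 * M + 1)) * ((N:ℝ) ^ M * q) ≤ (N:ℝ) ^ (ε / p) * ((N:ℝ) ^ M * q) := by gcongr
    have h4 : 1 ≤ (5 * D * y ^ (3 * M + 1)) * ((N:ℝ) ^ M * q) := by
      have e : (5 * D * y ^ (3 * M + 1)) * ((N:ℝ) ^ M * q) =
          (Cb ρ.re * ((N:ℝ) ^ M * y ^ (3 * M) * (5 * y) * q)) / (‖ka ρ‖ / 2) := by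
        rw [hD, Real.rpow_add_one hy0.ne']
        field_simp
      rw [e, le_div_iff₀ (by positivity), one_mul]
      exact g6
    calc (1:ℝ) ≤ _ := h4
      _ ≤ _ := h3
      _ = (N:ℝ) ^ (M + ε / p) * q := by rw [Real.rpow_add hN0]; ring
  have g8 : (N:ℝ) ^ (-(M + ε / p)) ≤ q := by
    rw [Real.rpow_neg hN0.le]
    rw [inv_le_iff_one_le_mul₀' (by positivity)]
    exact g7
  have g9 : ((N:ℝ) ^ (-(M + ε / p))) ^ p ≤ q ^ p := Real.rpow_le_rpow (by positivity) g8 hp0.le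
  rw [hq, ← Real.rpow_mul (Qf_nonneg _ _ _ _ _), inv_mul_cancel₀ hp0.ne', Real.rpow_one,
    ← Real.rpow_mul hN0.le] at g9
  refine le_trans (le_of_eq ?_) g9
  congr 1
  field_simp

end

end Pool.Agent.N964.NB
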