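import Pool.Agent.N964.E6
import Pool.Agent.H295R2.M

/-! The elementary upper bound, coefficients `μ`. -/

set_option autoImplicit false

open Finset Filter Topology MeasureTheory

namespace Pool.Agent.N964.NB

noncomputable section

open Pool.Agent.H295R2 (mu Mx abs_mu_le abs_Mx_le)

lemma sum_mu {m : ℕ} (hm : 0 < m) : ∑ d ∈ m.divisors, mu d = if m = 1 then 1 else 0 := by
  have h1 : ((ArithmeticFunction.zeta : ArithmeticFunction ℤ) * (ArithmeticFunction.moebius : ArithmeticFunction ℤ)) m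
      = (1 : ArithmeticFunction ℤ) m := by
    rw [ArithmeticFunction.coe_zeta_mul_moebius]
  rw [ArithmeticFunction.coe_zeta_mul_apply, ArithmeticFunction.one_apply] at h1
  unfold H295R2.mu
  have h2 : ((∑ d ∈ m.divisors, (ArithmeticFunction.moebius d : ℤ) : ℤ) : ℝ) = ((if m = 1 then 1 else 0 : ℤ) : ℝ) := by
    rw [h1]
  push_cast at h2
  exact h2

lemma Er_mu_small (N : ℕ) {k : ℕ} (hk : 1 ≤ k) (hkN : k ≤ N) : Er mu N k = 0 := by
  induction k, hk using Nat.le_induction with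
  | base =>
    have h1 := Er_diff mu N (m := 1) one_pos hkN
    rw [sum_mu one_pos] at h1
    simp only [if_true, Nat.sub_self, Er_zero] at h1
    linarith
  | succ k hk ih =>
    have h1 := Er_diff mu N (m := k + 1) (by omega) hkN
    rw [sum_mu (by omega), if_neg (by omega), Nat.add_sub_cancel, ih (by omega)] at h1
    linarith

/-- Mertens function at integers -/
def Mn (m : ℕ) : ℝ := ∑ n ∈ Finset.Icc 1 m, mu n

lemma Mn_eq (m : ℕ) : Mn m = Mx (m:ℝ) := by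
  unfold Mn H295R2.Mx
  rw [Nat.floor_natCast]

lemma div_eq_sum {k n : ℕ} (hn : 1 ≤ n) : ((k / n : ℕ) : ℝ) = ∑ j ∈ Finset.Icc 1 k, if n ≤ k / j then (1:ℝ) else 0 := by
  rw [← Finset.sum_filter, Finset.sum_const, nsmul_eq_mul, mul_one]
  congr 1
  have : (Finset.Icc 1 k).filter (fun j => n ≤ k / j) = Finset.Icc 1 (k / n) := by
    ext j
    simp only [Finset.mem_filter, Finset.mem_Icc]
    constructor
    · rintro ⟨⟨h1, h2⟩, h3⟩
      refine ⟨h1, ?_⟩
      rw [Nat.le_div_iff_mul_le (by omega)] at h3 ⊢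
      linarith [mul_comm n j]
    · rintro ⟨h1, h2⟩
      have h4 : j ≤ k := h2.trans (Nat.div_le_self k n)
      refine ⟨⟨h1, h4⟩, ?_⟩
      rw [Nat.le_div_iff_mul_le (by omega)] at h2 ⊢
      linarith [mul_comm n j]
  rw [this, Nat.card_Icc, Nat.add_sub_cancel]

lemma Er_mu_large {N k : ℕ} (hN : 1 ≤ N) (hk : N ≤ k) :
    Er mu N k = ∑ j ∈ Finset.Icc 1 k, if N < k / j then Mn (k / j) - Mn N else 0 := by
  have h0 : Er mu k k = 0 := Er_mu_small k (by omega) le_rfl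
  have h1 : Er mu N k = Er mu N k - Er mu k k := by rw [h0, sub_zero]
  have hsplit : Finset.Icc 1 k = Finset.Icc 1 N ∪ Finset.Ioc N k := by
    ext x; simp only [Finset.mem_union, Finset.mem_Icc, Finset.mem_Ioc]; omega
  have hdisj : Disjoint (Finset.Icc 1 N) (Finset.Ioc N k) := by
    rw [Finset.disjoint_left]; intro x; simp only [Finset.mem_Icc, Finset.mem_Ioc]; omega
  have h2 : Er mu N k - Er mu k k = ∑ n ∈ Finset.Ioc N k, mu n * ((k / n : ℕ) : ℝ) := by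
    have e : Er mu k k = 1 - (∑ n ∈ Finset.Icc 1 N, mu n * ((k / n : ℕ) : ℝ) + ∑ n ∈ Finset.Ioc N k, mu n * ((k / n : ℕ) : ℝ)) := by
      rw [← Finset.sum_union hdisj, ← hsplit]
      rfl
    rw [e]
    unfold Er
    ring
  rw [h1, h2]
  have h3 : ∀ n ∈ Finset.Ioc N k, mu n * ((k / n : ℕ) : ℝ) = ∑ j ∈ Finset.Icc 1 k, if n ≤ k / j then mu n else 0 := by
    intro n hn
    rw [Finset.mem_Ioc] at hn
    rw [div_eq_sum (by omega), Finset.mul_sum]
    refine Finset.sum_congr rfl fun j _ => ?_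
    split_ifs <;> simp
  rw [Finset.sum_congr rfl h3, Finset.sum_comm]
  refine Finset.sum_congr rfl fun j hj => ?_
  rw [Finset.mem_Icc] at hj
  have hjk : k / j ≤ k := Nat.div_le_self k j
  split_ifs with hlt
  · rw [← Finset.sum_filter]
    have e1 : (Finset.Ioc N k).filter (fun n => n ≤ k / j) = Finset.Ioc N (k / j) := by
      ext x; simp only [Finset.mem_filter, Finset.mem_Ioc]; omega
    rw [e1]
    have e2 : Finset.Icc 1 (k / j) = Finset.Icc 1 N ∪ Finset.Ioc N (k / j) := by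
      ext x; simp only [Finset.mem_union, Finset.mem_Icc, Finset.mem_Ioc]; omega
    have e3 : Disjoint (Finset.Icc 1 N) (Finset.Ioc N (k / j)) := by
      rw [Finset.disjoint_left]; intro x; simp only [Finset.mem_Icc, Finset.mem_Ioc]; omega
    unfold Mn
    rw [e2, Finset.sum_union e3]
    ring
  · refine Finset.sum_eq_zero fun n hn => ?_
    rw [Finset.mem_Ioc] at hn
    rw [if_neg (by omega)]

lemma Er_mu_bound {C θ : ℝ} (hθ1 : θ ≤ 1) (hθ0 : 0 ≤ θ) (hM : ∀ y : ℝ, 1 ≤ y → |Mx y| ≤ C * y ^ θ) {N k : ℕ} (hN : 1 ≤ N) (hk : N ≤ k) :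
    |Er mu N k| ≤ 2 * C * ((N:ℝ) ^ (θ - 1) * (k * (1 + Real.log k))) := by
  rw [Er_mu_large hN hk]
  have hC : 0 ≤ C := by
    have := (abs_nonneg _).trans (hM 1 le_rfl)
    simpa using this
  have hN0 : (0:ℝ) < N := by exact_mod_cast hN
  have h1 : ∀ j ∈ Finset.Icc 1 k, |if N < k / j then Mn (k / j) - Mn N else 0| ≤
      2 * C * (N:ℝ) ^ (θ - 1) * k * ((j:ℝ)⁻¹) := by
    intro j hj
    rw [Finset.mem_Icc] at hj
    have hj0 : (0:ℝ) < j := by exact_mod_cast hj.1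
    split_ifs with h
    · have h2 : (1:ℝ) ≤ ((k / j : ℕ) : ℝ) := by exact_mod_cast (by omega : 1 ≤ k / j)
      have h3 : ((k / j : ℕ) : ℝ) ≤ (k:ℝ) / j := Nat.cast_div_le
      have h4 : (N:ℝ) ≤ ((k / j : ℕ) : ℝ) := by exact_mod_cast h.le
      have h5 : (0:ℝ) < (k:ℝ) / j := by linarith
      have hy : ∀ y : ℝ, 1 ≤ y → y ≤ (k:ℝ)/j → |Mx y| ≤ C * ((k:ℝ)/j * (N:ℝ) ^ (θ - 1)) := by
        intro y hy1 hy2
        refine (hM y hy1).trans ?_
        gcongr
        calc y ^ θ ≤ ((k:ℝ)/j) ^ θ := Real.rpow_le_rpow (by linarith) hy2 hθ0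
          _ = ((k:ℝ)/j) * ((k:ℝ)/j) ^ (θ - 1) := by
            have e5 := Real.rpow_add h5 1 (θ - 1)
            rw [Real.rpow_one] at e5
            rw [← e5]
            congr 1; ring
          _ ≤ (k:ℝ)/j * (N:ℝ) ^ (θ - 1) :=
            mul_le_mul_of_nonneg_left (Real.rpow_le_rpow_of_nonpos hN0 (h4.trans h3) (sub_nonpos.2 hθ1)) h5.le
      rw [Mn_eq, Mn_eq]
      calc |Mx ((k / j : ℕ) : ℝ) - Mx (N:ℝ)| ≤ |Mx ((k / j : ℕ) : ℝ)| + |Mx (N:ℝ)| := abs_sub _ _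
        _ ≤ C * ((k:ℝ)/j * (N:ℝ) ^ (θ - 1)) + C * ((k:ℝ)/j * (N:ℝ) ^ (θ - 1)) :=
          add_le_add (hy _ h2 h3) (hy _ (by exact_mod_cast hN) (h4.trans h3))
        _ = _ := by ring
    · rw [abs_zero]; positivity
  refine (Finset.abs_sum_le_sum_abs _ _).trans ((Finset.sum_le_sum h1).trans ?_)
  rw [← Finset.mul_sum]
  have h4 : (∑ j ∈ Finset.Icc 1 k, ((j:ℝ)⁻¹)) ≤ 1 + Real.log k := by
    have := harmonic_le_one_add_log k
    rw [harmonic_eq_sum_Icc] at this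
    push_cast at this
    exact this
  calc 2 * C * (N:ℝ) ^ (θ - 1) * k * (∑ j ∈ Finset.Icc 1 k, ((j:ℝ)⁻¹))
      ≤ 2 * C * (N:ℝ) ^ (θ - 1) * k * (1 + Real.log k) := by gcongr
    _ = _ := by ring

end

end Pool.Agent.N964.NB
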