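import Pool.Agent.N964.E8
import Pool.Agent.N964.E7

/-! Upper bounds for the weighted error with coefficients `μ`. -/

set_option autoImplicit false

open Finset Filter Topology MeasureTheory

namespace Pool.Agent.N964.NB

noncomputable section

open Pool.Agent.H295R2 (mu Mx abs_mu_le abs_Mx_le)

lemma term_mu {C θ p σ : ℝ} (hθ1 : θ ≤ 1) (hθ0 : 0 ≤ θ) (hp : 1 ≤ p)
    (hM : ∀ y : ℝ, 1 ≤ y → |Mx y| ≤ C * y ^ θ) {N k : ℕ} (hN : 1 ≤ N) (hk : 1 ≤ k) :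
    |Er mu N k| ^ p / (k : ℝ) ^ (p * σ + 1) ≤
      if N ≤ k then (2 * C) ^ p * (N:ℝ) ^ (p * (θ - 1)) * ((1 + Real.log k) ^ p * (k:ℝ) ^ (p * (1 - σ) - 1)) else 0 := by
  have hk0 : (0:ℝ) < k := by exact_mod_cast hk
  have hk1 : (1:ℝ) ≤ k := by exact_mod_cast hk
  have hN0 : (0:ℝ) < N := by exact_mod_cast hN
  have hC : 0 ≤ C := by
    have := (abs_nonneg _).trans (hM 1 le_rfl)
    simpa using this
  split_ifs with h
  · have h1 := Er_mu_bound hθ1 hθ0 hM hN h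
    have hl : 0 ≤ Real.log k := Real.log_nonneg hk1
    have h2 : |Er mu N k| ^ p ≤ (2 * C * ((N:ℝ) ^ (θ - 1) * (k * (1 + Real.log k)))) ^ p :=
      Real.rpow_le_rpow (abs_nonneg _) h1 (by linarith)
    have h3 : (2 * C * ((N:ℝ) ^ (θ - 1) * (k * (1 + Real.log k)))) ^ p =
        (2 * C) ^ p * (N:ℝ) ^ (p * (θ - 1)) * ((1 + Real.log k) ^ p * (k:ℝ) ^ p) := by
      rw [Real.mul_rpow (by positivity : 0 ≤ 2 * C) (by positivity),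
        Real.mul_rpow (by positivity : (0:ℝ) ≤ (N:ℝ) ^ (θ - 1)) (by positivity),
        Real.mul_rpow hk0.le (by positivity), ← Real.rpow_mul hN0.le]
      rw [mul_comm (θ - 1) p]
      ring
    rw [div_le_iff₀ (by positivity)]
    refine h2.trans (le_of_eq ?_)
    rw [h3]
    have h4 : (k:ℝ) ^ p = (k:ℝ) ^ (p * (1 - σ) - 1) * (k : ℝ) ^ (p * σ + 1) := by
      rw [← Real.rpow_add hk0]
      congr 1; ring
    rw [h4]; ring
  · rw [Er_mu_small N hk (by omega), abs_zero, Real.zero_rpow (by linarith), zero_div]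

lemma Q_upper_fin {C θ p σ : ℝ} (hθ1 : θ ≤ 1) (hθ0 : 0 ≤ θ) (hp : 1 ≤ p) (hσ : σ ≤ 1)
    (hM : ∀ y : ℝ, 1 ≤ y → |Mx y| ≤ C * y ^ θ) {N K : ℕ} (hN : 1 ≤ N) (hK : 1 ≤ K) :
    Qf p σ mu N K ≤ (2 * C) ^ p * (N:ℝ) ^ (p * (θ - 1)) * (K:ℝ) ^ (p * (1 - σ)) * (1 + Real.log K) ^ (p + 1) := by
  have hC : 0 ≤ C := by
    have := (abs_nonneg _).trans (hM 1 le_rfl)
    simpa using this
  have hK1 : (1:ℝ) ≤ K := by exact_mod_cast hK
  have hL : 0 ≤ Real.log K := Real.log_nonneg hK1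
  have h1 : ∀ k ∈ Finset.Icc 1 K, |Er mu N k| ^ p / (k : ℝ) ^ (p * σ + 1) ≤
      (2 * C) ^ p * (N:ℝ) ^ (p * (θ - 1)) * (K:ℝ) ^ (p * (1 - σ)) * (1 + Real.log K) ^ p * ((k:ℝ)⁻¹) := by
    intro k hk
    rw [Finset.mem_Icc] at hk
    have hk0 : (0:ℝ) < k := by exact_mod_cast hk.1
    have hk1 : (1:ℝ) ≤ k := by exact_mod_cast hk.1
    have hkK : (k:ℝ) ≤ K := by exact_mod_cast hk.2
    have hl : 0 ≤ Real.log k := Real.log_nonneg hk1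
    have hll : Real.log k ≤ Real.log K := Real.log_le_log hk0 hkK
    refine (term_mu hθ1 hθ0 hp hM hN hk.1).trans ?_
    split_ifs with h
    · have h2 : (k:ℝ) ^ (p * (1 - σ) - 1) ≤ (K:ℝ) ^ (p * (1 - σ)) * ((k:ℝ)⁻¹) := by
        rw [Real.rpow_sub hk0, Real.rpow_one, div_eq_mul_inv]
        gcongr
      have h3 : (1 + Real.log k) ^ p ≤ (1 + Real.log K) ^ p :=
        Real.rpow_le_rpow (by positivity) (by linarith) (by linarith)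
      calc (2 * C) ^ p * (N:ℝ) ^ (p * (θ - 1)) * ((1 + Real.log k) ^ p * (k:ℝ) ^ (p * (1 - σ) - 1))
          ≤ (2 * C) ^ p * (N:ℝ) ^ (p * (θ - 1)) * ((1 + Real.log K) ^ p * ((K:ℝ) ^ (p * (1 - σ)) * ((k:ℝ)⁻¹))) := by
            gcongr
        _ = _ := by ring
    · positivity
  refine (Finset.sum_le_sum h1).trans ?_
  rw [← Finset.mul_sum]
  have h4 : (∑ k ∈ Finset.Icc 1 K, ((k:ℝ)⁻¹)) ≤ 1 + Real.log K := by
    have := harmonic_le_one_add_log K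
    rw [harmonic_eq_sum_Icc] at this
    push_cast at this
    exact this
  calc (2 * C) ^ p * (N:ℝ) ^ (p * (θ - 1)) * (K:ℝ) ^ (p * (1 - σ)) * (1 + Real.log K) ^ p * (∑ k ∈ Finset.Icc 1 K, ((k:ℝ)⁻¹))
      ≤ (2 * C) ^ p * (N:ℝ) ^ (p * (θ - 1)) * (K:ℝ) ^ (p * (1 - σ)) * (1 + Real.log K) ^ p * (1 + Real.log K) := by gcongr
    _ = _ := by
      rw [Real.rpow_add (by positivity), Real.rpow_one]; ring

lemma Q_upper_inf {C θ p σ ε : ℝ} (hθ1 : θ ≤ 1) (hθ0 : 0 ≤ θ) (hp : 1 ≤ p) (hε : 0 < ε) (hεσ : 2 * ε ≤ p * (σ - 1))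
    (hM : ∀ y : ℝ, 1 ≤ y → |Mx y| ≤ C * y ^ θ) :
    ∃ D : ℝ, 0 < D ∧ ∀ N K : ℕ, 1 ≤ N → Qf p σ mu N K ≤ D * (N:ℝ) ^ (-(p * (σ - θ)) + 2 * ε) := by
  have hC : 0 ≤ C := by
    have := (abs_nonneg _).trans (hM 1 le_rfl)
    simpa using this
  -- bound for the logarithm
  have hp0 : 0 < p := by linarith
  have hlog : ∀ k : ℕ, 1 ≤ k → (1 + Real.log k) ^ p ≤ (1 + p / ε) ^ p * (k:ℝ) ^ ε := by
    intro k hk
    have hk0 : (0:ℝ) < k := by exact_mod_cast hk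
    have hk1 : (1:ℝ) ≤ k := by exact_mod_cast hk
    have hl : 0 ≤ Real.log k := Real.log_nonneg hk1
    have h1 : Real.log k ≤ (k:ℝ) ^ (ε / p) / (ε / p) := Real.log_le_rpow_div hk0.le (by positivity)
    have h2 : (1:ℝ) ≤ (k:ℝ) ^ (ε / p) := Real.one_le_rpow hk1 (by positivity)
    have h3 : 1 + Real.log k ≤ (1 + p / ε) * (k:ℝ) ^ (ε / p) := by
      have h4 : (k:ℝ) ^ (ε / p) / (ε / p) = (p / ε) * (k:ℝ) ^ (ε / p) := by
        field_simp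
      rw [h4] at h1
      nlinarith
    calc (1 + Real.log k) ^ p ≤ ((1 + p / ε) * (k:ℝ) ^ (ε / p)) ^ p :=
          Real.rpow_le_rpow (by positivity) h3 hp0.le
      _ = _ := by
        rw [Real.mul_rpow (by positivity) (by positivity), ← Real.rpow_mul hk0.le]
        congr 2; field_simp
  have hsum : Summable fun k : ℕ => (k:ℝ) ^ (-(1 + ε)) := by
    rw [Real.summable_nat_rpow]; linarith
  set S : ℝ := ∑' k : ℕ, (k:ℝ) ^ (-(1 + ε)) with hS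
  have hS0 : 0 ≤ S := tsum_nonneg fun k => by positivity
  refine ⟨(2 * C) ^ p * (1 + p / ε) ^ p * S + 1, by positivity, fun N K hN => ?_⟩
  have hN0 : (0:ℝ) < N := by exact_mod_cast hN
  have h1 : ∀ k ∈ Finset.Icc 1 K, |Er mu N k| ^ p / (k : ℝ) ^ (p * σ + 1) ≤
      (2 * C) ^ p * (1 + p / ε) ^ p * (N:ℝ) ^ (-(p * (σ - θ)) + 2 * ε) * (k:ℝ) ^ (-(1 + ε)) := by
    intro k hk
    rw [Finset.mem_Icc] at hk
    have hk0 : (0:ℝ) < k := by exact_mod_cast hk.1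
    have hk1 : (1:ℝ) ≤ k := by exact_mod_cast hk.1
    have hl : 0 ≤ Real.log k := Real.log_nonneg hk1
    refine (term_mu hθ1 hθ0 hp hM hN hk.1).trans ?_
    split_ifs with h
    · have hNk : (N:ℝ) ≤ k := by exact_mod_cast h
      have h2 : (k:ℝ) ^ ε * (k:ℝ) ^ (p * (1 - σ) - 1) ≤ (N:ℝ) ^ (p * (1 - σ) + 2 * ε) * (k:ℝ) ^ (-(1 + ε)) := by
        have e : (k:ℝ) ^ ε * (k:ℝ) ^ (p * (1 - σ) - 1) = (k:ℝ) ^ (p * (1 - σ) + 2 * ε) * (k:ℝ) ^ (-(1 + ε)) := by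
          rw [← Real.rpow_add hk0, ← Real.rpow_add hk0]
          congr 1; ring
        rw [e]
        have hneg : p * (1 - σ) + 2 * ε ≤ 0 := by nlinarith
        exact mul_le_mul_of_nonneg_right (Real.rpow_le_rpow_of_nonpos hN0 hNk hneg) (by positivity)
      have e2 : (N:ℝ) ^ (p * (θ - 1)) * (N:ℝ) ^ (p * (1 - σ) + 2 * ε) = (N:ℝ) ^ (-(p * (σ - θ)) + 2 * ε) := by
        rw [← Real.rpow_add hN0]
        congr 1; ring
      calc (2 * C) ^ p * (N:ℝ) ^ (p * (θ - 1)) * ((1 + Real.log k) ^ p * (k:ℝ) ^ (p * (1 - σ) - 1))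
          ≤ (2 * C) ^ p * (N:ℝ) ^ (p * (θ - 1)) * (((1 + p / ε) ^ p * (k:ℝ) ^ ε) * (k:ℝ) ^ (p * (1 - σ) - 1)) := by
            gcongr
            exact hlog k hk.1
        _ = (2 * C) ^ p * (1 + p / ε) ^ p * (N:ℝ) ^ (p * (θ - 1)) * ((k:ℝ) ^ ε * (k:ℝ) ^ (p * (1 - σ) - 1)) := by ring
        _ ≤ (2 * C) ^ p * (1 + p / ε) ^ p * (N:ℝ) ^ (p * (θ - 1)) * ((N:ℝ) ^ (p * (1 - σ) + 2 * ε) * (k:ℝ) ^ (-(1 + ε))) := by
            gcongr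
        _ = (2 * C) ^ p * (1 + p / ε) ^ p * ((N:ℝ) ^ (p * (θ - 1)) * (N:ℝ) ^ (p * (1 - σ) + 2 * ε)) * (k:ℝ) ^ (-(1 + ε)) := by ring
        _ = _ := by rw [e2]
    · positivity
  refine (Finset.sum_le_sum h1).trans ?_
  rw [← Finset.mul_sum]
  have h4 : ∑ k ∈ Finset.Icc 1 K, (k:ℝ) ^ (-(1 + ε)) ≤ S := hsum.sum_le_tsum _ fun k _ => by positivity
  calc (2 * C) ^ p * (1 + p / ε) ^ p * (N:ℝ) ^ (-(p * (σ - θ)) + 2 * ε) * ∑ k ∈ Finset.Icc 1 K, (k:ℝ) ^ (-(1 + ε))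
      ≤ (2 * C) ^ p * (1 + p / ε) ^ p * (N:ℝ) ^ (-(p * (σ - θ)) + 2 * ε) * S := by gcongr
    _ ≤ _ := by
      have : 0 < (N:ℝ) ^ (-(p * (σ - θ)) + 2 * ε) := by positivity
      nlinarith

end

end Pool.Agent.N964.NB
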