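import Pool.Agent.H295R2.M

/-! The weight `(1 - e^{-u})^2` and the Perron formula with a shift. -/

set_option autoImplicit false

open MeasureTheory Filter Topology Set

namespace Pool.Agent.N964.NB

noncomputable section

open Pool.Agent.H295R2

/-- the weight as a function of `u = log (N / n)` -/
def wt (u : ℝ) : ℂ := if 0 ≤ u then (((1 - Real.exp (-u)) ^ 2 : ℝ) : ℂ) else 0

lemma wt_cont : Continuous wt := by
  unfold wt
  refine Continuous.if_le (by fun_prop) continuous_const continuous_const continuous_id ?_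
  intro u hu
  rw [← hu]
  simp

lemma wt_nice : Nice wt 1 0 0 where
  meas := wt_cont.measurable
  bound := by
    intro u
    unfold wt
    rw [zero_mul, Real.exp_zero, mul_one]
    split_ifs with h
    · rw [Complex.norm_real, Real.norm_of_nonneg (sq_nonneg _)]
      have h1 : Real.exp (-u) ≤ 1 := Real.exp_le_one_iff.2 (by linarith)
      have h2 := Real.exp_pos (-u)
      nlinarith
    · simp
  zero := by
    intro u hu
    unfold wt
    rw [if_neg (by linarith)]

lemma Lap_wt {z : ℂ} (hz : 0 < z.re) : Lap wt z = 2 / (z * (z + 1) * (z + 2)) := by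
  have h1 : ∀ u : ℝ, wt u * Complex.exp (-(z * u)) =
      step u * Complex.exp (-(z * u)) - 2 * (step u * Complex.exp (-((z + 1) * u))) + step u * Complex.exp (-((z + 2) * u)) := by
    intro u
    unfold wt step
    split_ifs with h
    · have e1 : Complex.exp (-((z + 1) * u)) = Complex.exp (-(z * u)) * Complex.exp (-u) := by
        rw [← Complex.exp_add]; congr 1; ring
      have e2 : Complex.exp (-((z + 2) * u)) = Complex.exp (-(z * u)) * Complex.exp (-u) ^ 2 := by
        rw [← Complex.exp_nat_mul, ← Complex.exp_add]; congr 1; push_cast; ring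
      rw [e1, e2]
      push_cast
      ring
    · ring
  have hz1 : 0 < (z + 1).re := by simp; linarith
  have hz2 : 0 < (z + 2).re := by simp; linarith
  have i0 := step_nice.integrable (s := z) hz
  have i1 := step_nice.integrable (s := z + 1) hz1
  have i2 := step_nice.integrable (s := z + 2) hz2
  have h0 := Lap_step hz
  have h1' := Lap_step hz1
  have h2' := Lap_step hz2
  unfold Lap at h0 h1' h2' ⊢
  rw [integral_congr_ae (Eventually.of_forall h1)]
  have i3 : Integrable (fun u : ℝ => step u * Complex.exp (-(z * u)) - 2 * (step u * Complex.exp (-((z + 1) * u)))) :=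
    i0.sub (i1.const_mul 2)
  rw [integral_add i3 i2, integral_sub i0 (i1.const_mul 2), integral_const_mul, h0, h1', h2']
  have n0 : z ≠ 0 := by rintro rfl; simp at hz
  have n1 : z + 1 ≠ 0 := by intro h; rw [h] at hz1; simp at hz1
  have n2 : z + 2 ≠ 0 := by intro h; rw [h] at hz2; simp at hz2
  field_simp
  ring

lemma one_add_abs_im_le {z : ℂ} {b : ℝ} (hb0 : 0 ≤ b) (hb : b < 1) (hz : -b ≤ z.re) {c : ℝ} (hc : 1 ≤ c) :
    (1 - b) / 2 * (1 + |z.im|) ≤ ‖z + c‖ := by
  have h1 : |(z + c).re| ≤ ‖z + c‖ := Complex.abs_re_le_norm _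
  have h2 : |(z + c).im| ≤ ‖z + c‖ := Complex.abs_im_le_norm _
  simp only [Complex.add_re, Complex.ofReal_re, Complex.add_im, Complex.ofReal_im, add_zero] at h1 h2
  have h3 := le_abs_self (z.re + c)
  nlinarith [abs_nonneg z.im]

/-- the kernel -/
def kr (z : ℂ) : ℂ := 2 / ((z + 1) * (z + 2))

lemma kr_bound {z : ℂ} {b : ℝ} (hb0 : 0 ≤ b) (hb : b < 1) (hz : -b ≤ z.re) :
    ‖kr z‖ ≤ 8 / (1 - b) ^ 2 * (1 + |z.im|) ^ (-(2:ℝ)) := by
  have h1 := one_add_abs_im_le hb0 hb hz (c := 1) le_rfl
  have h2 := one_add_abs_im_le hb0 hb hz (c := 2) (by norm_num)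
  rw [Complex.ofReal_one] at h1
  have h3 : ((2:ℝ) : ℂ) = 2 := by norm_num
  rw [h3] at h2
  have hpos : 0 < (1 - b) / 2 * (1 + |z.im|) := by
    have : 0 < 1 - b := by linarith
    positivity
  unfold kr
  rw [norm_div, norm_mul, Complex.norm_two, Real.rpow_neg (by positivity), Real.rpow_two]
  rw [div_le_iff₀ (by have := hpos.trans_le h1; have := hpos.trans_le h2; positivity)]
  have h4 : ((1 - b) / 2 * (1 + |z.im|)) * ((1 - b) / 2 * (1 + |z.im|)) ≤ ‖z + 1‖ * ‖z + 2‖ := by gcongr
  have h5 : 0 < 1 - b := by linarith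
  have h6 : 0 < 1 + |z.im| := by positivity
  calc (2:ℝ) = 8 / (1 - b) ^ 2 * ((1 + |z.im|) ^ 2)⁻¹ * (((1 - b) / 2 * (1 + |z.im|)) * ((1 - b) / 2 * (1 + |z.im|))) := by
        field_simp; ring
    _ ≤ _ := by gcongr

lemma kr_diff {z : ℂ} (hz : -1 < z.re) : DifferentiableAt ℂ kr z := by
  unfold kr
  refine DifferentiableAt.div (by fun_prop) (by fun_prop) ?_
  refine mul_ne_zero ?_ ?_
  · intro h
    have := congrArg Complex.re h
    simp at this; linarith
  · intro h
    have := congrArg Complex.re h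
    simp at this; linarith

end

end Pool.Agent.N964.NB
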