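import Pool.Agent.N964.F1

/-! The truncated Dirichlet series as an integral. -/

set_option autoImplicit false

open MeasureTheory Filter Topology Set

namespace Pool.Agent.N964.NB

noncomputable section

open Pool.Agent.H295R2

/-- terms of the truncated series -/
def At (s : ℂ) (x : ℝ) (m : ℕ) : ℂ := LSeries.term (fun n => ((ArithmeticFunction.moebius n : ℤ) : ℂ)) s m * wt (x - Real.log m)

lemma line1_re (ξ : ℝ) : (((1:ℝ) : ℂ) + 2 * Real.pi * ξ * Complex.I).re = 1 := by simp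
lemma line1_im (ξ : ℝ) : (((1:ℝ) : ℂ) + 2 * Real.pi * ξ * Complex.I).im = 2 * Real.pi * ξ := by simp

lemma Lap_wt_int : Integrable (fun ξ : ℝ => Lap wt ((1:ℝ) + 2 * Real.pi * ξ * Complex.I)) := by
  refine scale_integrable (H := Lap wt) ?_
  refine vertical_integrable (B := 8) ?_ ?_
  · intro s hs
    exact (wt_nice.Lap_differentiableAt (by rw [hs]; norm_num)).continuousAt
  · intro s hs
    have hs0 : 0 < s.re := by rw [hs]; norm_num
    rw [Lap_wt hs0]
    have h1 : (1:ℝ) ≤ ‖s‖ := by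
      have := Complex.abs_re_le_norm s
      rw [hs] at this
      simpa using this
    have h2 := kr_bound (z := s) (b := 0) le_rfl zero_lt_one (by linarith)
    unfold kr at h2
    have e : (2:ℂ) / (s * (s + 1) * (s + 2)) = (1 / s) * (2 / ((s + 1) * (s + 2))) := by
      rw [one_div, mul_assoc, ← div_div, div_eq_mul_inv 2 s, mul_comm, mul_div_assoc']
    rw [e, norm_mul, norm_div, norm_one]
    have h3 : (1 + |s.im|) ^ (-2 : ℝ) ≤ (1 + |s.im|) ^ (-(3 / 2 : ℝ)) :=
      Real.rpow_le_rpow_of_exponent_le (by linarith [abs_nonneg s.im]) (by norm_num)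
    have h4 : 1 / ‖s‖ ≤ 1 := by
      rw [div_le_one (by linarith)]; exact h1
    calc 1 / ‖s‖ * ‖(2:ℂ) / ((s + 1) * (s + 2))‖ ≤ 1 * (8 / (1 - 0) ^ 2 * (1 + |s.im|) ^ (-2 : ℝ)) := by gcongr
      _ ≤ 1 * (8 / (1 - 0) ^ 2 * (1 + |s.im|) ^ (-(3 / 2 : ℝ))) := by gcongr
      _ = _ := by norm_num

/-- the weight as an integral -/
lemma wt_inv (u : ℝ) : wt u = ∫ ξ : ℝ, Lap wt ((1:ℝ) + 2 * Real.pi * ξ * Complex.I) *
      Complex.exp (((1:ℝ) + 2 * Real.pi * ξ * Complex.I) * u) :=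
  inversion wt_nice one_pos wt_cont Lap_wt_int u

theorem A_formula {s : ℂ} (hs : 0 < s.re) (x : ℝ) :
    HasSum (At s x) (∫ ξ : ℝ, Lap wt ((1:ℝ) + 2 * Real.pi * ξ * Complex.I) *
      Complex.exp (((1:ℝ) + 2 * Real.pi * ξ * Complex.I) * x) * fz (s + ((1:ℝ) + 2 * Real.pi * ξ * Complex.I))) := by
  have hLint := Lap_wt_int
  set F : ℕ → ℝ → ℂ := fun m ξ => Lap wt ((1:ℝ) + 2 * Real.pi * ξ * Complex.I) *
      Complex.exp (((1:ℝ) + 2 * Real.pi * ξ * Complex.I) * x) *
      LSeries.term (fun n => ((ArithmeticFunction.moebius n : ℤ) : ℂ)) (s + ((1:ℝ) + 2 * Real.pi * ξ * Complex.I)) m with hF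
  have hFeq : ∀ m : ℕ, ∀ ξ : ℝ, F m ξ = LSeries.term (fun n => ((ArithmeticFunction.moebius n : ℤ) : ℂ)) s m *
      (Lap wt ((1:ℝ) + 2 * Real.pi * ξ * Complex.I) *
      Complex.exp (((1:ℝ) + 2 * Real.pi * ξ * Complex.I) * ((x - Real.log m : ℝ) : ℂ))) := by
    intro m ξ
    rcases Nat.eq_zero_or_pos m with rfl | hm
    · simp [hF, LSeries.term]
    · have hm0 : (m : ℂ) ≠ 0 := by exact_mod_cast hm.ne'
      rw [hF]
      simp only
      rw [LSeries.term_of_ne_zero hm.ne', LSeries.term_of_ne_zero hm.ne']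
      have e1 : Complex.exp (((1:ℝ) + 2 * Real.pi * ξ * Complex.I) * ((x - Real.log m : ℝ) : ℂ)) =
          Complex.exp (((1:ℝ) + 2 * Real.pi * ξ * Complex.I) * x) /
            (m : ℂ) ^ (((1:ℝ) : ℂ) + 2 * Real.pi * ξ * Complex.I) := by
        rw [Complex.cpow_def_of_ne_zero hm0, ← Complex.exp_sub]
        congr 1
        rw [Complex.ofReal_sub, Complex.natCast_log]
        ring
      rw [e1, Complex.cpow_add _ _ hm0]
      have h1 : (m:ℂ) ^ s ≠ 0 := by
        rw [Complex.cpow_def_of_ne_zero hm0]; exact Complex.exp_ne_zero _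
      have h2 : (m:ℂ) ^ (((1:ℝ) : ℂ) + 2 * Real.pi * ξ * Complex.I) ≠ 0 := by
        rw [Complex.cpow_def_of_ne_zero hm0]; exact Complex.exp_ne_zero _
      field_simp
  have hFnorm : ∀ m : ℕ, ∀ ξ : ℝ, ‖F m ξ‖ ≤ (Real.exp x * (1 / (m:ℝ) ^ (1 + s.re))) *
      ‖Lap wt ((1:ℝ) + 2 * Real.pi * ξ * Complex.I)‖ := by
    intro m ξ
    rw [hF]
    simp only
    rw [norm_mul, norm_mul]
    have e1 : ‖Complex.exp (((1:ℝ) + 2 * Real.pi * ξ * Complex.I) * x)‖ = Real.exp x := by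
      rw [Complex.norm_exp]; congr 1; simp
    have e2 : ‖LSeries.term (fun n => ((ArithmeticFunction.moebius n : ℤ) : ℂ))
        (s + (((1:ℝ) : ℂ) + 2 * Real.pi * ξ * Complex.I)) m‖ ≤ 1 / (m:ℝ) ^ (1 + s.re) := by
      rw [LSeries.norm_term_eq, Complex.add_re, line1_re, add_comm s.re]
      split_ifs with hm
      · positivity
      · have h1 : ‖((ArithmeticFunction.moebius m : ℤ) : ℂ)‖ ≤ 1 := by
          rw [Complex.norm_intCast]
          have := ArithmeticFunction.abs_moebius_le_one (n := m)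
          exact_mod_cast this
        gcongr
    rw [e1]
    have h3 : 0 ≤ ‖Lap wt ((1:ℝ) + 2 * Real.pi * ξ * Complex.I)‖ := norm_nonneg _
    have h4 : 0 < Real.exp x := Real.exp_pos _
    calc _ ≤ ‖Lap wt ((1:ℝ) + 2 * Real.pi * ξ * Complex.I)‖ * Real.exp x * (1 / (m:ℝ) ^ (1 + s.re)) := by
          gcongr
      _ = _ := by ring
  have hFint : ∀ m : ℕ, Integrable (F m) := by
    intro m
    refine (hLint.norm.const_mul (Real.exp x * (1 / (m:ℝ) ^ (1 + s.re)))).mono' ?_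
      (Eventually.of_forall fun ξ => hFnorm m ξ)
    have : F m = fun ξ : ℝ => LSeries.term (fun n => ((ArithmeticFunction.moebius n : ℤ) : ℂ)) s m *
      (Lap wt ((1:ℝ) + 2 * Real.pi * ξ * Complex.I) *
      Complex.exp (((1:ℝ) + 2 * Real.pi * ξ * Complex.I) * ((x - Real.log m : ℝ) : ℂ))) := by
      ext ξ; exact hFeq m ξ
    rw [this]
    refine AEStronglyMeasurable.const_mul ?_ _
    refine hLint.aestronglyMeasurable.mul (Continuous.aestronglyMeasurable ?_)
    fun_prop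
  have hFsum : Summable (fun m : ℕ => ∫ ξ, ‖F m ξ‖) := by
    refine Summable.of_nonneg_of_le (fun m => integral_nonneg fun ξ => norm_nonneg _)
      (f := fun m : ℕ => (Real.exp x * ∫ ξ : ℝ, ‖Lap wt ((1:ℝ) + 2 * Real.pi * ξ * Complex.I)‖) *
        (1 / (m:ℝ) ^ (1 + s.re))) ?_ ?_
    · intro m
      calc ∫ ξ, ‖F m ξ‖ ≤ ∫ ξ : ℝ, (Real.exp x * (1 / (m:ℝ) ^ (1 + s.re))) *
            ‖Lap wt ((1:ℝ) + 2 * Real.pi * ξ * Complex.I)‖ :=
            integral_mono (hFint m).norm (hLint.norm.const_mul _) (hFnorm m)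
        _ = _ := by rw [integral_const_mul]; ring
    · exact (Real.summable_one_div_nat_rpow.mpr (by linarith)).mul_left _
  have key := hasSum_integral_of_summable_integral_norm hFint hFsum
  have e1 : ∀ m : ℕ, ∫ ξ, F m ξ = At s x m := by
    intro m
    simp_rw [hFeq]
    rw [integral_const_mul]
    unfold At
    congr 1
    exact (wt_inv (x - Real.log m)).symm
  have e2 : ∫ ξ, ∑' m, F m ξ = ∫ ξ : ℝ, Lap wt ((1:ℝ) + 2 * Real.pi * ξ * Complex.I) *
      Complex.exp (((1:ℝ) + 2 * Real.pi * ξ * Complex.I) * x) * fz (s + ((1:ℝ) + 2 * Real.pi * ξ * Complex.I)) := by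
    refine integral_congr_ae (Eventually.of_forall fun ξ => ?_)
    simp only [hF]
    rw [tsum_mul_left]
    have h1 := (moebius_lseries (s := s + (((1:ℝ) : ℂ) + 2 * Real.pi * ξ * Complex.I))
      (by rw [Complex.add_re, line1_re]; linarith)).LSeries_eq
    unfold LSeries at h1
    rw [h1]
  simp_rw [e1] at key
  rw [e2] at key
  exact key

end

end Pool.Agent.N964.NB
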