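import Pool.Agent.N964.F2

/-! The truncated series approximates `1/ζ`. -/

set_option autoImplicit false

open MeasureTheory Filter Topology Set

namespace Pool.Agent.N964.NB

noncomputable section

open Pool.Agent.H295R2

/-- the integrand after subtracting the polar part -/
def Hk (s : ℂ) (x : ℝ) (z : ℂ) : ℂ := kr z * Complex.exp (z * x) * dslope (fun w => fz (s + w)) 0 z

lemma one_add_abs_mul (a b : ℝ) : 1 + |a + b| ≤ (1 + |a|) * (1 + |b|) := by
  have h := abs_add_le a b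
  nlinarith [abs_nonneg a, abs_nonneg b, mul_nonneg (abs_nonneg a) (abs_nonneg b)]

theorem A_diff {θ θ' ε σ : ℝ} (hθ : 1 / 4 ≤ θ) (hz : ∀ s : ℂ, θ < s.re → Zs s ≠ 0) (hθ' : θ < θ')
    (hσ : θ' < σ) (hσ1 : σ ≤ 1) (hε : 0 < ε) (hε1 : ε ≤ 1 / 2) :
    ∃ C : ℝ, 0 < C ∧ ∀ s : ℂ, s.re = σ → ∀ x : ℝ,
      ‖∑' m, At s x m - wt x * fz s‖ ≤ C * Real.exp (-((σ - θ') * x)) * (1 + |s.im|) ^ ε := by
  obtain ⟨Cf, hCf0, hCf⟩ := fz_bound hθ hz hθ' hε
  set b : ℝ := σ - θ' with hb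
  have hb0 : 0 < b := by rw [hb]; linarith
  have hb1 : b < 1 := by rw [hb]; linarith
  set I0 : ℝ := ∫ ξ : ℝ, (1 + |2 * Real.pi * ξ|) ^ (-(3 / 2 : ℝ)) with hI0
  have hI0' : 0 ≤ I0 := integral_nonneg fun ξ => by positivity
  have hb1' : 0 < 1 - b := by linarith
  refine ⟨8 / (1 - b) ^ 2 * (2 * Cf / b) * I0 + 1, by positivity, fun s hs x => ?_⟩
  have hs0 : 0 < s.re := by rw [hs]; linarith
  set f : ℂ → ℂ := fun w => fz (s + w) with hf
  set T : ℝ := (1 + |s.im|) ^ ε with hT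
  have hT1 : 1 ≤ T := Real.one_le_rpow (by linarith [abs_nonneg s.im]) hε.le
  -- bounds for f
  have hfb : ∀ z : ℂ, -b ≤ z.re → z.re ≤ 1 → ‖f z‖ ≤ Cf * T * (1 + |z.im|) ^ (1 / 2 : ℝ) := by
    intro z h1 h2
    have h3 := hCf (s + z) (by rw [Complex.add_re, hs, hb] at *; linarith) (by rw [Complex.add_re, hs]; linarith)
    refine h3.trans ?_
    rw [mul_assoc]
    gcongr
    rw [Complex.add_im]
    calc (1 + |s.im + z.im|) ^ ε ≤ ((1 + |s.im|) * (1 + |z.im|)) ^ ε := by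
          gcongr
          exact one_add_abs_mul _ _
      _ = T * (1 + |z.im|) ^ ε := by rw [Real.mul_rpow (by positivity) (by positivity)]
      _ ≤ T * (1 + |z.im|) ^ (1 / 2 : ℝ) := by
          gcongr
          linarith [abs_nonneg z.im]
  have hf0 : ‖f 0‖ ≤ Cf * T := by
    have h3 := hCf s (by rw [hs]; exact hσ.le) (by rw [hs]; linarith)
    rw [hf]
    simpa using h3
  -- the open half plane
  set U : Set ℂ := {z : ℂ | θ - σ < z.re} with hU
  have hUo : IsOpen U := isOpen_lt continuous_const Complex.continuous_re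
  have h0U : (0:ℂ) ∈ U := by
    rw [hU, mem_ofPred_eq, Complex.zero_re]; linarith
  have hfd : DifferentiableOn ℂ f U := by
    intro z hzU
    rw [hU, mem_ofPred_eq] at hzU
    have h1 : DifferentiableAt ℂ fz (s + z) := fz_differentiableAt (hz _ (by rw [Complex.add_re, hs]; linarith))
    have h2 : DifferentiableAt ℂ (fun w : ℂ => s + w) z := by fun_prop
    exact (h1.comp z h2).differentiableWithinAt
  have hds : DifferentiableOn ℂ (dslope f 0) U :=
    (Complex.differentiableOn_dslope (hUo.mem_nhds h0U)).2 hfd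
  have hsubU : ∀ z : ℂ, -b ≤ z.re → z ∈ U := by
    intro z h
    rw [hU, mem_ofPred_eq]
    rw [hb] at h
    linarith
  have hHd : ∀ z : ℂ, -b ≤ z.re → z.re ≤ 1 → DifferentiableAt ℂ (Hk s x) z := by
    intro z h1 _
    unfold Hk
    have e1 : DifferentiableAt ℂ kr z := kr_diff (by linarith)
    have e2 : DifferentiableAt ℂ (dslope f 0) z := (hds z (hsubU z h1)).differentiableAt (hUo.mem_nhds (hsubU z h1))
    have e3 : DifferentiableAt ℂ (fun z : ℂ => Complex.exp (z * x)) z := by fun_prop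
    exact (e1.mul e3).mul e2
  -- boundedness of dslope on the compact part
  have hcomp : ∃ B0 : ℝ, ∀ z ∈ (Icc (-b) 1 ×ℂ Icc (-1) 1), ‖dslope f 0 z‖ ≤ B0 := by
    refine IsCompact.exists_bound_of_continuousOn ?_ ?_
    · exact IsCompact.reProdIm isCompact_Icc isCompact_Icc
    · refine hds.continuousOn.mono fun z hz1 => ?_
      rw [Complex.mem_reProdIm] at hz1
      exact hsubU z hz1.1.1
  obtain ⟨B0, hB0⟩ := hcomp
  have hdsn : ∀ z : ℂ, z ≠ 0 → ‖dslope f 0 z‖ ≤ (‖f z‖ + ‖f 0‖) / ‖z‖ := by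
    intro z hz0
    rw [dslope_of_ne _ hz0, slope_def_field, sub_zero, norm_div]
    gcongr
    exact norm_sub_le _ _
  have hpow1 : ∀ y : ℝ, 1 ≤ (1 + |y|) ^ (1 / 2 : ℝ) := fun y =>
    Real.one_le_rpow (by linarith [abs_nonneg y]) (by norm_num)
  have hdsb : ∀ z : ℂ, -b ≤ z.re → z.re ≤ 1 → ‖dslope f 0 z‖ ≤ (|B0| + 2 * Cf * T) * (1 + |z.im|) ^ (1 / 2 : ℝ) := by
    intro z h1 h2
    rcases le_or_gt |z.im| 1 with h | h
    · have h3 := hB0 z (by
        rw [Complex.mem_reProdIm]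
        exact ⟨⟨h1, h2⟩, abs_le.1 h⟩)
      have h4 := le_abs_self B0
      have h5 := hpow1 z.im
      have h6 : 0 ≤ 2 * Cf * T := by positivity
      nlinarith [abs_nonneg B0]
    · have hz0 : z ≠ 0 := by
        rintro rfl
        simp at h
        linarith
      have hz1 : 1 ≤ ‖z‖ := h.le.trans (Complex.abs_im_le_norm z)
      have h3 := hdsn z hz0
      have h4 := hfb z h1 h2
      have h5 := hpow1 z.im
      calc ‖dslope f 0 z‖ ≤ (‖f z‖ + ‖f 0‖) / ‖z‖ := h3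
        _ ≤ (‖f z‖ + ‖f 0‖) / 1 := by gcongr
        _ ≤ Cf * T * (1 + |z.im|) ^ (1 / 2 : ℝ) + Cf * T := by rw [div_one]; gcongr
        _ ≤ (|B0| + 2 * Cf * T) * (1 + |z.im|) ^ (1 / 2 : ℝ) := by
          have h6 : 0 ≤ Cf * T := by positivity
          nlinarith [abs_nonneg B0, mul_nonneg h6 (sub_nonneg.2 h5), mul_nonneg (abs_nonneg B0) (zero_le_one.trans h5)]
  have hHb : ∀ z : ℂ, -b ≤ z.re → z.re ≤ 1 →
      ‖Hk s x z‖ ≤ (8 / (1 - b) ^ 2 * Real.exp |x| * (|B0| + 2 * Cf * T)) * (1 + |z.im|) ^ (-(3 / 2 : ℝ)) := by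
    intro z h1 h2
    have h3 := kr_bound hb0.le hb1 h1
    have h4 := hdsb z h1 h2
    have h5 : ‖Complex.exp (z * x)‖ ≤ Real.exp |x| := by
      rw [Complex.norm_exp]
      apply Real.exp_le_exp.mpr
      simp only [Complex.mul_re, Complex.ofReal_re, Complex.ofReal_im, mul_zero, sub_zero]
      have h6 : |z.re| ≤ 1 := abs_le.2 ⟨by linarith, h2⟩
      calc z.re * x ≤ |z.re * x| := le_abs_self _
        _ = |z.re| * |x| := abs_mul _ _
        _ ≤ 1 * |x| := by gcongr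
        _ = |x| := one_mul _
    have e1 : (1 + |z.im|) ^ (-2 : ℝ) * (1 + |z.im|) ^ (1 / 2 : ℝ) = (1 + |z.im|) ^ (-(3 / 2 : ℝ)) := by
      rw [← Real.rpow_add (by positivity)]
      norm_num
    unfold Hk
    rw [norm_mul, norm_mul]
    calc ‖kr z‖ * ‖Complex.exp (z * x)‖ * ‖dslope f 0 z‖
        ≤ (8 / (1 - b) ^ 2 * (1 + |z.im|) ^ (-2 : ℝ)) * Real.exp |x| * ((|B0| + 2 * Cf * T) * (1 + |z.im|) ^ (1 / 2 : ℝ)) := by
          gcongr
      _ = (8 / (1 - b) ^ 2 * Real.exp |x| * (|B0| + 2 * Cf * T)) * ((1 + |z.im|) ^ (-2 : ℝ) * (1 + |z.im|) ^ (1 / 2 : ℝ)) := by ring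
      _ = _ := by rw [e1]
  -- shift
  have hshift := contour_shift (by linarith : -b ≤ 1) hHd hHb
  have hint1 : Integrable (fun ξ : ℝ => Hk s x ((1:ℝ) + 2 * Real.pi * ξ * Complex.I)) := by
    refine scale_integrable (vertical_integrable (fun z hz1 => (hHd z (by linarith) hz1.le).continuousAt)
      (fun z hz1 => hHb z (by linarith) hz1.le))
  have hline1 : ∀ ξ : ℝ, Hk s x ((1:ℝ) + 2 * Real.pi * ξ * Complex.I) =
      Lap wt ((1:ℝ) + 2 * Real.pi * ξ * Complex.I) * Complex.exp (((1:ℝ) + 2 * Real.pi * ξ * Complex.I) * x) *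
        fz (s + ((1:ℝ) + 2 * Real.pi * ξ * Complex.I)) -
      fz s * (Lap wt ((1:ℝ) + 2 * Real.pi * ξ * Complex.I) * Complex.exp (((1:ℝ) + 2 * Real.pi * ξ * Complex.I) * x)) := by
    intro ξ
    have hre := line1_re ξ
    set z : ℂ := ((1:ℝ) : ℂ) + 2 * Real.pi * ξ * Complex.I with hzdef
    have hz0 : z ≠ 0 := by
      intro h
      rw [h] at hre
      simp at hre
    have hzz1 : z + 1 ≠ 0 := by
      intro h
      have := congrArg Complex.re h
      rw [Complex.add_re, hre] at this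
      norm_num at this
    have hzz2 : z + 2 ≠ 0 := by
      intro h
      have := congrArg Complex.re h
      rw [Complex.add_re, hre] at this
      norm_num at this
    unfold Hk kr
    rw [Lap_wt (by rw [hre]; exact one_pos), dslope_of_ne _ hz0, slope_def_field, sub_zero, add_zero]
    field_simp
  have hint2 : Integrable (fun ξ : ℝ => fz s * (Lap wt ((1:ℝ) + 2 * Real.pi * ξ * Complex.I) *
      Complex.exp (((1:ℝ) + 2 * Real.pi * ξ * Complex.I) * x))) := by
    refine Integrable.const_mul ?_ _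
    refine (Lap_wt_int.norm.const_mul (Real.exp x)).mono' ?_ (Eventually.of_forall fun ξ => ?_)
    · exact Lap_wt_int.aestronglyMeasurable.mul (Continuous.aestronglyMeasurable (by fun_prop))
    · rw [norm_mul]
      have e1 : ‖Complex.exp (((1:ℝ) + 2 * Real.pi * ξ * Complex.I) * x)‖ = Real.exp x := by
        rw [Complex.norm_exp]; congr 1; simp
      rw [e1, mul_comm]
  have hsum := (A_formula hs0 x).tsum_eq
  have hval : ∑' m, At s x m - wt x * fz s = ∫ ξ : ℝ, Hk s x ((1:ℝ) + 2 * Real.pi * ξ * Complex.I) := by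
    have h1 : ∫ ξ : ℝ, Lap wt ((1:ℝ) + 2 * Real.pi * ξ * Complex.I) *
      Complex.exp (((1:ℝ) + 2 * Real.pi * ξ * Complex.I) * x) * fz (s + ((1:ℝ) + 2 * Real.pi * ξ * Complex.I)) =
      (∫ ξ : ℝ, Hk s x ((1:ℝ) + 2 * Real.pi * ξ * Complex.I)) + ∫ ξ : ℝ, fz s * (Lap wt ((1:ℝ) + 2 * Real.pi * ξ * Complex.I) *
      Complex.exp (((1:ℝ) + 2 * Real.pi * ξ * Complex.I) * x)) := by
      rw [← integral_add hint1 hint2]
      refine integral_congr_ae (Eventually.of_forall fun ξ => ?_)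
      simp only
      rw [hline1 ξ]
      ring
    rw [hsum, h1, integral_const_mul, ← wt_inv x]
    ring
  have hsh2 : ∫ ξ : ℝ, Hk s x ((1:ℝ) + 2 * Real.pi * ξ * Complex.I) =
      ∫ ξ : ℝ, Hk s x ((-b:ℝ) + 2 * Real.pi * ξ * Complex.I) := by
    rw [scale_integral, scale_integral, hshift]
  rw [hval, hsh2]
  -- final bound
  have hfin : ∀ ξ : ℝ, ‖Hk s x ((-b:ℝ) + 2 * Real.pi * ξ * Complex.I)‖ ≤
      (8 / (1 - b) ^ 2 * (2 * Cf / b) * Real.exp (-(b * x)) * T) * (1 + |2 * Real.pi * ξ|) ^ (-(3 / 2 : ℝ)) := by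
    intro ξ
    have hre := line_re (-b) ξ
    have him := line_im (-b) ξ
    set z : ℂ := ((-b:ℝ) : ℂ) + 2 * Real.pi * ξ * Complex.I with hzdef
    have hzb : b ≤ ‖z‖ := by
      have := Complex.abs_re_le_norm z
      rw [hre, abs_neg, abs_of_pos hb0] at this
      exact this
    have hz0 : z ≠ 0 := by
      intro h
      rw [h, norm_zero] at hzb
      linarith
    have h3 := kr_bound hb0.le hb1 hre.ge
    have h4 := hdsn z hz0
    have h5 := hfb z hre.ge (by rw [hre]; linarith)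
    have h6 := hpow1 z.im
    have h7 : ‖dslope f 0 z‖ ≤ (2 * Cf / b * T) * (1 + |z.im|) ^ (1 / 2 : ℝ) := by
      calc ‖dslope f 0 z‖ ≤ (‖f z‖ + ‖f 0‖) / ‖z‖ := h4
        _ ≤ (‖f z‖ + ‖f 0‖) / b := by gcongr
        _ ≤ (Cf * T * (1 + |z.im|) ^ (1 / 2 : ℝ) + Cf * T * (1 + |z.im|) ^ (1 / 2 : ℝ)) / b := by
          gcongr
          refine hf0.trans ?_
          have : 0 ≤ Cf * T := by positivity
          nlinarith
        _ = _ := by ring
    have e1 : (1 + |z.im|) ^ (-2 : ℝ) * (1 + |z.im|) ^ (1 / 2 : ℝ) = (1 + |z.im|) ^ (-(3 / 2 : ℝ)) := by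
      rw [← Real.rpow_add (by positivity)]
      norm_num
    have e2 : ‖Complex.exp (z * x)‖ = Real.exp (-(b * x)) := by
      rw [Complex.norm_exp]; congr 1
      simp only [Complex.mul_re, Complex.ofReal_re, Complex.ofReal_im, mul_zero, sub_zero, hre]
      ring
    unfold Hk
    rw [norm_mul, norm_mul, e2, ← him]
    calc ‖kr z‖ * Real.exp (-(b * x)) * ‖dslope f 0 z‖
        ≤ (8 / (1 - b) ^ 2 * (1 + |z.im|) ^ (-2 : ℝ)) * Real.exp (-(b * x)) * ((2 * Cf / b * T) * (1 + |z.im|) ^ (1 / 2 : ℝ)) := by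
          gcongr
      _ = (8 / (1 - b) ^ 2 * (2 * Cf / b) * Real.exp (-(b * x)) * T) * ((1 + |z.im|) ^ (-2 : ℝ) * (1 + |z.im|) ^ (1 / 2 : ℝ)) := by ring
      _ = _ := by rw [e1]
  have hI := norm_integral_le_of_norm_le ((integrable_decay' (by norm_num : (1:ℝ) < 3 / 2)).const_mul
    (8 / (1 - b) ^ 2 * (2 * Cf / b) * Real.exp (-(b * x)) * T)) (Eventually.of_forall hfin)
  refine hI.trans ?_
  rw [integral_const_mul, ← hI0]
  have h8 : 0 < Real.exp (-(b * x)) := Real.exp_pos _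
  have h9 : 0 < Real.exp (-(b * x)) * T := by positivity
  nlinarith

end

end Pool.Agent.N964.NB
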