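import Pool.Agent.N964.E4
import Pool.Agent.H295R2.M

/-! The Laplace transform of the error function. -/

set_option autoImplicit false

open MeasureTheory Filter Topology Set

namespace Pool.Agent.N964.NB

noncomputable section

open Pool.Agent.H295R2

lemma change_exp (F : ℝ → ℂ) : ∫ x in Ioi (0:ℝ), F x = ∫ u : ℝ, (Real.exp u : ℂ) * F (Real.exp u) := by
  have himg : Real.exp '' univ = Ioi 0 := by
    rw [image_univ, Real.range_exp]
  have hd : ∀ u ∈ (univ : Set ℝ), HasDerivWithinAt Real.exp (Real.exp u) univ u := by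
    intro u _
    exact (Real.hasDerivAt_exp u).hasDerivWithinAt
  have hinj : InjOn Real.exp univ := Real.exp_injective.injOn
  have h := integral_image_eq_integral_abs_deriv_smul MeasurableSet.univ hd hinj F
  rw [himg] at h
  rw [h, setIntegral_univ]
  congr 1
  ext u
  rw [abs_of_pos (Real.exp_pos _), Complex.real_smul]

lemma Lap_comp_exp (g : ℝ → ℂ) (s : ℂ) :
    Lap (fun u => g (Real.exp u)) s = ∫ t in Ioi (0:ℝ), g t * (t : ℂ) ^ (-(s + 1)) := by
  rw [change_exp]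
  unfold Lap
  congr 1
  ext u
  have e2 : ((Real.exp u : ℝ) : ℂ) ^ (-(s + 1)) = Complex.exp (-(s * u)) * Complex.exp (-(u:ℂ)) := by
    rw [Complex.cpow_def_of_ne_zero (by exact_mod_cast (Real.exp_pos _).ne'),
      ← Complex.ofReal_log (Real.exp_pos _).le, Real.log_exp, ← Complex.exp_add]
    congr 1
    ring
  rw [e2]
  have e3 : ((Real.exp u : ℝ) : ℂ) * Complex.exp (-(u:ℂ)) = 1 := by
    rw [Complex.ofReal_exp, ← Complex.exp_add]
    simp
  linear_combination (-(g (Real.exp u)) * Complex.exp (-(s * u))) * e3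

/-- the fractional part of `e^u / n` for `u ≥ 0` -/
def psn (n : ℕ) (u : ℝ) : ℂ := if 1 ≤ Real.exp u then ((Int.fract (Real.exp u / n) : ℝ) : ℂ) else 0

lemma psn_nice (n : ℕ) : Nice (psn n) 1 0 0 where
  meas := by
    unfold psn
    refine Measurable.ite (measurableSet_le measurable_const Real.measurable_exp) ?_ measurable_const
    exact Complex.measurable_ofReal.comp (measurable_fract.comp (Real.measurable_exp.div_const _))
  bound := by
    intro u
    unfold psn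
    rw [zero_mul, Real.exp_zero, mul_one]
    split_ifs with h
    · rw [Complex.norm_real, Real.norm_of_nonneg (Int.fract_nonneg _)]
      exact (Int.fract_lt_one _).le
    · simp
  zero := by
    intro u hu
    unfold psn
    rw [if_neg]
    rw [not_le]
    rw [← Real.exp_zero]
    exact Real.exp_lt_exp.2 hu

lemma fract_int {s : ℂ} (hs : 0 < s.re) {c : ℝ} (hc : 0 < c) :
    IntegrableOn (fun v : ℝ => ((Int.fract v : ℝ) : ℂ) * (v : ℂ) ^ (-(s + 1))) (Ioi c) := by
  refine Integrable.mono' (integrableOn_Ioi_rpow_of_lt (a := -s.re - 1) (by linarith) hc) ?_ ?_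
  · refine AEStronglyMeasurable.mul ?_ ?_
    · exact (Complex.measurable_ofReal.comp measurable_fract).aestronglyMeasurable
    · refine ContinuousOn.aestronglyMeasurable ?_ measurableSet_Ioi
      intro v hv
      have hv0 : 0 < v := hc.trans hv
      have h1 : ContinuousAt (fun v : ℝ => (v:ℂ) ^ (-(s + 1))) v :=
        Complex.continuousAt_ofReal_cpow_const _ _ (Or.inr hv0.ne')
      exact h1.continuousWithinAt
  · refine (ae_restrict_mem measurableSet_Ioi).mono fun t ht => ?_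
    have ht0 : 0 < t := hc.trans ht
    rw [norm_mul, Complex.norm_real, Real.norm_of_nonneg (Int.fract_nonneg t),
      Complex.norm_cpow_eq_rpow_re_of_pos ht0]
    have h2 : (-(s + 1)).re = -s.re - 1 := by simp; ring
    rw [h2]
    have h3 : 0 ≤ t ^ (-s.re - 1) := (Real.rpow_pos_of_pos ht0 _).le
    have h4 := (Int.fract_lt_one t).le
    calc Int.fract t * t ^ (-s.re - 1) ≤ 1 * t ^ (-s.re - 1) := mul_le_mul_of_nonneg_right h4 h3
      _ = _ := one_mul _

lemma frac_integral {s : ℂ} (hs : 0 < s.re) (hs1 : s ≠ 1) {c : ℝ} (hc : 0 < c) (hc1 : c ≤ 1) :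
    ∫ v in Ioi c, ((Int.fract v : ℝ) : ℂ) * (v : ℂ) ^ (-(s + 1)) =
      (1 - (c:ℂ) ^ (1 - s)) / (1 - s) + Hf s := by
  have hint := fract_int hs hc
  rw [← Ioc_union_Ioi_eq_Ioi hc1, setIntegral_union Ioc_disjoint_Ioi_same measurableSet_Ioi
    (hint.mono_set Ioc_subset_Ioi_self) (hint.mono_set (Ioi_subset_Ioi hc1)), ← Hf_eq]
  congr 1
  have h1s : 1 - s ≠ 0 := sub_ne_zero.2 (Ne.symm hs1)
  have h1 : ∫ v in Ioc c 1, ((Int.fract v : ℝ) : ℂ) * (v : ℂ) ^ (-(s + 1)) = ∫ v in Ioc c 1, (v : ℂ) ^ (-s) := by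
    rw [integral_Ioc_eq_integral_Ioo, integral_Ioc_eq_integral_Ioo]
    refine setIntegral_congr_fun measurableSet_Ioo fun v hv => ?_
    have hv0 : 0 < v := hc.trans hv.1
    have hfr : Int.fract v = v := Int.fract_eq_self.2 ⟨hv0.le, hv.2⟩
    simp only [hfr]
    have e : -s = 1 + -(s + 1) := by ring
    rw [e, Complex.cpow_add _ _ (by exact_mod_cast hv0.ne'), Complex.cpow_one]
  rw [h1, ← intervalIntegral.integral_of_le hc1, integral_cpow]
  · have e : -s + 1 = 1 - s := by ring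
    rw [e, Complex.ofReal_one, Complex.one_cpow]
  · right
    refine ⟨?_, ?_⟩
    · intro h
      apply hs1
      linear_combination -h
    · rw [uIcc_of_le hc1]
      intro h
      exact absurd h.1 (not_le.2 hc)

lemma Lap_psn {s : ℂ} (hs : 0 < s.re) (hs1 : s ≠ 1) {n : ℕ} (hn : 1 ≤ n) :
    Lap (psn n) s = ((n:ℂ) ^ (-s) - 1 / n) / (1 - s) + (n:ℂ) ^ (-s) * Hf s := by
  have hn0 : (0:ℝ) < n := by exact_mod_cast hn
  have hnc : (n:ℂ) ≠ 0 := by exact_mod_cast hn0.ne'
  have h1s : 1 - s ≠ 0 := sub_ne_zero.2 (Ne.symm hs1)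
  have h1 : Lap (psn n) s = ∫ t in Ioi (1:ℝ), ((Int.fract (t / n) : ℝ) : ℂ) * (t : ℂ) ^ (-(s + 1)) := by
    have e1 : Lap (psn n) s = ∫ t in Ioi (0:ℝ), (if 1 ≤ t then ((Int.fract (t / n) : ℝ) : ℂ) else 0) * (t : ℂ) ^ (-(s + 1)) :=
      Lap_comp_exp (fun t : ℝ => if 1 ≤ t then ((Int.fract (t / n) : ℝ) : ℂ) else 0) s
    rw [e1]
    have e2 : ∀ t : ℝ, (if 1 ≤ t then ((Int.fract (t / n) : ℝ) : ℂ) else 0) * (t : ℂ) ^ (-(s + 1)) =
        (Ici (1:ℝ)).indicator (fun t : ℝ => ((Int.fract (t / n) : ℝ) : ℂ) * (t : ℂ) ^ (-(s + 1))) t := by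
      intro t
      by_cases ht : 1 ≤ t
      · rw [if_pos ht, indicator_of_mem (by exact ht)]
      · rw [if_neg ht, indicator_of_notMem (by exact ht), zero_mul]
    simp_rw [e2]
    rw [setIntegral_indicator measurableSet_Ici,
      inter_eq_self_of_subset_right (Ici_subset_Ioi.2 (one_pos : (0:ℝ) < 1)),
      integral_Ici_eq_integral_Ioi]
  rw [h1]
  have h2 := integral_comp_mul_left_Ioi (fun t : ℝ => ((Int.fract (t / n) : ℝ) : ℂ) * (t : ℂ) ^ (-(s + 1))) (1 / n) hn0
  rw [mul_one_div_cancel hn0.ne'] at h2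
  have h3 : ∫ t in Ioi (1:ℝ), ((Int.fract (t / n) : ℝ) : ℂ) * (t : ℂ) ^ (-(s + 1)) =
      (n:ℂ) * ∫ v in Ioi (1 / (n:ℝ)), ((Int.fract ((n * v) / n) : ℝ) : ℂ) * ((n * v : ℝ) : ℂ) ^ (-(s + 1)) := by
    rw [h2, Complex.real_smul]
    push_cast
    rw [← mul_assoc, mul_inv_cancel₀ hnc, one_mul]
  have h4 : ∫ v in Ioi (1 / (n:ℝ)), ((Int.fract ((n * v) / n) : ℝ) : ℂ) * ((n * v : ℝ) : ℂ) ^ (-(s + 1)) =
      (n:ℂ) ^ (-(s + 1)) * ∫ v in Ioi (1 / (n:ℝ)), ((Int.fract v : ℝ) : ℂ) * (v : ℂ) ^ (-(s + 1)) := by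
    rw [← integral_const_mul]
    refine setIntegral_congr_fun measurableSet_Ioi fun v hv => ?_
    have hv0 : 0 < v := lt_trans (by positivity) hv
    rw [mul_div_cancel_left₀ _ hn0.ne', Complex.ofReal_mul, Complex.mul_cpow_ofReal_nonneg hn0.le hv0.le]
    push_cast
    ring
  have hc1 : 1 / (n:ℝ) ≤ 1 := by
    rw [div_le_one hn0]; exact_mod_cast hn
  rw [h3, h4, frac_integral hs hs1 (by positivity) hc1]
  have e5 : (n:ℂ) * (n:ℂ) ^ (-(s + 1)) = (n:ℂ) ^ (-s) := by
    nth_rewrite 1 [← Complex.cpow_one (n:ℂ)]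
    rw [← Complex.cpow_add _ _ hnc]
    congr 1; ring
  have e6 : (n:ℂ) ^ (-s) * ((1 / (n:ℝ) : ℝ) : ℂ) ^ (1 - s) = 1 / n := by
    rw [one_div, Complex.ofReal_inv, Complex.ofReal_natCast, Complex.inv_cpow, ← Complex.cpow_neg,
      ← Complex.cpow_add _ _ hnc]
    · have : -s + -(1 - s) = -1 := by ring
      rw [this, Complex.cpow_neg_one, one_div]
    · rw [Complex.natCast_arg]
      exact Real.pi_pos.ne
  rw [← mul_assoc, e5, mul_add, mul_div_assoc', mul_sub, mul_one, e6]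

/-- the error function in the logarithmic variable -/
def kE (a : ℕ → ℝ) (N : ℕ) (u : ℝ) : ℂ := if 0 ≤ u then ((Er a N ⌊Real.exp u⌋₊ : ℝ) : ℂ) else 0

lemma kE_eq {a : ℕ → ℝ} {N : ℕ} (ha : ∑ n ∈ Finset.Icc 1 N, a n / n = 0) (u : ℝ) :
    kE a N u = step u + ∑ n ∈ Finset.Icc 1 N, (a n : ℂ) * psn n u := by
  unfold kE step psn
  by_cases hu : 0 ≤ u
  · have h1 : 1 ≤ Real.exp u := Real.one_le_exp hu
    simp only [if_pos hu, if_pos h1]
    have h2 : Er a N ⌊Real.exp u⌋₊ = 1 + ∑ n ∈ Finset.Icc 1 N, a n * Int.fract (Real.exp u / n) := by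
      unfold Er
      have h3 : ∀ n ∈ Finset.Icc 1 N, a n * ((⌊Real.exp u⌋₊ / n : ℕ) : ℝ) =
          (a n / n) * Real.exp u - a n * Int.fract (Real.exp u / n) := by
        intro n hn
        rw [Finset.mem_Icc] at hn
        have hn0 : (0:ℝ) < n := by exact_mod_cast hn.1
        have h4 : ((⌊Real.exp u⌋₊ / n : ℕ) : ℝ) = Real.exp u / n - Int.fract (Real.exp u / n) := by
          rw [← Nat.floor_div_natCast, Int.self_sub_fract, natCast_floor_eq_intCast_floor (by positivity)]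
        rw [h4]
        field_simp
      rw [Finset.sum_congr rfl h3, Finset.sum_sub_distrib, ← Finset.sum_mul, ha]
      ring
    rw [h2]
    push_cast
    ring
  · have h1 : ¬ 1 ≤ Real.exp u := by
      rw [not_le, ← Real.exp_zero]
      exact Real.exp_lt_exp.2 (not_le.1 hu)
    simp only [if_neg hu, if_neg h1, mul_zero, Finset.sum_const_zero, add_zero]

lemma kE_nice {a : ℕ → ℝ} {N : ℕ} (ha : ∑ n ∈ Finset.Icc 1 N, a n / n = 0) :
    Nice (kE a N) (1 + ∑ n ∈ Finset.Icc 1 N, |a n|) 0 0 where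
  meas := by
    have h : kE a N = fun u => step u + ∑ n ∈ Finset.Icc 1 N, (a n : ℂ) * psn n u := by
      ext u; exact kE_eq ha u
    rw [h]
    refine step_nice.meas.add (Finset.measurable_sum _ fun n _ => ?_)
    exact (psn_nice n).meas.const_mul _
  bound := by
    intro u
    rw [kE_eq ha u]
    have h1 := step_nice.bound u
    rw [zero_mul, Real.exp_zero, mul_one] at h1 ⊢
    refine (norm_add_le _ _).trans (add_le_add h1 ?_)
    refine (norm_sum_le _ _).trans (Finset.sum_le_sum fun n _ => ?_)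
    have h2 := (psn_nice n).bound u
    rw [zero_mul, Real.exp_zero, mul_one] at h2
    rw [norm_mul, Complex.norm_real, Real.norm_eq_abs]
    calc |a n| * ‖psn n u‖ ≤ |a n| * 1 := by gcongr
      _ = |a n| := mul_one _
  zero := by
    intro u hu
    unfold kE
    rw [if_neg (not_le.2 hu)]

/-- the Dirichlet polynomial -/
def Dp (a : ℕ → ℝ) (N : ℕ) (s : ℂ) : ℂ := ∑ n ∈ Finset.Icc 1 N, (a n : ℂ) * (n:ℂ) ^ (-s)

lemma Lap_kE {a : ℕ → ℝ} {N : ℕ} (ha : ∑ n ∈ Finset.Icc 1 N, a n / n = 0) {s : ℂ} (hs : 0 < s.re) (hs1 : s ≠ 1)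
    (hZ : Zs s ≠ 0) : Lap (kE a N) s = riemannZeta s / s * (fz s - Dp a N s) := by
  have hs0 : s ≠ 0 := by rintro rfl; simp at hs
  have h1s : 1 - s ≠ 0 := sub_ne_zero.2 (Ne.symm hs1)
  have hs1' : s - 1 ≠ 0 := sub_ne_zero.2 hs1
  have h1 : Lap (kE a N) s = Lap step s + ∑ n ∈ Finset.Icc 1 N, (a n : ℂ) * Lap (psn n) s := by
    have e1 : ∀ u : ℝ, kE a N u * Complex.exp (-(s * u)) = step u * Complex.exp (-(s * u)) +
        ∑ n ∈ Finset.Icc 1 N, (a n : ℂ) * (psn n u * Complex.exp (-(s * u))) := by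
      intro u
      rw [kE_eq ha u, add_mul, Finset.sum_mul]
      congr 1
      exact Finset.sum_congr rfl fun n _ => by ring
    unfold Lap
    rw [integral_congr_ae (Eventually.of_forall e1), integral_add (step_nice.integrable hs), integral_finset_sum]
    · congr 1
      exact Finset.sum_congr rfl fun n _ => integral_const_mul _ _
    · intro n _
      exact ((psn_nice n).integrable hs).const_mul _
    · exact integrable_finset_sum _ fun n _ => ((psn_nice n).integrable hs).const_mul _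
  have h2 : ∑ n ∈ Finset.Icc 1 N, (a n : ℂ) * Lap (psn n) s = (1 / (1 - s) + Hf s) * Dp a N s := by
    have e1 : ∀ n ∈ Finset.Icc 1 N, (a n : ℂ) * Lap (psn n) s =
        (1 / (1 - s) + Hf s) * ((a n : ℂ) * (n:ℂ) ^ (-s)) - (1 / (1 - s)) * ((a n / n : ℝ) : ℂ) := by
      intro n hn
      rw [Finset.mem_Icc] at hn
      rw [Lap_psn hs hs1 hn.1]
      push_cast
      ring
    rw [Finset.sum_congr rfl e1, Finset.sum_sub_distrib, ← Finset.mul_sum, ← Finset.mul_sum, ← Complex.ofReal_sum, ha]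
    unfold Dp
    simp
  have hZt : Zs s = s - s * (s - 1) * Hf s := Zs_eq_Zt hs
  have hzeta : riemannZeta s = Zs s / (s - 1) := by
    rw [← Zs_eq hs1]
    field_simp
  rw [h1, Lap_step hs, h2, hzeta]
  unfold fz
  have hH : Hf s = (s - Zs s) / (s * (s - 1)) := by
    rw [hZt]
    field_simp
    ring
  rw [hH]
  have e : (1:ℂ) - s = -(s - 1) := by ring
  rw [e]
  field_simp
  ring

end

end Pool.Agent.N964.NB
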