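import Pool.Agent.N964.F3
import Pool.Agent.N964.F4

/-! The coefficients and the approximation of `1/ζ`. -/

set_option autoImplicit false

open MeasureTheory Filter Topology Set

namespace Pool.Agent.N964.NB

noncomputable section

open Pool.Agent.H295R2

/-- smoothed Möbius coefficients -/
def al (N n : ℕ) : ℝ := mu n * (1 - n / N) ^ 2

/-- the harmonic sum of the coefficients -/
def gN (N : ℕ) : ℝ := ∑ n ∈ Finset.Icc 1 N, al N n / n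

/-- corrected coefficients -/
def aN (N n : ℕ) : ℝ := al N n - if n = N then N * gN N else 0

lemma aN_sum {N : ℕ} (hN : 1 ≤ N) : ∑ n ∈ Finset.Icc 1 N, aN N n / n = 0 := by
  have hN0 : (0:ℝ) < N := by exact_mod_cast hN
  have h1 : ∀ n ∈ Finset.Icc 1 N, aN N n / n = al N n / n - if n = N then gN N else 0 := by
    intro n _
    unfold aN
    split_ifs with h
    · rw [h]; field_simp
    · simp
  rw [Finset.sum_congr rfl h1, Finset.sum_sub_distrib, Finset.sum_ite_eq' ]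
  rw [if_pos (Finset.mem_Icc.2 ⟨hN, le_rfl⟩)]
  unfold gN
  ring

lemma Dp_aN {N : ℕ} (hN : 1 ≤ N) (s : ℂ) :
    Dp (aN N) N s = ∑ n ∈ Finset.Icc 1 N, (al N n : ℂ) * (n:ℂ) ^ (-s) - (N * gN N : ℝ) * (N:ℂ) ^ (-s) := by
  unfold Dp
  have h1 : ∀ n ∈ Finset.Icc 1 N, (aN N n : ℂ) * (n:ℂ) ^ (-s) =
      (al N n : ℂ) * (n:ℂ) ^ (-s) - if n = N then ((N * gN N : ℝ) : ℂ) * (N:ℂ) ^ (-s) else 0 := by
    intro n _
    unfold aN
    split_ifs with h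
    · rw [h]; push_cast; ring
    · simp
  rw [Finset.sum_congr rfl h1, Finset.sum_sub_distrib, Finset.sum_ite_eq', if_pos (Finset.mem_Icc.2 ⟨hN, le_rfl⟩)]

lemma At_sum {N : ℕ} (hN : 1 ≤ N) (s : ℂ) :
    ∑' m, At s (Real.log N) m = ∑ n ∈ Finset.Icc 1 N, (al N n : ℂ) * (n:ℂ) ^ (-s) := by
  have hN0 : (0:ℝ) < N := by exact_mod_cast hN
  rw [tsum_eq_sum (s := Finset.Icc 1 N)]
  · refine Finset.sum_congr rfl fun n hn => ?_
    rw [Finset.mem_Icc] at hn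
    have hn0 : (0:ℝ) < n := by exact_mod_cast hn.1
    have hnN : (n:ℝ) ≤ N := by exact_mod_cast hn.2
    unfold At al wt H295R2.mu
    have h0 : 0 ≤ Real.log N - Real.log n := by
      have := Real.log_le_log hn0 hnN
      linarith
    rw [if_pos h0, LSeries.term_of_ne_zero (by omega)]
    have h1 : Real.exp (-(Real.log N - Real.log n)) = n / N := by
      rw [neg_sub, Real.exp_sub, Real.exp_log hn0, Real.exp_log hN0]
    rw [h1, Complex.cpow_neg, div_eq_mul_inv]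
    push_cast
    ring
  · intro m hm
    rw [Finset.mem_Icc, not_and_or, not_le, not_le] at hm
    unfold At
    rcases hm with h | h
    · have : m = 0 := by omega
      rw [this]
      simp [LSeries.term]
    · have h1 : Real.log N < Real.log m := Real.log_lt_log hN0 (by exact_mod_cast h)
      unfold wt
      rw [if_neg (by linarith), mul_zero]

lemma exp_log_rpow {N : ℕ} (hN : 1 ≤ N) (b : ℝ) : Real.exp (-(b * Real.log N)) = (N:ℝ) ^ (-b) := by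
  have hN0 : (0:ℝ) < N := by exact_mod_cast hN
  rw [Real.rpow_def_of_pos hN0]
  congr 1; ring

lemma fz_one : fz 1 = 0 := by
  unfold fz
  rw [sub_self, zero_div]

theorem approx {θ θ' ε σ : ℝ} (hθ : 1 / 4 ≤ θ) (hz : ∀ s : ℂ, θ < s.re → Zs s ≠ 0) (hθ' : θ < θ')
    (hσ : θ' < σ) (hσ1 : σ < 1) (hε : 0 < ε) (hε1 : ε ≤ 1 / 2) :
    ∃ C : ℝ, 0 < C ∧ ∀ N : ℕ, 1 ≤ N → ∀ s : ℂ, s.re = σ →
      ‖fz s - Dp (aN N) N s‖ ≤ C * (N:ℝ) ^ (-(σ - θ')) * (1 + |s.im|) ^ ε := by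
  obtain ⟨C1, hC1, h1⟩ := A_diff hθ hz hθ' hσ hσ1.le hε hε1
  obtain ⟨C2, hC2, h2⟩ := A_diff hθ hz hθ' (hσ.trans hσ1) le_rfl hε hε1
  obtain ⟨Cf, hCf0, hCf⟩ := fz_bound hθ hz hθ' hε
  refine ⟨C1 + 2 * Cf + C2, by positivity, fun N hN s hs => ?_⟩
  have hN0 : (0:ℝ) < N := by exact_mod_cast hN
  have hN1 : (1:ℝ) ≤ N := by exact_mod_cast hN
  have hT : 1 ≤ (1 + |s.im|) ^ ε := Real.one_le_rpow (by linarith [abs_nonneg s.im]) hε.le
  have hwt : wt (Real.log N) = (((1 - 1 / (N:ℝ)) ^ 2 : ℝ) : ℂ) := by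
    unfold wt
    rw [if_pos (Real.log_nonneg hN1), Real.exp_neg, Real.exp_log hN0, one_div]
  -- at s
  have g1 := h1 s hs (Real.log N)
  rw [At_sum hN, exp_log_rpow hN] at g1
  -- at 1
  have g2 := h2 1 (by simp) (Real.log N)
  rw [At_sum hN, exp_log_rpow hN, fz_one, mul_zero, sub_zero] at g2
  have e2 : ∑ n ∈ Finset.Icc 1 N, (al N n : ℂ) * (n:ℂ) ^ (-(1:ℂ)) = ((gN N : ℝ) : ℂ) := by
    unfold gN
    push_cast
    refine Finset.sum_congr rfl fun n _ => ?_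
    rw [Complex.cpow_neg_one, div_eq_mul_inv]
  rw [e2, Complex.norm_real, Real.norm_eq_abs] at g2
  have e3 : (1 + |(1:ℂ).im|) ^ ε = 1 := by simp
  rw [e3, mul_one] at g2
  have g3 := hCf s (by rw [hs]; exact hσ.le) (by rw [hs]; linarith)
  -- decomposition
  have hdec : fz s - Dp (aN N) N s = -(∑ n ∈ Finset.Icc 1 N, (al N n : ℂ) * (n:ℂ) ^ (-s) - wt (Real.log N) * fz s)
      + (1 - wt (Real.log N)) * fz s + (N * gN N : ℝ) * (N:ℂ) ^ (-s) := by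
    rw [Dp_aN hN]; ring
  rw [hdec]
  have k1 : ‖(1 - wt (Real.log N)) * fz s‖ ≤ 2 * Cf * (N:ℝ) ^ (-(σ - θ')) * (1 + |s.im|) ^ ε := by
    rw [norm_mul, hwt]
    have h3 : (1:ℂ) - (((1 - 1 / (N:ℝ)) ^ 2 : ℝ) : ℂ) = ((1 - (1 - 1 / (N:ℝ)) ^ 2 : ℝ) : ℂ) := by push_cast; ring
    rw [h3, Complex.norm_real, Real.norm_eq_abs]
    have h4 : (1:ℝ) / N ≤ 1 := by rw [div_le_one hN0]; exact hN1
    have h5 : (0:ℝ) < 1 / N := by positivity
    have h6 : |(1:ℝ) - (1 - 1 / (N:ℝ)) ^ 2| ≤ 2 * (1 / (N:ℝ)) := by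
      rw [abs_of_nonneg (by nlinarith)]
      nlinarith
    have h7 : (1:ℝ) / N ≤ (N:ℝ) ^ (-(σ - θ')) := by
      rw [one_div, ← Real.rpow_neg_one]
      exact Real.rpow_le_rpow_of_exponent_le hN1 (by linarith)
    calc |(1:ℝ) - (1 - 1 / (N:ℝ)) ^ 2| * ‖fz s‖ ≤ (2 * (N:ℝ) ^ (-(σ - θ'))) * (Cf * (1 + |s.im|) ^ ε) := by
          gcongr
          linarith
      _ = _ := by ring
  have k2 : ‖((N * gN N : ℝ) : ℂ) * (N:ℂ) ^ (-s)‖ ≤ C2 * (N:ℝ) ^ (-(σ - θ')) * (1 + |s.im|) ^ ε := by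
    rw [norm_mul, Complex.norm_real, Real.norm_eq_abs, abs_mul, abs_of_pos hN0]
    have h3 : ‖(N:ℂ) ^ (-s)‖ = (N:ℝ) ^ (-σ) := by
      rw [show (N:ℂ) = ((N:ℝ) : ℂ) by push_cast; rfl, Complex.norm_cpow_eq_rpow_re_of_pos hN0, Complex.neg_re, hs]
    rw [h3]
    calc N * |gN N| * (N:ℝ) ^ (-σ) ≤ N * (C2 * (N:ℝ) ^ (-(1 - θ'))) * (N:ℝ) ^ (-σ) := by gcongr
      _ = C2 * ((N:ℝ) ^ (1:ℝ) * (N:ℝ) ^ (-(1 - θ')) * (N:ℝ) ^ (-σ)) := by rw [Real.rpow_one]; ring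
      _ = C2 * (N:ℝ) ^ (-(σ - θ')) := by
        rw [← Real.rpow_add hN0, ← Real.rpow_add hN0]
        congr 2; ring
      _ ≤ C2 * (N:ℝ) ^ (-(σ - θ')) * (1 + |s.im|) ^ ε := le_mul_of_one_le_right (by positivity) hT
  calc _ ≤ ‖∑ n ∈ Finset.Icc 1 N, (al N n : ℂ) * (n:ℂ) ^ (-s) - wt (Real.log N) * fz s‖
      + ‖(1 - wt (Real.log N)) * fz s‖ + ‖((N * gN N : ℝ) : ℂ) * (N:ℂ) ^ (-s)‖ := by
        refine (norm_add_le _ _).trans ?_
        gcongr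
        refine (norm_add_le _ _).trans ?_
        rw [norm_neg]
    _ ≤ C1 * (N:ℝ) ^ (-(σ - θ')) * (1 + |s.im|) ^ ε + 2 * Cf * (N:ℝ) ^ (-(σ - θ')) * (1 + |s.im|) ^ ε
      + C2 * (N:ℝ) ^ (-(σ - θ')) * (1 + |s.im|) ^ ε := by gcongr
    _ = _ := by ring

end

end Pool.Agent.N964.NB
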