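import Pool.Agent.N964.F4
import Pool.Agent.H295R2.T5

/-! A smoothness estimate for the fractional part, in mean square. -/

set_option autoImplicit false

open MeasureTheory Filter Topology Set

namespace Pool.Agent.N964.NB

noncomputable section

open Pool.Agent.H295R2

/-- floor of the exponential -/
def gf (u : ℝ) : ℝ := (⌊Real.exp u⌋₊ : ℝ)

lemma gf_nonneg (u : ℝ) : 0 ≤ gf u := Nat.cast_nonneg _

lemma gf_le (u : ℝ) : gf u ≤ Real.exp u := Nat.floor_le (Real.exp_pos u).le

lemma gf_neg {u : ℝ} (hu : u < 0) : gf u = 0 := by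
  unfold gf
  rw [Nat.floor_eq_zero.2]
  · simp
  · rw [← Real.exp_zero]; exact Real.exp_lt_exp.2 hu

lemma gf_mono {u v : ℝ} (h : u ≤ v) : gf u ≤ gf v := by
  unfold gf
  exact_mod_cast Nat.floor_mono (Real.exp_le_exp.2 h)

lemma gf_meas : Measurable gf := by
  unfold gf
  exact measurable_from_top.comp (Nat.measurable_floor.comp Real.measurable_exp)

lemma gf_int {σ : ℝ} (hσ : 1 / 2 < σ) : Integrable (fun u : ℝ => gf u * Real.exp (-(2 * σ * u))) ∧
    ∫ u : ℝ, gf u * Real.exp (-(2 * σ * u)) ≤ 1 / (2 * σ - 1) := by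
  have hb : 1 - 2 * σ < 0 := by linarith
  have h1 := integrable_ind_exp hb 1 0
  have h2 := integral_ind_exp hb 1 0
  have hpt : ∀ u : ℝ, gf u * Real.exp (-(2 * σ * u)) ≤ (Ici (0:ℝ)).indicator (fun u => 1 * Real.exp ((1 - 2 * σ) * u)) u := by
    intro u
    by_cases hu : u ∈ Ici (0:ℝ)
    · rw [indicator_of_mem hu, one_mul]
      calc gf u * Real.exp (-(2 * σ * u)) ≤ Real.exp u * Real.exp (-(2 * σ * u)) := by
            gcongr; exact gf_le u
        _ = _ := by rw [← Real.exp_add]; congr 1; ring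
    · rw [indicator_of_notMem hu, gf_neg (by simpa using hu), zero_mul]
  have hi : Integrable (fun u : ℝ => gf u * Real.exp (-(2 * σ * u))) := by
    refine h1.mono' ((gf_meas.mul (by fun_prop)).aestronglyMeasurable) (Eventually.of_forall fun u => ?_)
    rw [Real.norm_of_nonneg (mul_nonneg (gf_nonneg u) (Real.exp_pos _).le)]
    exact hpt u
  refine ⟨hi, (integral_mono hi h1 hpt).trans (le_of_eq ?_)⟩
  rw [h2, mul_zero, Real.exp_zero, one_mul]
  have : 1 - 2 * σ = -(2 * σ - 1) := by ring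
  rw [this, neg_div_neg_eq]

lemma psn_one_of_nonneg {u : ℝ} (hu : 0 ≤ u) : psn 1 u = ((Real.exp u - gf u : ℝ) : ℂ) := by
  unfold psn gf
  rw [if_pos (Real.one_le_exp hu), Nat.cast_one, div_one, natCast_floor_eq_intCast_floor (Real.exp_pos u).le,
    Int.self_sub_floor]

lemma psn_one_of_neg {u : ℝ} (hu : u < 0) : psn 1 u = 0 := (psn_nice 1).zero u hu

lemma exp_sub_one_le {x : ℝ} (h0 : 0 ≤ x) (h1 : x ≤ 1) : Real.exp x - 1 ≤ 2 * x := by
  have := Real.abs_exp_sub_one_le (x := x) (by rw [abs_of_nonneg h0]; exact h1)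
  rw [abs_of_nonneg h0] at this
  exact (le_abs_self _).trans this

lemma psn_diff_le {h : ℝ} (h0 : 0 < h) (h1 : h ≤ 1) (u : ℝ) :
    ‖psn 1 (u + h) - psn 1 u‖ ^ 2 ≤ 2 * h * (Ici (0:ℝ)).indicator (fun u => Real.exp u) u + (gf (u + h) - gf u) := by
  have hm : 0 ≤ gf (u + h) - gf u := sub_nonneg.2 (gf_mono (by linarith))
  have hone : ∀ v : ℝ, ‖psn 1 v‖ ≤ 1 := by
    intro v
    have := (psn_nice 1).bound v
    simpa using this
  by_cases hu : 0 ≤ u
  · rw [indicator_of_mem (by exact hu)]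
    have hexp : Real.exp u ≤ Real.exp (u + h) := Real.exp_le_exp.2 (by linarith)
    have k1 : gf u ≤ Real.exp u := gf_le u
    have k2 : Real.exp u < gf u + 1 := Nat.lt_floor_add_one _
    have k3 : gf (u + h) ≤ Real.exp (u + h) := gf_le _
    have k4 : Real.exp (u + h) < gf (u + h) + 1 := Nat.lt_floor_add_one _
    rw [psn_one_of_nonneg hu, psn_one_of_nonneg (by linarith : 0 ≤ u + h), ← Complex.ofReal_sub, Complex.norm_real,
      Real.norm_eq_abs, sq_abs]
    have hcase : gf (u + h) = gf u ∨ gf u + 1 ≤ gf (u + h) := by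
      unfold gf at hm ⊢
      rcases Nat.lt_or_ge ⌊Real.exp u⌋₊ ⌊Real.exp (u + h)⌋₊ with hlt | hge
      · right
        exact_mod_cast hlt
      · left
        have h5 : (⌊Real.exp (u + h)⌋₊ : ℝ) ≤ ⌊Real.exp u⌋₊ := by exact_mod_cast hge
        linarith
    have hup : 0 < Real.exp u := Real.exp_pos u
    rcases hcase with h5 | h5
    · rw [h5, sub_self, add_zero]
      have k5 : Real.exp (u + h) - Real.exp u = Real.exp u * (Real.exp h - 1) := by
        rw [Real.exp_add]; ring
      have k6 := exp_sub_one_le h0.le h1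
      have k7 : Real.exp (u + h) - Real.exp u ≤ 2 * h * Real.exp u := by
        rw [k5]; nlinarith
      have k8 : 0 ≤ Real.exp (u + h) - Real.exp u := by linarith
      have k9 : Real.exp (u + h) - Real.exp u ≤ 1 := by rw [h5] at k4; linarith
      have e : Real.exp (u + h) - gf u - (Real.exp u - gf u) = Real.exp (u + h) - Real.exp u := by ring
      rw [e]
      nlinarith
    · have k10 : |Real.exp (u + h) - gf (u + h) - (Real.exp u - gf u)| ≤ 1 := by
        rw [abs_le]
        constructor <;> linarith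
      have k11 : (Real.exp (u + h) - gf (u + h) - (Real.exp u - gf u)) ^ 2 ≤ 1 := by
        rw [← sq_abs]
        have := abs_nonneg (Real.exp (u + h) - gf (u + h) - (Real.exp u - gf u))
        nlinarith
      have k12 : 0 ≤ 2 * h * Real.exp u := by positivity
      linarith
  · rw [indicator_of_notMem (by exact hu), mul_zero, zero_add]
    have hu' : u < 0 := not_le.1 hu
    rw [psn_one_of_neg hu', sub_zero]
    rcases lt_or_ge (u + h) 0 with h2 | h2
    · rw [psn_one_of_neg h2, norm_zero]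
      simpa using hm
    · have h3 : 1 ≤ gf (u + h) := by
        unfold gf
        have : 1 ≤ ⌊Real.exp (u + h)⌋₊ := Nat.one_le_floor_iff _ |>.2 (Real.one_le_exp h2)
        exact_mod_cast this
      rw [gf_neg hu', sub_zero]
      have h4 := hone (u + h)
      nlinarith [norm_nonneg (psn 1 (u + h))]

lemma psi_shift {σ h : ℝ} (hσ : 1 / 2 < σ) (hσ1 : σ ≤ 1) (h0 : 0 < h) (h1 : h ≤ 1 / 2) :
    ∫ u : ℝ, ‖psn 1 (u + h) - psn 1 u‖ ^ 2 * Real.exp (-(2 * σ * u)) ≤ 6 / (2 * σ - 1) * h := by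
  obtain ⟨gi, gb⟩ := gf_int hσ
  set L : ℝ := ∫ u : ℝ, gf u * Real.exp (-(2 * σ * u)) with hL
  have hb : 1 - 2 * σ < 0 := by linarith
  have e1 := integrable_ind_exp hb 1 0
  have e2 := integral_ind_exp hb 1 0
  have hsh : ∀ u : ℝ, gf (u + h) * Real.exp (-(2 * σ * u)) =
      Real.exp (2 * σ * h) * ((fun w : ℝ => gf w * Real.exp (-(2 * σ * w))) (u + h)) := by
    intro u
    simp only
    have : Real.exp (-(2 * σ * u)) = Real.exp (2 * σ * h) * Real.exp (-(2 * σ * (u + h))) := by
      rw [← Real.exp_add]; congr 1; ring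
    rw [this]; ring
  have gi2 : Integrable (fun u : ℝ => gf (u + h) * Real.exp (-(2 * σ * u))) := by
    refine ((gi.comp_add_right h).const_mul (Real.exp (2 * σ * h))).congr (Eventually.of_forall fun u => ?_)
    simp only
    rw [hsh u]
  have gv2 : ∫ u : ℝ, gf (u + h) * Real.exp (-(2 * σ * u)) = Real.exp (2 * σ * h) * L := by
    simp_rw [hsh]
    rw [integral_const_mul, integral_add_right_eq_self (fun w : ℝ => gf w * Real.exp (-(2 * σ * w))) h]
  have hpt : ∀ u : ℝ, ‖psn 1 (u + h) - psn 1 u‖ ^ 2 * Real.exp (-(2 * σ * u)) ≤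
      2 * h * (Ici (0:ℝ)).indicator (fun u => 1 * Real.exp ((1 - 2 * σ) * u)) u +
        (gf (u + h) * Real.exp (-(2 * σ * u)) - gf u * Real.exp (-(2 * σ * u))) := by
    intro u
    have h2 := mul_le_mul_of_nonneg_right (psn_diff_le h0 (by linarith) u) (Real.exp_pos (-(2 * σ * u))).le
    refine h2.trans (le_of_eq ?_)
    have h3 : (Ici (0:ℝ)).indicator (fun u => 1 * Real.exp ((1 - 2 * σ) * u)) u =
        (Ici (0:ℝ)).indicator (fun u => Real.exp u) u * Real.exp (-(2 * σ * u)) := by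
      by_cases hu : u ∈ Ici (0:ℝ)
      · rw [indicator_of_mem hu, indicator_of_mem hu, ← Real.exp_add, one_mul]
        congr 1; ring
      · rw [indicator_of_notMem hu, indicator_of_notMem hu, zero_mul]
    rw [h3]; ring
  have hint : Integrable (fun u : ℝ => 2 * h * (Ici (0:ℝ)).indicator (fun u => 1 * Real.exp ((1 - 2 * σ) * u)) u +
        (gf (u + h) * Real.exp (-(2 * σ * u)) - gf u * Real.exp (-(2 * σ * u)))) :=
    (e1.const_mul (2 * h)).add (gi2.sub gi)
  have hfin : ∫ u : ℝ, ‖psn 1 (u + h) - psn 1 u‖ ^ 2 * Real.exp (-(2 * σ * u)) ≤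
      ∫ u : ℝ, (2 * h * (Ici (0:ℝ)).indicator (fun u => 1 * Real.exp ((1 - 2 * σ) * u)) u +
        (gf (u + h) * Real.exp (-(2 * σ * u)) - gf u * Real.exp (-(2 * σ * u)))) :=
    integral_mono_of_nonneg (Eventually.of_forall fun u => by positivity) hint (Eventually.of_forall hpt)
  refine hfin.trans ?_
  have i1 : Integrable (fun u : ℝ => 2 * h * (Ici (0:ℝ)).indicator (fun u => 1 * Real.exp ((1 - 2 * σ) * u)) u) :=
    e1.const_mul (2 * h)
  have i2 : Integrable (fun u : ℝ => gf (u + h) * Real.exp (-(2 * σ * u)) - gf u * Real.exp (-(2 * σ * u))) := gi2.sub gi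
  rw [integral_add i1 i2, integral_const_mul, e2, integral_sub gi2 gi, gv2, ← hL, mul_zero, Real.exp_zero, one_mul]
  have hs : 0 < 2 * σ - 1 := by linarith
  have h5 : Real.exp (2 * σ * h) - 1 ≤ 2 * (2 * σ * h) := exp_sub_one_le (by positivity) (by nlinarith)
  have h6 : -1 / (1 - 2 * σ) = 1 / (2 * σ - 1) := by
    have : 1 - 2 * σ = -(2 * σ - 1) := by ring
    rw [this, neg_div_neg_eq]
  rw [h6]
  have hL0 : 0 ≤ L := integral_nonneg fun u => mul_nonneg (gf_nonneg u) (Real.exp_pos _).le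
  have h7 : Real.exp (2 * σ * h) * L - L ≤ 4 * h * (1 / (2 * σ - 1)) := by
    have : Real.exp (2 * σ * h) * L - L = (Real.exp (2 * σ * h) - 1) * L := by ring
    rw [this]
    calc (Real.exp (2 * σ * h) - 1) * L ≤ (2 * (2 * σ * h)) * (1 / (2 * σ - 1)) := by
          have h8 : 0 ≤ Real.exp (2 * σ * h) - 1 := by
            have := Real.one_le_exp (show 0 ≤ 2 * σ * h by positivity)
            linarith
          gcongr
      _ ≤ 4 * h * (1 / (2 * σ - 1)) := by
          have h9 : 2 * (2 * σ * h) ≤ 4 * h := by nlinarith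
          exact mul_le_mul_of_nonneg_right h9 (by positivity)
  calc 2 * h * (1 / (2 * σ - 1)) + (Real.exp (2 * σ * h) * L - L) ≤ 2 * h * (1 / (2 * σ - 1)) + 4 * h * (1 / (2 * σ - 1)) := by
        linarith
    _ = _ := by ring

end

end Pool.Agent.N964.NB
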