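import Pool.Agent.N964.F7
import Pool.Agent.N964.F5

/-! Mean square of `ζ(s)/s` with a weight. -/

set_option autoImplicit false

open MeasureTheory Filter Topology Set

namespace Pool.Agent.N964.NB

noncomputable section

open Pool.Agent.H295R2

lemma band_psn {σ R : ℝ} (hσ : 1 / 2 < σ) (hσ1 : σ ≤ 1) (hR : 1 ≤ R) :
    ∫ ξ in tband R, ‖Lap (psn 1) (σ + 2 * Real.pi * ξ * Complex.I)‖ ^ 2 ≤ 48 / (2 * σ - 1) / R := by
  have h1 := t5_band (psn_nice 1) (by linarith : 0 < σ) hR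
  have h2 := psi_shift hσ hσ1 (h := 1 / (2 * R)) (by positivity) (by
    rw [div_le_div_iff₀ (by positivity) (by norm_num)]; linarith)
  have hs : 0 < 2 * σ - 1 := by linarith
  refine h1.trans ?_
  calc 16 * ∫ u, ‖psn 1 (u + 1 / (2 * R)) - psn 1 u‖ ^ 2 * Real.exp (-(2 * σ * u))
      ≤ 16 * (6 / (2 * σ - 1) * (1 / (2 * R))) := by gcongr
    _ = _ := by field_simp; norm_num

lemma cover : AECover volume atTop (fun n : ℕ => tball ((2:ℝ) ^ n)) where
  ae_eventually_mem := by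
    refine Eventually.of_forall fun x => ?_
    have h1 : Tendsto (fun n : ℕ => (2:ℝ) ^ n) atTop atTop := tendsto_pow_atTop_atTop_of_one_lt (by norm_num)
    filter_upwards [h1.eventually_ge_atTop |2 * Real.pi * x|] with n hn
    exact hn
  measurableSet := fun n => tball_meas _

lemma cont_line {H : ℂ → ℂ} {a : ℝ} (hd : ∀ s : ℂ, s.re = a → ContinuousAt H s) :
    Continuous (fun ξ : ℝ => H (a + 2 * Real.pi * ξ * Complex.I)) := by
  rw [continuous_iff_continuousAt]
  intro y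
  have h1 : ContinuousAt H ((a : ℂ) + 2 * Real.pi * y * Complex.I) := hd _ (by simp)
  exact ContinuousAt.comp (f := fun y : ℝ => (a : ℂ) + 2 * Real.pi * y * Complex.I) h1 (by fun_prop)

lemma psn_weight {σ ε : ℝ} (hσ : 1 / 2 < σ) (hσ1 : σ ≤ 1) (hε : 0 < ε) (hε1 : ε ≤ 1) :
    Integrable (fun ξ : ℝ => ‖Lap (psn 1) (σ + 2 * Real.pi * ξ * Complex.I)‖ ^ 2 * (1 + |2 * Real.pi * ξ|) ^ (1 - ε)) := by
  have hσ0 : 0 < σ := by linarith
  obtain ⟨hF, -⟩ := plancherel_Lap (psn_nice 1) hσ0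
  set F : ℝ → ℝ := fun ξ => ‖Lap (psn 1) (σ + 2 * Real.pi * ξ * Complex.I)‖ ^ 2 with hFdef
  set w : ℝ → ℝ := fun ξ => (1 + |2 * Real.pi * ξ|) ^ (1 - ε) with hw
  have hF0 : ∀ ξ, 0 ≤ F ξ := fun ξ => by positivity
  have hw0 : ∀ ξ, 0 ≤ w ξ := fun ξ => by positivity
  have hwc : Continuous w := by
    rw [hw]
    refine Continuous.rpow_const (by fun_prop) fun x => Or.inr (by linarith)
  have hwb : ∀ (R : ℝ) (ξ : ℝ), |2 * Real.pi * ξ| ≤ R → w ξ ≤ (1 + R) ^ (1 - ε) := by
    intro R ξ h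
    exact Real.rpow_le_rpow (by positivity) (by linarith) (by linarith)
  have hfi : ∀ R : ℝ, IntegrableOn (fun ξ => F ξ * w ξ) (tball R) := by
    intro R
    refine Integrable.mono' (g := fun ξ => (1 + R) ^ (1 - ε) * F ξ) (hF.const_mul _).integrableOn
      (hF.aestronglyMeasurable.mul hwc.aestronglyMeasurable).restrict ?_
    refine (ae_restrict_mem (tball_meas R)).mono fun ξ hξ => ?_
    rw [Real.norm_of_nonneg (mul_nonneg (hF0 ξ) (hw0 ξ)), mul_comm]
    exact mul_le_mul_of_nonneg_right (hwb R ξ hξ) (hF0 ξ)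
  set r : ℝ := (2:ℝ) ^ (-ε) with hr
  have hr0 : 0 < r := by positivity
  have hr1 : r < 1 := Real.rpow_lt_one_of_one_lt_of_neg (by norm_num) (by linarith)
  have hs : 0 < 2 * σ - 1 := by linarith
  set B : ℝ := 3 * (48 / (2 * σ - 1)) with hB
  set A : ℝ := (1 + 1) ^ (1 - ε) * ∫ ξ, F ξ with hA
  have hB0 : 0 < B := by positivity
  have hbd : ∀ n : ℕ, ∫ ξ in tball ((2:ℝ) ^ n), F ξ * w ξ ≤ A + B * ∑ j ∈ Finset.range n, r ^ j := by
    intro n
    induction n with
    | zero =>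
      rw [pow_zero, Finset.range_zero, Finset.sum_empty, mul_zero, add_zero]
      calc ∫ ξ in tball 1, F ξ * w ξ ≤ ∫ ξ in tball 1, (1 + 1) ^ (1 - ε) * F ξ := by
            refine setIntegral_mono_on (hfi 1) (hF.const_mul _).integrableOn (tball_meas 1) fun ξ hξ => ?_
            rw [mul_comm]
            exact mul_le_mul_of_nonneg_right (hwb 1 ξ hξ) (hF0 ξ)
        _ ≤ ∫ ξ, (1 + 1) ^ (1 - ε) * F ξ :=
            setIntegral_le_integral (hF.const_mul _) (Eventually.of_forall fun ξ => by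
              have := hF0 ξ
              positivity)
        _ = A := by rw [integral_const_mul]
    | succ n ih =>
      have hR1 : (1:ℝ) ≤ 2 ^ n := one_le_pow₀ (by norm_num)
      have hR0 : (0:ℝ) < 2 ^ n := by positivity
      have h1 : (2:ℝ) ^ (n + 1) = 2 * 2 ^ n := by ring
      have h2 : IntegrableOn (fun ξ => F ξ * w ξ) (tband ((2:ℝ) ^ n)) := (hfi _).mono_set tband_subset
      rw [h1, tball_double hR0.le, setIntegral_union tball_disj (tband_meas _) (hfi _) h2, Finset.sum_range_succ, mul_add,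
        ← add_assoc]
      refine add_le_add ih ?_
      have h3 := band_psn hσ hσ1 hR1
      calc ∫ ξ in tband ((2:ℝ) ^ n), F ξ * w ξ ≤ ∫ ξ in tband ((2:ℝ) ^ n), (1 + 2 * 2 ^ n) ^ (1 - ε) * F ξ := by
            refine setIntegral_mono_on h2 (hF.const_mul _).integrableOn (tband_meas _) fun ξ hξ => ?_
            rw [mul_comm]
            exact mul_le_mul_of_nonneg_right (hwb _ ξ hξ.2) (hF0 ξ)
        _ = (1 + 2 * 2 ^ n) ^ (1 - ε) * ∫ ξ in tband ((2:ℝ) ^ n), F ξ := integral_const_mul _ _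
        _ ≤ (1 + 2 * 2 ^ n) ^ (1 - ε) * (48 / (2 * σ - 1) / 2 ^ n) := by gcongr
        _ ≤ (3 * 2 ^ n) ^ (1 - ε) * (48 / (2 * σ - 1) / 2 ^ n) := by
            gcongr
            linarith
        _ = (3:ℝ) ^ (1 - ε) * (48 / (2 * σ - 1)) * (((2:ℝ) ^ n) ^ (1 - ε) / 2 ^ n) := by
            rw [Real.mul_rpow (by norm_num) hR0.le]; ring
        _ ≤ (3:ℝ) ^ (1:ℝ) * (48 / (2 * σ - 1)) * (((2:ℝ) ^ n) ^ (1 - ε) / 2 ^ n) := by
            gcongr
            · norm_num
            · linarith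
        _ = B * r ^ n := by
            rw [Real.rpow_one, hB]
            congr 1
            rw [Real.rpow_sub hR0, Real.rpow_one, hr, ← Real.rpow_natCast 2 n, ← Real.rpow_mul (by norm_num),
              ← Real.rpow_natCast, ← Real.rpow_mul (by norm_num)]
            have h4 : (2:ℝ) ^ (n:ℝ) ≠ 0 := by positivity
            have h5 : (2:ℝ) ^ ((n:ℝ) * ε) ≠ 0 := by positivity
            rw [show -ε * (n:ℝ) = -((n:ℝ) * ε) by ring, Real.rpow_neg (by norm_num)]
            field_simp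
  refine cover.integrable_of_integral_bounded_of_nonneg_ae (A + B * (1 / (1 - r))) (fun n => hfi _)
    (Eventually.of_forall fun ξ => mul_nonneg (hF0 ξ) (hw0 ξ)) (Eventually.of_forall fun n => ?_)
  refine (hbd n).trans ?_
  have h6 : ∑ j ∈ Finset.range n, r ^ j ≤ 1 / (1 - r) := by
    rw [one_div, ← tsum_geometric_of_lt_one hr0.le hr1]
    exact (summable_geometric_of_lt_one hr0.le hr1).sum_le_tsum _ fun j _ => by positivity
  gcongr

lemma zeta_weight {σ ε : ℝ} (hσ : 1 / 2 < σ) (hσ1 : σ < 1) (hε : 0 < ε) (hε1 : ε ≤ 1) :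
    Integrable (fun ξ : ℝ => (‖riemannZeta (σ + 2 * Real.pi * ξ * Complex.I)‖ / ‖(σ + 2 * Real.pi * ξ * Complex.I : ℂ)‖) ^ 2 *
      (1 + |2 * Real.pi * ξ|) ^ (1 - ε)) := by
  have hσ0 : 0 < σ := by linarith
  have h1 := psn_weight hσ hσ1.le hε hε1
  have h2 := integrable_decay' (show (1:ℝ) < 1 + ε by linarith)
  have hs1 : 0 < 1 - σ := by linarith
  refine ((h2.const_mul (8 / (1 - σ) ^ 2)).add (h1.const_mul 2)).mono' ?_ (Eventually.of_forall fun ξ => ?_)
  · refine Continuous.aestronglyMeasurable ?_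
    refine Continuous.mul ?_ (Continuous.rpow_const (by fun_prop) fun x => Or.inr (by linarith))
    refine Continuous.pow ?_ 2
    refine Continuous.div ?_ (by fun_prop) ?_
    · refine (cont_line (H := riemannZeta) fun s hs => ?_).norm
      refine (differentiableAt_riemannZeta ?_).continuousAt
      rintro rfl
      rw [Complex.one_re] at hs
      linarith
    · intro ξ h
      have h3 := congrArg Complex.re (norm_eq_zero.1 h)
      rw [line_re, Complex.zero_re] at h3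
      linarith
  · have hre := line_re σ ξ
    have him := line_im σ ξ
    set s : ℂ := (σ : ℂ) + 2 * Real.pi * ξ * Complex.I with hs
    rw [← him]
    have hsne : s ≠ 1 := by
      intro h
      rw [h, Complex.one_re] at hre
      linarith
    have hs0 : s ≠ 0 := by
      intro h
      rw [h, Complex.zero_re] at hre
      linarith
    have hs1' : s - 1 ≠ 0 := sub_ne_zero.2 hsne
    have hid : riemannZeta s / s = 1 / (s - 1) - Lap (psn 1) s := by
      rw [Lap_psn (by rw [hre]; exact hσ0) hsne le_rfl]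
      have hZt : Zs s = s - s * (s - 1) * Hf s := Zs_eq_Zt (by rw [hre]; exact hσ0)
      have hzeta : riemannZeta s = Zs s / (s - 1) := by
        rw [← Zs_eq hsne]
        field_simp
      rw [hzeta, hZt]
      simp only [Nat.cast_one, Complex.one_cpow, div_one, sub_self, zero_div, zero_add, one_mul]
      field_simp
    have hp : 0 < 1 + |s.im| := by positivity
    have g1 : (1 - σ) / 2 * (1 + |s.im|) ≤ ‖s - 1‖ := by
      have k1 := Complex.abs_re_le_norm (s - 1)
      have k2 := Complex.abs_im_le_norm (s - 1)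
      rw [Complex.sub_re, Complex.one_re, hre, abs_sub_comm, abs_of_pos hs1] at k1
      rw [Complex.sub_im, Complex.one_im, sub_zero] at k2
      nlinarith [abs_nonneg s.im]
    have g2 : (‖riemannZeta s‖ / ‖s‖) ^ 2 ≤ 2 * (1 / ‖s - 1‖) ^ 2 + 2 * ‖Lap (psn 1) s‖ ^ 2 := by
      rw [← norm_div, hid]
      have h3 : ‖1 / (s - 1) - Lap (psn 1) s‖ ≤ 1 / ‖s - 1‖ + ‖Lap (psn 1) s‖ := by
        refine (norm_sub_le _ _).trans ?_
        rw [norm_div, norm_one]
      calc ‖1 / (s - 1) - Lap (psn 1) s‖ ^ 2 ≤ (1 / ‖s - 1‖ + ‖Lap (psn 1) s‖) ^ 2 := by gcongr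
        _ ≤ _ := by nlinarith [sq_nonneg (1 / ‖s - 1‖ - ‖Lap (psn 1) s‖)]
    have g3 : 2 * (1 / ‖s - 1‖) ^ 2 ≤ 8 / (1 - σ) ^ 2 * (1 + |s.im|) ^ (-(2:ℝ)) := by
      rw [Real.rpow_neg hp.le, Real.rpow_two]
      have h4 : 0 < (1 - σ) / 2 * (1 + |s.im|) := by positivity
      calc 2 * (1 / ‖s - 1‖) ^ 2 ≤ 2 * (1 / ((1 - σ) / 2 * (1 + |s.im|))) ^ 2 := by gcongr
        _ = _ := by field_simp; norm_num
    rw [Real.norm_of_nonneg (by positivity)]
    simp only [Pi.add_apply]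
    calc (‖riemannZeta s‖ / ‖s‖) ^ 2 * (1 + |s.im|) ^ (1 - ε)
        ≤ (8 / (1 - σ) ^ 2 * (1 + |s.im|) ^ (-(2:ℝ)) + 2 * ‖Lap (psn 1) s‖ ^ 2) * (1 + |s.im|) ^ (1 - ε) := by
          gcongr
          linarith
      _ = 8 / (1 - σ) ^ 2 * ((1 + |s.im|) ^ (-(2:ℝ)) * (1 + |s.im|) ^ (1 - ε)) + 2 * (‖Lap (psn 1) s‖ ^ 2 * (1 + |s.im|) ^ (1 - ε)) := by ring
      _ = _ := by
          rw [← Real.rpow_add hp, him, show (-(2:ℝ)) + (1 - ε) = -(1 + ε) by ring]

end

end Pool.Agent.N964.NB
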