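import Pool.Agent.N964.F8

/-! A pointwise bound for the error function. -/

set_option autoImplicit false

open MeasureTheory Filter Topology Set

namespace Pool.Agent.N964.NB

noncomputable section

open Pool.Agent.H295R2

lemma avg_kE (a : ℕ → ℝ) (N : ℕ) {k : ℕ} (hk : 1 ≤ k) :
    avg (1 / (4 * k)) (kE a N) (Real.log k) = ((Er a N k : ℝ) : ℂ) := by
  have hk0 : (0:ℝ) < k := by exact_mod_cast hk
  have hk1 : (1:ℝ) ≤ k := by exact_mod_cast hk
  set η : ℝ := 1 / (4 * k) with hη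
  have hη0 : 0 < η := by rw [hη]; positivity
  have hlog : 1 / ((k:ℝ) + 1) ≤ Real.log (k + 1) - Real.log k := by
    rw [← Real.log_div (by positivity) hk0.ne']
    have := Real.one_sub_inv_le_log_of_pos (show 0 < ((k:ℝ) + 1) / k by positivity)
    refine le_trans (le_of_eq ?_) this
    field_simp
    ring
  have hη1 : η < 1 / ((k:ℝ) + 1) := by
    rw [hη, div_lt_div_iff₀ (by positivity) (by positivity)]
    linarith
  unfold avg
  have h1 : ∫ v in (0:ℝ)..η, kE a N (Real.log k + v) = ∫ v in (0:ℝ)..η, ((Er a N k : ℝ) : ℂ) := by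
    apply intervalIntegral.integral_congr
    intro v hv
    rw [uIcc_of_le hη0.le] at hv
    simp only
    have h2 : 0 ≤ Real.log k + v := by
      have := Real.log_nonneg hk1
      linarith [hv.1]
    have hfl : ⌊Real.exp (Real.log k + v)⌋₊ = k := by
      rw [Nat.floor_eq_iff (Real.exp_pos _).le]
      constructor
      · calc (k:ℝ) = Real.exp (Real.log k) := (Real.exp_log hk0).symm
          _ ≤ _ := Real.exp_le_exp.2 (by linarith [hv.1])
      · calc Real.exp (Real.log k + v) < Real.exp (Real.log (k + 1)) := Real.exp_lt_exp.2 (by linarith [hv.2])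
          _ = k + 1 := Real.exp_log (by positivity)
    unfold kE
    rw [if_pos h2, hfl]
  rw [h1]
  have hη' : (η:ℂ) ≠ 0 := by exact_mod_cast hη0.ne'
  rw [intervalIntegral.integral_const, sub_zero, Complex.real_smul]
  field_simp

theorem pw {θ θ' σ ε : ℝ} (hθ : 1 / 2 ≤ θ) (hz : ∀ s : ℂ, θ < s.re → Zs s ≠ 0) (hθ' : θ < θ')
    (hσ : θ' < σ) (hσ1 : σ < 1) (hε : 0 < ε) (hε1 : ε ≤ 1 / 4) :
    ∃ C : ℝ, 0 < C ∧ ∀ N k : ℕ, 1 ≤ N → 1 ≤ k →
      |Er (aN N) N k| ≤ C * (N:ℝ) ^ (-(σ - θ')) * (k:ℝ) ^ (σ + 2 * ε) := by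
  obtain ⟨C1, hC1, h1⟩ := approx (by linarith : 1 / 4 ≤ θ) hz hθ' hσ hσ1 hε (by linarith : ε ≤ 1 / 2)
  have hσ0 : 0 < σ := by linarith
  have hW1 := zeta_weight (by linarith : 1 / 2 < σ) hσ1 hε (by linarith : ε ≤ 1)
  have hW2 := integrable_decay' (show (1:ℝ) < 1 + ε by linarith)
  set W : ℝ → ℝ := fun ξ => (‖riemannZeta (σ + 2 * Real.pi * ξ * Complex.I)‖ / ‖(σ + 2 * Real.pi * ξ * Complex.I : ℂ)‖) ^ 2 *
      (1 + |2 * Real.pi * ξ|) ^ (1 - ε) + (1 + |2 * Real.pi * ξ|) ^ (-(1 + ε)) with hW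
  have hWi : Integrable W := hW1.add hW2
  set J : ℝ := ∫ ξ, W ξ with hJ
  have hJ0 : 0 ≤ J := integral_nonneg fun ξ => by rw [hW]; positivity
  refine ⟨24 * C1 * J * 4 ^ (2 * ε) + 1, by positivity, fun N k hN hk => ?_⟩
  have hN0 : (0:ℝ) < N := by exact_mod_cast hN
  have hk0 : (0:ℝ) < k := by exact_mod_cast hk
  have hk1 : (1:ℝ) ≤ k := by exact_mod_cast hk
  have ha := aN_sum hN
  have hn := kE_nice ha
  set η : ℝ := 1 / (4 * k) with hη
  have hη0 : 0 < η := by rw [hη]; positivity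
  have hη1 : η ≤ 1 := by
    rw [hη, div_le_one (by positivity)]; linarith
  have hn1 := hn.avg hη0
  -- the bound on the line
  have hbd : ∀ ξ : ℝ, ‖Lap (avg η (kE (aN N) N)) (σ + 2 * Real.pi * ξ * Complex.I)‖ ≤
      (24 * C1 * (N:ℝ) ^ (-(σ - θ')) * η ^ (-(2 * ε))) * W ξ := by
    intro ξ
    have hre := line_re σ ξ
    have him := line_im σ ξ
    rw [hW]
    simp only
    set s : ℂ := (σ : ℂ) + 2 * Real.pi * ξ * Complex.I with hs
    have hs1 : s ≠ 1 := by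
      intro h
      rw [h, Complex.one_re] at hre
      linarith
    have hs0 : 0 < s.re := by rw [hre]; exact hσ0
    rw [hn.Lap_avg hη0 hs0, Lap_kE ha hs0 hs1 (hz s (by rw [hre]; linarith)), ← him]
    have hp : 0 < 1 + |s.im| := by positivity
    have g1 := h1 N hN s hre
    have g2 : ‖phi η s‖ ≤ 24 * (η ^ (-(2 * ε)) * (1 + |s.im|) ^ (-(2 * ε))) := by
      have g3 := norm_phi_pow (a := 4 * ε) hη0 hη1 (by rw [hre]; linarith : 1 / 4 ≤ s.re) (by rw [hre]; linarith : s.re ≤ 2)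
        (by linarith) (by linarith)
      have g4 : (η * (1 + |s.im|)) ^ (-(4 * ε)) = (η ^ (-(2 * ε)) * (1 + |s.im|) ^ (-(2 * ε))) ^ 2 := by
        rw [← Real.mul_rpow hη0.le hp.le, ← Real.rpow_natCast, ← Real.rpow_mul (by positivity)]
        congr 1; push_cast; ring
      rw [g4] at g3
      refine le_of_sq_le_sq ?_ (by positivity)
      refine g3.trans ?_
      rw [mul_pow]
      nlinarith [sq_nonneg (η ^ (-(2 * ε)) * (1 + |s.im|) ^ (-(2 * ε)))]
    set q : ℝ := ‖riemannZeta s‖ / ‖s‖ with hq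
    have hq0 : 0 ≤ q := by positivity
    rw [norm_mul, norm_mul, norm_div]
    have g5 : q * (1 + |s.im|) ^ (-ε) ≤ q ^ 2 * (1 + |s.im|) ^ (1 - ε) + (1 + |s.im|) ^ (-(1 + ε)) := by
      set y : ℝ := (1 + |s.im|) ^ ((1 - ε) / 2) with hy
      set z : ℝ := (1 + |s.im|) ^ (-((1 + ε) / 2)) with hz'
      have hy0 : 0 < y := by positivity
      have hz0 : 0 < z := by positivity
      have e1 : (1 + |s.im|) ^ (-ε) = y * z := by
        rw [hy, hz', ← Real.rpow_add hp]; congr 1; ring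
      have e2 : (1 + |s.im|) ^ (1 - ε) = y ^ 2 := by
        rw [hy, ← Real.rpow_natCast, ← Real.rpow_mul hp.le]; congr 1; push_cast; ring
      have e3 : (1 + |s.im|) ^ (-(1 + ε)) = z ^ 2 := by
        rw [hz', ← Real.rpow_natCast, ← Real.rpow_mul hp.le]; congr 1; push_cast; ring
      rw [e1, e2, e3]
      nlinarith [sq_nonneg (q * y - z), mul_nonneg (mul_nonneg hq0 hy0.le) hz0.le]
    calc ‖phi η s‖ * (q * ‖fz s - Dp (aN N) N s‖)
        ≤ (24 * (η ^ (-(2 * ε)) * (1 + |s.im|) ^ (-(2 * ε)))) * (q * (C1 * (N:ℝ) ^ (-(σ - θ')) * (1 + |s.im|) ^ ε)) := by gcongr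
      _ = (24 * C1 * (N:ℝ) ^ (-(σ - θ')) * η ^ (-(2 * ε))) * (q * ((1 + |s.im|) ^ (-(2 * ε)) * (1 + |s.im|) ^ ε)) := by ring
      _ = (24 * C1 * (N:ℝ) ^ (-(σ - θ')) * η ^ (-(2 * ε))) * (q * (1 + |s.im|) ^ (-ε)) := by
          rw [← Real.rpow_add hp]
          congr 3; ring
      _ ≤ _ := by gcongr
  have hcl : Continuous (fun ξ : ℝ => Lap (avg η (kE (aN N) N)) (σ + 2 * Real.pi * ξ * Complex.I)) :=
    cont_line fun s hs => (hn1.Lap_differentiableAt (by rw [hs]; exact hσ0)).continuousAt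
  have hLi : Integrable (fun ξ : ℝ => Lap (avg η (kE (aN N) N)) (σ + 2 * Real.pi * ξ * Complex.I)) :=
    (hWi.const_mul _).mono' hcl.aestronglyMeasurable (Eventually.of_forall hbd)
  have hinv := inversion hn1 hσ0 (hn.avg_continuous η) hLi (Real.log k)
  rw [avg_kE (aN N) N hk] at hinv
  have hnorm : |Er (aN N) N k| = ‖((Er (aN N) N k : ℝ) : ℂ)‖ := by rw [Complex.norm_real, Real.norm_eq_abs]
  rw [hnorm, hinv]
  have hb2 : ∀ ξ : ℝ, ‖Lap (avg η (kE (aN N) N)) (σ + 2 * Real.pi * ξ * Complex.I) *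
      Complex.exp ((σ + 2 * Real.pi * ξ * Complex.I) * (Real.log k : ℝ))‖ ≤
      ((24 * C1 * (N:ℝ) ^ (-(σ - θ')) * η ^ (-(2 * ε))) * (k:ℝ) ^ σ) * W ξ := by
    intro ξ
    rw [norm_mul]
    have e1 : ‖Complex.exp ((σ + 2 * Real.pi * ξ * Complex.I) * (Real.log k : ℝ))‖ = (k:ℝ) ^ σ := by
      rw [Complex.norm_exp, Real.rpow_def_of_pos hk0, Complex.re_mul_ofReal, line_re, mul_comm]
    rw [e1]
    calc _ ≤ ((24 * C1 * (N:ℝ) ^ (-(σ - θ')) * η ^ (-(2 * ε))) * W ξ) * (k:ℝ) ^ σ := by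
          gcongr
          exact hbd ξ
      _ = _ := by ring
  refine (norm_integral_le_of_norm_le (hWi.const_mul _) (Eventually.of_forall hb2)).trans ?_
  rw [integral_const_mul, ← hJ]
  have e4 : η ^ (-(2 * ε)) = 4 ^ (2 * ε) * (k:ℝ) ^ (2 * ε) := by
    rw [hη, one_div, Real.inv_rpow (by positivity), Real.rpow_neg (by positivity), inv_inv,
      Real.mul_rpow (by norm_num) hk0.le]
  rw [e4, Real.rpow_add hk0]
  have hpos : 0 < (N:ℝ) ^ (-(σ - θ')) * ((k:ℝ) ^ σ * (k:ℝ) ^ (2 * ε)) := by positivity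
  nlinarith

end

end Pool.Agent.N964.NB
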