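import Pool.Agent.N964.F9
import Pool.Agent.N964.E9
import Pool.Agent.N964.D1

/-! The minimal errors and their upper bounds. -/

set_option autoImplicit false

open MeasureTheory Filter Topology Set ENNReal

namespace Pool.Agent.N964.NB

noncomputable section

open Pool.Agent.H295R2

/-- the weighted `l^p` error over `1 ≤ k ≤ K`, where `K` may be infinite -/
def QI (p σ : ℝ) (a : ℕ → ℝ) (N : ℕ) (K : ℕ∞) : ℝ≥0∞ :=
  ∑' k : ℕ, if 1 ≤ k ∧ (k : ℕ∞) ≤ K then ENNReal.ofReal (|Er a N k| ^ p / (k : ℝ) ^ (p * σ + 1)) else 0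

/-- the least weighted `l^p` error -/
def RI (p σ : ℝ) (N : ℕ) (K : ℕ∞) : ℝ≥0∞ := ⨅ a : ℕ → ℝ, QI p σ a N K

/-- the weighted uniform error over `1 ≤ k ≤ K`, where `K` may be infinite -/
def SI (σ : ℝ) (a : ℕ → ℝ) (N : ℕ) (K : ℕ∞) : ℝ≥0∞ :=
  ⨆ k : ℕ, if 1 ≤ k ∧ (k : ℕ∞) ≤ K then ENNReal.ofReal (|Er a N k| / (k : ℝ) ^ σ) else 0

/-- the least weighted uniform error -/
def UI (σ : ℝ) (N : ℕ) (K : ℕ∞) : ℝ≥0∞ := ⨅ a : ℕ → ℝ, SI σ a N K

lemma QI_coe (p σ : ℝ) (a : ℕ → ℝ) (N K : ℕ) : QI p σ a N (K : ℕ∞) = ENNReal.ofReal (Qf p σ a N K) := by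
  unfold QI Qf
  rw [ENNReal.ofReal_sum_of_nonneg (fun k _ => by positivity), tsum_eq_sum (s := Finset.Icc 1 K)]
  · refine Finset.sum_congr rfl fun k hk => ?_
    rw [Finset.mem_Icc] at hk
    rw [if_pos ⟨hk.1, by exact_mod_cast hk.2⟩]
  · intro k hk
    rw [if_neg]
    rintro ⟨h1, h2⟩
    exact hk (Finset.mem_Icc.2 ⟨h1, by exact_mod_cast h2⟩)

lemma QI_mono (p σ : ℝ) (a : ℕ → ℝ) (N : ℕ) {K K' : ℕ∞} (h : K ≤ K') : QI p σ a N K ≤ QI p σ a N K' := by
  unfold QI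
  refine ENNReal.tsum_le_tsum fun k => ?_
  split_ifs with h1 h2 h2
  · exact le_rfl
  · exact absurd ⟨h1.1, h1.2.trans h⟩ h2
  · exact zero_le
  · exact le_rfl

lemma QI_top_le {p σ : ℝ} {a : ℕ → ℝ} {N : ℕ} {B : ℝ} (hB : ∀ K : ℕ, Qf p σ a N K ≤ B) (K : ℕ∞) :
    QI p σ a N K ≤ ENNReal.ofReal B := by
  refine (QI_mono p σ a N le_top).trans ?_
  unfold QI
  refine ENNReal.tsum_le_of_sum_range_le fun n => ?_
  have h1 : ∑ k ∈ Finset.range n, (if 1 ≤ k ∧ (k : ℕ∞) ≤ ⊤ then ENNReal.ofReal (|Er a N k| ^ p / (k : ℝ) ^ (p * σ + 1)) else 0)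
      ≤ QI p σ a N (n : ℕ∞) := by
    unfold QI
    refine le_trans (Finset.sum_le_sum fun k hk => ?_) (ENNReal.sum_le_tsum (Finset.range n))
    rw [Finset.mem_range] at hk
    split_ifs with h2 h3 h3
    · exact le_rfl
    · exact absurd ⟨h2.1, by exact_mod_cast hk.le⟩ h3
    · exact zero_le
    · exact le_rfl
  refine h1.trans ?_
  rw [QI_coe]
  exact ENNReal.ofReal_le_ofReal (hB n)

lemma RI_le {p σ : ℝ} {a : ℕ → ℝ} {N : ℕ} {B : ℝ} (hB : ∀ K : ℕ, Qf p σ a N K ≤ B) (K : ℕ∞) :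
    RI p σ N K ≤ ENNReal.ofReal B := (iInf_le _ a).trans (QI_top_le hB K)

lemma UI_le {σ : ℝ} {a : ℕ → ℝ} {N : ℕ} {B : ℝ} (hB : ∀ k : ℕ, 1 ≤ k → |Er a N k| / (k:ℝ) ^ σ ≤ B) (K : ℕ∞) :
    UI σ N K ≤ ENNReal.ofReal B := by
  refine (iInf_le _ a).trans ?_
  unfold SI
  refine iSup_le fun k => ?_
  split_ifs with h
  · exact ENNReal.ofReal_le_ofReal (hB k h.1)
  · exact zero_le

lemma Th_free {s : ℂ} (hs : Th < s.re) : Zs s ≠ 0 := by
  intro h
  have hs0 : 1 / 2 < s.re := half_le_Th.trans_lt hs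
  by_cases h1 : s = 1
  · rw [h1] at h
    exact Zs_ne_zero_of_one_le (by simp) h
  · have h2 := Zs_eq h1
    rw [h] at h2
    have h3 := (mul_eq_zero.1 h2).resolve_left (sub_ne_zero.2 h1)
    exact absurd (re_le_Th h3) (not_le.2 hs)

/-- the trivial upper bound, coefficients zero -/
lemma RI_trivial {p σ : ℝ} (hp : 1 ≤ p) (hσ : 0 < σ) : ∃ Z : ℝ, 0 < Z ∧ ∀ (N : ℕ) (K : ℕ∞), RI p σ N K ≤ ENNReal.ofReal Z := by
  have hsum : Summable fun k : ℕ => (k:ℝ) ^ (-(p * σ + 1)) := by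
    rw [Real.summable_nat_rpow]; nlinarith
  refine ⟨∑' k : ℕ, (k:ℝ) ^ (-(p * σ + 1)) + 1, by
    have : 0 ≤ ∑' k : ℕ, (k:ℝ) ^ (-(p * σ + 1)) := tsum_nonneg fun k => by positivity
    linarith, fun N K => ?_⟩
  refine RI_le (a := fun _ => 0) (fun K' => ?_) K
  unfold Qf
  have h1 : ∀ k ∈ Finset.Icc 1 K', |Er (fun _ => 0) N k| ^ p / (k : ℝ) ^ (p * σ + 1) = (k:ℝ) ^ (-(p * σ + 1)) := by
    intro k _
    unfold Er
    simp only [zero_mul, Finset.sum_const_zero, sub_zero, abs_one, Real.one_rpow]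
    rw [Real.rpow_neg (Nat.cast_nonneg k), one_div]
  rw [Finset.sum_congr rfl h1]
  have := hsum.sum_le_tsum (Finset.Icc 1 K') fun k _ => by positivity
  linarith

lemma UI_trivial {σ : ℝ} (hσ : 0 < σ) (N : ℕ) (K : ℕ∞) : UI σ N K ≤ ENNReal.ofReal 1 := by
  refine UI_le (a := fun _ => 0) (fun k hk => ?_) K
  unfold Er
  simp only [zero_mul, Finset.sum_const_zero, sub_zero, abs_one]
  rw [div_le_one (by positivity)]
  exact Real.one_le_rpow (by exact_mod_cast hk) hσ.le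

/-- the upper bound for `Θ < σ ≤ 1`, pointwise -/
lemma pw_Th {σ ε : ℝ} (h1 : Th < σ) (h2 : σ ≤ 1) (hε : 0 < ε) :
    ∃ C δ : ℝ, 0 < C ∧ 0 < δ ∧ ∀ N k : ℕ, 1 ≤ N → 1 ≤ k →
      |Er (aN N) N k| ≤ C * (N:ℝ) ^ (-(σ - Th) + ε) * (k:ℝ) ^ (σ - δ) := by
  set e : ℝ := min ε (σ - Th) / 4 with he
  have he0 : 0 < e := by
    have : 0 < min ε (σ - Th) := lt_min hε (by linarith)
    positivity
  have he1 : 4 * e ≤ ε := by rw [he]; linarith [min_le_left ε (σ - Th)]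
  have he2 : 4 * e ≤ σ - Th := by rw [he]; linarith [min_le_right ε (σ - Th)]
  have hhalf := half_le_Th
  obtain ⟨C, hC, h⟩ := pw (θ := Th) (θ' := Th + e) (σ := σ - e) (ε := e / 4) hhalf (fun s hs => Th_free hs)
    (by linarith) (by linarith) (by linarith) (by linarith) (by linarith)
  refine ⟨C, e / 2, hC, by linarith, fun N k hN hk => ?_⟩
  have hN1 : (1:ℝ) ≤ N := by exact_mod_cast hN
  have hk1 : (1:ℝ) ≤ k := by exact_mod_cast hk
  refine (h N k hN hk).trans ?_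
  have g1 : (N:ℝ) ^ (-(σ - e - (Th + e))) ≤ (N:ℝ) ^ (-(σ - Th) + ε) :=
    Real.rpow_le_rpow_of_exponent_le hN1 (by linarith)
  have g2 : (k:ℝ) ^ (σ - e + 2 * (e / 4)) ≤ (k:ℝ) ^ (σ - e / 2) :=
    Real.rpow_le_rpow_of_exponent_le hk1 (by linarith)
  gcongr

lemma RI_upper {p σ ε : ℝ} (hp : 1 ≤ p) (hσ : 0 < σ) (hε : 0 < ε) :
    ∃ D : ℝ, 0 < D ∧ ∀ (N : ℕ) (K : ℕ∞), 1 ≤ N →
      RI p σ N K ≤ ENNReal.ofReal (D * (N:ℝ) ^ (-(p * max (σ - Th) 0) + ε)) := by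
  have hhalf := half_le_Th
  have hTh1 := Th_le_one
  have hp0 : 0 < p := by linarith
  rcases le_or_gt σ Th with h | h
  · -- trivial
    obtain ⟨Z, hZ, hZ2⟩ := RI_trivial hp hσ
    refine ⟨Z, hZ, fun N K hN => (hZ2 N K).trans (ENNReal.ofReal_le_ofReal ?_)⟩
    rw [max_eq_right (by linarith), mul_zero, neg_zero, zero_add]
    exact le_mul_of_one_le_right hZ.le (Real.one_le_rpow (by exact_mod_cast hN) hε.le)
  · rw [max_eq_left (by linarith)]
    rcases le_or_gt σ 1 with h1 | h1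
    · obtain ⟨C, δ, hC, hδ, hb⟩ := pw_Th h h1 (show 0 < ε / p by positivity)
      have hsum : Summable fun k : ℕ => (k:ℝ) ^ (-(p * δ + 1)) := by
        rw [Real.summable_nat_rpow]; nlinarith
      set S : ℝ := ∑' k : ℕ, (k:ℝ) ^ (-(p * δ + 1)) with hS
      have hS0 : 0 ≤ S := tsum_nonneg fun k => by positivity
      refine ⟨C ^ p * S + 1, by positivity, fun N K hN => ?_⟩
      have hN0 : (0:ℝ) < N := by exact_mod_cast hN
      refine RI_le (a := aN N) (fun K' => ?_) K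
      unfold Qf
      have h2 : ∀ k ∈ Finset.Icc 1 K', |Er (aN N) N k| ^ p / (k : ℝ) ^ (p * σ + 1) ≤
          C ^ p * (N:ℝ) ^ (-(p * (σ - Th)) + ε) * (k:ℝ) ^ (-(p * δ + 1)) := by
        intro k hk
        rw [Finset.mem_Icc] at hk
        have hk0 : (0:ℝ) < k := by exact_mod_cast hk.1
        have h3 := Real.rpow_le_rpow (abs_nonneg _) (hb N k hN hk.1) hp0.le
        rw [Real.mul_rpow (by positivity) (by positivity), Real.mul_rpow hC.le (by positivity),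
          ← Real.rpow_mul hN0.le, ← Real.rpow_mul hk0.le] at h3
        have e1 : (-(σ - Th) + ε / p) * p = -(p * (σ - Th)) + ε := by field_simp
        rw [e1] at h3
        rw [div_le_iff₀ (by positivity)]
        refine h3.trans (le_of_eq ?_)
        rw [mul_assoc _ ((k:ℝ) ^ (-(p * δ + 1))), ← Real.rpow_add hk0]
        congr 2
        ring
      refine (Finset.sum_le_sum h2).trans ?_
      rw [← Finset.mul_sum]
      have h4 := hsum.sum_le_tsum (Finset.Icc 1 K') fun k _ => by positivity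
      have h5 : 0 < (N:ℝ) ^ (-(p * (σ - Th)) + ε) := by positivity
      calc C ^ p * (N:ℝ) ^ (-(p * (σ - Th)) + ε) * ∑ k ∈ Finset.Icc 1 K', (k:ℝ) ^ (-(p * δ + 1))
          ≤ C ^ p * (N:ℝ) ^ (-(p * (σ - Th)) + ε) * S := by gcongr
        _ ≤ _ := by nlinarith
    · -- sigma > 1
      have hM : ∃ C θ : ℝ, 0 ≤ θ ∧ θ ≤ 1 ∧ θ ≤ Th + ε / (2 * p) ∧ ∀ y : ℝ, 1 ≤ y → |Mx y| ≤ C * y ^ θ := by
        rcases lt_or_ge Th 1 with h2 | h2
        · obtain ⟨C, _, hC⟩ := mertens_bound (θ := Th) (σ := min 1 (Th + ε / (2 * p))) (by linarith)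
            (fun s hs => Th_free hs) (lt_min h2 (by
              have : 0 < ε / (2 * p) := by positivity
              linarith)) ((min_le_left _ _).trans (by norm_num))
          refine ⟨C, min 1 (Th + ε / (2 * p)), le_min zero_le_one ?_, min_le_left _ _, min_le_right _ _, hC⟩
          have : 0 < ε / (2 * p) := by positivity
          linarith
        · refine ⟨1, 1, zero_le_one, le_rfl, ?_, fun y hy => ?_⟩
          · have : 0 < ε / (2 * p) := by positivity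
            linarith
          · rw [Real.rpow_one, one_mul]
            exact abs_Mx_le (by linarith)
      obtain ⟨C, θ, hθ0, hθ1, hθ2, hMb⟩ := hM
      set e : ℝ := min (ε / 4) (p * (σ - 1) / 2) with he
      have he0 : 0 < e := lt_min (by positivity) (by
        have : 0 < σ - 1 := by linarith
        positivity)
      obtain ⟨D, hD, hQ⟩ := Q_upper_inf hθ1 hθ0 hp he0 (by
        have := min_le_right (ε / 4) (p * (σ - 1) / 2)
        rw [← he] at this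
        linarith : 2 * e ≤ p * (σ - 1)) hMb
      refine ⟨D, hD, fun N K hN => RI_le (a := mu) (fun K' => (hQ N K' hN).trans ?_) K⟩
      have hN1 : (1:ℝ) ≤ N := by exact_mod_cast hN
      have h3 : 2 * e ≤ ε / 2 := by
        have := min_le_left (ε / 4) (p * (σ - 1) / 2)
        rw [← he] at this
        linarith
      have h4 : p * θ ≤ p * Th + ε / 2 := by
        calc p * θ ≤ p * (Th + ε / (2 * p)) := by gcongr
          _ = p * Th + ε / 2 := by field_simp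
      have h5 : (N:ℝ) ^ (-(p * (σ - θ)) + 2 * e) ≤ (N:ℝ) ^ (-(p * (σ - Th)) + ε) :=
        Real.rpow_le_rpow_of_exponent_le hN1 (by linarith)
      gcongr

end

end Pool.Agent.N964.NB
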