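import Pool.Agent.N964.G1

/-! Lower bounds and the limits. -/

set_option autoImplicit false

open MeasureTheory Filter Topology Set ENNReal

namespace Pool.Agent.N964.NB

noncomputable section

open Pool.Agent.H295R2

lemma UI_upper {σ ε : ℝ} (hσ : 0 < σ) (hε : 0 < ε) :
    ∃ D : ℝ, 0 < D ∧ ∀ (N : ℕ) (K : ℕ∞), 1 ≤ N →
      UI σ N K ≤ ENNReal.ofReal (D * (N:ℝ) ^ (-(max (σ - Th) 0) + ε)) := by
  have hhalf := half_le_Th
  have hTh1 := Th_le_one
  rcases le_or_gt σ Th with h | h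
  · refine ⟨1, one_pos, fun N K hN => (UI_trivial hσ N K).trans (ENNReal.ofReal_le_ofReal ?_)⟩
    rw [max_eq_right (by linarith), neg_zero, zero_add, one_mul]
    exact Real.one_le_rpow (by exact_mod_cast hN) hε.le
  · rw [max_eq_left (by linarith)]
    rcases le_or_gt σ 1 with h1 | h1
    · obtain ⟨C, δ, hC, hδ, hb⟩ := pw_Th h h1 hε
      refine ⟨C, hC, fun N K hN => UI_le (a := aN N) (fun k hk => ?_) K⟩
      have hk0 : (0:ℝ) < k := by exact_mod_cast hk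
      have hk1 : (1:ℝ) ≤ k := by exact_mod_cast hk
      rw [div_le_iff₀ (by positivity)]
      refine (hb N k hN hk).trans ?_
      have : (k:ℝ) ^ (σ - δ) ≤ (k:ℝ) ^ σ := Real.rpow_le_rpow_of_exponent_le hk1 (by linarith)
      gcongr
    · have hM : ∃ C θ : ℝ, 0 ≤ C ∧ 0 ≤ θ ∧ θ ≤ 1 ∧ θ ≤ Th + ε / 2 ∧ ∀ y : ℝ, 1 ≤ y → |Mx y| ≤ C * y ^ θ := by
        rcases lt_or_ge Th 1 with h2 | h2
        · obtain ⟨C, hC0, hC⟩ := mertens_bound (θ := Th) (σ := min 1 (Th + ε / 2)) (by linarith)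
            (fun s hs => Th_free hs) (lt_min h2 (by linarith)) ((min_le_left _ _).trans (by norm_num))
          refine ⟨C, min 1 (Th + ε / 2), hC0.le, le_min zero_le_one ?_, min_le_left _ _, min_le_right _ _, hC⟩
          linarith
        · refine ⟨1, 1, zero_le_one, zero_le_one, le_rfl, ?_, fun y hy => ?_⟩
          · linarith
          · rw [Real.rpow_one, one_mul]
            exact abs_Mx_le (by linarith)
      obtain ⟨C, θ, hC0, hθ0, hθ1, hθ2, hMb⟩ := hM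
      set e : ℝ := min (ε / 2) (σ - 1) with he
      have he0 : 0 < e := lt_min (by positivity) (by linarith)
      have he1 : e ≤ ε / 2 := min_le_left _ _
      have he2 : e ≤ σ - 1 := min_le_right _ _
      refine ⟨2 * C * (1 + 1 / e) + 1, by positivity, fun N K hN => UI_le (a := mu) (fun k hk => ?_) K⟩
      have hN0 : (0:ℝ) < N := by exact_mod_cast hN
      have hN1 : (1:ℝ) ≤ N := by exact_mod_cast hN
      have hk0 : (0:ℝ) < k := by exact_mod_cast hk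
      have hk1 : (1:ℝ) ≤ k := by exact_mod_cast hk
      rcases le_or_gt k N with h3 | h3
      · rw [Er_mu_small N hk h3, abs_zero, zero_div]
        positivity
      · have h4 := Er_mu_bound hθ1 hθ0 hMb hN h3.le
        have hNk : (N:ℝ) ≤ k := by exact_mod_cast h3.le
        rw [div_le_iff₀ (by positivity)]
        refine h4.trans ?_
        have h5 : Real.log k ≤ (k:ℝ) ^ e / e := Real.log_le_rpow_div hk0.le he0
        have h6 : (1:ℝ) ≤ (k:ℝ) ^ e := Real.one_le_rpow hk1 he0.le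
        have h7 : 1 + Real.log k ≤ (1 + 1 / e) * (k:ℝ) ^ e := by
          have : (k:ℝ) ^ e / e = (1 / e) * (k:ℝ) ^ e := by field_simp
          rw [this] at h5
          nlinarith
        have h8 : (k:ℝ) * (k:ℝ) ^ e = (k:ℝ) ^ (1 - σ + e) * (k:ℝ) ^ σ := by
          rw [← Real.rpow_add hk0]
          nth_rewrite 1 [← Real.rpow_one (k:ℝ)]
          rw [← Real.rpow_add hk0]
          congr 1; ring
        have h9 : (k:ℝ) ^ (1 - σ + e) ≤ (N:ℝ) ^ (1 - σ + e) :=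
          Real.rpow_le_rpow_of_nonpos hN0 hNk (by linarith)
        have h10 : (N:ℝ) ^ (θ - 1) * (N:ℝ) ^ (1 - σ + e) ≤ (N:ℝ) ^ (-(σ - Th) + ε) := by
          rw [← Real.rpow_add hN0]
          exact Real.rpow_le_rpow_of_exponent_le hN1 (by linarith)
        have hl : 0 ≤ Real.log k := Real.log_nonneg hk1
        calc 2 * C * ((N:ℝ) ^ (θ - 1) * (k * (1 + Real.log k)))
            ≤ 2 * C * ((N:ℝ) ^ (θ - 1) * (k * ((1 + 1 / e) * (k:ℝ) ^ e))) := by gcongr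
          _ = 2 * C * (1 + 1 / e) * ((N:ℝ) ^ (θ - 1) * (k * (k:ℝ) ^ e)) := by ring
          _ = 2 * C * (1 + 1 / e) * ((N:ℝ) ^ (θ - 1) * ((k:ℝ) ^ (1 - σ + e) * (k:ℝ) ^ σ)) := by rw [h8]
          _ ≤ 2 * C * (1 + 1 / e) * ((N:ℝ) ^ (θ - 1) * ((N:ℝ) ^ (1 - σ + e) * (k:ℝ) ^ σ)) := by gcongr
          _ = 2 * C * (1 + 1 / e) * (((N:ℝ) ^ (θ - 1) * (N:ℝ) ^ (1 - σ + e)) * (k:ℝ) ^ σ) := by ring
          _ ≤ 2 * C * (1 + 1 / e) * ((N:ℝ) ^ (-(σ - Th) + ε) * (k:ℝ) ^ σ) := by gcongr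
          _ ≤ (2 * C * (1 + 1 / e) + 1) * (N:ℝ) ^ (-(σ - Th) + ε) * (k:ℝ) ^ σ := by
            have : 0 < (N:ℝ) ^ (-(σ - Th) + ε) * (k:ℝ) ^ σ := by positivity
            nlinarith

/-- the number of equations needed -/
def Kmin (N : ℕ) : ℕ := ⌈(N:ℝ) * Real.log N ^ 3⌉₊

lemma Kmin_le (N : ℕ) : (N:ℝ) * Real.log N ^ 3 ≤ (Kmin N : ℝ) := Nat.le_ceil _

lemma Qf_lower {p σ ε : ℝ} (hp : 1 ≤ p) (hσ : 0 < σ) (hε : 0 < ε) :
    ∀ᶠ N : ℕ in atTop, ∀ a : ℕ → ℝ, (N:ℝ) ^ (-(p * max (σ - Th) 0) - ε) ≤ Qf p σ a N (Kmin N) := by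
  have hp0 : 0 < p := by linarith
  obtain ⟨ρ, hρ, hρ2⟩ := exists_of_lt (c := Th - min (ε / (2 * p)) (1 / 4)) (by
    have : 0 < min (ε / (2 * p)) (1 / 4) := lt_min (by positivity) (by norm_num)
    linarith)
  have h1 := half_le_Th
  have h2 := min_le_left (ε / (2 * p)) (1 / 4)
  have h3 := min_le_right (ε / (2 * p)) (1 / 4)
  have hρ0 : 0 < ρ.re := by linarith
  have h4 : p * max (σ - ρ.re) 0 + ε / 2 ≤ p * max (σ - Th) 0 + ε := by
    have h5 : max (σ - ρ.re) 0 ≤ max (σ - Th) 0 + ε / (2 * p) := by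
      refine max_le ?_ ?_
      · have := le_max_left (σ - Th) 0
        linarith
      · have := le_max_right (σ - Th) 0
        have : 0 < ε / (2 * p) := by positivity
        linarith
    calc p * max (σ - ρ.re) 0 + ε / 2 ≤ p * (max (σ - Th) 0 + ε / (2 * p)) + ε / 2 := by gcongr
      _ = p * max (σ - Th) 0 + ε := by field_simp; ring
  filter_upwards [low2 hρ hρ0 hp hσ (ε := ε / 2) (by positivity), eventually_ge_atTop 1] with N h6 h7 a
  refine le_trans ?_ (h6 (Kmin N) (Kmin_le N) a)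
  exact Real.rpow_le_rpow_of_exponent_le (by exact_mod_cast h7) (by linarith)

lemma RI_lower {p σ ε : ℝ} (hp : 1 ≤ p) (hσ : 0 < σ) (hε : 0 < ε) :
    ∀ᶠ N : ℕ in atTop, ∀ K : ℕ∞, (Kmin N : ℕ∞) ≤ K →
      ENNReal.ofReal ((N:ℝ) ^ (-(p * max (σ - Th) 0) - ε)) ≤ RI p σ N K := by
  filter_upwards [Qf_lower hp hσ hε] with N h K hK
  refine le_iInf fun a => ?_
  refine le_trans ?_ (QI_mono p σ a N hK)
  rw [QI_coe]
  exact ENNReal.ofReal_le_ofReal (h a)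

/-- lower bound for the uniform error, in elementary form -/
lemma sup_lower {σ ε : ℝ} (hσ : 0 < σ) (hε : 0 < ε) :
    ∀ᶠ N : ℕ in atTop, ∀ (a : ℕ → ℝ) (S : ℝ), (∀ k : ℕ, 1 ≤ k → k ≤ Kmin N → |Er a N k| ≤ S * (k:ℝ) ^ σ) →
      (N:ℝ) ^ (-(max (σ - Th) 0) - ε) ≤ S := by
  set δ : ℝ := ε / 4 with hδ
  have hδ0 : 0 < δ := by positivity
  have hsum : Summable fun k : ℕ => (k:ℝ) ^ (-(1 + δ)) := by
    rw [Real.summable_nat_rpow]; linarith
  set Z : ℝ := ∑' k : ℕ, (k:ℝ) ^ (-(1 + δ)) with hZ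
  have hZ0 : 0 ≤ Z := tsum_nonneg fun k => by positivity
  have t1 : ∀ᶠ N : ℕ in atTop, Z + 1 ≤ (N:ℝ) ^ (ε / 4) := by
    have := (tendsto_rpow_atTop (show 0 < ε / 4 by positivity)).comp tendsto_natCast_atTop_atTop
    exact this.eventually_ge_atTop (Z + 1)
  filter_upwards [Qf_lower (p := 1) (σ := σ + δ) (ε := δ) le_rfl (by positivity) hδ0, t1, eventually_ge_atTop 1] with N h1 h2 h3 a S hS
  have hN0 : (0:ℝ) < N := by exact_mod_cast h3
  have hN1 : (1:ℝ) ≤ N := by exact_mod_cast h3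
  have h4 := h1 a
  have h5 : Qf 1 (σ + δ) a N (Kmin N) ≤ S * Z := by
    unfold Qf
    have h6 : ∀ k ∈ Finset.Icc 1 (Kmin N), |Er a N k| ^ (1:ℝ) / (k : ℝ) ^ (1 * (σ + δ) + 1) ≤ S * (k:ℝ) ^ (-(1 + δ)) := by
      intro k hk
      rw [Finset.mem_Icc] at hk
      have hk0 : (0:ℝ) < k := by exact_mod_cast hk.1
      rw [Real.rpow_one, div_le_iff₀ (by positivity)]
      refine (hS k hk.1 hk.2).trans (le_of_eq ?_)
      rw [mul_assoc, ← Real.rpow_add hk0]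
      congr 2; ring
    refine (Finset.sum_le_sum h6).trans ?_
    rw [← Finset.mul_sum]
    by_cases hK : 1 ≤ Kmin N
    · have hS0 : 0 ≤ S := by
        have := (abs_nonneg _).trans (hS 1 le_rfl hK)
        simpa using this
      have := hsum.sum_le_tsum (Finset.Icc 1 (Kmin N)) fun k _ => by positivity
      gcongr
    · exfalso
      have h7 : Kmin N = 0 := by omega
      rw [h7] at h4
      have : Qf 1 (σ + δ) a N 0 = 0 := by simp [Qf]
      rw [this] at h4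
      have : 0 < (N:ℝ) ^ (-(1 * max (σ + δ - Th) 0) - δ) := by positivity
      linarith
  have h8 : max (σ + δ - Th) 0 ≤ max (σ - Th) 0 + δ := by
    refine max_le ?_ ?_
    · have := le_max_left (σ - Th) 0
      linarith
    · have := le_max_right (σ - Th) 0
      linarith
  have h9 : (N:ℝ) ^ (-(max (σ - Th) 0) - 2 * δ) ≤ S * Z := by
    refine le_trans ?_ (h4.trans h5)
    exact Real.rpow_le_rpow_of_exponent_le hN1 (by linarith)
  have h10 : (N:ℝ) ^ (-(max (σ - Th) 0) - 2 * δ) = (N:ℝ) ^ (-(max (σ - Th) 0) - ε) * (N:ℝ) ^ (ε / 4) * (N:ℝ) ^ (ε / 4) := by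
    rw [← Real.rpow_add hN0, ← Real.rpow_add hN0]
    congr 1
    rw [hδ]; ring
  have h11 : 0 < (N:ℝ) ^ (-(max (σ - Th) 0) - ε) := by positivity
  have h12 : 1 ≤ (N:ℝ) ^ (ε / 4) := Real.one_le_rpow hN1 (by positivity)
  rw [h10] at h9
  by_contra hcon
  push Not at hcon
  have h13 : S * Z ≤ (N:ℝ) ^ (-(max (σ - Th) 0) - ε) * Z := mul_le_mul_of_nonneg_right hcon.le hZ0
  have h14 : (N:ℝ) ^ (-(max (σ - Th) 0) - ε) * Z < (N:ℝ) ^ (-(max (σ - Th) 0) - ε) * (N:ℝ) ^ (ε / 4) := by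
    apply mul_lt_mul_of_pos_left _ h11
    linarith
  have h15 : (N:ℝ) ^ (-(max (σ - Th) 0) - ε) * (N:ℝ) ^ (ε / 4) ≤ (N:ℝ) ^ (-(max (σ - Th) 0) - ε) * (N:ℝ) ^ (ε / 4) * (N:ℝ) ^ (ε / 4) :=
    le_mul_of_one_le_right (by positivity) h12
  linarith

lemma UI_lower {σ ε : ℝ} (hσ : 0 < σ) (hε : 0 < ε) :
    ∀ᶠ N : ℕ in atTop, ∀ K : ℕ∞, (Kmin N : ℕ∞) ≤ K →
      ENNReal.ofReal ((N:ℝ) ^ (-(max (σ - Th) 0) - ε)) ≤ UI σ N K := by
  filter_upwards [sup_lower hσ hε] with N h K hK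
  refine le_iInf fun a => ?_
  rcases eq_or_ne (SI σ a N K) ⊤ with h1 | h1
  · rw [h1]; exact le_top
  · rw [← ENNReal.ofReal_toReal h1]
    refine ENNReal.ofReal_le_ofReal (h a _ fun k hk hkK => ?_)
    have hk0 : (0:ℝ) < k := by exact_mod_cast hk
    have h2 : ENNReal.ofReal (|Er a N k| / (k : ℝ) ^ σ) ≤ SI σ a N K := by
      unfold SI
      refine le_trans ?_ (le_iSup _ k)
      rw [if_pos ⟨hk, le_trans (by exact_mod_cast hkK) hK⟩]
    have h3 := (ENNReal.ofReal_le_iff_le_toReal h1).1 h2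
    rw [div_le_iff₀ (by positivity)] at h3
    exact h3

lemma lim_of_bounds {R : ℕ → ℝ≥0∞} {L : ℝ}
    (h1 : ∀ ε : ℝ, 0 < ε → ∀ᶠ N : ℕ in atTop, ENNReal.ofReal ((N:ℝ) ^ (-L - ε)) ≤ R N)
    (h2 : ∀ ε : ℝ, 0 < ε → ∃ D : ℝ, 0 < D ∧ ∀ N : ℕ, 1 ≤ N → R N ≤ ENNReal.ofReal (D * (N:ℝ) ^ (-L + ε))) :
    Tendsto (fun N : ℕ => Real.log (R N).toReal / Real.log N) atTop (𝓝 (-L)) := by
  rw [Metric.tendsto_atTop']
  intro ε hε
  obtain ⟨D, hD, h3⟩ := h2 (ε / 4) (by positivity)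
  have t1 : Tendsto (fun N : ℕ => Real.log N) atTop atTop := Real.tendsto_log_atTop.comp tendsto_natCast_atTop_atTop
  have t2 : ∀ᶠ N : ℕ in atTop, 4 * |Real.log D| / ε ≤ Real.log N := t1.eventually_ge_atTop _
  have key : ∀ᶠ N : ℕ in atTop, dist (Real.log (R N).toReal / Real.log N) (-L) < ε := by
    filter_upwards [h1 (ε / 2) (by positivity), t2, t1.eventually_gt_atTop 0, eventually_ge_atTop 1] with N g1 g2 g3 g4
    have hN0 : (0:ℝ) < N := by exact_mod_cast g4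
    have g5 := h3 N g4
    have hfin : R N ≠ ⊤ := ne_top_of_le_ne_top ENNReal.ofReal_ne_top g5
    have g6 : (N:ℝ) ^ (-L - ε / 2) ≤ (R N).toReal := (ENNReal.ofReal_le_iff_le_toReal hfin).1 g1
    have g7 : (R N).toReal ≤ D * (N:ℝ) ^ (-L + ε / 4) := ENNReal.toReal_le_of_le_ofReal (by positivity) g5
    have g8 : 0 < (R N).toReal := lt_of_lt_of_le (by positivity) g6
    have g9 : (-L - ε / 2) * Real.log N ≤ Real.log (R N).toReal := by
      rw [← Real.log_rpow hN0]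
      exact Real.log_le_log (by positivity) g6
    have g10 : Real.log (R N).toReal ≤ Real.log D + (-L + ε / 4) * Real.log N := by
      rw [← Real.log_rpow hN0, ← Real.log_mul hD.ne' (by positivity)]
      exact Real.log_le_log g8 g7
    have g11 : Real.log D ≤ ε / 4 * Real.log N := by
      rw [div_le_iff₀ hε] at g2
      have := le_abs_self (Real.log D)
      linarith
    rw [Real.dist_eq, abs_lt]
    constructor
    · rw [lt_sub_iff_add_lt, lt_div_iff₀ g3]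
      nlinarith
    · rw [sub_lt_iff_lt_add, div_lt_iff₀ g3]
      nlinarith
  obtain ⟨n, hn⟩ := eventually_atTop.1 key
  exact ⟨n, fun N hN => hn N hN.le⟩

/-- **The exponent, `1 ≤ p < ∞`.** -/
theorem limit_p {p σ : ℝ} (hp : 1 ≤ p) (hσ : 0 < σ) {K : ℕ → ℕ∞} (hK : ∀ᶠ N : ℕ in atTop, (Kmin N : ℕ∞) ≤ K N) :
    Tendsto (fun N : ℕ => Real.log (RI p σ N (K N)).toReal / Real.log N) atTop (𝓝 (-(p * max (σ - Th) 0))) := by
  refine lim_of_bounds (fun ε hε => ?_) (fun ε hε => ?_)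
  · filter_upwards [RI_lower hp hσ hε, hK] with N h1 h2
    exact h1 _ h2
  · obtain ⟨D, hD, h⟩ := RI_upper hp hσ hε
    exact ⟨D, hD, fun N hN => h N (K N) hN⟩

/-- **The exponent, `p = ∞`.** -/
theorem limit_sup {σ : ℝ} (hσ : 0 < σ) {K : ℕ → ℕ∞} (hK : ∀ᶠ N : ℕ in atTop, (Kmin N : ℕ∞) ≤ K N) :
    Tendsto (fun N : ℕ => Real.log (UI σ N (K N)).toReal / Real.log N) atTop (𝓝 (-(max (σ - Th) 0))) := by
  refine lim_of_bounds (fun ε hε => ?_) (fun ε hε => ?_)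
  · filter_upwards [UI_lower hσ hε, hK] with N h1 h2
    exact h1 _ h2
  · obtain ⟨D, hD, h⟩ := UI_upper hσ hε
    exact ⟨D, hD, fun N hN => h N (K N) hN⟩

end

end Pool.Agent.N964.NB
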