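import Pool.Agent.N964.G2

/-! Criteria. -/

set_option autoImplicit false

open MeasureTheory Filter Topology Set ENNReal

namespace Pool.Agent.N964.NB

noncomputable section

open Pool.Agent.H295R2

lemma Th_le_iff (τ : ℝ) : Th ≤ τ ↔ ∀ s : ℂ, τ < s.re → riemannZeta s ≠ 0 := by
  constructor
  · intro h s hs h0
    exact absurd (re_le_Th h0) (not_le.2 (h.trans_lt hs))
  · intro h
    by_contra hlt
    obtain ⟨ρ, h1, h2⟩ := exists_of_lt (not_le.1 hlt)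
    exact h ρ h2 h1

/-- existence of good coefficients -/
lemma exists_coeff {σ ε : ℝ} (hσ : 0 < σ) (hε : 0 < ε) :
    ∀ᶠ N : ℕ in atTop, ∃ a : ℕ → ℝ, ∀ k : ℕ, 1 ≤ k →
      |Er a N k| ≤ (N:ℝ) ^ (-(max (σ - Th) 0) + ε) * (k:ℝ) ^ σ := by
  obtain ⟨D, hD, h⟩ := UI_upper hσ (show 0 < ε / 2 by positivity)
  have t1 : ∀ᶠ N : ℕ in atTop, 2 * D ≤ (N:ℝ) ^ (ε / 2) := by
    have := (tendsto_rpow_atTop (show 0 < ε / 2 by positivity)).comp tendsto_natCast_atTop_atTop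
    exact this.eventually_ge_atTop (2 * D)
  filter_upwards [t1, eventually_ge_atTop 1] with N h1 h2
  have hN0 : (0:ℝ) < N := by exact_mod_cast h2
  have h3 := h N ⊤ h2
  have h4 : UI σ N ⊤ < ENNReal.ofReal (2 * D * (N:ℝ) ^ (-(max (σ - Th) 0) + ε / 2)) := by
    refine lt_of_le_of_lt h3 ?_
    rw [ENNReal.ofReal_lt_ofReal_iff (by positivity)]
    have : 0 < D * (N:ℝ) ^ (-(max (σ - Th) 0) + ε / 2) := by positivity
    linarith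
  obtain ⟨a, ha⟩ := iInf_lt_iff.1 h4
  refine ⟨a, fun k hk => ?_⟩
  have hk0 : (0:ℝ) < k := by exact_mod_cast hk
  have h5 : ENNReal.ofReal (|Er a N k| / (k : ℝ) ^ σ) ≤ SI σ a N ⊤ := by
    unfold SI
    refine le_trans ?_ (le_iSup _ k)
    rw [if_pos ⟨hk, le_top⟩]
  have h6 := h5.trans ha.le
  rw [ENNReal.ofReal_le_ofReal_iff (by positivity), div_le_iff₀ (by positivity)] at h6
  refine h6.trans ?_
  have h7 : 2 * D * (N:ℝ) ^ (-(max (σ - Th) 0) + ε / 2) ≤ (N:ℝ) ^ (-(max (σ - Th) 0) + ε) := by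
    calc 2 * D * (N:ℝ) ^ (-(max (σ - Th) 0) + ε / 2) ≤ (N:ℝ) ^ (ε / 2) * (N:ℝ) ^ (-(max (σ - Th) 0) + ε / 2) := by gcongr
      _ = _ := by rw [← Real.rpow_add hN0]; congr 1; ring
  gcongr

theorem halfplane_iff {σ τ : ℝ} (hσ : 0 < σ) (hτ : τ < σ) {K : ℕ → ℕ∞} (hK : ∀ᶠ N : ℕ in atTop, (Kmin N : ℕ∞) ≤ K N) :
    (∀ s : ℂ, τ < s.re → riemannZeta s ≠ 0) ↔
      ∀ ε : ℝ, 0 < ε → ∃ᶠ N : ℕ in atTop, ∃ a : ℕ → ℝ, ∀ k : ℕ, 1 ≤ k → (k : ℕ∞) ≤ K N →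
        |Er a N k| ≤ (N:ℝ) ^ (-(σ - τ) + ε) * (k:ℝ) ^ σ := by
  rw [← Th_le_iff]
  constructor
  · intro h ε hε
    refine Eventually.frequently ?_
    filter_upwards [exists_coeff hσ hε, eventually_ge_atTop 1] with N ⟨a, ha⟩ h2
    refine ⟨a, fun k hk _ => (ha k hk).trans ?_⟩
    have hN1 : (1:ℝ) ≤ N := by exact_mod_cast h2
    have : (N:ℝ) ^ (-(max (σ - Th) 0) + ε) ≤ (N:ℝ) ^ (-(σ - τ) + ε) := by
      refine Real.rpow_le_rpow_of_exponent_le hN1 ?_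
      have := le_max_left (σ - Th) 0
      linarith
    gcongr
  · intro h
    by_contra hlt
    push Not at hlt
    have hmax : max (σ - Th) 0 < σ - τ := max_lt (by linarith) (by linarith)
    set ε : ℝ := (σ - τ - max (σ - Th) 0) / 3 with hε
    have hε0 : 0 < ε := by rw [hε]; linarith
    obtain ⟨N, ⟨a, ha⟩, h1, h2, h3⟩ := ((h ε hε0).and_eventually ((sup_lower hσ hε0).and (hK.and (eventually_gt_atTop 1)))).exists
    have hN1 : (1:ℝ) < N := by exact_mod_cast h3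
    have h4 := h1 a ((N:ℝ) ^ (-(σ - τ) + ε)) (fun k hk hkK => ha k hk (le_trans (by exact_mod_cast hkK) h2))
    have h5 : (N:ℝ) ^ (-(σ - τ) + ε) < (N:ℝ) ^ (-(max (σ - Th) 0) - ε) := by
      refine Real.rpow_lt_rpow_of_exponent_lt hN1 ?_
      rw [hε]
      linarith
    linarith

theorem some_halfplane_iff {σ : ℝ} (hσ : 0 < σ) {K : ℕ → ℕ∞} (hK : ∀ᶠ N : ℕ in atTop, (Kmin N : ℕ∞) ≤ K N) :
    (∃ τ : ℝ, τ < σ ∧ ∀ s : ℂ, τ < s.re → riemannZeta s ≠ 0) ↔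
      ∃ δ : ℝ, 0 < δ ∧ ∃ᶠ N : ℕ in atTop, ∃ a : ℕ → ℝ, ∀ k : ℕ, 1 ≤ k → (k : ℕ∞) ≤ K N →
        |Er a N k| ≤ (N:ℝ) ^ (-δ) * (k:ℝ) ^ σ := by
  constructor
  · rintro ⟨τ, h1, h2⟩
    have h3 := (halfplane_iff hσ h1 hK).1 h2 ((σ - τ) / 2) (by linarith)
    refine ⟨(σ - τ) / 2, by linarith, ?_⟩
    have e : -(σ - τ) + (σ - τ) / 2 = -((σ - τ) / 2) := by ring
    rw [e] at h3
    exact h3
  · rintro ⟨δ, hδ, h⟩
    refine ⟨Th, ?_, (Th_le_iff Th).1 le_rfl⟩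
    by_contra hlt
    push Not at hlt
    obtain ⟨N, ⟨a, ha⟩, h1, h2, h3⟩ := (h.and_eventually ((sup_lower hσ (show 0 < δ / 2 by positivity)).and
      (hK.and (eventually_gt_atTop 1)))).exists
    have hN1 : (1:ℝ) < N := by exact_mod_cast h3
    have h4 := h1 a ((N:ℝ) ^ (-δ)) (fun k hk hkK => ha k hk (le_trans (by exact_mod_cast hkK) h2))
    rw [max_eq_right (by linarith)] at h4
    have h5 : (N:ℝ) ^ (-δ) < (N:ℝ) ^ (-0 - δ / 2) := by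
      refine Real.rpow_lt_rpow_of_exponent_lt hN1 ?_
      linarith
    linarith

theorem rh_iff {K : ℕ → ℕ∞} (hK : ∀ᶠ N : ℕ in atTop, (Kmin N : ℕ∞) ≤ K N) :
    RiemannHypothesis ↔ ∀ ε : ℝ, 0 < ε → ∃ᶠ N : ℕ in atTop, ∃ a : ℕ → ℝ, ∀ k : ℕ, 1 ≤ k → (k : ℕ∞) ≤ K N →
        |Er a N k| ≤ (N:ℝ) ^ (-(1 / 2) + ε) * k := by
  rw [rh_free]
  have h := halfplane_iff (σ := 1) (τ := 1 / 2) one_pos (by norm_num) hK
  rw [h]
  norm_num

end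

end Pool.Agent.N964.NB
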