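import Pool.Agent.N964.G3

/-! The final form. -/

set_option autoImplicit false

open MeasureTheory Filter Topology Set ENNReal

namespace Pool.Agent.N964.NB

noncomputable section

open Pool.Agent.H295R2

theorem two_sided_p {p σ ε : ℝ} (hp : 1 ≤ p) (hσ : 0 < σ) (hε : 0 < ε) :
    ∀ᶠ N : ℕ in atTop, ∀ K : ℕ∞, (Kmin N : ℕ∞) ≤ K →
      ENNReal.ofReal ((N:ℝ) ^ (-(p * max (σ - Th) 0) - ε)) ≤ RI p σ N K ∧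
      RI p σ N K ≤ ENNReal.ofReal ((N:ℝ) ^ (-(p * max (σ - Th) 0) + ε)) := by
  obtain ⟨D, hD, h⟩ := RI_upper hp hσ (show 0 < ε / 2 by positivity)
  have t1 : ∀ᶠ N : ℕ in atTop, D ≤ (N:ℝ) ^ (ε / 2) := by
    have := (tendsto_rpow_atTop (show 0 < ε / 2 by positivity)).comp tendsto_natCast_atTop_atTop
    exact this.eventually_ge_atTop D
  filter_upwards [RI_lower hp hσ hε, t1, eventually_ge_atTop 1] with N h1 h2 h3 K hK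
  have hN0 : (0:ℝ) < N := by exact_mod_cast h3
  refine ⟨h1 K hK, (h N K h3).trans (ENNReal.ofReal_le_ofReal ?_)⟩
  calc D * (N:ℝ) ^ (-(p * max (σ - Th) 0) + ε / 2) ≤ (N:ℝ) ^ (ε / 2) * (N:ℝ) ^ (-(p * max (σ - Th) 0) + ε / 2) := by gcongr
    _ = _ := by rw [← Real.rpow_add hN0]; congr 1; ring

theorem two_sided_sup {σ ε : ℝ} (hσ : 0 < σ) (hε : 0 < ε) :
    ∀ᶠ N : ℕ in atTop, ∀ K : ℕ∞, (Kmin N : ℕ∞) ≤ K →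
      ENNReal.ofReal ((N:ℝ) ^ (-(max (σ - Th) 0) - ε)) ≤ UI σ N K ∧
      UI σ N K ≤ ENNReal.ofReal ((N:ℝ) ^ (-(max (σ - Th) 0) + ε)) := by
  obtain ⟨D, hD, h⟩ := UI_upper hσ (show 0 < ε / 2 by positivity)
  have t1 : ∀ᶠ N : ℕ in atTop, D ≤ (N:ℝ) ^ (ε / 2) := by
    have := (tendsto_rpow_atTop (show 0 < ε / 2 by positivity)).comp tendsto_natCast_atTop_atTop
    exact this.eventually_ge_atTop D
  filter_upwards [UI_lower hσ hε, t1, eventually_ge_atTop 1] with N h1 h2 h3 K hK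
  have hN0 : (0:ℝ) < N := by exact_mod_cast h3
  refine ⟨h1 K hK, (h N K h3).trans (ENNReal.ofReal_le_ofReal ?_)⟩
  calc D * (N:ℝ) ^ (-(max (σ - Th) 0) + ε / 2) ≤ (N:ℝ) ^ (ε / 2) * (N:ℝ) ^ (-(max (σ - Th) 0) + ε / 2) := by gcongr
    _ = _ := by rw [← Real.rpow_add hN0]; congr 1; ring

/-- zero-free to the right of `τ` -/
theorem all_of_free {σ τ ε : ℝ} (hσ : 0 < σ) (h : ∀ s : ℂ, τ < s.re → riemannZeta s ≠ 0) (hε : 0 < ε) :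
    ∀ᶠ N : ℕ in atTop, ∃ a : ℕ → ℝ, ∀ k : ℕ, 1 ≤ k → |Er a N k| ≤ (N:ℝ) ^ (-(σ - τ) + ε) * (k:ℝ) ^ σ := by
  have hTh := (Th_le_iff τ).2 h
  filter_upwards [exists_coeff hσ hε, eventually_ge_atTop 1] with N ⟨a, ha⟩ h2
  refine ⟨a, fun k hk => (ha k hk).trans ?_⟩
  have hN1 : (1:ℝ) ≤ N := by exact_mod_cast h2
  have : (N:ℝ) ^ (-(max (σ - Th) 0) + ε) ≤ (N:ℝ) ^ (-(σ - τ) + ε) := by
    refine Real.rpow_le_rpow_of_exponent_le hN1 ?_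
    have := le_max_left (σ - Th) 0
    linarith
  gcongr

theorem free_of_freq {σ τ : ℝ} (hσ : 0 < σ) (hτ : τ < σ)
    (h : ∀ ε : ℝ, 0 < ε → ∃ᶠ N : ℕ in atTop, ∃ a : ℕ → ℝ, ∀ k : ℕ, 1 ≤ k → k ≤ Kmin N →
        |Er a N k| ≤ (N:ℝ) ^ (-(σ - τ) + ε) * (k:ℝ) ^ σ) : ∀ s : ℂ, τ < s.re → riemannZeta s ≠ 0 := by
  refine (halfplane_iff hσ hτ (K := fun N => (Kmin N : ℕ∞)) (Eventually.of_forall fun N => le_rfl)).2 ?_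
  intro ε hε
  refine (h ε hε).mono ?_
  rintro N ⟨a, ha⟩
  exact ⟨a, fun k hk hkK => ha k hk (by exact_mod_cast hkK)⟩

theorem main :
    (∀ p σ ε : ℝ, 1 ≤ p → 0 < σ → 0 < ε → ∀ᶠ N : ℕ in atTop, ∀ K : ℕ∞, (Kmin N : ℕ∞) ≤ K →
      ENNReal.ofReal ((N:ℝ) ^ (-(p * max (σ - Th) 0) - ε)) ≤ RI p σ N K ∧
      RI p σ N K ≤ ENNReal.ofReal ((N:ℝ) ^ (-(p * max (σ - Th) 0) + ε))) ∧
    (∀ σ ε : ℝ, 0 < σ → 0 < ε → ∀ᶠ N : ℕ in atTop, ∀ K : ℕ∞, (Kmin N : ℕ∞) ≤ K →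
      ENNReal.ofReal ((N:ℝ) ^ (-(max (σ - Th) 0) - ε)) ≤ UI σ N K ∧
      UI σ N K ≤ ENNReal.ofReal ((N:ℝ) ^ (-(max (σ - Th) 0) + ε))) ∧
    (∀ σ τ : ℝ, 0 < σ → τ < σ →
      ((∀ s : ℂ, τ < s.re → riemannZeta s ≠ 0) →
        ∀ ε : ℝ, 0 < ε → ∀ᶠ N : ℕ in atTop, ∃ a : ℕ → ℝ, ∀ k : ℕ, 1 ≤ k →
          |Er a N k| ≤ (N:ℝ) ^ (-(σ - τ) + ε) * (k:ℝ) ^ σ) ∧
      ((∀ ε : ℝ, 0 < ε → ∃ᶠ N : ℕ in atTop, ∃ a : ℕ → ℝ, ∀ k : ℕ, 1 ≤ k → k ≤ Kmin N →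
          |Er a N k| ≤ (N:ℝ) ^ (-(σ - τ) + ε) * (k:ℝ) ^ σ) →
        ∀ s : ℂ, τ < s.re → riemannZeta s ≠ 0)) ∧
    ((∃ σ₀ : ℝ, 1 / 2 < σ₀ ∧ σ₀ < 1 ∧ ∀ s : ℂ, σ₀ ≤ s.re → riemannZeta s ≠ 0) ↔
      ∃ δ : ℝ, 0 < δ ∧ ∃ᶠ N : ℕ in atTop, ∃ a : ℕ → ℝ, ∀ k : ℕ, 1 ≤ k → k ≤ Kmin N →
        |Er a N k| ≤ (N:ℝ) ^ (-δ) * k) ∧
    (RiemannHypothesis ↔
      ∀ ε : ℝ, 0 < ε → ∃ᶠ N : ℕ in atTop, ∃ a : ℕ → ℝ, ∀ k : ℕ, 1 ≤ k → k ≤ Kmin N →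
        |Er a N k| ≤ (N:ℝ) ^ (-(1 / 2) + ε) * k) := by
  refine ⟨fun p σ ε hp hσ hε => two_sided_p hp hσ hε, fun σ ε hσ hε => two_sided_sup hσ hε, ?_, ?_, ?_⟩
  · intro σ τ hσ hτ
    exact ⟨fun h ε hε => all_of_free hσ h hε, fun h => free_of_freq hσ hτ h⟩
  · have h := some_halfplane_iff (σ := 1) one_pos (K := fun N => (Kmin N : ℕ∞)) (Eventually.of_forall fun N => le_rfl)
    constructor
    · rintro ⟨σ₀, h1, h2, h3⟩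
      obtain ⟨δ, hδ, h4⟩ := h.1 ⟨σ₀, h2, fun s hs => h3 s hs.le⟩
      refine ⟨δ, hδ, h4.mono ?_⟩
      rintro N ⟨a, ha⟩
      refine ⟨a, fun k hk hkK => ?_⟩
      have := ha k hk (by exact_mod_cast hkK)
      rwa [Real.rpow_one] at this
    · rintro ⟨δ, hδ, h4⟩
      obtain ⟨τ, h1, h2⟩ := h.2 ⟨δ, hδ, h4.mono (by
        rintro N ⟨a, ha⟩
        refine ⟨a, fun k hk hkK => ?_⟩
        rw [Real.rpow_one]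
        exact ha k hk (by exact_mod_cast hkK))⟩
      refine ⟨(max τ (1 / 2) + 1) / 2, ?_, ?_, fun s hs => h2 s ?_⟩
      · have := le_max_right τ (1 / 2)
        linarith
      · have : max τ (1 / 2) < 1 := max_lt h1 (by norm_num)
        linarith
      · have h3 := le_max_left τ (1 / 2)
        have : max τ (1 / 2) < 1 := max_lt h1 (by norm_num)
        linarith
  · have h := rh_iff (K := fun N => (Kmin N : ℕ∞)) (Eventually.of_forall fun N => le_rfl)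
    rw [h]
    simp only [Nat.cast_le]

end

end Pool.Agent.N964.NB
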